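import Pool.Agent.H940_ver.Find2

/-!
# The adaptive recovery
-/

namespace Pool.Agent.H940_dft

open Finset

variable {E : Env} {s s' : St} {p : Par}

/-- Loop rule with exit at any time; `T q` bounds the time of iteration `q`. -/
theorem Tr.loopD {a b : Expr} {c : Cmd} (N : ℕ) (T : ℕ → ℕ) (I : ℕ → St → Prop) {Q : St → Prop}
    (ha : a.fits = true) (hb : b.fits = true)
    (hstep : ∀ q s', q < N → Same c s s' → I q s' → a.eval s' < b.eval s' →
      Tr E c s' (T q) (I (q + 1)))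
    (hexit : ∀ q s', q ≤ N → Same c s s' → I q s' → ¬ a.eval s' < b.eval s' → Q s')
    (hend : ∀ s', Same c s s' → I N s' → ¬ a.eval s' < b.eval s')
    (h0 : I 0 s) : Tr E (.loop a b c) s ((∑ q ∈ range N, (T q + 130)) + 130) Q := by
  have hsa := fits_size ha
  have hsb := fits_size hb
  have key : ∀ m q s', q + m = N → Same c s s' → Bd E s' → I q s' →
      ∃ s'' t, Exec E.w E.O (.loop a b c) s' s'' t ∧ t ≤ (∑ i ∈ Ico q N, (T i + 130)) + 130 ∧
        Bd E s'' ∧ Q s'' := by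
    intro m
    induction m with
    | zero =>
      intro q s' hq hsm hbd hI
      have : q = N := by omega
      subst this
      exact ⟨s', _, .loopFalse (ok_of_fits hbd ha) (ok_of_fits hbd hb) (hend _ hsm hI),
        by omega, hbd, hexit _ _ le_rfl hsm hI (hend _ hsm hI)⟩
    | succ m ih =>
      intro q s' hq hsm hbd hI
      by_cases hlt : a.eval s' < b.eval s'
      · obtain ⟨s1, t, he, ht, hbd1, hI'⟩ := hstep q s' (by omega) hsm hI hlt hbd
        obtain ⟨s2, t', he', ht', hbd2, hI''⟩ := ih (q + 1) s1 (by omega)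
          (hsm.trans he.same) hbd1 hI'
        refine ⟨s2, _, .loopTrue (ok_of_fits hbd ha) (ok_of_fits hbd hb) hlt he he', ?_, hbd2,
          hI''⟩
        rw [Finset.sum_eq_sum_Ico_succ_bot (by omega : q < N)]
        omega
      · exact ⟨s', _, .loopFalse (ok_of_fits hbd ha) (ok_of_fits hbd hb) hlt,
          by omega, hbd, hexit _ _ (by omega) hsm hI hlt⟩
  intro hbd
  have := key N 0 s (by omega) (Same.refl _ _) hbd h0
  rwa [Finset.range_eq_Ico]

/-- Tame polynomials: the classes are visible at shifts with small denominators. -/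
theorem TameN.vis {f : ℤ →₀ ℂ} (ha : Adm p f) {σ : ℕ} (ht : TameN p.k σ f) {j : ℕ}
    (hj0 : p.j0 ≤ j) (hjP : j ≤ p.P) {C : ℤ} (hocc : Occ f p.P (2 ^ (p.P - j)) C) :
    ∃ m, 1 ≤ m ∧ m ≤ σ * (p.P * p.P) ∧ ∃ a : ℕ, a < m ∧
      1 / 2 ^ p.B ≤ ‖csum f p.P (2 ^ (p.P - j)) C (shf p.P (2 ^ (p.P - j)) a m)‖ := by
  obtain ⟨ω₀, hω₀, hC⟩ := hocc
  have hP := p.P_ge
  have hkj : p.k ≤ 2 ^ j := p.k_le.trans (Nat.pow_le_pow_right (by norm_num) hj0)
  have hcl : f.support.filter (fun ω => (ω * 2 ^ (p.P - j)) % 2 ^ p.P = C) =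
      f.support.filter (fun ω => (2 ^ j : ℤ) ∣ ω - ω₀) := by
    apply Finset.filter_congr
    intro ω _
    rw [← hC]
    exact class_iff hjP ω ω₀
  -- it suffices to find a good modulus
  have key : ∃ m : ℕ, 1 ≤ m ∧ m ≤ σ * (p.P * p.P) ∧ ∃ ρ : ℤ, (2 ^ j : ℤ) ∣ ρ - ω₀ ∧
      ∑ ω ∈ f.support.filter (fun ω => ((m : ℤ) * 2 ^ j) ∣ ω - ρ), f ω ≠ 0 := by
    rcases ht j hkj ω₀ hω₀ with hcard | ⟨m, h1, h2, h3⟩
    · set S := f.support.filter (fun ω => (2 ^ j : ℤ) ∣ ω - ω₀) with hS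
      have h0 : ω₀ ∈ S := by rw [hS, mem_filter]; exact ⟨hω₀, by simp⟩
      have hs1 : 1 ≤ S.card := Finset.card_pos.2 ⟨ω₀, h0⟩
      have hN1 : 2 * p.N + 1 < 2 ^ p.P := by
        have := p.lt_P
        have := p.hN
        omega
      obtain ⟨m, h1, h2, h3⟩ := exists_modulus (N := p.N) (s := S.card) (n := p.P * S.card) S
        (fun ω hω => ha.freq ω (mem_filter.1 hω).1) le_rfl (by
          rw [pow_mul]
          exact Nat.pow_lt_pow_left hN1 (by omega)) ω₀ h0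
      refine ⟨m, h1, ?_, ω₀, by simp, ?_⟩
      · have h4 : p.P * S.card ≤ p.P * σ := Nat.mul_le_mul_left _ hcard
        calc m ≤ 2 * (p.P * S.card) := h2
          _ ≤ p.P * (p.P * σ) := Nat.mul_le_mul (by omega) h4
          _ = σ * (p.P * p.P) := by ring
      · have h5 : f.support.filter (fun ω => ((m : ℤ) * 2 ^ j) ∣ ω - ω₀) = {ω₀} := by
          ext ω
          rw [mem_filter, mem_singleton]
          constructor
          · rintro ⟨h6, h7⟩
            have h8 : ω ∈ S.filter (fun ω => (m : ℤ) ∣ ω - ω₀) := by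
              rw [mem_filter, hS, mem_filter]
              exact ⟨⟨h6, (dvd_mul_left _ _).trans h7⟩, (dvd_mul_right _ _).trans h7⟩
            rw [h3, mem_singleton] at h8
            exact h8
          · rintro rfl
            exact ⟨hω₀, by simp⟩
        rw [h5, sum_singleton]
        exact Finsupp.mem_support_iff.1 hω₀
    · refine ⟨m, h1, ?_, h3⟩
      exact h2.trans (Nat.le_mul_of_pos_right _ (by positivity))
  obtain ⟨m, h1, h2, ρ, h3, h4⟩ := key
  refine ⟨m, h1, h2, ?_⟩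
  have e : (f.support.filter (fun ω => (2 ^ j : ℤ) ∣ ω - ω₀)).filter
      (fun ω => ((m * 2 ^ j : ℕ) : ℤ) ∣ ω - ρ) =
      f.support.filter (fun ω => ((m : ℤ) * 2 ^ j) ∣ ω - ρ) := by
    ext ω
    simp only [mem_filter]
    push_cast
    constructor
    · rintro ⟨⟨h5, _⟩, h6⟩; exact ⟨h5, h6⟩
    · rintro ⟨h5, h6⟩
      refine ⟨⟨h5, ?_⟩, h6⟩
      have h7 := dvd_add ((dvd_mul_left _ _).trans h6) h3
      rwa [show ω - ρ + (ρ - ω₀) = ω - ω₀ by ring] at h7
  obtain ⟨a, ha1, ha2⟩ := visible_of_sum' (B := p.B) (m := m) (M := 2 ^ j) (by omega)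
    (by positivity) (f.support.filter (fun ω => (2 ^ j : ℤ) ∣ ω - ω₀)) f
    (fun ω hω => ha.grid ω (mem_filter.1 hω).1) ρ (fun ω hω => by
      have h5 := dvd_sub (mem_filter.1 hω).2 h3
      push_cast
      rwa [show ω - ω₀ - (ρ - ω₀) = ω - ρ by ring] at h5) (by rw [e]; exact h4)
  refine ⟨a, ha1, ?_⟩
  unfold csum
  rw [hcl]
  have e2 : shf p.P (2 ^ (p.P - j)) a m = a / (m * ((2 ^ j : ℕ) : ℝ)) := by
    unfold shf
    have h5 : (2 : ℝ) ^ p.P = 2 ^ j * 2 ^ (p.P - j) := by rw [← pow_add]; congr 1; omega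
    have h6 : (m : ℝ) ≠ 0 := by positivity
    rw [h5]
    push_cast
    field_simp
  rw [e2]
  exact ha2

theorem TameN.visL {f : ℤ →₀ ℂ} (ha : Adm p f) {σ : ℕ} (ht : TameN p.k σ f) {Λ T : ℕ}
    {a m u : ℕ → ℕ} (hL : Lst p s 0 Λ T a m u) (hΛ : σ * (p.P * p.P) ≤ Λ) :
    VisL p f T a m u := by
  intro j hj0 hj C hocc
  obtain ⟨m0, h1, h2, a0, h3, h4⟩ := ht.vis ha hj0 hj hocc
  obtain ⟨t, ht1, e1, e2⟩ := hL.cov m0 a0 h1 (h2.trans hΛ) h3
  refine ⟨t, ht1, ?_⟩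
  have hy : ysh p a m u (2 ^ (p.P - j)) t = shf p.P (2 ^ (p.P - j)) a0 m0 := by
    unfold ysh nsh shf
    rw [hL.u_eq t ht1, if_neg (by omega), e1, e2]
    push_cast
    rfl
  rw [hy]
  refine le_trans ?_ h4
  apply div_le_div_of_nonneg_right _ (by positivity)
  norm_num

theorem tameN_self {f : ℤ →₀ ℂ} {k : ℕ} (h : f.support.card = k) : TameN k k f := by
  intro i _ ω₀ _
  left
  rw [← h]
  exact card_filter_le _ _

theorem Par.clev2_monoT (p : Par) {n T T' : ℕ} (h : T ≤ T') : p.clev2 n T ≤ p.clev2 n T' := by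
  unfold Par.clev2 Par.crnd2
  exact Nat.add_le_add_left (Nat.add_le_add_right (Nat.mul_le_mul_left _
    (Nat.add_le_add_right (Nat.add_le_add_left (Nat.add_le_add_left
      (Nat.add_le_add_right (Nat.add_le_add_right (Nat.mul_le_mul_right _ h) _) _) _) _) _)) _) _

theorem Par.cfind_mono (p : Par) {T T' : ℕ} (h : T ≤ T') : p.cfind T ≤ p.cfind T' := by
  have h1 := p.clev2_monoT (n := 2 ^ (p.j0 + 1)) h
  unfold Par.cfind
  exact Nat.add_le_add_left (Nat.add_le_add h1 (Nat.add_le_add_right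
    (Nat.add_le_add_right (Nat.mul_le_mul_left _ (Nat.add_le_add_right
      (Nat.add_le_add_left h1 _) _)) _) _)) _

/-- Cost of the iteration with bound `2 ^ q`. -/
def Par.cit (p : Par) (q : ℕ) : ℕ :=
  (2 ^ q * (2 ^ q * 700 + 700) + 400) + (p.cfind (2 ^ q * 2 ^ q) + (p.cver + 65))

/-- Cost of the adaptive recovery, for the parameter `σ`. -/
def Par.cadapt (p : Par) (σ : ℕ) : ℕ :=
  65 + ((∑ q ∈ range (Nat.clog 2 (σ * (p.P * p.P)) + 1), (p.cit q + 130)) + 130)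

theorem clog_facts (p : Par) {σ : ℕ} (h1 : 1 ≤ σ) :
    σ * (p.P * p.P) ≤ 2 ^ Nat.clog 2 (σ * (p.P * p.P)) ∧
      2 ^ Nat.clog 2 (σ * (p.P * p.P)) ≤ 2 * (σ * (p.P * p.P)) := by
  have hP := p.P_ge
  have h2 : 1 < σ * (p.P * p.P) := by
    calc 1 < 14 * 14 := by norm_num
      _ ≤ p.P * p.P := Nat.mul_le_mul hP hP
      _ ≤ σ * (p.P * p.P) := Nat.le_mul_of_pos_left _ h1
  refine ⟨Nat.le_pow_clog (by norm_num) _, ?_⟩
  have h3 := Nat.pow_pred_clog_lt_self (b := 2) (by norm_num) h2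
  have h4 : 0 < Nat.clog 2 (σ * (p.P * p.P)) := Nat.clog_pos (by norm_num) h2
  obtain ⟨c, hc⟩ : ∃ c, Nat.clog 2 (σ * (p.P * p.P)) = c + 1 :=
    ⟨Nat.clog 2 (σ * (p.P * p.P)) - 1, by omega⟩
  rw [hc] at h3 ⊢
  rw [Nat.pred_succ] at h3
  rw [pow_succ]
  omega

theorem sigma_bound (p : Par) {σ : ℕ} (h2 : σ ≤ p.k) :
    2 * (σ * (p.P * p.P)) ≤ 2 ^ (4 * p.l) := by
  have h3 : p.k ≤ 2 ^ p.P := by
    have h1 := p.lt_P
    have h4 := p.hkN
    omega
  have hPl := p.P_le_l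
  have hl := p.l_ge
  have h4 : p.P ≤ 2 ^ p.P := Par.n_le_pow _
  calc 2 * (σ * (p.P * p.P)) ≤ 2 ^ 1 * (2 ^ p.P * (2 ^ p.P * 2 ^ p.P)) :=
        Nat.mul_le_mul (by norm_num) (Nat.mul_le_mul (h2.trans h3) (Nat.mul_le_mul h4 h4))
    _ = 2 ^ (1 + 3 * p.P) := by rw [← pow_add, ← pow_add, ← pow_add]; congr 1; ring
    _ ≤ 2 ^ (4 * p.l) := Nat.pow_le_pow_right (by norm_num) (by omega)

theorem tr_adapt {f : ℤ →₀ ℂ} (hE : EnvOK p E) (hg : GX p E s) (hO : OracleOK E f)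
    (ha : Adm p f) (hc : p.c = 5) {σ : ℕ} (h1 : 1 ≤ σ) (h2 : σ ≤ p.k) (ht : TameN p.k σ f)
    (h85 : s.reg 85 = 0 ∨ (s.reg 85 = 1 ∧ Good f p.B s)) :
    Tr E adapt s (p.cadapt σ) (Good f p.B) := by
  have hX := E.hX
  have hl := p.l_ge
  obtain ⟨hlo, hhi⟩ := clog_facts p h1
  have hsb := sigma_bound p h2
  obtain ⟨Q, hQ⟩ : ∃ Q, Q = Nat.clog 2 (σ * (p.P * p.P)) := ⟨_, rfl⟩
  rw [← hQ] at hlo hhi
  have hpow : ∀ q ≤ Q, 2 ^ q ≤ 2 ^ (5 * p.l) := by
    intro q hq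
    calc 2 ^ q ≤ 2 ^ Q := Nat.pow_le_pow_right (by norm_num) hq
      _ ≤ 2 ^ (4 * p.l) := hhi.trans hsb
      _ ≤ 2 ^ (5 * p.l) := Nat.pow_le_pow_right (by norm_num) (by omega)
  unfold adapt Par.cadapt
  rw [← hQ]
  refine Tr.aseq rfl (by simp; omega) ?_
  refine Tr.loopD (Q + 1) p.cit (fun q s1 => s1.reg 87 = ((2 ^ q : ℕ) : ℤ) ∧
    (s1.reg 85 = 0 ∨ (s1.reg 85 = 1 ∧ Good f p.B s1)) ∧ (q = Q + 1 → s1.reg 85 = 1))
    rfl rfl ?_ ?_ ?_ ?_
  · rintro q s1 hq hs1 ⟨h87, h85', -⟩ hlt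
    have hg1 : GX p E s1 := by
      refine hg.of (c := adapt) (fun r hr => ?_) (fun b hb => ?_) (by decide +kernel)
      · have e : adapt.wr = [87] ++ (seqs [listB 87 (.lit 0), find, verify,
          .asg 87 (.reg 87 + .reg 87)]).wr := rfl
        rw [e, List.mem_append, not_or, List.mem_singleton] at hr
        rw [hs1.1 r hr.2, setR_reg, if_neg hr.1]
      · have e : adapt.wm = [] ++ (seqs [listB 87 (.lit 0), find, verify,
          .asg 87 (.reg 87 + .reg 87)]).wm := rfl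
        rw [e, List.nil_append] at hb
        rw [hs1.2 b hb, setR_mem]
    have e0 : seqs [listB 87 (.lit 0), find, verify, .asg 87 (.reg 87 + .reg 87)] =
      .seq (listB 87 (.lit 0)) (.seq find (.seq verify (.asg 87 (.reg 87 + .reg 87)))) := rfl
    rw [e0]
    unfold Par.cit
    refine Tr.seq (tr_listB (u0 := 0) (Λ := 2 ^ q) hE hg1.toGlob (Or.inr ⟨rfl, rfl, rfl⟩) h87
      Nat.one_le_two_pow (hpow q (by omega))) ?_
    rintro s2 hs2 ⟨T, a, m, u, hL⟩
    have hg2 : GX p E s2 := hg1.same hs2 (by decide)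
    have hTle := p.cfind_mono hL.T_le
    refine Tr.le (tr_attempt hE hg2 hO ha hc hL.toSL hL.T_pos hL.last (T' := 65) ?_)
      (Nat.add_le_add_right hTle _)
    rintro s3 hs3 hg3 hR hV
    have e87 : s3.reg 87 = ((2 ^ q : ℕ) : ℤ) := by
      rw [hs3.1 87 (by decide +kernel), hs2.1 87 (by decide), h87]
    have hval : (Expr.reg 87 + Expr.reg 87).eval s3 = ((2 ^ (q + 1) : ℕ) : ℤ) := by
      simp only [eval_add, eval_reg, e87]
      push_cast
      ring
    refine Tr.asg rfl ?_ ?_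
    · rw [hval]
      apply hE.nat
      calc 2 ^ (q + 1) = 2 ^ q * 2 := pow_succ _ _
        _ ≤ 2 ^ (5 * p.l) * 2 := Nat.mul_le_mul_right _ (hpow q (by omega))
        _ = 2 ^ (5 * p.l + 1) := (pow_succ _ _).symm
        _ ≤ 2 ^ p.x := Nat.pow_le_pow_right (by norm_num)
            (p.le_x (a := 5) (b := 1) (by norm_num) (by norm_num))
    · rw [hval]
      refine ⟨by simp only [setR_reg, reduceIte], ?_, ?_⟩
      · simp only [setR_reg, Nat.reduceEqDiff, reduceIte]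
        rcases hR with ⟨h3, h4⟩ | ⟨h3, -⟩
        · exact Or.inr ⟨h3, h4.keep (by simp [setR_reg]) rfl rfl rfl⟩
        · exact Or.inl h3
      · intro hqQ
        simp only [setR_reg, Nat.reduceEqDiff, reduceIte]
        apply hV
        have hqQ' : q = Q := by omega
        exact ht.visL ha hL (by rw [hqQ']; exact hlo)
  · rintro q s1 - - ⟨-, h85', -⟩ hnlt
    rcases h85' with h3 | ⟨-, h4⟩
    · exfalso
      apply hnlt
      simp only [eval_reg, eval_lit, h3]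
      norm_num
    · exact h4
  · rintro s1 - ⟨-, -, h3⟩
    simp only [eval_reg, eval_lit, h3 rfl]
    norm_num
  · refine ⟨by simp [setR_reg], ?_, fun h => by omega⟩
    rcases h85 with h3 | ⟨h3, h4⟩
    · exact Or.inl (by simpa [setR_reg] using h3)
    · exact Or.inr ⟨by simpa [setR_reg] using h3, h4.keep (by simp [setR_reg]) rfl rfl rfl⟩

end Pool.Agent.H940_dft
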