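import Pool.Agent.H940_ver.Prep

/-!
# The tests
-/

namespace Pool.Agent.H940_dft

open Complex

variable {E : Env} {s s' : St} {p : Par}

/-- The flag is kept and `A` holds, or the flag is cleared and `B` holds. -/
def Flg (v v' : ℤ) (A B : Prop) : Prop := (v' = v ∧ A) ∨ (v' = 0 ∧ B)

/-- Difference between the measured and the expected value. -/
noncomputable def dev (p : Par) (f : ℤ →₀ ℂ) (σ g C : ℤ) (y : ℝ) (W re im : ℤ) : ℂ :=
  2 ^ (p.B + 8) * gsum p f σ g C y - 256 * ((re : ℂ) + (im : ℂ) * I) * ee (W * y)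

theorem norm_ee_sub (x y : ℝ) : ‖ee x - ee y‖ ≤ 8 * |x - y| := by
  have e : ee x - ee y = ee y * (ee (x - y) - 1) := by
    rw [mul_sub, mul_one, ← ee_add]; congr 2; ring
  rw [e, norm_mul, norm_ee, one_mul, norm_ee_sub_one]
  have h1 : |Real.sin (Real.pi * (x - y))| ≤ |Real.pi * (x - y)| := Real.abs_sin_le_abs
  rw [abs_mul, abs_of_pos Real.pi_pos] at h1
  have h2 := Real.pi_le_four
  have h3 := abs_nonneg (x - y)
  nlinarith

/-- The angle computed by the program. -/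
theorem angle_close {T : ℕ} {W : ℤ} {a m : ℕ} (hm : 0 < m) :
    0 ≤ ((W * a) % m) * 2 ^ T / (m : ℤ) ∧ ((W * a) % m) * 2 ^ T / (m : ℤ) < 2 ^ T ∧
      ‖ee (((((W * a) % m) * 2 ^ T / (m : ℤ) : ℤ) : ℝ) / 2 ^ T) - ee (W * ((a : ℝ) / m))‖ ≤
        8 / 2 ^ T := by
  have hm0 : (0 : ℤ) < m := by exact_mod_cast hm
  have hmr : (0 : ℝ) < m := by exact_mod_cast hm
  have h0 := Int.emod_nonneg (W * a) hm0.ne'
  have h1 := Int.emod_lt_of_pos (W * a) hm0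
  have hT : (0 : ℤ) < 2 ^ T := by positivity
  have hTr : (0 : ℝ) < 2 ^ T := by positivity
  set r := (W * a) % m with hr
  set x := r * 2 ^ T / (m : ℤ) with hx
  refine ⟨Int.ediv_nonneg (by positivity) hm0.le, ?_, ?_⟩
  · apply Int.ediv_lt_of_lt_mul hm0
    rw [mul_comm]
    exact mul_lt_mul_of_pos_left h1 hT
  · have h2 : ee (W * ((a : ℝ) / m)) = ee ((r : ℝ) / m) := by
      have h3 := Int.mul_ediv_add_emod (W * a) m
      rw [← hr] at h3
      have h4 : (W : ℝ) * a = m * ((W * a / m : ℤ) : ℝ) + r := by exact_mod_cast h3.symm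
      have h5 : (W : ℝ) * ((a : ℝ) / m) = (r : ℝ) / m + ((W * a / m : ℤ) : ℝ) := by
        rw [mul_div_assoc', h4]
        field_simp
        ring
      rw [h5, ee_add_int]
    rw [h2]
    refine (norm_ee_sub _ _).trans ?_
    have h3 := Int.mul_ediv_add_emod (r * 2 ^ T) m
    rw [← hx] at h3
    have h4 := Int.emod_nonneg (r * 2 ^ T) hm0.ne'
    have h5 := Int.emod_lt_of_pos (r * 2 ^ T) hm0
    have h6 : (m : ℝ) * x + ((r * 2 ^ T % m : ℤ) : ℝ) = r * 2 ^ T := by exact_mod_cast h3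
    have h7 : (0 : ℝ) ≤ ((r * 2 ^ T % m : ℤ) : ℝ) := by exact_mod_cast h4
    have h8 : ((r * 2 ^ T % m : ℤ) : ℝ) ≤ m := by exact_mod_cast h5.le
    have h9 : (x : ℝ) / 2 ^ T - (r : ℝ) / m = -(((r * 2 ^ T % m : ℤ) : ℝ)) / (m * 2 ^ T) := by
      rw [div_sub_div _ _ hTr.ne' hmr.ne']
      rw [div_eq_div_iff (by positivity) (by positivity)]
      have : (x : ℝ) * m - 2 ^ T * r = -(((r * 2 ^ T % m : ℤ) : ℝ)) := by linarith
      rw [this]; ring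
    rw [h9, abs_div, abs_neg, abs_of_nonneg h7, abs_of_pos (by positivity : (0 : ℝ) < m * 2 ^ T)]
    rw [← mul_div_assoc, div_le_div_iff₀ (by positivity) hTr]
    nlinarith

/-- The difference computed by the program. -/
theorem cmp_err {f : ℤ →₀ ℂ} {σ g C : ℤ} {y : ℝ} {W re im v1 v2 r1 r2 : ℤ} {e : ℝ}
    (hv : ValG p f σ g C y v1 v2) (hre : |re| ≤ 2 ^ (3 * p.l)) (him : |im| ≤ 2 ^ (3 * p.l))
    (hr : Ap p.W r1 r2 (ee (W * y)) e) (he : e ≤ 2 ^ (31 * p.l)) :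
    ‖(((v1 - (re * r1 - im * r2) * 256 / 2 ^ p.W : ℤ) : ℂ) +
      ((v2 - (re * r2 + im * r1) * 256 / 2 ^ p.W : ℤ) : ℂ) * I) - dev p f σ g C y W re im‖ ≤ 13 := by
  have hl := p.l_ge
  have hWl : p.W = 40 * p.l := rfl
  have h1 := floor_err ((re * r1 - im * r2) * 256) ((re * r2 + im * r1) * 256) (2 ^ p.W)
    (by positivity)
  have hWc : (2 : ℂ) ^ p.W ≠ 0 := pow_ne_zero _ two_ne_zero
  set z : ℂ := (re : ℂ) + (im : ℂ) * I with hz
  set r : ℂ := (r1 : ℂ) + (r2 : ℂ) * I with hrd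
  have e1 : ((((re * r1 - im * r2) * 256 : ℤ) : ℂ) + (((re * r2 + im * r1) * 256 : ℤ) : ℂ) * I) =
      256 * z * r := by
    rw [hz, hrd]; push_cast
    linear_combination (-(256 * im * r2 : ℂ)) * I_sq
  rw [e1] at h1
  have hzn : ‖z‖ ≤ 2 * 2 ^ (3 * p.l) := by
    apply gauss_norm_le
    · exact_mod_cast hre
    · exact_mod_cast him
  have h2 : ‖256 * z * r / 2 ^ p.W - 256 * z * ee (W * y)‖ ≤ 1 := by
    have e2 : 256 * z * r / 2 ^ p.W - 256 * z * ee (W * y) =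
        256 * z * (r - 2 ^ p.W * ee (W * y)) / 2 ^ p.W := by
      field_simp
    rw [e2, norm_div, norm_mul, norm_mul, norm_pow, Complex.norm_ofNat, Complex.norm_ofNat]
    rw [div_le_one (by positivity)]
    have h3 : ‖r - 2 ^ p.W * ee (W * y)‖ ≤ 2 ^ (31 * p.l) := hr.trans he
    calc 256 * ‖z‖ * ‖r - 2 ^ p.W * ee (W * y)‖ ≤ 256 * (2 * 2 ^ (3 * p.l)) * 2 ^ (31 * p.l) := by
          apply mul_le_mul _ h3 (norm_nonneg _) (by positivity)
          exact mul_le_mul_of_nonneg_left hzn (by norm_num)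
      _ = 2 ^ (34 * p.l + 9) := by
          have : (2 : ℝ) ^ (34 * p.l + 9) = 2 ^ (3 * p.l) * 2 ^ (31 * p.l) * 512 := by
            rw [show 34 * p.l + 9 = 3 * p.l + 31 * p.l + 9 by ring, pow_add, pow_add]; norm_num
          rw [this]; ring
      _ ≤ 2 ^ p.W := two_pow_real_le (by omega)
  have h3 : ‖(v1 : ℂ) + (v2 : ℂ) * I - 2 ^ (p.B + 8) * gsum p f σ g C y‖ ≤ 10 := hv
  have e3 : (((v1 - (re * r1 - im * r2) * 256 / 2 ^ p.W : ℤ) : ℂ) +
      ((v2 - (re * r2 + im * r1) * 256 / 2 ^ p.W : ℤ) : ℂ) * I) - dev p f σ g C y W re im =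
      ((v1 : ℂ) + (v2 : ℂ) * I - 2 ^ (p.B + 8) * gsum p f σ g C y) -
      ((((((re * r1 - im * r2) * 256 / 2 ^ p.W : ℤ) : ℂ) +
        (((re * r2 + im * r1) * 256 / 2 ^ p.W : ℤ) : ℂ) * I) - 256 * z * r / ((2 ^ p.W : ℤ) : ℂ)) +
        (256 * z * r / 2 ^ p.W - 256 * z * ee (W * y))) := by
    unfold dev
    push_cast
    ring
  rw [e3]
  refine (norm_sub_le _ _).trans ?_
  have h4 := (norm_add_le ((((((re * r1 - im * r2) * 256 / 2 ^ p.W : ℤ) : ℂ) +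
        (((re * r2 + im * r1) * 256 / 2 ^ p.W : ℤ) : ℂ) * I) - 256 * z * r / ((2 ^ p.W : ℤ) : ℂ)))
        (256 * z * r / 2 ^ p.W - 256 * z * ee (W * y)))
  linarith

theorem flag_of {D1 D2 : ℤ} {d : ℂ} (h : ‖((D1 : ℂ) + (D2 : ℂ) * I) - d‖ ≤ 13) :
    (1024 < D1 * D1 + D2 * D2 → 19 < ‖d‖) ∧ (¬ 1024 < D1 * D1 + D2 * D2 → ‖d‖ ≤ 45) := by
  have hsq := gauss_sq D1 D2
  constructor
  · intro h1
    by_contra hcon
    push Not at hcon
    have h2 : ‖(D1 : ℂ) + (D2 : ℂ) * I‖ ≤ 32 := by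
      have e : (D1 : ℂ) + (D2 : ℂ) * I = (((D1 : ℂ) + (D2 : ℂ) * I) - d) + d := by ring
      rw [e]
      refine (norm_add_le _ _).trans ?_
      linarith
    have h3 : ‖(D1 : ℂ) + (D2 : ℂ) * I‖ ^ 2 ≤ 32 ^ 2 := pow_le_pow_left₀ (norm_nonneg _) h2 2
    rw [hsq] at h3
    have h4 : ((D1 * D1 + D2 * D2 : ℤ) : ℝ) ≤ ((1024 : ℤ) : ℝ) := by push_cast at h3 ⊢; linarith
    have h5 : D1 * D1 + D2 * D2 ≤ 1024 := by exact_mod_cast h4
    omega
  · intro h1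
    have h2 : ‖(D1 : ℂ) + (D2 : ℂ) * I‖ ≤ 32 := by
      have h3 : ‖(D1 : ℂ) + (D2 : ℂ) * I‖ ^ 2 ≤ 32 ^ 2 := by
        rw [hsq]
        have : ((D1 * D1 + D2 * D2 : ℤ) : ℝ) ≤ ((1024 : ℤ) : ℝ) := by exact_mod_cast not_lt.1 h1
        push_cast at this ⊢
        linarith
      exact le_of_sq_le_sq h3 (by norm_num)
    have e : d = ((D1 : ℂ) + (D2 : ℂ) * I) - (((D1 : ℂ) + (D2 : ℂ) * I) - d) := by ring
    rw [e]
    refine (norm_sub_le _ _).trans ?_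
    linarith

end Pool.Agent.H940_dft
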