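import Pool.Agent.H940_ver.Check

/-!
# The tests: program
-/

namespace Pool.Agent.H940_dft

open Complex

variable {E : Env} {s s' : St} {p : Par}

theorem tr_valV (hE : EnvOK p E) (hg : GX p E s) {f : ℤ →₀ ℂ}
    (hM : ∑ ω ∈ f.support, ‖f ω‖ ≤ 2 ^ p.l) {σ g C W : ℤ} {y : ℝ} {i t a m : ℕ}
    (hT : TrOK p f y σ g s) (h46 : s.reg 46 = i)
    (h70 : s.reg 70 = upos p σ C)
    (hG : Ap p.W (s.reg 73) (s.reg 74) (Ker p.mu (xi p σ C) ^ p.h) p.eG)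
    (h17 : s.mem 17 (i : ℤ) = W) (h54 : s.reg 54 = t) (h21 : s.mem 21 (t : ℤ) = a)
    (h55 : s.reg 55 = m) (hm : 0 < m) :
    Tr E valV s 390 (fun s' => ValG p f σ g C y (s'.reg 76) (s'.reg 77) ∧
      s'.reg 30 = ((W * a) % m) * 2 ^ p.T / (m : ℤ)) := by
  have hX := E.hX
  obtain ⟨u, hu, hult, hk⟩ := upos_mod p σ C
  have hval := valG_of hM hT hult hk hG
  set V1 := s.mem 14 (u * p.H) with hV1
  set V2 := s.mem 15 (u * p.H) with hV2
  obtain ⟨b1, b2⟩ := hval.bdX hE hM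
  have b3 := gain_sq hE hG
  have hT0 : s.mem 0 (p.T : ℤ) = 2 ^ p.T := hg.pw p.T (by unfold Par.T Par.W; omega)
  obtain ⟨c1, c2, -⟩ := angle_close (T := p.T) (W := W) (a := a) hm
  have hTX := hE.pow p.T_le_x
  rw [abs_of_pos (by positivity)] at hTX
  apply Tr.bd
  intro hbd
  refine Tr.le (Tr.wp rfl ?_) (by decide)
  simp only [valV, seqs, Cmd.wp, eval_add, eval_sub, eval_reg, eval_mul,
    eval_ld, eval_div, eval_mod, setR_reg, setR_mem, hg.r19, hg.r17, hg.r11, hg.r89,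
    h46, h70, h17, h54, h21, h55, hT0, reduceIte, Nat.reduceEqDiff, ← hu, ← hV1, ← hV2]
  refine ⟨hbd.2 _ _, hbd.2 _ _, b3, b1, b2, ?_, hval, trivial⟩
  rw [abs_of_nonneg c1]
  omega

theorem tr_cmpV (hE : EnvOK p E) (hg : GX p E s) {f : ℤ →₀ ℂ}
    (hM : ∑ ω ∈ f.support, ‖f ω‖ ≤ 2 ^ p.l) {σ g C W re im : ℤ} {y : ℝ} {i : ℕ}
    (h46 : s.reg 46 = i) (hv : ValG p f σ g C y (s.reg 76) (s.reg 77))
    (h18 : s.mem 18 (i : ℤ) = re) (h19 : s.mem 19 (i : ℤ) = im)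
    (hre : |re| ≤ 2 ^ (3 * p.l)) (him : |im| ≤ 2 ^ (3 * p.l)) {e : ℝ}
    (hr : Ap p.W (s.reg 31) (s.reg 32) (ee (W * y)) e) (he : e ≤ 2 ^ (31 * p.l)) :
    Tr E cmpV s 400 (fun s' => Flg (s.reg 85) (s'.reg 85)
      (‖dev p f σ g C y W re im‖ ≤ 45) (19 < ‖dev p f σ g C y W re im‖)) := by
  have hX := E.hX
  have hl := p.l_ge
  have hWl : p.W = 40 * p.l := rfl
  have hc := cmp_err hv hre him hr he
  obtain ⟨f1, f2⟩ := flag_of hc
  obtain ⟨v1, v2⟩ := hv.bd hM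
  have heW : e ≤ 2 ^ p.W := he.trans (two_pow_real_le (by omega))
  have r1 := hr.unit_re (by rw [norm_ee]) heW
  have r2 := hr.unit_im (by rw [norm_ee]) heW
  have prod : ∀ x z : ℤ, |x| ≤ 2 ^ (3 * p.l) → |z| ≤ 2 ^ (p.W + 1) → |x * z| ≤ 2 ^ (43 * p.l + 1) := by
    intro x z hx hz
    rw [abs_mul]
    calc |x| * |z| ≤ 2 ^ (3 * p.l) * 2 ^ (p.W + 1) := mul_le_mul hx hz (abs_nonneg _) (by positivity)
      _ = 2 ^ (43 * p.l + 1) := by rw [← pow_add]; congr 1; omega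
  have h13 : (2 : ℤ) ^ (43 * p.l + 11) = 2 ^ (43 * p.l + 1) * 1024 := by
    rw [show 43 * p.l + 11 = 43 * p.l + 1 + 10 by ring, pow_add _ (43 * p.l + 1) 10]; norm_num
  have h3l : (2 : ℤ) ^ (3 * p.l) ≤ 2 ^ (43 * p.l + 1) := pow_le_pow_right₀ (by norm_num) (by omega)
  have hp0 : (0 : ℤ) < 2 ^ (43 * p.l + 1) := by positivity
  have bound : ∀ v x : ℤ, |v| ≤ 2 ^ (3 * p.l) → |x| ≤ 2 * 2 ^ (43 * p.l + 1) →
      |v - x * 256 / 2 ^ p.W| ≤ E.X := by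
    intro v x hv hx
    apply hE.lin (a := 43) (b := 11) (by norm_num) (by norm_num)
    refine (abs_sub _ _).trans ?_
    have h1 : |x * 256 / 2 ^ p.W| ≤ |x * 256| := Int.abs_ediv_le_abs _ _
    have h2 : |x * 256| = |x| * 256 := by rw [abs_mul]; norm_num
    rw [h13]
    omega
  have q1 : |re * s.reg 31 - im * s.reg 32| ≤ 2 * 2 ^ (43 * p.l + 1) := by
    refine (abs_sub _ _).trans ?_
    have := prod re _ hre r1
    have := prod im _ him r2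
    omega
  have q2 : |re * s.reg 32 + im * s.reg 31| ≤ 2 * 2 ^ (43 * p.l + 1) := by
    refine (abs_add_le _ _).trans ?_
    have := prod re _ hre r2
    have := prod im _ him r1
    omega
  refine Tr.le (Tr.wp rfl ?_) (by decide)
  simp only [cmpV, seqs, Cmd.wp, eval_add, eval_sub, eval_reg, eval_mul, eval_lit,
    eval_ld, eval_div, setR_reg, setR_mem, hg.r15,
    h46, h18, h19, reduceIte, Nat.reduceEqDiff]
  refine ⟨bound _ _ v1 q1, bound _ _ v2 q2, fun h => ⟨by rw [abs_zero]; omega, ?_⟩, fun h => ?_⟩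
  · exact Or.inr ⟨rfl, f1 (by omega)⟩
  · exact Or.inl ⟨rfl, f2 (by omega)⟩

/-- Cost of one test. -/
def Par.cchk (p : Par) : ℕ := p.cgain + (p.T * 800 + 1200)

theorem tr_checkC (hE : EnvOK p E) (hg : GX p E s) {f : ℤ →₀ ℂ}
    (hM : ∑ ω ∈ f.support, ‖f ω‖ ≤ 2 ^ p.l) {σ g C W re im : ℤ} {i t a m : ℕ}
    (hT : TrOK p f ((a : ℝ) / m) σ g s) (h46 : s.reg 46 = i) (h28 : s.reg 28 = σ)
    (h5 : s.mem 5 (i : ℤ) = C)
    (h17 : s.mem 17 (i : ℤ) = W) (h54 : s.reg 54 = t) (h21 : s.mem 21 (t : ℤ) = a)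
    (h55 : s.reg 55 = m) (hm : 0 < m)
    (h18 : s.mem 18 (i : ℤ) = re) (h19 : s.mem 19 (i : ℤ) = im)
    (hre : |re| ≤ 2 ^ (3 * p.l)) (him : |im| ≤ 2 ^ (3 * p.l)) :
    Tr E checkC s p.cchk (fun s' => Flg (s.reg 85) (s'.reg 85)
      (‖dev p f σ g C ((a : ℝ) / m) W re im‖ ≤ 45)
      (19 < ‖dev p f σ g C ((a : ℝ) / m) W re im‖)) := by
  have hl := p.l_ge
  have e1 : checkC = .seq gain (.seq valV (.seq cexp2 cmpV)) := rfl
  rw [e1]
  refine Tr.le (Tr.seq (T₁ := p.cgain) (T₂ := 390 + ((p.T * 800 + 400) + 400))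
    (tr_gain (σ := σ) (C := C) (i := i) hE hg.toGlob h28 h46 h5) ?_)
    (by unfold Par.cchk; omega)
  rintro s1 hs1 ⟨f70, fG⟩
  have hg1 : GX p E s1 := hg.same hs1 (by decide)
  have k : ∀ b, s1.mem b = s.mem b := by
    intro b
    have : gain.wm = [] := by decide
    exact hs1.2 b (by rw [this]; simp)
  refine Tr.seq (T₁ := 390) (tr_valV (f := f) (σ := σ) (g := g) (C := C) (W := W)
    (y := (a : ℝ) / m) (i := i) (t := t) (a := a) (m := m) hE hg1 hM ?_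
    (by rw [hs1.1 46 (by decide), h46]) f70 fG (by rw [k, h17]) (by rw [hs1.1 54 (by decide), h54])
    (by rw [k, h21]) (by rw [hs1.1 55 (by decide), h55]) hm) ?_
  · intro u hu
    rw [k 14, k 15]
    exact hT u hu
  rintro s2 hs2 ⟨hv, h30⟩
  have hg2 : GX p E s2 := hg1.same hs2 (by decide)
  have k2 : ∀ b, s2.mem b = s.mem b := by
    intro b
    have : valV.wm = [] := by decide
    rw [hs2.2 b (by rw [this]; simp), k]
  obtain ⟨c1, c2, c3⟩ := angle_close (T := p.T) (W := W) (a := a) hm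
  refine Tr.seq (T₁ := p.T * 800 + 400) (Tr.cexp2 hE hg2.glob2 c1 c2 h30) ?_
  intro s3 hs3 hap
  have hg3 : GX p E s3 := hg2.same hs3 (by decide)
  have k3 : ∀ b, s3.mem b = s.mem b := by
    intro b
    have : cexp2.wm = [] := by decide
    rw [hs3.2 b (by rw [this]; simp), k2]
  have e46 : s3.reg 46 = i := by
    rw [hs3.1 46 (by decide), hs2.1 46 (by decide), hs1.1 46 (by decide), h46]
  have e85 : s3.reg 85 = s.reg 85 := by
    rw [hs3.1 85 (by decide), hs2.1 85 (by decide), hs1.1 85 (by decide)]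
  have e76 : s3.reg 76 = s2.reg 76 := hs3.1 76 (by decide)
  have e77 : s3.reg 77 = s2.reg 77 := hs3.1 77 (by decide)
  rw [← e85]
  refine tr_cmpV (f := f) (σ := σ) (g := g) (C := C) (W := W) (y := (a : ℝ) / m) (i := i)
    (e := p.e1 + 2 ^ p.W * (8 / 2 ^ p.T)) hE hg3 hM e46 (by rw [e76, e77]; exact hv)
    (by rw [k3, h18]) (by rw [k3, h19]) hre him ?_ ?_
  · unfold Ap at hap ⊢
    have e2 : ((s3.reg 31 : ℤ) : ℂ) + ((s3.reg 32 : ℤ) : ℂ) * I - 2 ^ p.W * ee (W * ((a : ℝ) / m)) =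
        (((s3.reg 31 : ℤ) : ℂ) + ((s3.reg 32 : ℤ) : ℂ) * I - 2 ^ p.W *
          ee (((((W * a) % m) * 2 ^ p.T / (m : ℤ) : ℤ) : ℝ) / 2 ^ p.T)) +
        2 ^ p.W * (ee (((((W * a) % m) * 2 ^ p.T / (m : ℤ) : ℤ) : ℝ) / 2 ^ p.T) -
          ee (W * ((a : ℝ) / m))) := by ring
    rw [e2]
    refine (norm_add_le _ _).trans (add_le_add hap ?_)
    rw [norm_mul, norm_pow, Complex.norm_ofNat]
    exact mul_le_mul_of_nonneg_left c3 (by positivity)
  · have h1 : p.e1 ≤ 2 ^ (30 * p.l + 3) := by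
      unfold Par.e1; exact two_pow_real_le (by omega)
    have h2 : (2 : ℝ) ^ p.W * (8 / 2 ^ p.T) = 2 ^ (30 * p.l + 3) := by
      have h3 : (2 : ℝ) ^ p.W = 2 ^ (30 * p.l) * 2 ^ p.T := by
        rw [← pow_add]; congr 1; unfold Par.W Par.T; ring
      rw [h3, pow_add _ (30 * p.l) 3]
      field_simp
      norm_num
    rw [h2]
    calc p.e1 + 2 ^ (30 * p.l + 3) ≤ 2 ^ (30 * p.l + 3) + 2 ^ (30 * p.l + 3) := by linarith
      _ = 2 ^ (30 * p.l + 4) := by rw [pow_succ _ (30 * p.l + 3)]; ring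
      _ ≤ 2 ^ (31 * p.l) := two_pow_real_le (by omega)

theorem Flg.and {v v1 v2 : ℤ} {A B A' B' : Prop} (h : Flg v v1 A B) (h' : Flg v1 v2 A' B') :
    Flg v v2 (A ∧ A') (B ∨ B') := by
  rcases h with ⟨h1, h2⟩ | ⟨h1, h2⟩
  · rcases h' with ⟨h3, h4⟩ | ⟨h3, h4⟩
    · exact Or.inl ⟨h3.trans h1, h2, h4⟩
    · exact Or.inr ⟨h3, Or.inr h4⟩
  · rcases h' with ⟨h3, -⟩ | ⟨h3, h4⟩
    · exact Or.inr ⟨h3.trans h1, Or.inl h2⟩
    · exact Or.inr ⟨h3, Or.inr h4⟩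

theorem Flg.imp {v v' : ℤ} {A B A' B' : Prop} (h : Flg v v' A B) (hA : A → A') (hB : B → B') :
    Flg v v' A' B' := by
  rcases h with ⟨h1, h2⟩ | ⟨h1, h2⟩
  · exact Or.inl ⟨h1, hA h2⟩
  · exact Or.inr ⟨h1, hB h2⟩

/-- Outcome of the tests of the candidates `i < q` at the shift `a / m`. -/
def ChkF (p : Par) (f : ℤ →₀ ℂ) (σ : ℤ) (a m : ℕ) (s0 s : St) (q : ℕ) : Prop :=
  Flg (s0.reg 85) (s.reg 85)
    (∀ i < q, 0 < s0.mem 9 (i : ℕ) → ‖dev p f σ 1 (s0.mem 5 (i : ℕ)) ((a : ℝ) / m)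
      (s0.mem 17 (i : ℕ)) (s0.mem 18 (i : ℕ)) (s0.mem 19 (i : ℕ))‖ ≤ 45)
    (∃ i < q, 0 < s0.mem 9 (i : ℕ) ∧ 19 < ‖dev p f σ 1 (s0.mem 5 (i : ℕ)) ((a : ℝ) / m)
      (s0.mem 17 (i : ℕ)) (s0.mem 18 (i : ℕ)) (s0.mem 19 (i : ℕ))‖)

theorem tr_checks (hE : EnvOK p E) (hg : GX p E s) {f : ℤ →₀ ℂ}
    (hM : ∑ ω ∈ f.support, ‖f ω‖ ≤ 2 ^ p.l) {σ : ℤ} {n t a m : ℕ}
    (hT : TrOK p f ((a : ℝ) / m) σ 1 s) (h26 : s.reg 26 = n) (h28 : s.reg 28 = σ)
    (h54 : s.reg 54 = t) (h21 : s.mem 21 (t : ℤ) = a) (h55 : s.reg 55 = m) (hm : 0 < m)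
    (hF : FOut p s n) :
    Tr E checks s (n * (p.cchk + 400) + 200) (fun s' => ChkF p f σ a m s s' n) := by
  have hX := E.hX
  unfold checks
  refine Tr.le ((Tr.forC n (p.cchk + 0 + 130) (fun q s' => ChkF p f σ a m s s' q)
    (by decide) h26 ?_ ?_).mono (fun _ _ h => h.1))
      (Nat.add_le_add_right (Nat.mul_le_mul_left _ (by omega)) _)
  · exact Or.inl ⟨by simp [setR_reg], fun i hi => by omega⟩
  · rintro q s1 hq h46 - hs1 hI
    have hg1 : GX p E s1 := hg.same hs1 (by decide)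
    have e28 : s1.reg 28 = σ := by rw [hs1.1 28 (by decide), h28]
    have e54 : s1.reg 54 = t := by rw [hs1.1 54 (by decide), h54]
    have e55 : s1.reg 55 = m := by rw [hs1.1 55 (by decide), h55]
    have k : ∀ b, s1.mem b = s.mem b := by
      intro b
      have : (forc 46 26 (.ite (.lit 0) (.ld 9 (.reg 46)) checkC .skip)).wm = [] := by decide
      exact hs1.2 b (by rw [this]; simp)
    have step : ∀ s2 : St, Flg (s1.reg 85) (s2.reg 85)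
        (0 < s.mem 9 (q : ℕ) → ‖dev p f σ 1 (s.mem 5 (q : ℕ)) ((a : ℝ) / m)
          (s.mem 17 (q : ℕ)) (s.mem 18 (q : ℕ)) (s.mem 19 (q : ℕ))‖ ≤ 45)
        (0 < s.mem 9 (q : ℕ) ∧ 19 < ‖dev p f σ 1 (s.mem 5 (q : ℕ)) ((a : ℝ) / m)
          (s.mem 17 (q : ℕ)) (s.mem 18 (q : ℕ)) (s.mem 19 (q : ℕ))‖) →
        ChkF p f σ a m s (s2.setR 46 (q + 1)) (q + 1) := by
      intro s2 h2
      unfold ChkF
      rw [setR_reg, if_neg (by norm_num)]
      refine (hI.and h2).imp ?_ ?_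
      · rintro ⟨h3, h4⟩ i hi
        by_cases hiq : i = q
        · subst hiq; exact h4
        · exact h3 i (by omega)
      · rintro (⟨i, hi, h3⟩ | h3)
        · exact ⟨i, by omega, h3⟩
        · exact ⟨q, by omega, h3⟩
    refine Tr.ite (T₁ := p.cchk) (T₂ := 0) rfl rfl ?_ ?_
    · intro hact
      simp only [eval_lit, eval_ld, eval_reg, h46, k] at hact
      refine (tr_checkC (f := f) (σ := σ) (g := 1) (i := q) (t := t) (a := a) (m := m) hE hg1 hM ?_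
        h46 e28 rfl rfl e54 (by rw [k, h21]) e55 hm rfl rfl (by rw [k]; exact hF.re q hq)
        (by rw [k]; exact hF.im q hq)).mono ?_
      · intro u hu
        rw [k 14, k 15]
        exact hT u hu
      · rintro s2 - h2
        rw [k, k, k, k] at h2
        exact step s2 (h2.imp (fun h _ => h) (fun h => ⟨hact, h⟩))
    · intro hact
      simp only [eval_lit, eval_ld, eval_reg, h46, k] at hact
      exact Tr.skip (step s1 (Or.inl ⟨rfl, fun h => by omega⟩))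

end Pool.Agent.H940_dft
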