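import Pool.Agent.H940_ver.VerT
import Pool.Agent.H940_dft.Cost

/-!
# The running time of the verification
-/

namespace Pool.Agent.H940_dft

variable (p : Par)

theorem Par.cchk_le : p.cchk + 400 ≤ 13200 * p.l := by
  obtain ⟨h1, h2, h3, h4, h5, h6, h7, h8, h9, h10, h11⟩ := p.cost_facts
  have := p.l_ge
  unfold Par.cchk Par.cgain Par.T
  omega

theorem Par.cshV_le {n : ℕ} (hn : n ≤ 4 * p.k) : p.cshV n ≤ 200000000 * p.a 3 := by
  obtain ⟨h1, h2, h3, h4, h5, h6, h7, h8, h9, h10, h11⟩ := p.cost_facts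
  have c1 := p.cst_le
  have b1 : p.H * 800 ≤ 6553600 * p.a 1 := by
    calc p.H * 800 ≤ (8192 * (p.k * p.l)) * 800 := Nat.mul_le_mul_right _ h11
      _ = 6553600 * p.a 1 := by unfold Par.a; ring
  have b2 : p.mu * (p.cst + 200) ≤ 98304200 * p.a 3 := by
    calc p.mu * (p.cst + 200) ≤ p.l * (98304000 * p.a 2 + 200 * p.a 2) :=
          Nat.mul_le_mul h4 (by have := p.a_pos 2; linarith)
      _ = 98304200 * (p.l * p.a 2) := by ring
      _ = _ := by rw [p.a_one]
  have b3 : n * (p.cchk + 400) ≤ 52800 * p.a 1 := by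
    calc _ ≤ (4 * p.k) * (13200 * p.l) := Nat.mul_le_mul hn p.cchk_le
      _ = 52800 * p.a 1 := by unfold Par.a; ring
  have m1 := p.a_mono (show 1 ≤ 3 by norm_num)
  have m2 := p.a_pos 3
  unfold Par.cshV
  linarith

theorem Par.csel_le {n : ℕ} (hn : n ≤ 4 * p.k) : p.csel n ≤ 45000 * p.a 2 := by
  obtain ⟨h1, h2, h3, h4, h5, h6, h7, h8, h9, h10, h11⟩ := p.cost_facts
  have b1 : p.cpot n ≤ 21000 * p.a 1 := by
    have : p.P * (n * 4500 + 2400) ≤ p.l * (20400 * p.a 0) := by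
      apply Nat.mul_le_mul h2
      have e0 : p.a 0 = p.k := by unfold Par.a; simp
      have := p.hk
      rw [e0]; linarith
    rw [show p.l * (20400 * p.a 0) = 20400 * (p.l * p.a 0) by ring, p.a_one] at this
    have := p.a_pos 1
    unfold Par.cpot
    linarith
  have : p.P * (2 * p.cpot n + 1400) ≤ p.l * (43400 * p.a 1) := by
    apply Nat.mul_le_mul h2
    have := p.a_pos 1
    linarith
  rw [show p.l * (43400 * p.a 1) = 43400 * (p.l * p.a 1) by ring, p.a_one] at this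
  have := p.a_pos 2
  unfold Par.csel
  linarith

theorem Par.ciso_le {n : ℕ} (hn : n ≤ 4 * p.k) : p.ciso n ≤ 17000 * p.a 0 := by
  have e0 : p.a 0 = p.k := by unfold Par.a; simp
  have := p.hk
  unfold Par.ciso
  rw [e0]; linarith

theorem Par.L2_le (hc : p.c = 5) : p.L * p.L ≤ p.l ^ 10 := by
  obtain ⟨h1, h2, h3, h4, h5, h6, h7, h8, h9, h10, h11⟩ := p.cost_facts
  rw [hc] at h7
  calc p.L * p.L ≤ p.l ^ 5 * p.l ^ 5 := Nat.mul_le_mul h7 h7
    _ = p.l ^ 10 := by ring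

theorem Par.crndV_le {n : ℕ} (hc : p.c = 5) (hn : n ≤ 4 * p.k) :
    p.crndV n (p.L * p.L) ≤ 300000000 * p.a 13 := by
  have c1 := p.cshV_le hn
  have c2 := p.csel_le hn
  have c3 := p.ciso_le hn
  have b4 : p.L * p.L * (p.cshV n + 200) ≤ 200000200 * p.a 13 := by
    calc _ ≤ p.l ^ 10 * (200000200 * p.a 3) :=
          Nat.mul_le_mul (p.L2_le hc) (by have := p.a_pos 3; linarith)
      _ = 200000200 * (p.l ^ 10 * p.a 3) := by ring
      _ = _ := by rw [p.a_mul]
  have e0 : p.a 0 = p.k := by unfold Par.a; simp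
  have m0 := p.a_mono (show 0 ≤ 13 by norm_num)
  have m2 := p.a_mono (show 2 ≤ 13 by norm_num)
  have := p.hk
  unfold Par.crndV
  linarith

theorem Par.cver_le (hc : p.c = 5) : p.cver ≤ 400000000 * p.a 14 := by
  obtain ⟨h1, h2, h3, h4, h5, h6, h7, h8, h9, h10, h11⟩ := p.cost_facts
  have c1 := p.crndV_le hc h9
  unfold Par.cver
  generalize 2 ^ (p.j0 + 1) = n at *
  have e0 : p.a 0 = p.k := by unfold Par.a; simp
  have m0 := p.a_mono (show 0 ≤ 14 by norm_num)
  have hk := p.hk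
  have b1 : (p.j0 + 2) * (p.crndV n (p.L * p.L) + 200) ≤ 300000200 * p.a 14 := by
    calc _ ≤ p.l * (300000200 * p.a 13) :=
          Nat.mul_le_mul h3 (by have := p.a_pos 13; linarith)
      _ = 300000200 * (p.l * p.a 13) := by ring
      _ = _ := by rw [p.a_one]
  have b2 : p.L * (p.L * 700 + 700) ≤ 1400 * p.a 14 := by
    have h12 := p.L2_le hc
    have hL1 := p.L_pos
    have h13 : p.l ^ 10 ≤ p.a 14 := by
      unfold Par.a
      calc p.l ^ 10 ≤ p.l ^ 14 := Nat.pow_le_pow_right h1 (by norm_num)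
        _ ≤ p.k * p.l ^ 14 := Nat.le_mul_of_pos_left _ hk
    calc p.L * (p.L * 700 + 700) ≤ p.L * (p.L * 700 + p.L * 700) :=
          Nat.mul_le_mul_left _ (by omega)
      _ = 1400 * (p.L * p.L) := by ring
      _ ≤ 1400 * p.a 14 := Nat.mul_le_mul_left _ (h12.trans h13)
  have hp := p.a_pos 14
  linarith

theorem Par.cinitx_le {w V : ℕ} (hw : w ≤ V * p.l) :
    p.cinitx w ≤ (10000000 + 65 * p.c + 265 * V) * p.a 2 := by
  obtain ⟨h1, h2, h3, h4, h5, h6, h7, h8, h9, h10, h11⟩ := p.cost_facts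
  unfold Par.cinitx
  generalize 2 ^ p.mu = nm at *
  have e0 : p.a 0 = p.k := by unfold Par.a; simp
  have m0 := p.a_mono (show 0 ≤ 2 by linarith)
  have m1 := p.a_mono (show 1 ≤ 2 by linarith)
  have hk := p.hk
  have hl1 : p.l ≤ p.a 1 := by
    unfold Par.a; rw [pow_one]; exact Nat.le_mul_of_pos_left _ (by linarith)
  have hl2 : p.l * p.l ≤ p.a 2 := by
    unfold Par.a; rw [sq]; exact Nat.le_mul_of_pos_left _ (by linarith)
  have b1 : p.T * (920 * (p.W + 1) + 1200) ≤ 390000 * p.a 2 := by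
    have hT : p.T = 10 * p.l := rfl
    calc _ ≤ (10 * p.l) * (39000 * p.l) := Nat.mul_le_mul (le_of_eq hT) (by linarith)
      _ = 390000 * (p.l * p.l) := by ring
      _ ≤ _ := Nat.mul_le_mul_left _ hl2
  have b2 : nm * (p.P * 800 + 925) ≤ 7065600 * p.a 1 := by
    calc _ ≤ (4096 * p.k) * (1725 * p.l) := Nat.mul_le_mul h10 (by linarith)
      _ = 7065600 * p.a 1 := by unfold Par.a; ring
  have b3 : w * 265 ≤ 265 * V * p.a 2 := by
    calc w * 265 ≤ (V * p.l) * 265 := Nat.mul_le_mul_right _ hw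
      _ = 265 * V * p.l := by ring
      _ ≤ 265 * V * p.a 2 := Nat.mul_le_mul_left _ (hl1.trans m1)
  have b4 : 65 * p.c ≤ 65 * p.c * p.a 2 := Nat.le_mul_of_pos_right _ (p.a_pos 2)
  have hp := p.a_pos 2
  linarith

end Pool.Agent.H940_dft
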