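import Pool.Agent.H940_ver.Adapt
import Pool.Agent.H940_ver.CostV

/-!
# The running time of the adaptive recovery
-/

namespace Pool.Agent.H940_dft

open Finset

variable (p : Par)

theorem Par.a_zero : p.a 0 = p.k := by unfold Par.a; simp

theorem Par.crnd2_le {n T : ℕ} (hn : n ≤ 4 * p.k) :
    p.crnd2 n T ≤ 300000000 * ((T + 1) * p.a 3) := by
  have c1 := p.cshift_le hn
  have c2 := p.csel_le hn
  have c3 := p.ciso_le hn
  have b4 : T * (p.cshift n + 600) ≤ T * (200000600 * p.a 3) :=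
    Nat.mul_le_mul_left _ (by have := p.a_pos 3; linarith)
  have e0 := p.a_zero
  have m0 := p.a_mono (show 0 ≤ 3 by norm_num)
  have m2 := p.a_mono (show 2 ≤ 3 by norm_num)
  have := p.hk
  unfold Par.crnd2
  nlinarith [Nat.zero_le (T * p.a 3)]

theorem Par.clev2_le {n T : ℕ} (hn : n ≤ 4 * p.k) :
    p.clev2 n T ≤ 400000000 * ((T + 1) * p.a 4) := by
  obtain ⟨h1, h2, h3, h4, h5, h6, h7, h8, h9, h10, h11⟩ := p.cost_facts
  have c1 := p.crnd2_le (T := T) hn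
  have hp : 1 ≤ (T + 1) * p.a 3 := Nat.mul_pos (by omega) (p.a_pos 3)
  have b1 : (p.j0 + 2) * (p.crnd2 n T + 200) ≤ 300000200 * ((T + 1) * p.a 4) := by
    calc _ ≤ p.l * (300000200 * ((T + 1) * p.a 3)) :=
          Nat.mul_le_mul h3 (by linarith)
      _ = 300000200 * ((T + 1) * (p.l * p.a 3)) := by ring
      _ = _ := by rw [p.a_one]
  have e0 := p.a_zero
  have m0 := p.a_mono (show 0 ≤ 4 by norm_num)
  have hT : p.a 4 ≤ (T + 1) * p.a 4 := Nat.le_mul_of_pos_left _ (by omega)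
  have := p.hk
  unfold Par.clev2
  linarith

theorem Par.cfind_le (T : ℕ) : p.cfind T ≤ 900000000 * ((T + 1) * p.a 5) := by
  obtain ⟨h1, h2, h3, h4, h5, h6, h7, h8, h9, h10, h11⟩ := p.cost_facts
  have c1 := p.clev2_le (T := T) h9
  unfold Par.cfind
  generalize 2 ^ (p.j0 + 1) = n at *
  generalize 2 ^ p.j0 = n' at *
  have e0 := p.a_zero
  have m0 := p.a_mono (show 0 ≤ 4 by omega)
  have m1 := p.a_mono (show 4 ≤ 5 by omega)
  have hk := p.hk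
  have hT4 : p.a 4 ≤ (T + 1) * p.a 4 := Nat.le_mul_of_pos_left _ (by omega)
  have hT5 : p.a 5 ≤ (T + 1) * p.a 5 := Nat.le_mul_of_pos_left _ (by omega)
  have m2 : (T + 1) * p.a 4 ≤ (T + 1) * p.a 5 := Nat.mul_le_mul_left _ m1
  have b1 : (p.P - p.j0) * ((p.cnext n + p.clev2 n T) + 200) ≤
      450000000 * ((T + 1) * p.a 5) := by
    calc _ ≤ p.l * (450000000 * ((T + 1) * p.a 4)) :=
          Nat.mul_le_mul (by omega) (by unfold Par.cnext; linarith)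
      _ = 450000000 * ((T + 1) * (p.l * p.a 4)) := by ring
      _ = _ := by rw [p.a_one]
  linarith

theorem Par.cit_le (hc : p.c = 5) (q : ℕ) :
    p.cit q + 130 ≤ 2000000000 * (4 ^ q * p.a 5) + 500000000 * p.a 14 := by
  have h1 := p.cfind_le (2 ^ q * 2 ^ q)
  have h2 := p.cver_le hc
  have e4 : 2 ^ q * 2 ^ q = 4 ^ q := by
    rw [← mul_pow]
    norm_num
  have h3 : 1 ≤ 4 ^ q := Nat.one_le_pow _ _ (by norm_num)
  have h5 := p.a_pos 5
  have h14 := p.a_pos 14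
  have e5 : 2 ^ q * (2 ^ q * 700 + 700) = 700 * 4 ^ q + 700 * 2 ^ q := by
    rw [← e4]; ring
  have h6 : 2 ^ q ≤ 4 ^ q := Nat.pow_le_pow_left (by norm_num) q
  have h7 : 4 ^ q ≤ 4 ^ q * p.a 5 := Nat.le_mul_of_pos_right _ h5
  have h8 : (4 ^ q + 1) * p.a 5 ≤ 2 * (4 ^ q * p.a 5) := by
    calc (4 ^ q + 1) * p.a 5 ≤ (4 ^ q + 4 ^ q) * p.a 5 := Nat.mul_le_mul_right _ (by omega)
      _ = _ := by ring
  unfold Par.cit
  rw [e5]
  rw [e4] at h1 ⊢
  linarith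

theorem sum_four (n : ℕ) : ∑ q ∈ range (n + 1), 4 ^ q ≤ 2 * 4 ^ n := by
  induction n with
  | zero => norm_num
  | succ n ih =>
    rw [Finset.sum_range_succ, pow_succ]
    have h : 4 ^ (n + 1) = 4 * 4 ^ n := by rw [pow_succ']
    omega

theorem Par.cadapt_le (hc : p.c = 5) {σ : ℕ} (h1 : 1 ≤ σ) (h2 : σ ≤ p.k) :
    p.cadapt σ ≤ 40000000000 * (σ ^ 2 * p.a 15) := by
  obtain ⟨g1, g2, g3, g4, g5, g6, g7, g8, g9, g10, g11⟩ := p.cost_facts
  obtain ⟨hlo, hhi⟩ := clog_facts p h1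
  have hsb := sigma_bound p h2
  unfold Par.cadapt
  obtain ⟨Q, hQ⟩ : ∃ Q, Q = Nat.clog 2 (σ * (p.P * p.P)) := ⟨_, rfl⟩
  rw [← hQ] at hlo hhi
  rw [← hQ]
  have hQl : Q ≤ 4 * p.l := by
    by_contra hcon
    push Not at hcon
    have h3 : 2 ^ (4 * p.l) < 2 ^ Q := Nat.pow_lt_pow_right (by norm_num) hcon
    omega
  have h4 : 4 ^ Q ≤ 4 * (σ ^ 2 * p.l ^ 4) := by
    calc 4 ^ Q = 2 ^ Q * 2 ^ Q := by
          rw [← mul_pow]
          norm_num
      _ ≤ (2 * (σ * (p.P * p.P))) * (2 * (σ * (p.P * p.P))) := Nat.mul_le_mul hhi hhi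
      _ = 4 * (σ ^ 2 * p.P ^ 4) := by ring
      _ ≤ 4 * (σ ^ 2 * p.l ^ 4) :=
        Nat.mul_le_mul_left _ (Nat.mul_le_mul_left _ (Nat.pow_le_pow_left g2 _))
  have hsum : ∑ q ∈ range (Q + 1), (p.cit q + 130) ≤
      2000000000 * ((2 * 4 ^ Q) * p.a 5) + (Q + 1) * (500000000 * p.a 14) := by
    calc _ ≤ ∑ q ∈ range (Q + 1), (2000000000 * (4 ^ q * p.a 5) + 500000000 * p.a 14) :=
          Finset.sum_le_sum (fun q _ => p.cit_le hc q)
      _ = 2000000000 * ((∑ q ∈ range (Q + 1), 4 ^ q) * p.a 5) + (Q + 1) * (500000000 * p.a 14) := by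
          rw [Finset.sum_add_distrib, Finset.sum_mul, Finset.mul_sum]
          simp
      _ ≤ _ := Nat.add_le_add_right (Nat.mul_le_mul_left _ (Nat.mul_le_mul_right _ (sum_four Q))) _
  have h5 : (2 * 4 ^ Q) * p.a 5 ≤ 8 * (σ ^ 2 * p.a 15) := by
    calc (2 * 4 ^ Q) * p.a 5 ≤ (2 * (4 * (σ ^ 2 * p.l ^ 4))) * p.a 5 :=
          Nat.mul_le_mul_right _ (Nat.mul_le_mul_left _ h4)
      _ = 8 * (σ ^ 2 * (p.l ^ 4 * p.a 5)) := by ring
      _ = 8 * (σ ^ 2 * p.a 9) := by rw [p.a_mul]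
      _ ≤ 8 * (σ ^ 2 * p.a 15) :=
        Nat.mul_le_mul_left _ (Nat.mul_le_mul_left _ (p.a_mono (by norm_num)))
  have hσ2 : 1 ≤ σ ^ 2 := Nat.one_le_pow _ _ h1
  have h6 : (Q + 1) * (500000000 * p.a 14) ≤ 2500000000 * (σ ^ 2 * p.a 15) := by
    calc (Q + 1) * (500000000 * p.a 14) ≤ (5 * p.l) * (500000000 * p.a 14) :=
          Nat.mul_le_mul_right _ (by omega)
      _ = 2500000000 * (p.l * p.a 14) := by ring
      _ = 2500000000 * p.a 15 := by rw [p.a_one]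
      _ ≤ 2500000000 * (σ ^ 2 * p.a 15) :=
        Nat.mul_le_mul_left _ (Nat.le_mul_of_pos_left _ hσ2)
  have h7 : 1 ≤ σ ^ 2 * p.a 15 := Nat.mul_pos hσ2 (p.a_pos 15)
  omega

end Pool.Agent.H940_dft
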