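import Pool.Agent.H940_ver.Prob

/-!
# The average running time
-/

namespace Pool.Agent.H940_dft

open Complex Finset

variable {p : Par} {w : ℕ}

theorem clast_le (f : ℤ →₀ ℂ) (ρ : Fin p.nb → Bool) :
    (clast p (VisL p f (p.R + 1) (aR p (bitOf ρ)) (fun _ => 1) (fun _ => 1)) : ℝ) ≤
      195 + (if ρ ∈ BadR p f then (p.cadapt p.k : ℝ) else 0) := by
  classical
  unfold clast
  by_cases h : VisL p f (p.R + 1) (aR p (bitOf ρ)) (fun _ => 1) (fun _ => 1)
  · rw [if_pos h]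
    have h0 : (0 : ℝ) ≤ (if ρ ∈ BadR p f then (p.cadapt p.k : ℝ) else 0) := by
      split_ifs <;> positivity
    push_cast
    linarith
  · have h1 : ρ ∈ BadR p f := by
      unfold BadR
      rw [mem_filter]
      exact ⟨mem_univ _, h⟩
    rw [if_neg h, if_pos h1]
    linarith

theorem sum_timeR (f : ℤ →₀ ℂ) : ∑ ρ : Fin p.nb → Bool, (timeR p w f ρ : ℝ) ≤
    2 ^ p.nb * ((5 + 5 * w + 20 * (p.cinitx w + (p.clistR + (p.cfind (p.R + 1) + (p.cver + 195)))) :
      ℕ) : ℝ) + 20 * ((BadR p f).card * p.cadapt p.k) := by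
  classical
  have h1 : ∀ ρ : Fin p.nb → Bool, (timeR p w f ρ : ℝ) ≤
      ((5 + 5 * w + 20 * (p.cinitx w + (p.clistR + (p.cfind (p.R + 1) + (p.cver + 195)))) : ℕ) : ℝ) +
      20 * (if ρ ∈ BadR p f then (p.cadapt p.k : ℝ) else 0) := by
    intro ρ
    have := clast_le (p := p) f ρ
    unfold timeR
    push_cast
    linarith
  refine (Finset.sum_le_sum (fun ρ _ => h1 ρ)).trans (le_of_eq ?_)
  rw [Finset.sum_add_distrib, Finset.sum_const, card_univ, ← Finset.mul_sum, Finset.sum_ite_mem,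
    Finset.sum_const, Finset.univ_inter, nsmul_eq_mul, nsmul_eq_mul]
  simp only [Fintype.card_fun, Fintype.card_bool, Fintype.card_fin]
  push_cast
  ring

theorem bad_cost {f : ℤ →₀ ℂ} (ha : Adm p f) (hc : p.c = 5) :
    ((BadR p f).card : ℝ) * p.cadapt p.k ≤ 2 ^ p.nb * (40000000000 * p.a 15) := by
  have h1 := card_BadR ha
  have h2 : (p.cadapt p.k : ℝ) ≤ 40000000000 * (p.k ^ 2 * p.a 15) := by
    exact_mod_cast p.cadapt_le hc p.hk le_rfl
  have hl := p.l_ge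
  have hkl : p.k ≤ 2 ^ p.l := by
    have h1 := p.lt_P
    have h2 := p.hkN
    have h3 : 2 ^ p.P ≤ 2 ^ p.l := Nat.pow_le_pow_right (by norm_num) p.P_le_l
    omega
  have hPl : p.P + 1 ≤ 2 ^ p.l := by
    have h3 := p.P_le_l
    have h4 := Par.n_le_pow p.l
    have h5 : p.P + 1 ≤ p.l := by
      have := p.hB
      unfold Par.l; omega
    omega
  have h3 : (p.P + 1) * p.k ^ 3 ≤ 2 ^ (45 * p.l) := by
    calc (p.P + 1) * p.k ^ 3 ≤ 2 ^ p.l * (2 ^ p.l) ^ 3 :=
          Nat.mul_le_mul hPl (Nat.pow_le_pow_left hkl 3)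
      _ = 2 ^ (4 * p.l) := by rw [← pow_mul, ← pow_add]; congr 1; ring
      _ ≤ 2 ^ (45 * p.l) := Nat.pow_le_pow_right (by norm_num) (by omega)
  have h4 : ((p.P : ℝ) + 1) * (p.k : ℝ) ^ 3 * (1 / 2) ^ (45 * p.l) ≤ 1 := by
    have h5 : ((p.P : ℝ) + 1) * (p.k : ℝ) ^ 3 ≤ 2 ^ (45 * p.l) := by exact_mod_cast h3
    rw [one_div, inv_pow, ← div_eq_mul_inv, div_le_one (by positivity)]
    exact h5
  calc ((BadR p f).card : ℝ) * p.cadapt p.k ≤
        ((p.P + 1) * p.k * (2 ^ p.nb * (1 / 2) ^ (45 * p.l))) *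
          (40000000000 * (p.k ^ 2 * p.a 15)) :=
        mul_le_mul h1 h2 (Nat.cast_nonneg _) (by positivity)
    _ = (((p.P : ℝ) + 1) * (p.k : ℝ) ^ 3 * (1 / 2) ^ (45 * p.l)) *
          (2 ^ p.nb * (40000000000 * p.a 15)) := by ring
    _ ≤ 1 * (2 ^ p.nb * (40000000000 * p.a 15)) :=
        mul_le_mul_of_nonneg_right h4 (by positivity)
    _ = _ := one_mul _

theorem fast_cost (hc : p.c = 5) {V : ℕ} (hw : w ≤ V * p.l) :
    5 + 5 * w + 20 * (p.cinitx w + (p.clistR + (p.cfind (p.R + 1) + (p.cver + 195)))) ≤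
      (5 + 5 * V + 20 * (4000000000 + 265 * V)) * p.a 15 := by
  obtain ⟨g1, g2, g3, g4, g5, g6, g7, g8, g9, g10, g11⟩ := p.cost_facts
  have h5 := p.cinitx_le hw
  rw [hc] at h5
  have h6 := p.cver_le hc
  have h7 := p.cfind_le (p.R + 1)
  have hl := p.l_ge
  have hR : p.R = p.l ^ 4 := by unfold Par.R; ring
  have hR1 := p.R_pos
  have a2 := p.a_mono (show 2 ≤ 15 by norm_num)
  have a14 := p.a_mono (show 14 ≤ 15 by norm_num)
  have a9 := p.a_mono (show 9 ≤ 15 by norm_num)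
  have a5 := p.a_mono (show 5 ≤ 15 by norm_num)
  have a1 := p.a_mono (show 1 ≤ 15 by norm_num)
  have a0 := p.a_pos 15
  have h8 : (p.R + 1 + 1) * p.a 5 ≤ 3 * p.a 15 := by
    calc (p.R + 1 + 1) * p.a 5 ≤ (3 * p.R) * p.a 5 := Nat.mul_le_mul_right _ (by omega)
      _ = 3 * (p.l ^ 4 * p.a 5) := by rw [hR]; ring
      _ = 3 * p.a 9 := by rw [p.a_mul]
      _ ≤ 3 * p.a 15 := Nat.mul_le_mul_left _ a9
  have h9 : p.clistR ≤ 3000 * p.a 15 := by
    unfold Par.clistR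
    have h10 : p.R * (p.P * 265 + 1000) ≤ 1265 * p.a 5 := by
      calc p.R * (p.P * 265 + 1000) ≤ p.l ^ 4 * (p.l * 1265) := by
            rw [hR]
            exact Nat.mul_le_mul_left _ (by omega)
        _ = 1265 * p.l ^ 5 := by ring
        _ ≤ 1265 * p.a 5 := by
            apply Nat.mul_le_mul_left
            unfold Par.a
            exact Nat.le_mul_of_pos_left _ p.hk
    linarith
  have h10 : p.l ≤ p.a 15 := by
    refine le_trans ?_ a1
    unfold Par.a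
    rw [pow_one]
    exact Nat.le_mul_of_pos_left _ p.hk
  have h11 : w ≤ V * p.a 15 := hw.trans (Nat.mul_le_mul_left _ h10)
  have h12 : (10000000 + 65 * 5 + 265 * V) * p.a 2 ≤ (10000325 + 265 * V) * p.a 15 :=
    Nat.mul_le_mul (by omega) a2
  have h13 : (10000325 + 265 * V) * p.a 15 = 10000325 * p.a 15 + 265 * (V * p.a 15) := by ring
  have h14 : (5 + 5 * V + 20 * (4000000000 + 265 * V)) * p.a 15 =
      5 * p.a 15 + 5 * (V * p.a 15) + 20 * (4000000000 * p.a 15 + 265 * (V * p.a 15)) := by ring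
  rw [h13] at h12
  rw [h14]
  linarith

end Pool.Agent.H940_dft
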