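import Pool.Agent.H940_ver.Mach
import Pool.Agent.H940_ver.CostA

/-!
# Adaptive recovery: the final theorem
-/

namespace Pool.Agent.H940_dft

open Complex Finset

variable {w : ℕ}

/-- The program for the adaptive recovery. -/
def programA : List Instr := prologue ++ mainA.compile 9

theorem mainA_rb : mainA.rb = true := by decide +kernel

theorem initial_ini (w k N B : ℕ) : Ini k N B (initial w k N B) := by
  refine ⟨rfl, rfl, rfl, rfl, rfl, ?_⟩
  intro r h0 h1 h2 h39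
  show (if r = 0 then _ else if r = 1 then _ else if r = 2 then _ else (0 : BitVec w)) = 0
  rw [if_neg h0, if_neg h1, if_neg h2]

/-- Correctness of the adaptive program. -/
theorem programA_correct (p : Par) (hc : p.c = 5)
    (hw : w = wordLength (Vc p.c : ℝ) p.N p.B)
    {f : ℤ →₀ ℂ} (ha : Adm p f) {O : ℕ → ℕ → ℕ → ℤ × ℤ} (hO : IsOracle w f O)
    {σ : ℕ} (h1 : 1 ≤ σ) (h2 : σ ≤ p.k) (ht : TameN p.k σ f) :
    ∃ T : ℕ, T ≤ 5 + 5 * w + 20 * (p.cinitx w + p.cadapt σ) ∧ ∃ cf : Conf w,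
      Runs programA O T (initial w p.k p.N p.B) cf ∧ Halted programA cf ∧
        cf.output p.B = {q | q.1 ∈ f.support ∧ q.2 = f q.1} := by
  have h39 : (initial w p.k p.N p.B).reg 39 = 0 := rfl
  have hX : (0 : ℤ) ≤ 2 ^ p.x := by positivity
  obtain ⟨n, hn, cf, s', hr, hh, hfin, hQ⟩ := mach_run p hw ha hO mainA_rb
    (initial_ini w p.k p.N p.B) (fun a => by
      show |((0 : BitVec w)).toInt| ≤ 2 ^ p.x
      simp)
    (by rw [h39]; simp)
    (T := p.cinitx w + p.cadapt σ) (Q := Good f p.B) (by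
    intro E hEw hE hOE hinp
    obtain ⟨s0, hs0⟩ : ∃ s0, s0 = startX (initial w p.k p.N p.B) p.k p.N p.B := ⟨_, rfl⟩
    rw [← hs0] at hinp ⊢
    unfold mainA
    refine Tr.seq (T₁ := p.cinitx w) (R := fun s' => GX p E s' ∧
      (∀ b : ℕ, 5 ≤ b → ∀ i : ℕ, s'.mem b i = s0.mem b i) ∧ s'.reg 39 = s0.reg 39 ∧
      s'.reg 85 = s0.reg 85) ?_ ?_
    · have := tr_initAll hE hinp (m := fun b i => s0.mem b i) (fun _ _ _ => rfl)
      rw [hc, hEw] at this
      exact this
    · rintro s1 - ⟨hg1, hm1, h39, h85⟩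
      refine tr_adapt hE hg1 hOE ha hc h1 h2 ht (Or.inl ?_)
      rw [h85, hs0]
      rfl)
  exact ⟨n, hn, cf, hr, hh, hfin.output ha hQ⟩

end Pool.Agent.H940_dft
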