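import Pool.Agent.H940_ver.Adapt

/-!
# The list of random shifts
-/

namespace Pool.Agent.H940_dft

open Finset

variable {E : Env} {s s' : St} {p : Par}

/-- Number of random shifts. -/
def Par.R (p : Par) : ℕ := (p.l * p.l) * (p.l * p.l)

/-- Numerators of the shifts for the bits `bt`. -/
def aR (p : Par) (bt : ℕ → ℕ) (t : ℕ) : ℕ :=
  if t < p.R then 1 + ∑ i ∈ range (p.P - 1), bt (t * (p.P - 1) + i) * 2 ^ (i + 1) else 0

theorem sum_bits_lt (bt : ℕ → ℕ) (h : ∀ t, bt t ≤ 1) (n : ℕ) :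
    1 + ∑ i ∈ range n, bt i * 2 ^ (i + 1) < 2 ^ (n + 1) := by
  induction n with
  | zero => norm_num
  | succ n ih =>
    rw [Finset.sum_range_succ, pow_succ 2 (n + 1)]
    have := h n
    have h2 : bt n * 2 ^ (n + 1) ≤ 1 * 2 ^ (n + 1) := Nat.mul_le_mul_right _ this
    omega

theorem aR_lt (p : Par) (bt : ℕ → ℕ) (h : ∀ t, bt t ≤ 1) (t : ℕ) : aR p bt t < 2 ^ p.P := by
  have hP := p.P_ge
  unfold aR
  split_ifs
  · have := sum_bits_lt (fun i => bt (t * (p.P - 1) + i)) (fun i => h _) (p.P - 1)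
    rwa [show p.P - 1 + 1 = p.P by omega] at this
  · positivity

theorem Par.R_le (p : Par) : p.R + 1 ≤ 2 ^ (5 * p.l) := by
  unfold Par.R
  have h : p.l ≤ 2 ^ p.l := Par.n_le_pow _
  have h2 : (p.l * p.l) * (p.l * p.l) ≤ (2 ^ p.l * 2 ^ p.l) * (2 ^ p.l * 2 ^ p.l) :=
    Nat.mul_le_mul (Nat.mul_le_mul h h) (Nat.mul_le_mul h h)
  have e : (2 ^ p.l * 2 ^ p.l) * (2 ^ p.l * 2 ^ p.l) = 2 ^ (4 * p.l) := by
    rw [← pow_add, ← pow_add]; congr 1; ring
  rw [e] at h2
  have hl := p.l_ge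
  have h3 : 2 ^ (4 * p.l) * 2 ≤ 2 ^ (5 * p.l) := by
    rw [← pow_succ]
    exact Nat.pow_le_pow_right (by norm_num) (by omega)
  have h4 : 1 ≤ 2 ^ (4 * p.l) := Nat.one_le_two_pow
  omega

theorem Par.R_pos (p : Par) : 1 ≤ p.R := by
  have hl := p.l_ge
  unfold Par.R
  exact Nat.mul_pos (Nat.mul_pos (by omega) (by omega)) (Nat.mul_pos (by omega) (by omega))

/-- Cost of the list of random shifts. -/
def Par.clistR (p : Par) : ℕ := p.R * (p.P * 265 + 1000) + 1200

theorem tr_listR (hE : EnvOK p E) (hg : Glob p E s) (h2 : s.reg 2 = p.B) {bt : ℕ → ℕ}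
    (hb : ∀ t, bt t ≤ 1) (h63 : ∀ t < p.R * (p.P - 1), s.mem 63 (t : ℕ) = bt t) :
    Tr E listR s p.clistR (fun s' => SL p s' (p.R + 1) (aR p bt) (fun _ => 1) (fun _ => 1)) := by
  have hX := E.hX
  have hl := p.l_ge
  have hP := p.P_ge
  have hPl := p.P_le_l
  have hR := p.R_le
  have hRX : ∀ n : ℕ, n ≤ p.R + 1 → |(n : ℤ)| ≤ E.X := by
    intro n hn
    apply hE.nat
    exact hn.trans (hR.trans (Nat.pow_le_pow_right (by norm_num)
      (by have := p.le_x (a := 5) (b := 0) (by norm_num) (by norm_num); omega)))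
  have hll : p.l * p.l ≤ p.R := by
    unfold Par.R
    exact Nat.le_mul_of_pos_left _ (Nat.mul_pos (by omega) (by omega))
  have hPX : ∀ n : ℕ, n < 2 ^ p.P → |(n : ℤ)| ≤ E.X := by
    intro n hn
    apply hE.nat
    exact hn.le.trans (Nat.pow_le_pow_right (by norm_num) p.P_le_x)
  have e1 : ((Expr.reg 4 + Expr.reg 2) * (Expr.reg 4 + Expr.reg 2)).eval s =
      ((p.l * p.l : ℕ) : ℤ) := by
    simp only [eval_mul, eval_add, eval_reg, hg.r4, h2]
    unfold Par.l
    push_cast
    ring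
  unfold listR
  simp only [seqs]
  refine Tr.le (Tr.aseq rfl (by rw [e1]; exact hRX _ (by omega)) ?_) (T := 65 + (65 +
    ((p.R * ((65 + ((p.P - 1) * (65 + 200) + 200 + (130 + (130 + 130)))) + 200) + 200) + (130 +
      (130 + (130 + 65)))))) ?_
  swap
  · unfold Par.clistR
    have : p.R * ((65 + ((p.P - 1) * (65 + 200) + 200 + (130 + (130 + 130)))) + 200) ≤
        p.R * (p.P * 265 + 1000) := Nat.mul_le_mul_left _ (by omega)
    omega
  rw [e1]
  have e2 : (Expr.reg 88 * Expr.reg 88).eval (s.setR 88 ((p.l * p.l : ℕ) : ℤ)) = (p.R : ℤ) := by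
    simp only [eval_mul, eval_reg, setR_reg, reduceIte]
    unfold Par.R
    push_cast
    ring
  refine Tr.aseq rfl (by rw [e2]; exact hRX _ (by omega)) ?_
  rw [e2]
  obtain ⟨s1, hs1⟩ : ∃ s1, s1 = (s.setR 88 ((p.l * p.l : ℕ) : ℤ)).setR 88 (p.R : ℤ) := ⟨_, rfl⟩
  rw [← hs1]
  have g22 : s1.reg 22 = ((p.P - 1 : ℕ) : ℤ) := by
    rw [hs1]; simp only [setR_reg, Nat.reduceEqDiff, reduceIte]; exact hg.r22
  have g0 : ∀ t : ℕ, t ≤ p.W → s1.mem 0 t = 2 ^ t := by
    rw [hs1]; exact hg.pw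
  have g63 : ∀ t < p.R * (p.P - 1), s1.mem 63 (t : ℕ) = bt t := by
    rw [hs1]; exact h63
  have g88 : s1.reg 88 = (p.R : ℤ) := by rw [hs1]; simp only [setR_reg, reduceIte]
  clear hs1
  refine Tr.seq (T₁ := p.R * ((65 + ((p.P - 1) * (65 + 200) + 200 + (130 + (130 + 130)))) + 200) +
    200) (T₂ := 130 + (130 + (130 + 65))) (R := fun s' => ∀ t < p.R,
      s'.mem 21 (t : ℕ) = aR p bt t ∧ s'.mem 22 (t : ℕ) = 1 ∧ s'.mem 23 (t : ℕ) = 1)
    ((Tr.forC p.R _ (fun q s' => ∀ t < q, s'.mem 21 (t : ℕ) = aR p bt t ∧ s'.mem 22 (t : ℕ) = 1 ∧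
      s'.mem 23 (t : ℕ) = 1) (by decide) g88 (fun t ht => by omega) ?_).mono
      (fun _ _ h => h.1)) ?_
  · rintro q s2 hq h54 h88 hs2 hI
    have k22 : s2.reg 22 = ((p.P - 1 : ℕ) : ℤ) := by rw [hs2.1 22 (by decide), g22]
    have k0 : s2.mem 0 = s1.mem 0 := hs2.2 0 (by decide)
    have k63 : s2.mem 63 = s1.mem 63 := hs2.2 63 (by decide)
    refine Tr.aseq rfl (by simp; omega) ?_
    refine Tr.seq (T₁ := (p.P - 1) * (65 + 200) + 200) (T₂ := 130 + (130 + 130))
      (R := fun s' => s'.reg 56 = ((aR p bt q : ℕ) : ℤ))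
      ((Tr.forC (p.P - 1) 65 (fun i s' => s'.reg 56 =
        ((1 + ∑ i ∈ range i, bt (q * (p.P - 1) + i) * 2 ^ (i + 1) : ℕ) : ℤ)) (by decide)
        (by simp only [setR_reg, Nat.reduceEqDiff, reduceIte]; exact k22) ?_ ?_).mono ?_) ?_
    · simp [setR_reg]
    · rintro i s3 hi h55 h22 hs3 hI3
      have j54 : s3.reg 54 = q := by
        rw [hs3.1 54 (by decide), setR_reg, if_neg (by norm_num), h54]
      have j0 : s3.mem 0 = s1.mem 0 := by rw [hs3.2 0 (by decide), setR_mem, k0]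
      have j63 : s3.mem 63 = s1.mem 63 := by rw [hs3.2 63 (by decide), setR_mem, k63]
      have hidx : q * (p.P - 1) + i < p.R * (p.P - 1) := by
        calc q * (p.P - 1) + i < q * (p.P - 1) + (p.P - 1) := by omega
          _ = (q + 1) * (p.P - 1) := by ring
          _ ≤ p.R * (p.P - 1) := Nat.mul_le_mul_right _ hq
      have ev : (Expr.reg 56 + Expr.ld 63 (Expr.reg 54 * Expr.reg 22 + Expr.reg 55) *
          Expr.ld 0 (Expr.reg 55 + Expr.lit 1)).eval s3 =
          ((1 + ∑ i ∈ range (i + 1), bt (q * (p.P - 1) + i) * 2 ^ (i + 1) : ℕ) : ℤ) := by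
        simp only [eval_add, eval_mul, eval_reg, eval_ld, eval_lit, j54, h22, h55, hI3, j0, j63]
        have a1 := g63 _ hidx
        have a2 := g0 (i + 1) (by unfold Par.W; omega)
        push_cast at a1 a2 ⊢
        rw [a1, a2, Finset.sum_range_succ]
        ring
      refine Tr.asg rfl ?_ ?_
      · rw [ev]
        apply hPX
        refine lt_of_lt_of_le (sum_bits_lt (fun i => bt (q * (p.P - 1) + i)) (fun i => hb _)
          (i + 1)) (Nat.pow_le_pow_right (by norm_num) (by omega))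
      · rw [ev]
        simp only [setR_reg, Nat.reduceEqDiff, reduceIte]
    · rintro s3 - ⟨h, -⟩
      rw [h]
      unfold aR
      rw [if_pos hq]
    · rintro s3 hs3 h56
      have j54 : s3.reg 54 = q := by
        rw [hs3.1 54 (by decide), setR_reg, if_neg (by norm_num), h54]
      have j21 : s3.mem 21 = s2.mem 21 := by rw [hs3.2 21 (by decide), setR_mem]
      have j22 : s3.mem 22 = s2.mem 22 := by rw [hs3.2 22 (by decide), setR_mem]
      have j23 : s3.mem 23 = s2.mem 23 := by rw [hs3.2 23 (by decide), setR_mem]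
      refine Tr.sseq rfl rfl ?_ (Tr.sseq rfl rfl (by simp; omega) (Tr.sto rfl rfl
        (by simp; omega) ?_))
      · rw [eval_reg, h56]
        exact hPX _ (aR_lt p bt hb q)
      · intro t ht
        simp only [setR_mem, setM_mem, setM_reg, eval_reg, eval_lit, h56, j54, j21, j22, j23,
          Nat.reduceEqDiff, reduceIte, true_and, false_and, Nat.cast_inj]
        by_cases htq : t = q
        · subst htq
          simp
        · rw [if_neg (by tauto), if_neg (by tauto), if_neg (by tauto)]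
          exact hI t (by omega)
  · rintro s2 hs2 hI
    have k88 : s2.reg 88 = (p.R : ℤ) := by rw [hs2.1 88 (by decide), g88]
    refine Tr.sseq rfl rfl (by simp; omega) (Tr.sseq rfl rfl (by simp; omega) (Tr.sseq rfl rfl
      (by simp; omega) (Tr.asg rfl ?_ ?_)))
    · simp only [eval_add, eval_reg, eval_lit, setM_reg, k88]
      have := hRX (p.R + 1) le_rfl
      push_cast at this
      exact this
    · have key : ∀ t < p.R + 1, ∀ (x : ℤ) (b : ℕ) (g : ℕ → ℕ), (∀ t < p.R, s2.mem b (t : ℕ) = g t) →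
          (x = g p.R) → (if (t : ℤ) = (p.R : ℤ) then x else s2.mem b (t : ℕ)) = g t := by
        intro t ht x b g hg hx
        by_cases h : t = p.R
        · rw [if_pos (by exact_mod_cast h), h, hx]
        · rw [if_neg (by exact_mod_cast h)]
          exact hg t (by omega)
      refine ⟨?_, ?_, ?_, ?_, ?_, fun _ _ => le_rfl, fun _ _ => Nat.one_le_two_pow,
        fun _ _ => Nat.one_le_two_pow⟩
      · simp only [eval_add, eval_reg, eval_lit, setM_reg, k88, setR_reg, reduceIte]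
        push_cast; rfl
      · intro t ht
        simp only [setR_mem, setM_mem, setM_reg, eval_reg, eval_lit, k88,
          Nat.reduceEqDiff, reduceIte, true_and, false_and]
        exact key t ht _ 21 (aR p bt) (fun t ht => (hI t ht).1) (by
          unfold aR; rw [if_neg (lt_irrefl _)]; rfl)
      · intro t ht
        simp only [setR_mem, setM_mem, setM_reg, eval_reg, eval_lit, k88,
          Nat.reduceEqDiff, reduceIte, true_and, false_and]
        exact key t ht _ 22 (fun _ => 1) (fun t ht => (hI t ht).2.1) rfl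
      · intro t ht
        simp only [setR_mem, setM_mem, setM_reg, eval_reg, eval_lit, k88,
          Nat.reduceEqDiff, reduceIte, true_and, false_and]
        exact key t ht _ 23 (fun _ => 1) (fun t ht => (hI t ht).2.2) rfl
      · intro t ht
        exact (aR_lt p bt hb t).le.trans (Nat.pow_le_pow_right (by norm_num) (by omega))

end Pool.Agent.H940_dft
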