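import Pool.Agent.H940_ver.FinalA
import Pool.Agent.H940_ver.ListR

/-!
# Recovery with random bits
-/

namespace Pool.Agent.H940_dft

open Complex Finset

variable {w : ℕ} {E : Env} {s s' : St} {p : Par}

/-- Initial configurations with `n` bits: the inputs `k`, `N`, `B` are in the registers `0`, `1`,
`2`, the bit with number `t` is at address `64 t + 63`, everything else is zero. -/
def initialBits (w k N B n : ℕ) (ρ : Fin n → Bool) : Conf w where
  pc := 0
  reg := (initial w k N B).reg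
  mem := fun a => if ∃ t : Fin n, ρ t = true ∧ a = BitVec.ofNat w (64 * t + 63) then 1 else 0
  calls := 0

theorem tr_adapt_fast {f : ℤ →₀ ℂ} (h85 : s.reg 85 = 1) (hG : Good f p.B s) :
    Tr E adapt s 195 (Good f p.B) := by
  have hX := E.hX
  unfold adapt
  refine Tr.aseq (T := 130) rfl (by simp; omega) ?_
  refine (Tr.loopD 0 (fun _ => 0) (fun _ s1 => s1.reg 85 = 1 ∧ Good f p.B s1) rfl rfl
    (fun q s' hq => absurd hq (Nat.not_lt_zero _)) ?_ ?_ ?_).le (le_of_eq (by simp))
  · rintro q s1 - - ⟨-, h⟩ -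
    exact h
  · rintro s1 - ⟨h, -⟩
    simp only [eval_reg, eval_lit, h]
    norm_num
  · exact ⟨by simpa [setR_reg] using h85, hG.keep (by simp [setR_reg]) rfl rfl rfl⟩

open Classical in
/-- Cost of the last step. -/
noncomputable def clast (p : Par) (V : Prop) : ℕ := if V then 195 else p.cadapt p.k

theorem tr_rand {f : ℤ →₀ ℂ} (hE : EnvOK p E) (hg : GX p E s) (hO : OracleOK E f)
    (ha : Adm p f) (hc : p.c = 5) (h2 : s.reg 2 = p.B) {bt : ℕ → ℕ}
    (hb : ∀ t, bt t ≤ 1) (h63 : ∀ t < p.R * (p.P - 1), s.mem 63 (t : ℕ) = bt t) :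
    Tr E (seqs [listR, find, verify, adapt]) s (p.clistR + (p.cfind (p.R + 1) + (p.cver +
      clast p (VisL p f (p.R + 1) (aR p bt) (fun _ => 1) (fun _ => 1))))) (Good f p.B) := by
  have e0 : seqs [listR, find, verify, adapt] =
    .seq listR (.seq find (.seq verify adapt)) := rfl
  rw [e0]
  refine Tr.seq (tr_listR hE hg.toGlob h2 hb h63) ?_
  rintro s1 hs1 hL
  have hg1 : GX p E s1 := hg.same hs1 (by decide)
  refine tr_attempt hE hg1 hO ha hc hL (by omega) (by
    unfold aR; rw [if_neg (by omega)]) ?_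
  rintro s2 hs2 hg2 hR hV
  unfold clast
  split_ifs with hv
  · have h85 := hV hv
    rcases hR with ⟨-, h⟩ | ⟨h3, -⟩
    · exact tr_adapt_fast h85 h
    · rw [h85] at h3; exact absurd h3 (by norm_num)
  · refine tr_adapt hE hg2 hO ha hc p.hk le_rfl (tameN_self ha.card) ?_
    rcases hR with h | ⟨h, -⟩
    · exact Or.inr h
    · exact Or.inl h

/-- The program for the recovery with random bits. -/
def programR : List Instr := prologue ++ mainR.compile 9

theorem mainR_rb : mainR.rb = true := by decide +kernel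

/-- The bits as natural numbers. -/
def bitOf {n : ℕ} (ρ : Fin n → Bool) (t : ℕ) : ℕ := if h : t < n then (ρ ⟨t, h⟩).toNat else 0

theorem bitOf_le {n : ℕ} (ρ : Fin n → Bool) (t : ℕ) : bitOf ρ t ≤ 1 := by
  unfold bitOf
  split_ifs
  · exact Bool.toNat_le _
  · omega

/-- Number of random bits. -/
def Par.nb (p : Par) : ℕ := p.R * (p.P - 1)

theorem initialBits_mem (p : Par) (hw : w = wordLength (Vc p.c : ℝ) p.N p.B)
    (ρ : Fin p.nb → Bool) (t : ℕ) (ht : t < p.nb) :
    ((initialBits w p.k p.N p.B p.nb ρ).mem (BitVec.ofInt w (64 * (t : ℤ) + 63))).toInt =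
      bitOf ρ t := by
  have hl := p.l_ge
  have w1 := (wl_bounds p).1
  rw [← hw] at w1
  have hcl2 : 6410 * p.l ≤ (6410 + 128 * p.c) * p.l := Nat.mul_le_mul_right _ (by omega)
  have hnb : p.nb ≤ 2 ^ (6 * p.l) := by
    unfold Par.nb
    calc p.R * (p.P - 1) ≤ 2 ^ (5 * p.l) * 2 ^ p.l := by
          apply Nat.mul_le_mul
          · have := p.R_le; omega
          · have := p.P_le_l
            have := Par.n_le_pow p.l
            omega
      _ = 2 ^ (6 * p.l) := by rw [← pow_add]; congr 1; ring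
  have hsz : ∀ t : ℕ, t < p.nb → 64 * t + 63 < 2 ^ w := by
    intro t ht
    calc 64 * t + 63 < 64 * 2 ^ (6 * p.l) := by omega
      _ = 2 ^ (6 + 6 * p.l) := by rw [pow_add]; norm_num
      _ ≤ 2 ^ w := Nat.pow_le_pow_right (by norm_num) (by omega)
  have e : BitVec.ofInt w (64 * (t : ℤ) + 63) = BitVec.ofNat w (64 * t + 63) := by
    rw [ofNat_eq_ofInt]; push_cast; rfl
  rw [e]
  have hiff : (∃ t' : Fin p.nb, ρ t' = true ∧
      BitVec.ofNat w (64 * t + 63) = BitVec.ofNat w (64 * t' + 63)) ↔ ρ ⟨t, ht⟩ = true := by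
    constructor
    · rintro ⟨t', h1, h2⟩
      have h3 := congrArg BitVec.toNat h2
      rw [BitVec.toNat_ofNat, BitVec.toNat_ofNat, Nat.mod_eq_of_lt (hsz t ht),
        Nat.mod_eq_of_lt (hsz t' t'.2)] at h3
      have h4 : t' = ⟨t, ht⟩ := by
        apply Fin.ext
        show (t' : ℕ) = t
        omega
      rw [← h4]; exact h1
    · intro h
      exact ⟨⟨t, ht⟩, h, rfl⟩
  have one : ((1 : BitVec w)).toInt = 1 := by
    have h1 : (1 : BitVec w) = BitVec.ofInt w 1 := by
      have : (1 : BitVec w) = BitVec.ofNat w 1 := rfl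
      rw [this, ofNat_eq_ofInt]; rfl
    rw [h1, BitVec.toInt_ofInt]
    have h5 : (4 : ℤ) ≤ 2 ^ w := by
      calc (4 : ℤ) = 2 ^ 2 := by norm_num
        _ ≤ 2 ^ w := pow_le_pow_right₀ (by norm_num) (by omega)
    apply Int.bmod_eq_of_le
    · push_cast; omega
    · push_cast; omega
  show (if ∃ t' : Fin p.nb, ρ t' = true ∧
      BitVec.ofNat w (64 * t + 63) = BitVec.ofNat w (64 * t' + 63) then (1 : BitVec w)
        else 0).toInt = _
  unfold bitOf
  rw [dif_pos ht]
  by_cases h : ρ ⟨t, ht⟩ = true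
  · rw [if_pos (hiff.2 h), one, h]; rfl
  · rw [if_neg (fun h' => h (hiff.1 h'))]
    rw [Bool.not_eq_true] at h
    rw [h]
    simp

/-- Bound for the running time. -/
noncomputable def timeR (p : Par) (w : ℕ) (f : ℤ →₀ ℂ) (ρ : Fin p.nb → Bool) : ℕ :=
  5 + 5 * w + 20 * (p.cinitx w + (p.clistR + (p.cfind (p.R + 1) + (p.cver +
    clast p (VisL p f (p.R + 1) (aR p (bitOf ρ)) (fun _ => 1) (fun _ => 1))))))

/-- Correctness of the program. -/
theorem programR_correct (p : Par) (hc : p.c = 5)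
    (hw : w = wordLength (Vc p.c : ℝ) p.N p.B)
    {f : ℤ →₀ ℂ} (ha : Adm p f) {O : ℕ → ℕ → ℕ → ℤ × ℤ} (hO : IsOracle w f O)
    (ρ : Fin p.nb → Bool) :
    ∃ T : ℕ, T ≤ timeR p w f ρ ∧ ∃ cf : Conf w,
      Runs programR O T (initialBits w p.k p.N p.B p.nb ρ) cf ∧ Halted programR cf ∧
        cf.output p.B = {q | q.1 ∈ f.support ∧ q.2 = f q.1} := by
  have h39 : (initialBits w p.k p.N p.B p.nb ρ).reg 39 = 0 := rfl
  have hX : (0 : ℤ) ≤ 2 ^ p.x := by positivity
  have hini : Ini p.k p.N p.B (initialBits w p.k p.N p.B p.nb ρ) := by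
    obtain ⟨h1, h2, h3, h4, h5, h6⟩ := initial_ini w p.k p.N p.B
    exact ⟨rfl, rfl, h3, h4, h5, h6⟩
  have hw2 : 2 ≤ w := by
    have hl := p.l_ge
    have w1 := (wl_bounds p).1
    rw [← hw] at w1
    have hcl2 : 6410 * p.l ≤ (6410 + 128 * p.c) * p.l := Nat.mul_le_mul_right _ (by omega)
    omega
  obtain ⟨n, hn, cf, s', hr, hh, hfin, hQ⟩ := mach_run p hw ha hO mainR_rb hini (fun a => by
      show |((if ∃ t : Fin p.nb, ρ t = true ∧ a = BitVec.ofNat w (64 * t + 63)
        then (1 : BitVec w) else 0)).toInt| ≤ 2 ^ p.x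
      have h1 : (1 : ℤ) ≤ 2 ^ p.x := one_le_pow₀ (by norm_num)
      split_ifs
      · have e1 : (1 : BitVec w).toInt = 1 := by
          have h1 : (1 : BitVec w) = BitVec.ofInt w 1 := by
            have : (1 : BitVec w) = BitVec.ofNat w 1 := rfl
            rw [this, ofNat_eq_ofInt]; rfl
          rw [h1, BitVec.toInt_ofInt]
          have h5 : (4 : ℤ) ≤ 2 ^ w := by
            calc (4 : ℤ) = 2 ^ 2 := by norm_num
              _ ≤ 2 ^ w := pow_le_pow_right₀ (by norm_num) hw2
          apply Int.bmod_eq_of_le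
          · push_cast; omega
          · push_cast; omega
        rw [e1, abs_one]; exact h1
      · simp)
    (by rw [h39]; simp)
    (T := p.cinitx w + (p.clistR + (p.cfind (p.R + 1) + (p.cver +
      clast p (VisL p f (p.R + 1) (aR p (bitOf ρ)) (fun _ => 1) (fun _ => 1))))))
    (Q := Good f p.B) (by
    intro E hEw hE hOE hinp
    obtain ⟨s0, hs0⟩ : ∃ s0, s0 = startX (initialBits w p.k p.N p.B p.nb ρ) p.k p.N p.B := ⟨_, rfl⟩
    rw [← hs0] at hinp ⊢
    unfold mainR
    refine Tr.seq (T₁ := p.cinitx w) (R := fun s' => GX p E s' ∧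
      (∀ b : ℕ, 5 ≤ b → ∀ i : ℕ, s'.mem b i = s0.mem b i) ∧ s'.reg 39 = s0.reg 39 ∧
      s'.reg 85 = s0.reg 85) ?_ ?_
    · have := tr_initAll hE hinp (m := fun b i => s0.mem b i) (fun _ _ _ => rfl)
      rw [hc, hEw] at this
      exact this
    · rintro s1 hs1 ⟨hg1, hm1, h39, h85⟩
      have h2 : s1.reg 2 = p.B := by
        rw [hs1.1 2 (by decide), hinp.r2]
      refine tr_rand hE hg1 hOE ha hc h2 (bitOf_le ρ) ?_
      intro t ht
      rw [hm1 63 (by norm_num), hs0]
      simp only [startX]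
      rw [if_pos (by norm_num)]
      exact initialBits_mem p hw ρ t ht)
  exact ⟨n, hn, cf, hr, hh, hfin.output ha hQ⟩

end Pool.Agent.H940_dft
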