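import Pool.Agent.H940_ver.Mach
import Pool.Agent.H940_ver.CostV

/-!
# Verification: the final theorem
-/

namespace Pool.Agent.H940_dft

open Complex Finset

variable {w : ℕ}

/-- Initial configurations for the verification of `f₀`: the inputs `k`, `N`, `B` are in the
registers `0`, `1`, `2`, the frequencies and coefficients of `f₀` are stored as a list of `k`
entries in the format of the output, and everything else is zero. -/
structure Holds (k N B : ℕ) (f₀ : ℤ →₀ ℂ) (c : Conf w) : Prop where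
  pc : c.pc = 0
  calls : c.calls = 0
  r0 : c.reg 0 = BitVec.ofNat w k
  r1 : c.reg 1 = BitVec.ofNat w N
  r2 : c.reg 2 = BitVec.ofNat w B
  r39 : (c.reg 39).toNat = k
  rest : ∀ r, r ≠ 0 → r ≠ 1 → r ≠ 2 → r ≠ 39 → c.reg r = 0
  list : c.output B = {q | q.1 ∈ f₀.support ∧ q.2 = f₀ q.1}
  mem : ∀ a, (∀ t < k, a ≠ BitVec.ofNat w (64 * t + 17) ∧ a ≠ BitVec.ofNat w (64 * t + 18) ∧
    a ≠ BitVec.ofNat w (64 * t + 19)) → c.mem a = 0

/-- The program for the verification. -/
def programV : List Instr := prologue ++ mainV.compile 9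

theorem mainV_rb : mainV.rb = true := by decide +kernel

theorem Holds.ini {k N B : ℕ} {f₀ : ℤ →₀ ℂ} {c : Conf w} (h : Holds k N B f₀ c) : Ini k N B c :=
  ⟨h.pc, h.calls, h.r0, h.r1, h.r2, h.rest⟩

/-- Entries of the stored list. -/
theorem Holds.ent {k N B : ℕ} {f₀ : ℤ →₀ ℂ} {c : Conf w} (h : Holds k N B f₀ c) :
    ∀ t < k, (c.mem (BitVec.ofNat w (64 * t + 17))).toInt ∈ f₀.support ∧
      f₀ (c.mem (BitVec.ofNat w (64 * t + 17))).toInt =
        (((c.mem (BitVec.ofNat w (64 * t + 18))).toInt : ℂ) +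
          ((c.mem (BitVec.ofNat w (64 * t + 19))).toInt : ℂ) * Complex.I) / 2 ^ B := by
  intro t ht
  have h1 : ((c.mem (BitVec.ofNat w (64 * t + 17))).toInt,
      (((c.mem (BitVec.ofNat w (64 * t + 18))).toInt : ℂ) +
        ((c.mem (BitVec.ofNat w (64 * t + 19))).toInt : ℂ) * Complex.I) / 2 ^ B) ∈ c.output B :=
    ⟨t, by rw [h.r39]; exact ht, rfl⟩
  rw [h.list] at h1
  exact ⟨h1.1, h1.2.symm⟩

theorem Holds.surj {k N B : ℕ} {f₀ : ℤ →₀ ℂ} {c : Conf w} (h : Holds k N B f₀ c) :
    ∀ ω ∈ f₀.support, ∃ t < k, (c.mem (BitVec.ofNat w (64 * t + 17))).toInt = ω := by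
  intro ω hω
  have h1 : (ω, f₀ ω) ∈ c.output B := by rw [h.list]; exact ⟨hω, rfl⟩
  obtain ⟨t, ht, h2⟩ := h1
  rw [h.r39] at ht
  exact ⟨t, ht, (congrArg Prod.fst h2).symm⟩

theorem Holds.inj {k N B : ℕ} {f₀ : ℤ →₀ ℂ} {c : Conf w} (h : Holds k N B f₀ c)
    (hcard : f₀.support.card = k) : ∀ i < k, ∀ j < k,
      (c.mem (BitVec.ofNat w (64 * i + 17))).toInt = (c.mem (BitVec.ofNat w (64 * j + 17))).toInt →
      i = j := by
  have h1 : (range k).image (fun t => (c.mem (BitVec.ofNat w (64 * t + 17))).toInt) = f₀.support := by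
    ext ω
    rw [mem_image]
    constructor
    · rintro ⟨t, ht, rfl⟩
      exact (h.ent t (mem_range.1 ht)).1
    · intro hω
      obtain ⟨t, ht, h2⟩ := h.surj ω hω
      exact ⟨t, mem_range.2 ht, h2⟩
  have h2 : ((range k).image (fun t => (c.mem (BitVec.ofNat w (64 * t + 17))).toInt)).card =
      (range k).card := by rw [h1, hcard, card_range]
  have h3 := Finset.card_image_iff.1 h2
  intro i hi j hj hij
  exact h3 (by simpa using hi) (by simpa using hj) hij

theorem re_im_bound {p : Par} {f₀ : ℤ →₀ ℂ} (ha : Adm p f₀) {ω : ℤ} (hω : ω ∈ f₀.support)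
    {re im : ℤ} (h : f₀ ω = ((re : ℂ) + (im : ℂ) * Complex.I) / 2 ^ p.B) :
    |re| ≤ 2 ^ (2 * p.B) ∧ |im| ≤ 2 ^ (2 * p.B) := by
  have h1 := ha.upper ω hω
  rw [h, norm_div, norm_pow, Complex.norm_ofNat, div_le_iff₀ (by positivity)] at h1
  have e : (2 : ℝ) ^ p.B * 2 ^ p.B = 2 ^ (2 * p.B) := by rw [← pow_add]; congr 1; ring
  rw [e] at h1
  exact ⟨abs_le_of_real ((abs_le_norm_re _ _).trans h1),
    abs_le_of_real ((abs_le_norm_im _ _).trans h1)⟩

theorem Holds.bound {p : Par} {f₀ : ℤ →₀ ℂ} (ha : Adm p f₀) {c : Conf w}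
    (h : Holds p.k p.N p.B f₀ c) (a : BitVec w) : |(c.mem a).toInt| ≤ 2 ^ p.x := by
  have hl := p.l_ge
  have hx := p.le_x (a := 2) (b := 0) (by norm_num) (by norm_num)
  have hlPB : p.l = p.P + p.B := rfl
  have hx2 : (2 : ℤ) ^ (2 * p.B) ≤ 2 ^ p.x := pow_le_pow_right₀ (by norm_num) (by omega)
  have hx3 : (2 : ℤ) ^ (p.P - 1) ≤ 2 ^ p.x := pow_le_pow_right₀ (by norm_num) (by omega)
  by_cases hc : ∀ t < p.k, a ≠ BitVec.ofNat w (64 * t + 17) ∧ a ≠ BitVec.ofNat w (64 * t + 18) ∧
    a ≠ BitVec.ofNat w (64 * t + 19)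
  · rw [h.mem a hc]
    simp
  · push Not at hc
    obtain ⟨t, ht, h1⟩ := hc
    obtain ⟨e1, e2⟩ := h.ent t ht
    obtain ⟨b1, b2⟩ := re_im_bound ha e1 e2
    by_cases ha17 : a = BitVec.ofNat w (64 * t + 17)
    · rw [ha17]
      have := ha.lt e1
      omega
    · by_cases ha18 : a = BitVec.ofNat w (64 * t + 18)
      · rw [ha18]; omega
      · rw [h1 ha17 ha18]; omega

/-- Correctness of the verification program. -/
theorem programV_correct (p : Par) (hc : p.c = 5)
    (hw : w = wordLength (Vc p.c : ℝ) p.N p.B)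
    {f f₀ : ℤ →₀ ℂ} (ha : Adm p f) (ha₀ : Adm p f₀) {O : ℕ → ℕ → ℕ → ℤ × ℤ} (hO : IsOracle w f O)
    {c₀ : Conf w} (h0 : Holds p.k p.N p.B f₀ c₀) :
    ∃ T : ℕ, T ≤ 5 + 5 * w + 20 * (p.cinitx w + p.cver) ∧ ∃ cf : Conf w,
      Runs programV O T c₀ cf ∧ Halted programV cf ∧
        (f = f₀ → cf.reg 85 = BitVec.ofNat w 1) ∧ (f ≠ f₀ → cf.reg 85 = BitVec.ofNat w 0) := by
  have hl := p.l_ge
  have hlPB : p.l = p.P + p.B := rfl
  have hk39 : |(c₀.reg 39).toInt| ≤ 2 ^ p.x ∧ (c₀.reg 39).toInt = p.k := by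
    have h1 := h0.r39
    have h2 := (wl_bounds p).1
    rw [← hw] at h2
    have hkP : p.k < 2 ^ p.P := by
      have h3 := p.lt_P
      have h4 := p.hkN
      omega
    have h5 : p.P + 1 ≤ w := by
      have : 1 * p.l ≤ (6410 + 128 * p.c) * p.l := Nat.mul_le_mul_right _ (by omega)
      have h6 := p.hB
      omega
    have e : (c₀.reg 39).toInt = p.k := by
      rw [BitVec.toInt_eq_toNat_cond, h1]
      rw [if_pos]
      calc 2 * p.k < 2 * 2 ^ p.P := by omega
        _ = 2 ^ (p.P + 1) := by rw [pow_succ']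
        _ ≤ 2 ^ w := Nat.pow_le_pow_right (by norm_num) h5
    refine ⟨?_, e⟩
    rw [e, abs_of_nonneg (Int.natCast_nonneg _)]
    exact p.k_le_x
  -- the abstract initial state
  obtain ⟨s0, hs0⟩ : ∃ s0, s0 = startX c₀ p.k p.N p.B := ⟨_, rfl⟩
  have hmem : ∀ b : ℕ, b < 64 → ∀ t : ℕ, s0.mem b t =
      (c₀.mem (BitVec.ofNat w (64 * t + b))).toInt := by
    intro b hb t
    rw [hs0]
    simp only [startX]
    rw [if_pos hb]
    have : BitVec.ofNat w (64 * t + b) = BitVec.ofInt w (64 * (t : ℤ) + b) := by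
      rw [ofNat_eq_ofInt]; push_cast; rfl
    rw [this]
  have hent := h0.ent
  have hinj := h0.inj ha₀.card
  have hF : FOut p s0 p.k := by
    refine ⟨?_, ?_, ?_, ?_, ?_, ?_⟩
    · rw [hs0]
      show (c₀.reg 39).toInt = p.k
      exact hk39.2
    · have := p.k_le
      rw [pow_succ]; omega
    · intro i hi
      rw [hmem 17 (by norm_num)]
      exact (ha₀.lt (hent i hi).1).le
    · intro i hi j hj hij
      rw [hmem 17 (by norm_num), hmem 17 (by norm_num)] at hij
      apply hinj i hi j hj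
      have hP := p.P_ge
      rw [← cen_eq (P := p.P) (by omega) (ha₀.lt (hent i hi).1), hij,
        cen_eq (P := p.P) (by omega) (ha₀.lt (hent j hj).1)]
    · intro i hi
      rw [hmem 18 (by norm_num)]
      exact (re_im_bound ha₀ (hent i hi).1 (hent i hi).2).1.trans
        (pow_le_pow_right₀ (by norm_num) (by omega))
    · intro i hi
      rw [hmem 19 (by norm_num)]
      exact (re_im_bound ha₀ (hent i hi).1 (hent i hi).2).2.trans
        (pow_le_pow_right₀ (by norm_num) (by omega))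
  have hiff : Good f p.B s0 ↔ f = f₀ := by
    constructor
    · intro hG
      have hcard := ha.card
      have hsupp : f.support = f₀.support := by
        have h1 : (range p.k).image (fun t : ℕ => s0.mem 17 (t : ℤ)) ⊆ f.support := by
          intro ω hω
          rw [mem_image] at hω
          obtain ⟨t, ht, rfl⟩ := hω
          exact hG.mem t (by rw [hcard]; exact mem_range.1 ht)
        have h2 : (range p.k).image (fun t : ℕ => s0.mem 17 (t : ℤ)) = f₀.support := by
          ext ω
          rw [mem_image]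
          constructor
          · rintro ⟨t, ht, rfl⟩
            rw [hmem 17 (by norm_num)]
            exact (hent t (mem_range.1 ht)).1
          · intro hω
            obtain ⟨t, ht, h2⟩ := h0.surj ω hω
            exact ⟨t, mem_range.2 ht, by rw [hmem 17 (by norm_num)]; exact h2⟩
        rw [h2] at h1
        exact (Finset.eq_of_subset_of_card_le h1 (by rw [ha.card, ha₀.card])).symm
      ext ω
      by_cases hω : ω ∈ f₀.support
      · obtain ⟨t, ht, h2⟩ := h0.surj ω hω
        have h3 := hG.val t (by rw [hcard]; exact ht)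
        rw [hmem 17 (by norm_num), hmem 18 (by norm_num), hmem 19 (by norm_num),
          ← (hent t ht).2, h2] at h3
        exact h3
      · have h3 : ω ∉ f.support := by rw [hsupp]; exact hω
        rw [Finsupp.mem_support_iff, not_not] at hω h3
        rw [hω, h3]
    · rintro rfl
      refine ⟨?_, ?_, ?_, ?_⟩
      · rw [hF.r39, ha.card]
      · rw [ha.card]
        intro t ht
        rw [hmem 17 (by norm_num)]
        exact (hent t ht).1
      · rw [ha.card]
        intro t ht
        rw [hmem 17 (by norm_num), hmem 18 (by norm_num), hmem 19 (by norm_num)]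
        exact (hent t ht).2
      · rw [ha.card]
        intro t ht t' ht' heq
        rw [hmem 17 (by norm_num), hmem 17 (by norm_num)] at heq
        exact hinj t ht t' ht' heq
  obtain ⟨n, hn, cf, s', hr, hh, hfin, hQ⟩ := mach_run p hw ha hO mainV_rb h0.ini (h0.bound ha₀)
    hk39.1 (T := p.cinitx w + p.cver) (Q := fun s' => (s'.reg 85 = 1 ∧ Good f p.B s0) ∨
      (s'.reg 85 = 0 ∧ ¬ Good f p.B s0)) (by
    intro E hEw hE hOE hinp
    rw [← hs0] at hinp ⊢
    unfold mainV
    refine Tr.seq (T₁ := p.cinitx w) (R := fun s' => GX p E s' ∧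
      (∀ b : ℕ, 5 ≤ b → ∀ i : ℕ, s'.mem b i = s0.mem b i) ∧ s'.reg 39 = s0.reg 39 ∧
      s'.reg 85 = s0.reg 85) ?_ ?_
    · have := tr_initAll hE hinp (m := fun b i => s0.mem b i) (fun _ _ _ => rfl)
      rw [hc, hEw] at this
      exact this
    · rintro s1 - ⟨hg1, hm1, h39, -⟩
      have hF1 : FOut p s1 p.k := by
        refine ⟨by rw [h39]; exact hF.r39, hF.n_le, ?_, ?_, ?_, ?_⟩
        · intro i hi; rw [hm1 17 (by norm_num)]; exact hF.freq i hi
        · intro i hi j hj; rw [hm1 17 (by norm_num), hm1 17 (by norm_num)]; exact hF.inj i hi j hj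
        · intro i hi; rw [hm1 18 (by norm_num)]; exact hF.re i hi
        · intro i hi; rw [hm1 19 (by norm_num)]; exact hF.im i hi
      have hGG : Good f p.B s1 ↔ Good f p.B s0 := by
        constructor
        · intro hG
          refine ⟨by rw [← h39]; exact hG.count, ?_, ?_, ?_⟩
          · intro t ht; rw [← hm1 17 (by norm_num)]; exact hG.mem t ht
          · intro t ht
            rw [← hm1 17 (by norm_num), ← hm1 18 (by norm_num), ← hm1 19 (by norm_num)]
            exact hG.val t ht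
          · intro t ht t' ht'
            rw [← hm1 17 (by norm_num), ← hm1 17 (by norm_num)]
            exact hG.inj t ht t' ht'
        · intro hG
          refine ⟨by rw [h39]; exact hG.count, ?_, ?_, ?_⟩
          · intro t ht; rw [hm1 17 (by norm_num)]; exact hG.mem t ht
          · intro t ht
            rw [hm1 17 (by norm_num), hm1 18 (by norm_num), hm1 19 (by norm_num)]
            exact hG.val t ht
          · intro t ht t' ht'
            rw [hm1 17 (by norm_num), hm1 17 (by norm_num)]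
            exact hG.inj t ht t' ht'
      have := tr_verify hE hg1 hOE ha hc hF1
      rw [hGG] at this
      exact this)
  refine ⟨n, hn, cf, hr, hh, ?_, ?_⟩
  · intro hff
    have h85 : s'.reg 85 = 1 := by
      rcases hQ with ⟨h1, -⟩ | ⟨-, h2⟩
      · exact h1
      · exact absurd (hiff.2 hff) h2
    rw [hfin.sim.reg 85 (by norm_num), h85, ofNat_eq_ofInt]
    rfl
  · intro hff
    have h85 : s'.reg 85 = 0 := by
      rcases hQ with ⟨-, h2⟩ | ⟨h1, -⟩
      · exact absurd (hiff.1 h2) hff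
      · exact h1
    rw [hfin.sim.reg 85 (by norm_num), h85, ofNat_eq_ofInt]
    rfl

end Pool.Agent.H940_dft
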