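import Pool.Agent.H940_ver.RoundV

/-!
# The verification
-/

namespace Pool.Agent.H940_dft

open Complex Finset

variable {E : Env} {s s' : St} {p : Par}

/-- The data of a verification. -/
structure VD (p : Par) (n : ℕ) (C W re im : ℕ → ℤ) (s : St) : Prop where
  r26 : s.reg 26 = n
  r27 : s.reg 27 = 1
  m5 : ∀ i < n, s.mem 5 (i : ℕ) = C i
  m17 : ∀ i < n, s.mem 17 (i : ℕ) = W i
  m18 : ∀ i < n, s.mem 18 (i : ℕ) = re i
  m19 : ∀ i < n, s.mem 19 (i : ℕ) = im i

theorem VD.of {n : ℕ} {C W re im : ℕ → ℤ} (h : VD p n C W re im s) {c : Cmd} (hs : Same c s s')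
    (hc : (decide (26 ∉ c.wr) && decide (27 ∉ c.wr) && decide (5 ∉ c.wm) && decide (17 ∉ c.wm) &&
      decide (18 ∉ c.wm) && decide (19 ∉ c.wm)) = true) : VD p n C W re im s' := by
  simp only [Bool.and_eq_true, decide_eq_true_eq] at hc
  obtain ⟨⟨⟨⟨⟨h1, h2⟩, h3⟩, h4⟩, h5⟩, h6⟩ := hc
  refine ⟨by rw [hs.1 26 h1, h.r26], by rw [hs.1 27 h2, h.r27], ?_, ?_, ?_, ?_⟩
  · rw [hs.2 5 h3]; exact h.m5
  · rw [hs.2 17 h4]; exact h.m17
  · rw [hs.2 18 h5]; exact h.m18
  · rw [hs.2 19 h6]; exact h.m19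

/-- State after `t` rounds of the verification. -/
structure RV (p : Par) (f : ℤ →₀ ℂ) (n T : ℕ) (C W re im : ℕ → ℤ) (a m : ℕ → ℕ) (v0 : ℤ)
    (t : ℕ) (s : St) : Prop where
  few : 2 ^ t * (act n (s.mem 8)).card ≤ n
  flg : Flg v0 (s.reg 85)
    (∃ σ : ℕ → ℤ, ∀ i < n, ¬ s.mem 8 (i : ℕ) < 1 → ∃ r < t, nb p (σ r) n C i < 2 ∧
      ∀ q < T, ‖dev p f (σ r) 1 (C i) ((a q : ℝ) / m q) (W i) (re i) (im i)‖ ≤ 45)
    (∃ σ : ℤ, ∃ i < n, nb p σ n C i < 2 ∧
      ∃ q < T, 19 < ‖dev p f σ 1 (C i) ((a q : ℝ) / m q) (W i) (re i) (im i)‖)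

theorem phi_congr {n : ℕ} {C C' : ℕ → ℤ} {A : Finset ℕ} {P u b σ : ℕ} (hA : ∀ i ∈ A, i < n)
    (h : ∀ i < n, C i = C' i) : Phi P u n A C b σ = Phi P u n A C' b σ := by
  unfold Phi
  refine Finset.sum_congr rfl (fun v _ => Finset.sum_congr rfl (fun i' hi' =>
    Finset.sum_congr rfl (fun i hi => ?_)))
  rw [h i (mem_range.1 hi), h i' (hA i' hi')]

theorem nb_congr {n : ℕ} {C C' : ℕ → ℤ} {σ : ℤ} (h : ∀ i < n, C i = C' i) {i : ℕ} (hi : i < n) :
    nb p σ n C i < 2 ↔ nb p σ n C' i < 2 := by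
  rw [nb_iff hi, nb_iff hi]
  constructor
  · intro h1 i' hi' hne j hj
    rw [← h i hi, ← h i' hi']; exact h1 i' hi' hne j hj
  · intro h1 i' hi' hne j hj
    rw [h i hi, h i' hi']; exact h1 i' hi' hne j hj

/-- Cost of a round of the verification. -/
def Par.crndV (p : Par) (n T : ℕ) : ℕ :=
  p.csel n + (p.ciso n + ((T * (p.cshV n + 200) + 200) + (n * 460 + 200)))

theorem tr_roundV (hE : EnvOK p E) (hg : GX p E s) {f : ℤ →₀ ℂ} (hO : OracleOK E f)
    (hM : ∑ ω ∈ f.support, ‖f ω‖ ≤ 2 ^ p.l) {Λ T : ℕ} {a m u : ℕ → ℕ}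
    (hL : Lst p s (2 ^ p.P) Λ T a m u) {n t : ℕ} {C W re im : ℕ → ℤ} {v0 : ℤ}
    (hF : FOut p s n) (hV : VD p n C W re im s) (hC : Stc p C n)
    (hR : RV p f n T C W re im a m v0 t s) :
    Tr E roundV s (p.crndV n T) (RV p f n T C W re im a m v0 (t + 1)) := by
  have hX := E.hX
  have hnP : n ≤ 2 ^ p.P := hC.n_le.trans (Nat.pow_le_pow_right (by norm_num) (by
    have := p.mu_lt; unfold Par.mu at this; omega))
  have hcand : ∀ s1 : St, s1.mem 5 = s.mem 5 → ∀ i < n, cand s1 i = C i := by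
    intro s1 h i hi
    unfold cand; rw [h]; exact hV.m5 i hi
  unfold roundV
  simp only [seqs]
  unfold Par.crndV
  refine Tr.seq (tr_select hE hg.toBase hV.r26 hnP) ?_
  rintro s1 hs1 ⟨σ, h28, hphi⟩
  have hg1 : GX p E s1 := hg.same hs1 (by decide)
  have a5 : s1.mem 5 = s.mem 5 := hs1.2 5 (by decide)
  have a8 : s1.mem 8 = s.mem 8 := hs1.2 8 (by decide)
  have hV1 := hV.of hs1 (by decide)
  have hphi' : Phi p.P p.u n (act n (s.mem 8)) C p.P σ ≤
      32 * 2 ^ p.u * ((act n (s.mem 8)).card * n) := by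
    have e := phi_congr (n := n) (C := cand s) (C' := C) (A := act n (s.mem 8)) (P := p.P)
      (u := p.u) (b := p.P) (σ := σ) (fun i hi => mem_range.1 (mem_filter.1 hi).1) (hcand s rfl)
    rw [← e]
    exact hphi
  refine Tr.seq (tr_isolate (σ := σ) hg1.toBase hV1.r26 h28 hnP hE) ?_
  rintro s2 hs2 h9
  rw [a8] at h9
  have hg2 : GX p E s2 := hg1.same hs2 (by decide)
  have b28 : s2.reg 28 = σ := by rw [hs2.1 28 (by decide), h28]
  have b8 : s2.mem 8 = s.mem 8 := by rw [hs2.2 8 (by decide), a8]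
  have hV2 := hV1.of hs2 (by decide)
  have hF1 := hF.of hs1 (by decide)
  have hF2 := hF1.of hs2 (by decide)
  have hL2 : Lst p s2 (2 ^ p.P) Λ T a m u :=
    ⟨(hL.toSL.of hs1 (by decide)).of hs2 (by decide), hL.T_le, hL.T_pos, hL.u_eq, hL.a_lt,
      hL.m_leL, hL.cov, hL.last⟩
  have h9' : ∀ i < n, (0 < s2.mem 9 (i : ℕ) ↔ (nb p σ n C i < 2 ∧ s.mem 8 i < 1)) := by
    intro i hi
    have e := nb_congr (p := p) (σ := σ) (hcand s1 a5) hi
    rw [h9 i hi]
    split_ifs with h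
    · exact ⟨fun _ => ⟨e.1 h.1, h.2⟩, fun _ => by norm_num⟩
    · exact ⟨fun h' => by omega, fun h' => absurd ⟨e.2 h'.1, h'.2⟩ h⟩
  refine Tr.seq (tr_shiftsV hE hg2 hO hM hL2 hV2.r26 b28 hV2.r27 hF2) ?_
  rintro s3 hs3 hS
  have hV3 := hV2.of hs3 (by decide)
  have c8 : s3.mem 8 = s.mem 8 := by rw [hs3.2 8 (by decide), b8]
  have c9 : s3.mem 9 = s2.mem 9 := hs3.2 9 (by decide)
  have d85 : s2.reg 85 = s.reg 85 := by rw [hs2.1 85 (by decide), hs1.1 85 (by decide)]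
  refine (tr_markDone hV3.r26).mono ?_
  rintro s4 hs4 hI
  rw [c9, c8] at hI
  have d85' : s4.reg 85 = s3.reg 85 := hs4.1 85 (by decide)
  have h8 : ∀ i < n, s4.mem 8 (i : ℕ) < 1 → ¬ 0 < s2.mem 9 (i : ℕ) ∧ s.mem 8 (i : ℕ) < 1 := by
    intro i hi h
    rw [hI i] at h
    split_ifs at h with h'
    · omega
    · exact ⟨fun h'' => h' ⟨hi, h''⟩, h⟩
  refine ⟨?_, ?_⟩
  · refine few_step2 (D := s.mem 8) (D' := s4.mem 8) hC hphi' hR.few ?_
    intro i hi h
    obtain ⟨h1, h2⟩ := h8 i hi h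
    exact ⟨h2, fun h3 => h1 ((h9' i hi).2 ⟨h3, h2⟩)⟩
  · unfold ShV at hS
    rw [d85] at hS
    rw [d85']
    refine (hR.flg.and hS).imp ?_ ?_
    · rintro ⟨⟨τ, hτ⟩, h3⟩
      refine ⟨fun r => if r = t then (σ : ℤ) else τ r, ?_⟩
      intro i hi hd
      by_cases hact : 0 < s2.mem 9 (i : ℕ)
      · refine ⟨t, by omega, ?_⟩
        simp only [if_true]
        refine ⟨((h9' i hi).1 hact).1, ?_⟩
        intro q hq
        have := h3 q hq i hi hact
        rwa [hV2.m5 i hi, hV2.m17 i hi, hV2.m18 i hi, hV2.m19 i hi] at this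
      · have hD : ¬ s.mem 8 (i : ℕ) < 1 := by
          intro h'
          apply hd
          rw [hI i, if_neg (fun h'' => hact h''.2)]
          exact h'
        obtain ⟨r, hr, h4, h5⟩ := hτ i hi hD
        refine ⟨r, by omega, ?_⟩
        simp only [if_neg (show ¬ r = t by omega)]
        exact ⟨h4, h5⟩
    · rintro (h | ⟨q, hq, i, hi, hact, h3⟩)
      · exact h
      · refine ⟨σ, i, hi, ((h9' i hi).1 hact).1, q, hq, ?_⟩
        rwa [hV2.m5 i hi, hV2.m17 i hi, hV2.m18 i hi, hV2.m19 i hi] at h3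

/-- Coefficient with numerators `re`, `im`. -/
noncomputable def cf (p : Par) (re im : ℤ) : ℂ := ((re : ℂ) + (im : ℂ) * I) / 2 ^ p.B

theorem dev_eq (p : Par) (f : ℤ →₀ ℂ) (σ g C : ℤ) (y : ℝ) (W re im : ℤ) :
    dev p f σ g C y W re im = 2 ^ (p.B + 8) * (gsum p f σ g C y - cf p re im * ee (W * y)) := by
  unfold dev cf
  have : (2 : ℂ) ^ p.B ≠ 0 := pow_ne_zero _ two_ne_zero
  rw [pow_add]
  field_simp
  ring

theorem dev_norm (p : Par) (f : ℤ →₀ ℂ) (σ g C : ℤ) (y : ℝ) (W re im : ℤ) :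
    ‖dev p f σ g C y W re im‖ =
      2 ^ (p.B + 8) * ‖gsum p f σ g C y - cf p re im * ee (W * y)‖ := by
  rw [dev_eq, norm_mul, norm_pow, Complex.norm_ofNat]

/-- The output is correct: in terms of the entries. -/
theorem good_of {f : ℤ →₀ ℂ} (ha : Adm p f) {n : ℕ} (hF : FOut p s n) (hn : n = p.k)
    (hnz : ∀ i < n, s.mem 18 (i : ℕ) ≠ 0 ∨ s.mem 19 (i : ℕ) ≠ 0)
    (h : ∀ i < n, f (s.mem 17 (i : ℕ)) = cf p (s.mem 18 (i : ℕ)) (s.mem 19 (i : ℕ))) :
    Good f p.B s := by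
  have hcard : f.support.card = n := by rw [ha.card, hn]
  refine ⟨by rw [hcard]; exact hF.r39, ?_, ?_, ?_⟩
  · rw [hcard]
    intro t ht
    rw [Finsupp.mem_support_iff, h t ht]
    unfold cf
    rw [div_ne_zero_iff]
    refine ⟨?_, pow_ne_zero _ two_ne_zero⟩
    intro h0
    have h1 := congrArg Complex.re h0
    have h2 := congrArg Complex.im h0
    simp at h1 h2
    rcases hnz t ht with h3 | h3
    · exact h3 h1
    · exact h3 h2
  · rw [hcard]
    intro t ht
    exact h t ht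
  · rw [hcard]
    intro t ht t' ht' heq
    exact hF.inj t ht t' ht' (by rw [heq])

theorem cf_ne {re im : ℤ} (h : re ≠ 0 ∨ im ≠ 0) : cf p re im ≠ 0 := by
  unfold cf
  rw [div_ne_zero_iff]
  refine ⟨?_, pow_ne_zero _ two_ne_zero⟩
  intro h0
  have h1 := congrArg Complex.re h0
  have h2 := congrArg Complex.im h0
  simp at h1 h2
  rcases h with h3 | h3
  · exact h3 h1
  · exact h3 h2

/-- Completeness of the tests. -/
theorem dev_small {f : ℤ →₀ ℂ} (ha : Adm p f) {n : ℕ} (hF : FOut p s n) (hG : Good f p.B s)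
    {σ : ℤ} {i : ℕ} (hi : i < n)
    (hnb : nb p σ n (fun i => s.mem 17 (i : ℕ) % 2 ^ p.P) i < 2) (y : ℝ) :
    ‖dev p f σ 1 (s.mem 17 (i : ℕ) % 2 ^ p.P) y (s.mem 17 (i : ℕ)) (s.mem 18 (i : ℕ))
      (s.mem 19 (i : ℕ))‖ ≤ 1 := by
  have hP := p.P_ge
  have hcard : f.support.card = n := by
    have := hG.count
    rw [hF.r39] at this
    exact_mod_cast this.symm
  have hM := ha.sum
  set W := s.mem 17 (i : ℕ) with hW
  have hWs : W ∈ f.support := hG.mem i (by rw [hcard]; exact hi)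
  have hiso : Iso f p.P p.lam σ 1 (W % 2 ^ p.P) := by
    intro ω hω
    have himg : (range n).image (fun t : ℕ => s.mem 17 (t : ℤ)) = f.support := by
      apply Finset.eq_of_subset_of_card_le
      · intro ω hω
        rw [Finset.mem_image] at hω
        obtain ⟨t, ht, rfl⟩ := hω
        exact hG.mem t (by rw [hcard]; exact mem_range.1 ht)
      · rw [card_image_of_injOn, card_range, hcard]
        intro t ht t' ht' heq
        simp only [coe_range, Set.mem_Iio] at ht ht'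
        exact hG.inj t (by omega) t' (by omega) heq
    rw [← himg, mem_image] at hω
    obtain ⟨i', hi', rfl⟩ := hω
    rw [mem_range] at hi'
    by_cases hii : i' = i
    · left; rw [hii, mul_one]
    · right
      exact far_mod (far_of_not_adj ((nb_iff hi).1 hnb i' hi' hii)) (by rw [mul_one])
  have h1 := gsum_iso hM hiso y
  have h2 : csum f p.P 1 (W % 2 ^ p.P) y = f W * ee (W * y) := by
    unfold csum
    have e : f.support.filter (fun ω' => (ω' * 1) % 2 ^ p.P = W % 2 ^ p.P) = {W} := by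
      ext ω'
      rw [mem_filter, mem_singleton, mul_one]
      constructor
      · rintro ⟨h1, h2⟩
        rw [← cen_eq (P := p.P) (by omega) (ha.lt h1), h2, cen_eq (by omega) (ha.lt hWs)]
      · rintro rfl
        exact ⟨hWs, rfl⟩
    rw [e, sum_singleton]
  have h3 : f W = cf p (s.mem 18 (i : ℕ)) (s.mem 19 (i : ℕ)) :=
    hG.val i (by rw [hcard]; exact hi)
  rw [dev_norm, ← h3, ← h2]
  have h4 : (2 : ℝ) ^ (p.B + 8) * (1 / 2 ^ (2 * p.l + 6)) ≤ 1 := by
    rw [mul_one_div, div_le_one (by positivity)]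
    apply two_pow_real_le
    have : p.l = p.P + p.B := rfl
    omega
  calc _ ≤ (2 : ℝ) ^ (p.B + 8) * (1 / 2 ^ (2 * p.l + 6)) :=
        mul_le_mul_of_nonneg_left h1 (by positivity)
    _ ≤ 1 := h4

/-- Cost of the verification. -/
def Par.cver (p : Par) : ℕ :=
  (p.L * (p.L * 700 + 700) + 400) + ((2 ^ (p.j0 + 1) * 655 + 785) +
    ((p.j0 + 2) * (p.crndV (2 ^ (p.j0 + 1)) (p.L * p.L) + 200) + 200))

theorem Par.crndV_mono (p : Par) {n n' T T' : ℕ} (h : n ≤ n') (h' : T ≤ T') :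
    p.crndV n T ≤ p.crndV n' T' := by
  have h1 : p.cshV n ≤ p.cshV n' := by
    unfold Par.cshV
    exact Nat.add_le_add_left (Nat.add_le_add_left (Nat.add_le_add_left
      (Nat.add_le_add_right (Nat.mul_le_mul_right _ h) _) _) _) _
  have h2 : p.cpot n ≤ p.cpot n' := by
    unfold Par.cpot
    exact Nat.add_le_add_right (Nat.mul_le_mul_left _ (Nat.add_le_add_right
      (Nat.mul_le_mul_right _ h) _)) _
  have h3 : p.csel n ≤ p.csel n' := by
    unfold Par.csel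
    exact Nat.add_le_add_right (Nat.mul_le_mul_left _ (Nat.add_le_add_right
      (Nat.mul_le_mul_left _ h2) _)) _
  have h4 : p.ciso n ≤ p.ciso n' := by
    unfold Par.ciso
    exact Nat.add_le_add_right (Nat.mul_le_mul_right _ h) _
  unfold Par.crndV
  exact Nat.add_le_add h3 (Nat.add_le_add h4 (Nat.add_le_add
    (Nat.add_le_add_right (Nat.mul_le_mul h' (Nat.add_le_add_right h1 _)) _)
    (Nat.add_le_add_right (Nat.mul_le_mul_right _ h) _)))

theorem Par.L_five (p : Par) (hc : p.c = 5) : 4 * p.P * (p.P + 1) ≤ p.L := by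
  have hP := p.P_ge
  unfold Par.L
  rw [hc]
  have h1 : p.P + 1 ≤ p.P * p.P := by nlinarith
  have h2 : 4 ≤ p.P := by omega
  calc 4 * p.P * (p.P + 1) ≤ p.P * p.P * (p.P * p.P) :=
        Nat.mul_le_mul (Nat.mul_le_mul_right _ h2) h1
    _ ≤ p.P * p.P * (p.P * p.P) * p.P := Nat.le_mul_of_pos_right _ (by omega)
    _ = p.P ^ 5 := by ring

theorem tr_verify (hE : EnvOK p E) (hg : GX p E s) {f : ℤ →₀ ℂ} (hO : OracleOK E f)
    (ha : Adm p f) (hc : p.c = 5) {n : ℕ} (hF : FOut p s n) :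
    Tr E verify s p.cver (fun s' => (s'.reg 85 = 1 ∧ Good f p.B s) ∨
      (s'.reg 85 = 0 ∧ ¬ Good f p.B s)) := by
  have hX := E.hX
  have hM := ha.sum
  have hLle : p.L ≤ 2 ^ (5 * p.l) := by have := p.L_le; rwa [hc] at this
  have hL4 := p.L_five hc
  have e1 : verify = .seq (listB 18 (.reg 5)) (.seq prep (forc 57 21 roundV)) := rfl
  rw [e1]
  unfold Par.cver
  refine Tr.seq (tr_listB (u0 := 2 ^ p.P) hE hg.toGlob (Or.inl ⟨rfl, rfl, rfl⟩) hg.r18 p.L_pos
    hLle) ?_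
  rintro s1 hs1 ⟨T, a, m, u, hL⟩
  have hg1 : GX p E s1 := hg.same hs1 (by decide)
  have hF1 : FOut p s1 n := hF.of hs1 (by decide)
  refine Tr.seq (T₁ := 2 ^ (p.j0 + 1) * 655 + 785) (Tr.le (tr_prep hE hg1 hF1)
    (Nat.add_le_add_right (Nat.mul_le_mul_right _ hF.n_le) _)) ?_
  rintro s2 hs2 ⟨b26, b27, b5, b8, b85⟩
  have hg2 : GX p E s2 := hg1.same hs2 (by decide)
  have hF2 : FOut p s2 n := hF1.of hs2 (by decide)
  have hL2 : Lst p s2 (2 ^ p.P) p.L T a m u :=
    ⟨hL.toSL.of hs2 (by decide), hL.T_le, hL.T_pos, hL.u_eq, hL.a_lt, hL.m_leL, hL.cov, hL.last⟩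
  have k17 : s2.mem 17 = s.mem 17 := by rw [hs2.2 17 (by decide), hs1.2 17 (by decide)]
  have k18 : s2.mem 18 = s.mem 18 := by rw [hs2.2 18 (by decide), hs1.2 18 (by decide)]
  have k19 : s2.mem 19 = s.mem 19 := by rw [hs2.2 19 (by decide), hs1.2 19 (by decide)]
  have l17 : s1.mem 17 = s.mem 17 := hs1.2 17 (by decide)
  have l18 : s1.mem 18 = s.mem 18 := hs1.2 18 (by decide)
  have l19 : s1.mem 19 = s.mem 19 := hs1.2 19 (by decide)
  set C : ℕ → ℤ := fun i => s.mem 17 (i : ℕ) % 2 ^ p.P with hC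
  set W : ℕ → ℤ := fun i => s.mem 17 (i : ℕ) with hW
  set re : ℕ → ℤ := fun i => s.mem 18 (i : ℕ) with hre
  set im : ℕ → ℤ := fun i => s.mem 19 (i : ℕ) with him
  have hV : VD p n C W re im s2 := by
    refine ⟨b26, b27, ?_, ?_, ?_, ?_⟩
    · intro i hi; rw [b5 i hi, l17]
    · intro i hi; rw [k17]
    · intro i hi; rw [k18]
    · intro i hi; rw [k19]
  have hSt : Stc p C n := ⟨hF.n_le, fun i _ => Int.emod_nonneg _ (by positivity),
    fun i _ => Int.emod_lt_of_pos _ (by positivity), hF.inj⟩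
  have hcr : p.crndV n T ≤ p.crndV (2 ^ (p.j0 + 1)) (p.L * p.L) := p.crndV_mono hF.n_le hL.T_le
  refine Tr.le ((Tr.forC (p.j0 + 2) (p.crndV n T)
    (fun t s3 => RV p f n T C W re im a m (s2.reg 85) t s3) (by decide) hg2.r21 ?_ ?_).mono ?_)
    (Nat.add_le_add_right (Nat.mul_le_mul_left _ (Nat.add_le_add_right hcr _)) _)
  · refine ⟨?_, Or.inl ⟨by simp [setR_reg], fun _ => 0, ?_⟩⟩
    · rw [pow_zero, one_mul]
      exact (card_filter_le _ _).trans (by simp)
    · intro i hi h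
      rw [setR_mem, b8 i hi] at h
      exact absurd (by norm_num : (0 : ℤ) < 1) h
  · rintro t s3 ht h57 - hs3 hR
    have hg3 : GX p E s3 := hg2.same hs3 (by decide)
    have hF3 : FOut p s3 n := hF2.of hs3 (by decide)
    have hL3 : Lst p s3 (2 ^ p.P) p.L T a m u :=
      ⟨hL2.toSL.of hs3 (by decide), hL.T_le, hL.T_pos, hL.u_eq, hL.a_lt, hL.m_leL, hL.cov, hL.last⟩
    refine (tr_roundV hE hg3 hO hM hL3 hF3 (hV.of hs3 (by decide)) hSt hR).mono ?_
    rintro s4 - h4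
    exact ⟨h4.few, h4.flg⟩
  · rintro s3 - ⟨hR, -⟩
    have hdone := few_done hSt hR.few
    have hpre : Pre p s1 n ↔ Pre p s n := by
      unfold Pre; rw [l18, l19]
    rw [hpre] at b85
    rcases hR.flg with ⟨h85, σ, hσ⟩ | ⟨h85, σ, i, hi, hnb, q, hq, hdev⟩
    · rcases b85 with ⟨h1, h2⟩ | ⟨h1, h2⟩
      · left
        refine ⟨by rw [h85, h1], ?_⟩
        refine good_of ha hF h2.1 h2.2 ?_
        refine verif_sound (n := n) (W := W) (c := fun i => cf p (re i) (im i)) (R := p.j0 + 2) ha hM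
          h2.1 hF.freq ?_ (fun i _ => ⟨re i, im i, rfl⟩) (fun i hi => cf_ne (h2.2 i hi)) le_rfl σ ?_
        · intro i hi j hj h
          exact hF.inj i hi j hj (by
            show W i % 2 ^ p.P = W j % 2 ^ p.P
            rw [h])
        · intro i hi
          obtain ⟨r, hr, h3, h4⟩ := hσ i hi (hdone i hi)
          refine ⟨r, hr, h3, ?_⟩
          intro m0 hm1 hm2 a0 ha0
          obtain ⟨q, hq, e1, e2⟩ := hL.cov m0 a0 hm1 (hm2.trans hL4) ha0
          have h5 := h4 q hq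
          rw [e1, e2, dev_norm] at h5
          have h6 : (0 : ℝ) < 2 ^ (p.B + 8) := by positivity
          rw [le_div_iff₀ h6]
          have : ‖gsum p f (σ r) 1 (W i % 2 ^ p.P) ((a0 : ℝ) / m0) -
              cf p (re i) (im i) * ee (W i * ((a0 : ℝ) / m0))‖ * 2 ^ (p.B + 8) ≤ 45 := by
            rw [mul_comm]; exact h5
          linarith
      · right
        refine ⟨by rw [h85, h1], ?_⟩
        intro hG
        apply h2
        have hcard : f.support.card = n := by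
          have := hG.count
          rw [hF.r39] at this
          exact_mod_cast this.symm
        refine ⟨by rw [← hcard, ha.card], ?_⟩
        intro i hi
        have h3 := hG.val i (by rw [hcard]; exact hi)
        have h4 := hG.mem i (by rw [hcard]; exact hi)
        rw [Finsupp.mem_support_iff, h3] at h4
        by_contra hcon
        push Not at hcon
        apply h4
        rw [hcon.1, hcon.2]
        simp
    · right
      refine ⟨h85, ?_⟩
      intro hG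
      have := dev_small ha hF hG hi hnb ((a q : ℝ) / m q)
      linarith

end Pool.Agent.H940_dft
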