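import Pool.Agent.H940_ver.Out2
import Pool.Agent.H940_ver.VerT

/-!
# One attempt of the recovery
-/

namespace Pool.Agent.H940_dft

open Finset

variable {E : Env} {s s' : St} {p : Par}

/-- Every occupied class is visible at some shift of the list. -/
def VisL (p : Par) (f : ℤ →₀ ℂ) (T : ℕ) (a m u : ℕ → ℕ) : Prop :=
  ∀ j, p.j0 ≤ j → j ≤ p.P → ∀ C, Occ f p.P (2 ^ (p.P - j)) C → ∃ t < T,
    3 / 5 / 2 ^ p.B ≤ ‖csum f p.P (2 ^ (p.P - j)) C (ysh p a m u (2 ^ (p.P - j)) t)‖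

/-- State after level `j`. -/
def LI2 (p : Par) (f : ℤ →₀ ℂ) (V : Prop) (j : ℕ) (s : St) : Prop :=
  ∃ n : ℕ, s.reg 26 = n ∧ s.reg 27 = 2 ^ (p.P - j) ∧ Cnd p j (cand s) n ∧
    (∀ i < n, |s.mem 10 (i : ℕ)| ≤ 2 ^ (3 * p.l) ∧ |s.mem 11 (i : ℕ)| ≤ 2 ^ (3 * p.l)) ∧
    (V → Cov p f j (cand s) n ∧ ∀ i < n, Gd2 p f (2 ^ (p.P - j)) s i)

theorem LI2.keep {f : ℤ →₀ ℂ} {V : Prop} {j : ℕ} (h : LI2 p f V j s)
    (h26 : s'.reg 26 = s.reg 26) (h27 : s'.reg 27 = s.reg 27) (hm : s'.mem = s.mem) :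
    LI2 p f V j s' := by
  obtain ⟨n, a, b, c, d, e⟩ := h
  have hc : cand s' = cand s := by funext i; unfold cand; rw [hm]
  refine ⟨n, by rw [h26, a], by rw [h27, b], by rw [hc]; exact c, by rw [hm]; exact d, ?_⟩
  intro hV
  obtain ⟨e1, e2⟩ := e hV
  rw [hc]
  refine ⟨e1, fun i hi => ⟨?_, ?_, ?_⟩⟩
  · rw [hc, hm]; exact (e2 i hi).occ
  · rw [hc, hm]; exact (e2 i hi).emp
  · rw [hc, hm]; exact (e2 i hi).val

theorem Par.crnd2_mono (p : Par) {n n' T : ℕ} (h : n ≤ n') : p.crnd2 n T ≤ p.crnd2 n' T := by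
  have h1 : p.cshift n ≤ p.cshift n' := by
    unfold Par.cshift
    exact Nat.add_le_add_left (Nat.add_le_add_right (Nat.mul_le_mul_right _ h) _) _
  have h2 : p.cpot n ≤ p.cpot n' := by
    unfold Par.cpot
    exact Nat.add_le_add_right (Nat.mul_le_mul_left _ (Nat.add_le_add_right
      (Nat.mul_le_mul_right _ h) _)) _
  have h3 : p.csel n ≤ p.csel n' := by
    unfold Par.csel
    exact Nat.add_le_add_right (Nat.mul_le_mul_left _ (Nat.add_le_add_right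
      (Nat.mul_le_mul_left _ h2) _)) _
  have h4 : p.ciso n ≤ p.ciso n' := by
    unfold Par.ciso
    exact Nat.add_le_add_right (Nat.mul_le_mul_right _ h) _
  unfold Par.crnd2
  exact Nat.add_le_add h3 (Nat.add_le_add h4 (Nat.add_le_add
    (Nat.add_le_add_right (Nat.mul_le_mul_left _ (Nat.add_le_add_right h1 _)) _)
    (Nat.add_le_add_right (Nat.mul_le_mul_right _ h) _)))

theorem Par.clev2_mono (p : Par) {n n' T : ℕ} (h : n ≤ n') : p.clev2 n T ≤ p.clev2 n' T := by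
  unfold Par.clev2
  exact Nat.add_le_add (Nat.add_le_add_right (Nat.mul_le_mul_right _ h) _)
    (Nat.add_le_add_right (Nat.mul_le_mul_left _ (Nat.add_le_add_right (p.crnd2_mono h) _)) _)

theorem tr_lev2 {f : ℤ →₀ ℂ} (hE : EnvOK p E) (hg : Glob p E s) (hO : OracleOK E f)
    (ha : Adm p f) {T : ℕ} {a m u : ℕ → ℕ} (hS : SL p s T a m u)
    (hT : 1 ≤ T) (hlast : a (T - 1) = 0) {j n : ℕ} (hj0 : p.j0 ≤ j) (hj : j ≤ p.P)
    (h26 : s.reg 26 = n) (h27 : s.reg 27 = 2 ^ (p.P - j)) (hC : Cnd p j (cand s) n)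
    (hcov : VisL p f T a m u → Cov p f j (cand s) n) :
    Tr E level2 s (p.clev2 (2 ^ (p.j0 + 1)) T) (LI2 p f (VisL p f T a m u) j) := by
  have hgP : |(2 : ℤ) ^ (p.P - j)| ≤ 2 ^ p.P := by
    rw [abs_of_pos (by positivity)]
    exact pow_le_pow_right₀ (by norm_num) (Nat.sub_le _ _)
  refine Tr.le ((tr_level2 hE hg hO ha.sum hS hT hlast hgP h26 h27 hC.toStc).mono ?_)
    (p.clev2_mono hC.n_le)
  rintro s1 hs1 h1
  have hc : cand s1 = cand s := by funext i; unfold cand; rw [hs1.2 5 (by decide)]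
  refine ⟨n, by rw [hs1.1 26 (by decide), h26], by rw [hs1.1 27 (by decide), h27], by
    rw [hc]; exact hC, h1.bdd, ?_⟩
  intro hV
  rw [hc]
  refine ⟨hcov hV, h1.cor ?_⟩
  rw [hc]
  exact ⟨hcov hV, fun i _ ho => hV j hj0 hj _ ho⟩

/-- Cost of `find`. -/
def Par.cfind (p : Par) (T : ℕ) : ℕ :=
  (2 ^ p.j0 * 330 + 330) + (p.clev2 (2 ^ (p.j0 + 1)) T + (((p.P - p.j0) *
    ((p.cnext (2 ^ (p.j0 + 1)) + p.clev2 (2 ^ (p.j0 + 1)) T) + 200) + 200) +
      (2 ^ (p.j0 + 1) * 1200 + 300)))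

theorem tr_find {f : ℤ →₀ ℂ} (hE : EnvOK p E) (hg : Glob p E s) (hO : OracleOK E f)
    (ha : Adm p f) {T : ℕ} {a m u : ℕ → ℕ} (hS : SL p s T a m u)
    (hT : 1 ≤ T) (hlast : a (T - 1) = 0) :
    Tr E find s (p.cfind T) (fun s' => (∃ n' : ℕ, FOut p s' n') ∧
      (VisL p f T a m u → Good f p.B s')) := by
  have hj0P : p.j0 + 1 ≤ p.P := by have := p.mu_lt; unfold Par.mu at this; omega
  unfold find
  simp only [seqs]
  unfold Par.cfind
  obtain ⟨cl, hcl⟩ : ∃ cl, cl = p.clev2 (2 ^ (p.j0 + 1)) T := ⟨_, rfl⟩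
  obtain ⟨cn, hcn⟩ : ∃ cn, cn = p.cnext (2 ^ (p.j0 + 1)) := ⟨_, rfl⟩
  rw [← hcl, ← hcn]
  refine Tr.seq (T₁ := 2 ^ p.j0 * 330 + 330)
    (T₂ := cl + (((p.P - p.j0) * ((cn + cl) + 200) + 200) + (2 ^ (p.j0 + 1) * 1200 + 300)))
    (tr_start2 (f := f) hE hg) ?_
  rintro s1 hs1 ⟨h26, h27, hC, hcov⟩
  have hg1 : Glob p E s1 := hg.same (m := 5) hs1 (by decide) (by norm_num)
  have hS1 : SL p s1 T a m u := hS.of hs1 (by decide)
  refine Tr.seq (T₁ := cl)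
    (T₂ := ((p.P - p.j0) * ((cn + cl) + 200) + 200) + (2 ^ (p.j0 + 1) * 1200 + 300))
    (by rw [hcl]; exact tr_lev2 hE hg1 hO ha hS1 hT hlast le_rfl (by omega) h26 h27 hC
          (fun _ => hcov)) ?_
  rintro s2 hs2 hL
  have hg2 : Glob p E s2 := hg1.same (m := 5) hs2 (by decide) (by norm_num)
  have hS2 : SL p s2 T a m u := hS1.of hs2 (by decide)
  refine Tr.seq (T₁ := (p.P - p.j0) * ((cn + cl) + 200) + 200)
    (T₂ := 2 ^ (p.j0 + 1) * 1200 + 300) (R := fun s' => LI2 p f (VisL p f T a m u) p.P s')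
    ((Tr.forC (p.P - p.j0) (cn + cl) (fun q s' => LI2 p f (VisL p f T a m u) (p.j0 + q) s')
      (by decide) hg2.r20 ?_ ?_).mono ?_) ?_
  · exact hL.keep (by simp [setR_reg]) (by simp [setR_reg]) rfl
  · rintro q s3 hq - - hs3 ⟨n, h26, h27, hC, hb, hG⟩
    have hg3 : Glob p E s3 := hg2.same (m := 5) hs3 (by decide) (by norm_num)
    have hS3 : SL p s3 T a m u := hS2.of hs3 (by decide)
    refine Tr.seq (T₁ := cn) (T₂ := cl) (by
      rw [hcn]
      exact tr_next2 (f := f) hE hg3 (le_of_eq ha.card) (j := p.j0 + q) (by omega) h26 h27 hC) ?_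
    rintro s4 hs4 ⟨n', h26', h27', hC', hcov'⟩
    have hg4 : Glob p E s4 := hg3.same (m := 5) hs4 (by decide) (by norm_num)
    have hS4 : SL p s4 T a m u := hS3.of hs4 (by decide)
    rw [hcl]
    refine (tr_lev2 hE hg4 hO ha hS4 hT hlast (j := p.j0 + (q + 1)) (by omega) (by omega) h26' h27'
      hC' ?_).mono ?_
    · intro hV
      obtain ⟨g1, g2⟩ := hG hV
      exact hcov' g1 (fun i hi => ⟨(g2 i hi).occ, (g2 i hi).emp⟩)
    · rintro s5 - h5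
      exact h5.keep (by simp [setR_reg]) (by simp [setR_reg]) rfl
  · rintro s3 - ⟨h, -⟩
    rwa [show p.j0 + (p.P - p.j0) = p.P by omega] at h
  · rintro s3 hs3 ⟨n, h26, h27, hC, hb, hG⟩
    have hg3 : Glob p E s3 := hg2.same (m := 5) hs3 (by decide) (by norm_num)
    refine Tr.le ((tr_output2 hE hg3 ha h26 hC.toStc hb).mono ?_)
      (Nat.add_le_add_right (Nat.mul_le_mul_right _ hC.n_le) _)
    rintro s4 - ⟨h1, h2⟩
    refine ⟨h1, fun hV => ?_⟩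
    obtain ⟨g1, g2⟩ := hG hV
    rw [Nat.sub_self, pow_zero] at g2
    exact h2 g1 g2

/-- `Good` depends only on the output. -/
theorem Good.keep {f : ℤ →₀ ℂ} {B : ℕ} (h : Good f B s) (h39 : s'.reg 39 = s.reg 39)
    (h17 : s'.mem 17 = s.mem 17) (h18 : s'.mem 18 = s.mem 18) (h19 : s'.mem 19 = s.mem 19) :
    Good f B s' := by
  refine ⟨by rw [h39, h.count], ?_, ?_, ?_⟩
  · rw [h17]; exact h.mem
  · rw [h17, h18, h19]; exact h.val
  · rw [h17]; exact h.inj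

/-- The flag tells whether the output is correct. -/
def Res (p : Par) (f : ℤ →₀ ℂ) (s : St) : Prop :=
  (s.reg 85 = 1 ∧ Good f p.B s) ∨ (s.reg 85 = 0 ∧ ¬ Good f p.B s)

theorem tr_attempt {f : ℤ →₀ ℂ} (hE : EnvOK p E) (hg : GX p E s) (hO : OracleOK E f)
    (ha : Adm p f) (hc : p.c = 5) {T : ℕ} {a m u : ℕ → ℕ} (hS : SL p s T a m u)
    (hT : 1 ≤ T) (hlast : a (T - 1) = 0) {c : Cmd} {T' : ℕ} {Q : St → Prop}
    (h : ∀ s', Same (.seq find verify) s s' → GX p E s' → Res p f s' →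
      (VisL p f T a m u → s'.reg 85 = 1) → Tr E c s' T' Q) :
    Tr E (.seq find (.seq verify c)) s (p.cfind T + (p.cver + T')) Q := by
  refine Tr.seq (tr_find hE hg.toGlob hO ha hS hT hlast) ?_
  rintro s1 hs1 ⟨⟨n', hF⟩, hV⟩
  have hg1 : GX p E s1 := hg.same hs1 (by decide +kernel)
  refine Tr.seq (tr_verify hE hg1 hO ha hc hF) ?_
  intro s2 hs2 h2
  have hg2 : GX p E s2 := hg1.same hs2 (by decide)
  have k39 : s2.reg 39 = s1.reg 39 := hs2.1 39 (by decide)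
  have k17 : s2.mem 17 = s1.mem 17 := hs2.2 17 (by decide)
  have k18 : s2.mem 18 = s1.mem 18 := hs2.2 18 (by decide)
  have k19 : s2.mem 19 = s1.mem 19 := hs2.2 19 (by decide)
  refine h s2 ?_ hg2 ?_ ?_
  · exact (hs1.mono (fun r hr => List.mem_append_left _ hr)
      (fun r hr => List.mem_append_left _ hr)).trans
      (hs2.mono (fun r hr => List.mem_append_right _ hr) (fun r hr => List.mem_append_right _ hr))
  · rcases h2 with ⟨h3, h4⟩ | ⟨h3, h4⟩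
    · exact Or.inl ⟨h3, h4.keep k39 k17 k18 k19⟩
    · exact Or.inr ⟨h3, fun h5 => h4 (h5.keep k39.symm k17.symm k18.symm k19.symm)⟩
  · intro hVV
    rcases h2 with ⟨h3, h4⟩ | ⟨h3, h4⟩
    · exact h3
    · exact absurd (hV hVV) h4

end Pool.Agent.H940_dft
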