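import Pool.Agent.H940_dft.Prog

/-!
# Recovery with a list of shifts, and verification of a candidate

Registers. `85`: flag, `86`: number of shifts, `87`: bound for the moduli, `89`: number of bits of
the angles. Arrays. `21`, `22`, `23`: numerators, denominators and multipliers of the shifts;
multiplier `0` stands for the step of the level. `63`: random bits.
-/

namespace Pool.Agent.H940_dft

open Pool.Agent.H940_dft.Expr Pool.Agent.H940_dft.Cmd

/-! ### Table of exponentials with many bits -/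

def initE0x : Cmd := seqs [
  sto 1 (lit 1) (lit 0 - reg 15), sto 2 (lit 1) (lit 0),
  sto 1 (lit 2) (lit 0), sto 2 (lit 2) (reg 15), asg 89 (lit 10 * (reg 4 + reg 2)),
  asg 33 (reg 89 - lit 2)]

def initEx : Cmd := seqs [initE0x, forc 34 33 initEBody]

def cexp2Body : Cmd := seqs [
  ite (reg 33 % lit 2) (lit 1) skip (seqs [
    asg 35 ((reg 31 * ld 1 (reg 89 - reg 34) - reg 32 * ld 2 (reg 89 - reg 34)) / reg 15),
    asg 32 ((reg 31 * ld 2 (reg 89 - reg 34) + reg 32 * ld 1 (reg 89 - reg 34)) / reg 15),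
    asg 31 (reg 35)]),
  asg 33 (reg 33 / lit 2)]

/-- `31, 32 := exp (2 π i r_30 / 2 ^ r_89)`. -/
def cexp2 : Cmd := seqs [asg 31 (reg 15), asg 32 (lit 0), asg 33 (reg 30), forc 34 89 cexp2Body]

/-! ### Lists of shifts -/

/-- All shifts `a / m`, where `m` is at most the register `lr`; the last one is `0`. -/
def listB (lr : ℕ) (mu : Expr) : Cmd := seqs [
  asg 86 (lit 0),
  forc 54 lr (seqs [
    asg 55 (reg lr - reg 54),
    forc 56 55 (seqs [
      sto 21 (reg 86) (reg 56), sto 22 (reg 86) (reg 55), sto 23 (reg 86) mu,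
      asg 86 (reg 86 + lit 1)])])]

/-- Denominator and numerator of the shift `54` are put into `55` and `56`. -/
def setShift : Cmd := seqs [
  asg 55 (ld 22 (reg 54)),
  ite (lit 0) (ld 23 (reg 54)) (asg 56 (ld 21 (reg 54) * ld 23 (reg 54)))
    (asg 56 (ld 21 (reg 54) * reg 27))]

/-- Samples for the shift `r_56 / (r_55 * 2 ^ P)`. -/
def sample2 : Cmd :=
  forc 60 19 (seqs [
    call ((reg 56 + reg 55 * (reg 28 * (reg 60 * reg 27))) % (reg 55 * reg 5))
      (reg 55 * reg 5),
    asg 31 (reg 90 * reg 16 + reg 91 / reg 94),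
    asg 32 (reg 92 * reg 16 + reg 93 / reg 94),
    sto 14 (reg 60) (reg 31), sto 15 (reg 60) (reg 32)])

def shifts2 : Cmd := forc 54 86 (seqs [setShift, sample2, transform, values])

/-! ### Recovery -/

def markDone : Cmd := forc 46 26 (ite (lit 0) (ld 9 (reg 46)) (sto 8 (reg 46) (lit 1)) skip)

def round2 : Cmd := seqs [select, isolate, shifts2, markDone]

def level2 : Cmd := seqs [
  forc 46 26 (seqs [sto 7 (reg 46) (lit 0), sto 8 (reg 46) (lit 0)]),
  forc 57 21 round2]

/-- Candidates of the next level, at most `2 ^ (j₀ + 1)` of them. -/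
def next2 : Cmd := seqs [
  asg 30 (lit 0),
  forc 46 26 (ite (lit 0) (ld 7 (reg 46)) (ite (reg 30 + lit 1) (ld 0 (reg 6 + lit 1)) (seqs [
    sto 6 (reg 30) (ld 5 (reg 46) / lit 2),
    sto 6 (reg 30 + lit 1) (ld 5 (reg 46) / lit 2 + reg 5 / lit 2),
    asg 30 (reg 30 + lit 2)]) skip) skip),
  asg 26 (reg 30),
  forc 46 26 (sto 5 (reg 46) (ld 6 (reg 46))),
  asg 27 (reg 27 / lit 2)]

def find : Cmd := seqs [start, level2, forc 58 20 (seqs [next2, level2]), output]

/-! ### Verification -/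

def prep : Cmd := seqs [
  asg 85 (lit 1), asg 26 (reg 39), asg 27 (lit 1),
  ite (reg 39) (reg 0) (asg 85 (lit 0)) skip,
  ite (reg 0) (reg 39) (asg 85 (lit 0)) skip,
  forc 46 26 (seqs [
    sto 5 (reg 46) (ld 17 (reg 46) % reg 5),
    sto 8 (reg 46) (lit 0),
    ite (ld 18 (reg 46) * ld 18 (reg 46) + ld 19 (reg 46) * ld 19 (reg 46)) (lit 1)
      (asg 85 (lit 0)) skip])]

def valV : Cmd := seqs [
  asg 31 (ld 14 ((reg 70 % reg 11) * reg 19)),
  asg 32 (ld 15 ((reg 70 % reg 11) * reg 19)),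
  asg 35 (reg 73 * reg 73 + reg 74 * reg 74),
  asg 76 ((reg 31 * reg 73 + reg 32 * reg 74) * reg 17 / reg 35),
  asg 77 ((reg 32 * reg 73 - reg 31 * reg 74) * reg 17 / reg 35),
  asg 30 (((ld 17 (reg 46) * ld 21 (reg 54)) % reg 55) * ld 0 (reg 89) / reg 55)]

def cmpV : Cmd := seqs [
  asg 76 (reg 76 - (ld 18 (reg 46) * reg 31 - ld 19 (reg 46) * reg 32) * lit 256 / reg 15),
  asg 77 (reg 77 - (ld 18 (reg 46) * reg 32 + ld 19 (reg 46) * reg 31) * lit 256 / reg 15),
  ite (lit 32 * lit 32) (reg 76 * reg 76 + reg 77 * reg 77) (asg 85 (lit 0)) skip]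

def checkC : Cmd := seqs [gain, valV, cexp2, cmpV]

def checks : Cmd := forc 46 26 (ite (lit 0) (ld 9 (reg 46)) checkC skip)

def shiftsV : Cmd := forc 54 86 (seqs [setShift, sample2, transform, checks])

def roundV : Cmd := seqs [select, isolate, shiftsV, markDone]

def verify : Cmd := seqs [listB 18 (reg 5), prep, forc 57 21 roundV]

/-! ### The programs -/

/-- Initialisation. -/
def initAll (c : ℕ) : Cmd := seqs [initA, initB, initL c, initW, initC, initEx, initT]

/-- Verification of the candidate in the arrays `17`, `18`, `19`. -/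
def mainV : Cmd := .seq (initAll 5) verify

/-- Recovery with increasing lists of shifts. -/
def adapt : Cmd := .seq (asg 87 (lit 1))
  (loop (reg 85) (lit 1) (seqs [listB 87 (lit 0), find, verify, asg 87 (reg 87 + reg 87)]))

def mainA : Cmd := .seq (initAll 5) adapt

/-- A list of random shifts; the last shift is `0`. -/
def listR : Cmd := seqs [
  asg 88 ((reg 4 + reg 2) * (reg 4 + reg 2)), asg 88 (reg 88 * reg 88),
  forc 54 88 (seqs [
    asg 56 (lit 1),
    forc 55 22 (asg 56 (reg 56 + ld 63 (reg 54 * reg 22 + reg 55) * ld 0 (reg 55 + lit 1))),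
    sto 21 (reg 54) (reg 56), sto 22 (reg 54) (lit 1), sto 23 (reg 54) (lit 1)]),
  sto 21 (reg 88) (lit 0), sto 22 (reg 88) (lit 1), sto 23 (reg 88) (lit 1),
  asg 86 (reg 88 + lit 1)]

def mainR : Cmd := .seq (initAll 5) (seqs [listR, find, verify, adapt])

end Pool.Agent.H940_dft
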