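import Pool.Agent.H940_dft.ValP
import Pool.Agent.H940_ver.Prog2

/-!
# The table of exponentials with many bits
-/

namespace Pool.Agent.H940_dft

open Complex

variable {E : Env} {s s' : St} {p : Par}

/-- Number of bits of the angles. -/
def Par.T (p : Par) : ℕ := 10 * p.l

/-- The registers and tables after the initialisation of the long table. -/
structure Glob2 (p : Par) (E : Env) (s : St) : Prop extends Glob0 p E s where
  r89 : s.reg 89 = p.T
  te2 : ∀ t : ℕ, 1 ≤ t → t ≤ p.T → Ap p.W (s.mem 1 t) (s.mem 2 t) (ee (1 / 2 ^ t)) p.e0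

theorem Tr.initEx (hE : EnvOK p E) (hb : Base p E s) (h29 : s.reg 29 = ((p.W + 1 : ℕ) : ℤ))
    (h2 : s.reg 2 = p.B) :
    Tr E initEx s (p.T * (920 * (p.W + 1) + 1200) + 1000) (Glob2 p E) := by
  have hX := E.hX
  have hl := p.l_ge
  have hWl : p.W = 40 * p.l := rfl
  have hP := p.P_ge
  have hPl := p.P_le_l
  have hPW : |(2 : ℤ) ^ p.W| ≤ E.X := hE.pow (by
    have := p.le_x (a := 40) (b := 0) (by norm_num) (by norm_num); omega)
  have hT : p.T = 10 * p.l := rfl
  unfold H940_dft.initEx seqs seqs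
  refine Tr.le (Tr.seq (T₁ := 650) (T₂ := (p.T - 2) * (((460 * (p.W + 1) + 265) * 2 + 390) + 200) + 200)
    (R := fun s1 => TabE p 2 s1 ∧ s1.reg 33 = ((p.T - 2 : ℕ) : ℤ) ∧ s1.reg 89 = p.T) ?_ ?_) ?_
  · refine Tr.le (Tr.wp rfl ?_) (by decide)
    have a0 : (10 : ℤ) * (p.P + p.B) = (p.T : ℕ) := by
      rw [hT]; unfold Par.l; push_cast; ring
    have a1 : (p.T : ℤ) - 2 = ((p.T - 2 : ℕ) : ℤ) := by rw [Nat.cast_sub (by omega)]; rfl
    have hct : ct 2 = 0 := by
      unfold ct
      have : 2 * Real.pi * (1 / 2 ^ 2) = Real.pi / 2 := by ring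
      rw [this, Real.cos_pi_div_two]
    have hsn : sn 2 = 1 := by
      unfold sn
      have : 2 * Real.pi * (1 / 2 ^ 2) = Real.pi / 2 := by ring
      rw [this, Real.sin_pi_div_two]
    simp only [initE0x, seqs, Cmd.wp, eval_sub, eval_add, eval_mul, eval_reg, eval_lit, setR_reg,
      setM_reg, setM_mem, setR_mem, hb.r4, hb.r15, h2, reduceIte, Nat.reduceEqDiff, a0, a1, zero_sub,
      abs_neg]
    have hTx : p.T ≤ p.x := by
      have := p.le_x (a := 10) (b := 0) (by norm_num) (by norm_num); omega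
    refine ⟨hPW, by rw [abs_zero]; omega, by rw [abs_zero]; omega, hPW, ?_, ?_, ?_, ?_⟩
    · exact hE.nat ((Par.n_le_pow _).trans (Nat.pow_le_pow_right (by norm_num) hTx))
    · exact hE.nat ((Par.n_le_pow _).trans (Nat.pow_le_pow_right (by norm_num) (by omega)))
    · refine ⟨?_, ?_, ?_⟩
      · intro t h1 h2
        have : t = 2 := by omega
        subst this
        simp only [setR_mem, setM_mem]
        constructor
        · simp [hct]
        · simp [hsn]; positivity
      · simp [setR_mem, setM_mem]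
      · simp [setR_mem, setM_mem]
    · exact ⟨trivial, trivial⟩
  · rintro s1 hs1 ⟨ht, h33, h89⟩
    have hs1r : ∀ r, r ≠ 33 ∧ r ≠ 89 → s1.reg r = s.reg r := fun r hr =>
      hs1.1 r (by simp [initE0x, seqs, Cmd.wr]; tauto)
    have hs1m : s1.mem 0 = s.mem 0 := hs1.2 0 (by decide)
    refine (Tr.forC (p.T - 2) ((460 * (p.W + 1) + 265) * 2 + 390) (fun q s' => TabE p (q + 2) s')
      (by decide) h33 ?_ ?_).mono ?_
    · simpa [TabE, setR_mem] using ht
    · rintro q s2 hq h34 - hs2 hT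
      have hr2 : ∀ r : ℕ, r ∉ (forc 34 33 initEBody).wr ∧ (r ≠ 33 ∧ r ≠ 89) → s2.reg r = s.reg r := by
        rintro r ⟨h1, h2⟩; rw [hs2.1 r h1, hs1r r h2]
      have hm0 : s2.mem 0 = s.mem 0 := by rw [hs2.2 0 (by decide), hs1m]
      have c2 : (q : ℤ) + 2 = ((q + 2 : ℕ) : ℤ) := by push_cast; ring
      have c3 : (q : ℤ) + 3 = ((q + 3 : ℕ) : ℤ) := by push_cast; ring
      have hx := hT.bd (t := q + 2) (by omega) le_rfl
      have hxx := (hT.1 (q + 2) (by omega) le_rfl).1
      set xx : ℤ := s2.mem 1 ((q + 2 : ℕ) : ℤ) with hxd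
      have hW1 : (2 : ℤ) ^ p.W = 2 * 2 ^ (p.W - 1) := by rw [← pow_succ']; congr 1; omega
      have hpos : (0 : ℤ) < 2 ^ (p.W - 1) := by positivity
      have hW2 : (2 : ℤ) ^ (p.W + 1) = 2 * 2 ^ p.W := by rw [pow_succ]; ring
      have hW3 : (2 : ℤ) ^ (2 * p.W + 1) = 4 * (2 ^ (p.W - 1) * 2 ^ p.W) := by
        rw [pow_succ, two_mul, pow_add, hW1]; ring
      rw [hW2, abs_le] at hx
      have hn1 : |2 ^ (p.W - 1) * (2 ^ p.W + xx)| ≤ 2 ^ (2 * p.W + 1) := by
        rw [abs_mul, abs_of_pos hpos, hW3]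
        calc 2 ^ (p.W - 1) * |2 ^ p.W + xx| ≤ 2 ^ (p.W - 1) * (4 * 2 ^ p.W) := by
              apply mul_le_mul_of_nonneg_left _ hpos.le
              rw [abs_le]; constructor <;> linarith [hx.1, hx.2]
          _ = _ := by ring
      have hn2 : |2 ^ (p.W - 1) * (2 ^ p.W - xx)| ≤ 2 ^ (2 * p.W + 1) := by
        rw [abs_mul, abs_of_pos hpos, hW3]
        calc 2 ^ (p.W - 1) * |2 ^ p.W - xx| ≤ 2 ^ (p.W - 1) * (4 * 2 ^ p.W) := by
              apply mul_le_mul_of_nonneg_left _ hpos.le
              rw [abs_le]; constructor <;> linarith [hx.1, hx.2]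
          _ = _ := by ring
      have hlt : (2 : ℤ) ^ (2 * p.W + 1) < 2 ^ (2 * p.W + 2) :=
        pow_lt_pow_right₀ (by norm_num) (by omega)
      have hsq : ∀ n : ℤ, |n| ≤ 2 ^ (2 * p.W + 1) → |((Nat.sqrt n.toNat : ℕ) : ℤ)| ≤ E.X := by
        intro n hn
        apply hE.two
        rw [abs_of_nonneg (by positivity)]
        have h1 : Nat.sqrt n.toNat ≤ n.toNat := Nat.sqrt_le_self _
        have h2 : (n.toNat : ℤ) ≤ |n| := by
          rcases le_total 0 n with h | h
          · rw [Int.toNat_of_nonneg h, abs_of_nonneg h]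
          · rw [Int.toNat_of_nonpos h]; simp
        have h3 : ((Nat.sqrt n.toNat : ℕ) : ℤ) ≤ n.toNat := by exact_mod_cast h1
        linarith
      unfold initEBody seqs seqs seqs seqs seqs seqs
      refine Tr.le (Tr.aseq rfl ?_ (Tr.seq (T₁ := (p.W + 1) * 460 + 265)
        (R := fun s3 => s3.reg 36 = ((Nat.sqrt (2 ^ (p.W - 1) * (2 ^ p.W + xx) : ℤ).toNat : ℕ) : ℤ))
        (Tr.isqrt (n := 2 ^ (p.W - 1) * (2 ^ p.W + xx)) hE ?_ ?_ ?_ ?_ ?_) ?_))
        (T := 65 + ((p.W + 1) * 460 + 265 + (130 + (65 + ((p.W + 1) * 460 + 265 + 130))))) (by ring_nf; omega)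
      · simp only [eval_mul, eval_reg, eval_add, eval_ld, eval_lit, h34, c2]
        rw [hr2 16 (by decide), hr2 15 (by decide), hb.r15, hb.r16]
        exact hE.two hn1
      · rw [setR_reg, if_neg (by norm_num), hr2 14 (by decide), hb.r14]
      · rw [setR_reg, if_neg (by norm_num), hr2 29 (by decide), h29]
      · intro t ht; rw [setR_mem, hm0, hb.pw t ht]
      · simp only [eval_mul, eval_reg, eval_add, eval_ld, eval_lit, h34, c2, setR_reg, reduceIte]
        rw [hr2 16 (by decide), hr2 15 (by decide), hb.r15, hb.r16]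
      · exact (le_abs_self _).trans_lt (hn1.trans_lt hlt)
      · rintro s3 hs3 h36
        have hr3 : ∀ r : ℕ, r ∉ (forc 34 33 initEBody).wr ∧ (r ≠ 33 ∧ r ≠ 89) → s3.reg r = s.reg r := by
          rintro r h1
          rw [hs3.1 r (fun h => h1.1 (by revert h; simp [initEBody, forc, seqs, Cmd.wr]; tauto)),
            setR_reg, if_neg (fun h => h1.1 (by subst h; decide)), hr2 r h1]
        have e34 : s3.reg 34 = q := by
          rw [hs3.1 34 (by decide), setR_reg, if_neg (by norm_num), h34]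
        have e1 : ∀ b, s3.mem b = s2.mem b := by
          intro b; rw [hs3.2 b (by simp [H940_dft.isqrt, isqrtBody, forc, seqs, Cmd.wm]), setR_mem]
        refine Tr.sseq rfl rfl ?_ ?_
        · simp only [eval_reg, h36]; exact hsq _ hn1
        refine Tr.aseq rfl ?_ (Tr.seq (T₁ := (p.W + 1) * 460 + 265) (T₂ := 130)
          (R := fun s3 => s3.reg 36 = ((Nat.sqrt (2 ^ (p.W - 1) * (2 ^ p.W - xx) : ℤ).toNat : ℕ) : ℤ))
          (Tr.isqrt (n := 2 ^ (p.W - 1) * (2 ^ p.W - xx)) hE ?_ ?_ ?_ ?_ ?_) ?_)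
        · simp only [eval_mul, eval_reg, eval_sub, eval_add, eval_ld, eval_lit, e34, c2, c3, setM_reg,
            setM_mem]
          rw [hr3 16 (by decide), hr3 15 (by decide), hb.r15, hb.r16, if_neg (by simp), e1]
          exact hE.two hn2
        · rw [setR_reg, if_neg (by norm_num), setM_reg, hr3 14 (by decide), hb.r14]
        · rw [setR_reg, if_neg (by norm_num), setM_reg, hr3 29 (by decide), h29]
        · intro t ht
          rw [setR_mem, setM_mem, if_neg (by simp), e1, hm0, hb.pw t ht]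
        · simp only [eval_mul, eval_reg, eval_sub, eval_add, eval_ld, eval_lit, e34, c2, c3, setM_reg,
            setM_mem, setR_reg, reduceIte]
          rw [hr3 16 (by decide), hr3 15 (by decide), hb.r15, hb.r16, if_neg (by simp), e1]
        · exact (le_abs_self _).trans_lt (hn2.trans_lt hlt)
        · rintro s4 hs4 f36
          have g34 : s4.reg 34 = q := by
            rw [hs4.1 34 (by decide), setR_reg, if_neg (by norm_num), setM_reg, e34]
          have e2 : ∀ b, s4.mem b = (s3.setM 1 ((Expr.reg 34 + Expr.lit 3).eval s3)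
              ((Expr.reg 36).eval s3)).mem b := by
            intro b; rw [hs4.2 b (by simp [H940_dft.isqrt, isqrtBody, forc, seqs, Cmd.wm]), setR_mem]
          have e2' : ∀ b (i : ℤ), s4.mem b i = if b = 1 ∧ i = ((q + 3 : ℕ) : ℤ) then
              ((Nat.sqrt (2 ^ (p.W - 1) * (2 ^ p.W + xx) : ℤ).toNat : ℕ) : ℤ) else s2.mem b i := by
            intro b i
            rw [e2, setM_mem, e1]
            simp only [eval_add, eval_reg, eval_lit, e34, h36, c3]
          refine Tr.le (Tr.wp rfl ?_) (by decide)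
          simp only [Cmd.wp, eval_reg, eval_add, eval_lit, f36, g34, c3]
          refine ⟨hsq _ hn2, ?_, ?_, ?_⟩
          · intro t h1 h2
            simp only [setR_mem, setM_mem, e2']
            by_cases htq : t = q + 3
            · subst htq
              have hst := ct_step (W := p.W) (t := q + 2) (by omega) (by omega) hxx
              have hst2 := sn_step (W := p.W) (t := q + 2) (D := 2 ^ (20 * p.l + 1)) (by omega)
                (by omega) (by
                  rw [← pow_mul, ← pow_succ']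
                  exact two_pow_real_le (by rw [hWl]; omega)) (by positivity) hxx
              simp only [and_self, reduceIte, OfNat.one_ne_ofNat, false_and]
              exact ⟨by exact_mod_cast hst, by exact_mod_cast hst2⟩
            · have h3 := hT.1 t h1 (by omega)
              have h4 : ¬ ((t : ℤ) = ((q + 3 : ℕ) : ℤ)) := by exact_mod_cast htq
              rw [if_neg (by simp), if_neg (fun h => h4 h.2), if_neg (fun h => h4 h.2),
                if_neg (by simp)]
              exact h3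
          · simp only [setR_mem, setM_mem, e2']
            rw [if_neg (by simp), if_neg (by push_cast; omega)]
            exact hT.2.1
          · simp only [setR_mem, setM_mem, e2']
            rw [if_neg (by push_cast; omega), if_neg (by simp)]
            exact hT.2.2
    · rintro s2 hs2 ⟨hT, -⟩
      have hs : s2.mem 0 = s.mem 0 := by rw [hs2.2 0 (by decide), hs1m]
      have hr : ∀ r : ℕ, (r < 26 ∨ r = 94) → s2.reg r = s.reg r := by
        intro r hr
        rw [hs2.1 r ?_, hs1r r ⟨by omega, by omega⟩]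
        intro hmem
        have h1 : (forc 34 33 initEBody).safe 1 = true := by decide
        simp only [Cmd.safe, Bool.and_eq_true, List.all_eq_true, decide_eq_true_eq] at h1
        have := h1.1 r hmem
        omega
      refine ⟨⟨?_, fun t h1 h2 => hT.te h1 (by omega)⟩, ?_, fun t h1 h2 => hT.te h1 (by omega)⟩
      swap
      · rw [hs2.1 89 (by decide), h89]
      constructor
      case pw => intro t ht; rw [hs, hb.pw t ht]
      all_goals rw [hr _ (by norm_num)]
      all_goals first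
        | exact hb.r4 | exact hb.r5 | exact hb.r6 | exact hb.r7 | exact hb.r8 | exact hb.r9
        | exact hb.r10 | exact hb.r11 | exact hb.r12 | exact hb.r13 | exact hb.r14 | exact hb.r15
        | exact hb.r16 | exact hb.r17 | exact hb.r18 | exact hb.r19 | exact hb.r20 | exact hb.r21
        | exact hb.r22 | exact hb.r23 | exact hb.r24 | exact hb.r25 | exact hb.r94
  · have h1 : (p.T - 2) * (((460 * (p.W + 1) + 265) * 2 + 390) + 200) ≤
        p.T * (((460 * (p.W + 1) + 265) * 2 + 390) + 200) := Nat.mul_le_mul_right _ (Nat.sub_le _ _)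
    have h2 : p.T * (((460 * (p.W + 1) + 265) * 2 + 390) + 200) ≤
        p.T * (920 * (p.W + 1) + 1200) := Nat.mul_le_mul_left _ (by omega)
    omega


theorem Par.T_le_x (p : Par) : p.T ≤ p.x := by
  have := p.le_x (a := 10) (b := 0) (by norm_num) (by norm_num)
  unfold Par.T; omega

theorem Par.T_le (p : Par) : p.T ≤ 2 ^ p.l := by
  have h1 : ∀ n, 15 ≤ n → 10 * n ≤ 2 ^ n := by
    intro n hn
    induction n, hn using Nat.le_induction with
    | base => norm_num
    | succ n _ ih => rw [pow_succ]; omega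
  exact h1 _ p.l_ge

theorem Par.e1_ge2' (p : Par) {t : ℕ} (ht : t ≤ p.T) : t * (2 * p.e0 + 2) ≤ p.e1 := by
  have h1 : (t : ℝ) ≤ 2 ^ p.l := by
    have : t ≤ 2 ^ p.l := ht.trans p.T_le
    exact_mod_cast this
  have h2 : 2 * p.e0 + 2 ≤ 2 ^ (20 * p.l + 4) := by
    unfold Par.e0
    have : (1 : ℝ) ≤ 2 ^ (20 * p.l) := one_le_pow₀ (by norm_num)
    rw [pow_add, pow_add]; linarith
  have h3 : 0 ≤ 2 * p.e0 + 2 := by unfold Par.e0; positivity
  calc (t : ℝ) * (2 * p.e0 + 2) ≤ 2 ^ p.l * 2 ^ (20 * p.l + 4) :=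
        mul_le_mul h1 h2 h3 (by positivity)
    _ = p.e1 := by unfold Par.e1; rw [← pow_add]; congr 1; ring

theorem Tr.cexp2 (hE : EnvOK p E) (hg : Glob2 p E s) {x : ℤ} (h0 : 0 ≤ x) (hx : x < 2 ^ p.T)
    (h30 : s.reg 30 = x) :
    Tr E cexp2 s (p.T * 800 + 400)
      (fun s' => Ap p.W (s'.reg 31) (s'.reg 32) (ee (x / 2 ^ p.T)) p.e1) := by
  have hX := E.hX
  have hPW : |(2 : ℤ) ^ p.W| ≤ E.X := hE.pow (by
    have := p.le_x (a := 40) (b := 0) (by norm_num) (by norm_num); unfold Par.W; omega)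
  have hxX : x ≤ E.X := by
    have := hE.pow p.T_le_x
    rw [abs_of_pos (by positivity)] at this
    omega
  unfold H940_dft.cexp2 seqs seqs seqs seqs
  refine Tr.le (Tr.aseq rfl (by simpa [hg.r15] using hPW) (Tr.aseq rfl (by simp; omega)
    (Tr.aseq rfl (by simp [setR_reg, h30]; rw [abs_of_nonneg h0]; exact hxX)
    (T := p.T * (585 + 200) + 200) ?_))) (by omega)
  refine (Tr.forC p.T 585 (fun q s' => s'.reg 33 = x / 2 ^ q ∧
    Ap p.W (s'.reg 31) (s'.reg 32) (ee ((x % 2 ^ q : ℤ) / 2 ^ p.T)) (q * (2 * p.e0 + 2)))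
    (by decide) (by simp [setR_reg, hg.r89]) ?_ ?_).mono ?_
  · refine ⟨by simp [setR_reg, h30], ?_⟩
    simp [setR_reg, hg.r15, ee_zero]
    exact Ap.exact _
  · rintro q s1 hq h34 - hs1 ⟨e33, hap⟩
    have hfr : ∀ r : ℕ, r ∉ (forc 34 89 cexp2Body).wr ∧ r ≠ 31 ∧ r ≠ 32 ∧ r ≠ 33 →
        s1.reg r = s.reg r := by
      rintro r ⟨h1, h2, h3, h4⟩
      rw [hs1.1 r h1]; simp [setR_reg, h2, h3, h4]
    have e4 : s1.reg 89 = p.T := by rw [hfr 89 (by decide), hg.r89]
    have e15 : s1.reg 15 = 2 ^ p.W := by rw [hfr 15 (by decide), hg.r15]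
    have hc : (p.T : ℤ) - q = ((p.T - q : ℕ) : ℤ) := by rw [Nat.cast_sub hq.le]
    have em1 : s1.mem 1 = s.mem 1 := by rw [hs1.2 1 (by decide)]; rfl
    have em2 : s1.mem 2 = s.mem 2 := by rw [hs1.2 2 (by decide)]; rfl
    have hte := hg.te2 (p.T - q) (by omega) (by omega)
    have h2q : (0 : ℤ) < 2 ^ q := by positivity
    have hmodlt := Int.emod_lt_of_pos x h2q
    have hmod0 := Int.emod_nonneg x h2q.ne'
    have hdiv : x / 2 ^ q / 2 = x / 2 ^ (q + 1) := by
      rw [pow_succ, Int.ediv_ediv_of_nonneg h2q.le]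
    have hxq : |x / 2 ^ (q + 1)| ≤ E.X := by
      rw [abs_of_nonneg (Int.ediv_nonneg h0 (by positivity))]
      exact (Int.ediv_le_self _ h0).trans hxX
    have hmod : x % 2 ^ (q + 1) = x % 2 ^ q + 2 ^ q * (x / 2 ^ q % 2) := by
      have a1 := Int.mul_ediv_add_emod x (2 ^ (q + 1))
      have a2 := Int.mul_ediv_add_emod x (2 ^ q)
      have a3 := Int.mul_ediv_add_emod (x / 2 ^ q) 2
      rw [hdiv] at a3
      rw [pow_succ] at a1 ⊢
      rw [pow_succ] at a3
      have a4 : 2 ^ q * (x / 2 ^ q) = 2 ^ q * (2 * (x / (2 ^ q * 2)) + x / 2 ^ q % 2) := by rw [a3]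
      linear_combination a1 - a2 + a4
    have hle : (q : ℝ) * (2 * p.e0 + 2) ≤ 2 ^ p.W := (p.e1_ge2' hq.le).trans p.e1_le
    have hle' : ((q + 1 : ℕ) : ℝ) * (2 * p.e0 + 2) ≤ 2 ^ p.W := (p.e1_ge2' hq).trans p.e1_le
    have hmul := hap.mul hte (by rw [norm_ee]) (by rw [norm_ee]) hle
    refine Tr.le (Tr.wp rfl ?_) (by decide)
    simp only [cexp2Body, seqs, Cmd.wp, eval_add, eval_reg, eval_ld, eval_sub, eval_mul, eval_div,
      eval_mod, eval_lit, h34, e4, e15, e33, setR_reg, setR_mem, hc, em1, em2, reduceIte,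
      Nat.reduceEqDiff]
    constructor
    · intro hlt
      have hb : x / 2 ^ q % 2 = 0 := by omega
      refine ⟨by rw [hdiv]; exact hxq, by rw [hdiv], ?_⟩
      rw [hmod, hb, mul_zero, add_zero]
      apply hap.mono
      push_cast
      have : 0 ≤ 2 * p.e0 + 2 := by unfold Par.e0; positivity
      linarith
    · intro hge
      have hb : x / 2 ^ q % 2 = 1 := by omega
      have hee : ee (((x % 2 ^ q : ℤ) : ℝ) / 2 ^ p.T) * ee (1 / 2 ^ (p.T - q)) =
          ee (((x % 2 ^ (q + 1) : ℤ) : ℝ) / 2 ^ p.T) := by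
        rw [← ee_add]
        congr 1
        rw [hmod, hb]
        push_cast
        have h3 : (2 : ℝ) ^ p.T = 2 ^ (p.T - q) * 2 ^ q := by
          rw [← pow_add]; congr 1; omega
        rw [h3]
        have h4 : (2 : ℝ) ^ q ≠ 0 := by positivity
        have h5 : (2 : ℝ) ^ (p.T - q) ≠ 0 := by positivity
        field_simp
      rw [hee] at hmul
      have hmul' := hmul.mono (ε' := ((q + 1 : ℕ) : ℝ) * (2 * p.e0 + 2)) (by push_cast; linarith)
      have b1 := hE.unit (hmul'.unit_re (by rw [norm_ee]) hle')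
      have b2 := hE.unit (hmul'.unit_im (by rw [norm_ee]) hle')
      refine ⟨b1, b2, b1, by rw [hdiv]; exact hxq, by rw [hdiv], ?_⟩
      exact hmul'
  · rintro s1 - ⟨⟨-, hap⟩, -⟩
    rw [Int.emod_eq_of_lt h0 hx] at hap
    exact hap.mono (p.e1_ge2' le_rfl)


end Pool.Agent.H940_dft
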