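import Pool.Agent.H940_dft.Main
import Pool.Agent.H940_ver.InitX

/-!
# The state after the initialisation
-/

namespace Pool.Agent.H940_dft

variable {E : Env} {s s' : St} {p : Par}

/-- Everything which stays unchanged after the initialisation. -/
structure GX (p : Par) (E : Env) (s : St) : Prop extends Glob p E s where
  r0 : s.reg 0 = p.k
  r89 : s.reg 89 = p.T
  te2 : ∀ t : ℕ, 1 ≤ t → t ≤ p.T → Ap p.W (s.mem 1 t) (s.mem 2 t) (ee (1 / 2 ^ t)) p.e0

/-- The command does not write to the registers below `26` and the registers `89`, `94`, and not to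
arrays with numbers below `5`. -/
def Cmd.sx (c : Cmd) : Bool :=
  c.wr.all (fun r => decide (26 ≤ r) && decide (r ≠ 94) && decide (r ≠ 89)) &&
    c.wm.all (fun b => decide (5 ≤ b))

theorem sx_safe {c : Cmd} (h : c.sx = true) : c.safe 5 = true ∧ 89 ∉ c.wr := by
  simp only [Cmd.sx, Bool.and_eq_true, List.all_eq_true, decide_eq_true_eq] at h
  simp only [Cmd.safe, Bool.and_eq_true, List.all_eq_true, decide_eq_true_eq]
  exact ⟨⟨fun r hr => (h.1 r hr).1, h.2⟩, fun h89 => (h.1 89 h89).2 rfl⟩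

theorem GX.same {c : Cmd} (h : GX p E s) (hs : Same c s s') (hc : c.sx = true) : GX p E s' := by
  obtain ⟨h1, h2⟩ := sx_safe hc
  refine ⟨h.toGlob.same (m := 5) hs h1 (by norm_num), ?_, ?_, ?_⟩
  · rw [safe_reg h1 (by norm_num) hs, h.r0]
  · rw [hs.1 89 h2, h.r89]
  · intro t ht1 ht2
    rw [safe_mem h1 (by norm_num) hs, safe_mem h1 (by norm_num) hs]
    exact h.te2 t ht1 ht2

theorem GX.glob2 (h : GX p E s) : Glob2 p E s := ⟨h.toGlob0, h.r89, h.te2⟩

/-- Frame for a command followed by assignments which are not in its list. -/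
theorem GX.of {c : Cmd} (h : GX p E s) (hr : ∀ r, r ∉ c.wr → s'.reg r = s.reg r)
    (hm : ∀ b, b ∉ c.wm → s'.mem b = s.mem b) (hc : c.sx = true) : GX p E s' :=
  h.same (c := c) ⟨hr, hm⟩ hc

/-- Cost of the initialisation. -/
def Par.cinitx (p : Par) (w : ℕ) : ℕ :=
  (p.P * 260 + p.j0 * 260 + 585) + ((p.W * 395 + 920) + ((65 * p.c + 65) + ((w * 265 + 330) +
    (1040 + ((p.T * (920 * (p.W + 1) + 1200) + 1000) +
      (2 ^ p.mu * (p.P * 800 + 925) + 200))))))

theorem tr_initAll (hE : EnvOK p E) (hi : Inp p E s) {m : ℕ → ℕ → ℤ}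
    (hm : ∀ b : ℕ, 5 ≤ b → ∀ i : ℕ, s.mem b i = m b i) :
    Tr E (initAll p.c) s (p.cinitx E.w) (fun s' => GX p E s' ∧
      (∀ b : ℕ, 5 ≤ b → ∀ i : ℕ, s'.mem b i = m b i) ∧ s'.reg 39 = s.reg 39 ∧
      s'.reg 85 = s.reg 85) := by
  unfold initAll
  simp only [seqs]
  refine Tr.le (Tr.seq (Tr.initA hE hi.r0 hi.r1) ?_) (T := (p.P * 260 + p.j0 * 260 + 585) +
    ((p.W * 395 + 920) + ((65 * p.c + 65) + ((E.w * 265 + 330) +
    (1040 + ((p.T * (920 * (p.W + 1) + 1200) + 1000) +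
      (2 ^ p.mu * (p.P * 800 + 925) + 200))))))) (le_of_eq (by unfold Par.cinitx; ring))
  rintro s1 hs1 ⟨a4, a6⟩
  have hi1 := hi.same hs1 (by decide)
  refine Tr.seq (Tr.initB hE a4 a6 hi1.r2) ?_
  rintro s2 hs2 ⟨b10, b13, b14, b29, bpw⟩
  have hi2 := hi1.same hs2 (by decide)
  have b4 : s2.reg 4 = p.P := by rw [hs2.1 4 (by decide), a4]
  have b6 : s2.reg 6 = p.j0 := by rw [hs2.1 6 (by decide), a6]
  refine Tr.seq (Tr.initL hE b4 p.c le_rfl) ?_
  rintro s3 hs3 c18
  have hr3 : ∀ r, r ≠ 18 → s3.reg r = s2.reg r := fun r hr =>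
    hs3.1 r (fun h => hr ((initL_wr p.c).1 r h))
  have hm3 : ∀ b, s3.mem b = s2.mem b := fun b => hs3.2 b ((initL_wr p.c).2 b)
  refine Tr.seq (Tr.initW hE (by rw [hr3 3 (by norm_num), hi2.r3])
    (by rw [hr3 14 (by norm_num), b14])) ?_
  rintro s4 hs4 d94
  have hr4 : ∀ r, r ∉ initW.wr → r ≠ 18 → s4.reg r = s2.reg r := fun r hr hr' => by
    rw [hs4.1 r hr, hr3 r hr']
  have hm4 : ∀ b, b ∉ initW.wm → s4.mem b = s2.mem b := fun b hb => by
    rw [hs4.2 b hb, hm3]
  refine Tr.seq (Tr.initC hE (by rw [hr4 2 (by decide) (by decide), hi2.r2])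
    (by rw [hr4 4 (by decide) (by decide), b4]) (by rw [hr4 6 (by decide) (by decide), b6])
    (by rw [hr4 10 (by decide) (by decide), b10]) (by rw [hr4 13 (by decide) (by decide), b13])
    (by rw [hr4 14 (by decide) (by decide), b14]) (by rw [hs4.1 18 (by decide), c18]; rfl) d94
    (fun t ht => by rw [hm4 0 (by decide), bpw t ht])) ?_
  rintro s5 hs5 hb5
  refine Tr.seq (Tr.initEx hE hb5 (by
    rw [hs5.1 29 (by decide), hr4 29 (by decide) (by decide), b29]) (by
    rw [hs5.1 2 (by decide), hr4 2 (by decide) (by decide), hi2.r2])) ?_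
  rintro s6 hs6 hg6
  refine (Tr.initT hE hg6.toGlob0).mono ?_
  rintro s7 hs7 hg7
  have key : ∀ r, r = 0 ∨ r = 39 ∨ r = 85 → s7.reg r = s.reg r := by
    intro r hr
    rcases hr with rfl | rfl | rfl
    · rw [hs7.1 0 (by decide), hs6.1 0 (by decide), hs5.1 0 (by decide),
        hr4 0 (by decide) (by decide), hs2.1 0 (by decide), hs1.1 0 (by decide)]
    · rw [hs7.1 39 (by decide), hs6.1 39 (by decide), hs5.1 39 (by decide),
        hr4 39 (by decide) (by decide), hs2.1 39 (by decide), hs1.1 39 (by decide)]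
    · rw [hs7.1 85 (by decide), hs6.1 85 (by decide), hs5.1 85 (by decide),
        hr4 85 (by decide) (by decide), hs2.1 85 (by decide), hs1.1 85 (by decide)]
  refine ⟨⟨hg7, ?_, ?_, ?_⟩, ?_, ?_, ?_⟩
  · rw [key 0 (by norm_num), hi.r0]
  · rw [hs7.1 89 (by decide), hg6.r89]
  · intro t h1 h2
    rw [hs7.2 1 (by decide), hs7.2 2 (by decide)]
    exact hg6.te2 t h1 h2
  · intro b hb i
    have w1 : initT.wm = [3, 4] := by decide
    have w2 : ∀ x ∈ initEx.wm, x < 5 := by decide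
    have w3 : initC.wm = [] := by decide
    have w4 : initW.wm = [] := by decide
    have w5 : ∀ x ∈ initB.wm, x < 5 := by decide
    have w6 : initA.wm = [] := by decide
    rw [hs7.2 b (by rw [w1]; simp; omega), hs6.2 b (fun h => by have := w2 b h; omega),
      hs5.2 b (by rw [w3]; simp), hm4 b (by rw [w4]; simp),
      hs2.2 b (fun h => by have := w5 b h; omega), hs1.2 b (by rw [w6]; simp)]
    exact hm b hb i
  · exact key 39 (by norm_num)
  · exact key 85 (by norm_num)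

end Pool.Agent.H940_dft
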