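import Pool.Agent.H940_ver.FinalV

/-!
# Existence of initial configurations for the verification
-/

namespace Pool.Agent.H940_dft

open Complex Finset

variable {w : ℕ}

theorem toInt_ofInt_small {x : ℤ} (hw : 1 ≤ w) (h : |x| < 2 ^ (w - 1)) :
    (BitVec.ofInt w x).toInt = x := by
  rw [abs_lt] at h
  rw [BitVec.toInt_ofInt]
  have h5 : (2 : ℤ) ^ w = 2 * 2 ^ (w - 1) := by rw [← pow_succ']; congr 1; omega
  apply Int.bmod_eq_of_le
  · push_cast; omega
  · push_cast; omega

theorem holds_exists (p : Par) (hw : w = wordLength (Vc p.c : ℝ) p.N p.B)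
    {f₀ : ℤ →₀ ℂ} (ha : Adm p f₀) : ∃ c₀ : Conf w, Holds p.k p.N p.B f₀ c₀ := by
  classical
  have hl := p.l_ge
  have hlPB : p.l = p.P + p.B := rfl
  have hP := p.P_ge
  have hwl : 6410 * p.l ≤ w := by
    have h2 := (wl_bounds p).1
    rw [← hw] at h2
    exact (Nat.mul_le_mul_right _ (by omega)).trans h2
  have hkP : p.k < 2 ^ p.P := by
    have h3 := p.lt_P
    have h4 := p.hkN
    omega
  have hk64 : 64 * p.k + 64 < 2 ^ w := by
    calc 64 * p.k + 64 < 64 * 2 ^ p.P + 64 * 2 ^ p.P := by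
          have : 1 ≤ 2 ^ p.P := Nat.one_le_two_pow
          omega
      _ = 2 ^ (p.P + 7) := by rw [pow_add]; ring
      _ ≤ 2 ^ w := Nat.pow_le_pow_right (by norm_num) (by omega)
  have hkw : p.k < 2 ^ w := by omega
  -- enumeration of the frequencies
  obtain ⟨e⟩ : Nonempty (_root_.Fin p.k ≃ f₀.support) := by
    have : Fintype.card (_root_.Fin p.k) = Fintype.card f₀.support := by
      rw [Fintype.card_fin, Fintype.card_coe, ha.card]
    exact ⟨Fintype.equivOfCardEq this⟩
  have hgrid : ∀ ω : ℤ, ∃ a b : ℤ, ω ∈ f₀.support → f₀ ω = (a + b * Complex.I) / 2 ^ p.B := by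
    intro ω
    by_cases h : ω ∈ f₀.support
    · obtain ⟨a, b, hab⟩ := ha.grid ω h
      exact ⟨a, b, fun _ => hab⟩
    · exact ⟨0, 0, fun h' => absurd h' h⟩
  choose u v huv using hgrid
  set ω : ℕ → ℤ := fun t => if h : t < p.k then (e ⟨t, h⟩ : ℤ) else 0 with hω
  have hωs : ∀ t < p.k, ω t ∈ f₀.support := by
    intro t ht
    rw [hω]
    simp only [dif_pos ht]
    exact (e ⟨t, ht⟩).2
  have hωe : ∀ x ∈ f₀.support, ∃ t < p.k, ω t = x := by
    intro x hx
    refine ⟨(e.symm ⟨x, hx⟩).1, (e.symm ⟨x, hx⟩).2, ?_⟩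
    rw [hω]
    simp only [_root_.Fin.is_lt, dif_pos, _root_.Fin.eta, Equiv.apply_symm_apply]
  have b2B : (2 : ℤ) ^ (2 * p.B) < 2 ^ (w - 1) := pow_lt_pow_right₀ (by norm_num) (by omega)
  have bP : (2 : ℤ) ^ (p.P - 1) < 2 ^ (w - 1) := pow_lt_pow_right₀ (by norm_num) (by omega)
  have hw1 : 1 ≤ w := by omega
  have tω : ∀ t < p.k, (BitVec.ofInt w (ω t)).toInt = ω t := fun t ht =>
    toInt_ofInt_small hw1 ((ha.lt (hωs t ht)).trans bP)
  have tu : ∀ t < p.k, (BitVec.ofInt w (u (ω t))).toInt = u (ω t) := fun t ht =>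
    toInt_ofInt_small hw1 ((re_im_bound ha (hωs t ht) (huv _ (hωs t ht))).1.trans_lt b2B)
  have tv : ∀ t < p.k, (BitVec.ofInt w (v (ω t))).toInt = v (ω t) := fun t ht =>
    toInt_ofInt_small hw1 ((re_im_bound ha (hωs t ht) (huv _ (hωs t ht))).2.trans_lt b2B)
  set m : BitVec w → BitVec w := fun a => if a.toNat / 64 < p.k then
    (if a.toNat % 64 = 17 then BitVec.ofInt w (ω (a.toNat / 64)) else
      if a.toNat % 64 = 18 then BitVec.ofInt w (u (ω (a.toNat / 64))) else
      if a.toNat % 64 = 19 then BitVec.ofInt w (v (ω (a.toNat / 64))) else 0) else 0 with hm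
  have addr : ∀ t < p.k, ∀ b < 64, (BitVec.ofNat w (64 * t + b)).toNat = 64 * t + b := by
    intro t ht b hb
    rw [BitVec.toNat_ofNat, Nat.mod_eq_of_lt (by omega)]
  have m17 : ∀ t < p.k, m (BitVec.ofNat w (64 * t + 17)) = BitVec.ofInt w (ω t) := by
    intro t ht
    simp only [hm, addr t ht 17 (by norm_num), show (64 * t + 17) / 64 = t by omega,
      show (64 * t + 17) % 64 = 17 by omega, if_pos ht, if_true]
  have m18 : ∀ t < p.k, m (BitVec.ofNat w (64 * t + 18)) = BitVec.ofInt w (u (ω t)) := by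
    intro t ht
    simp only [hm, addr t ht 18 (by norm_num), show (64 * t + 18) / 64 = t by omega,
      show (64 * t + 18) % 64 = 18 by omega, if_pos ht, Nat.reduceEqDiff, if_false, if_true]
  have m19 : ∀ t < p.k, m (BitVec.ofNat w (64 * t + 19)) = BitVec.ofInt w (v (ω t)) := by
    intro t ht
    simp only [hm, addr t ht 19 (by norm_num), show (64 * t + 19) / 64 = t by omega,
      show (64 * t + 19) % 64 = 19 by omega, if_pos ht, Nat.reduceEqDiff, if_false, if_true]
  refine ⟨⟨0, fun r => if r = 0 then BitVec.ofNat w p.k else if r = 1 then BitVec.ofNat w p.N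
    else if r = 2 then BitVec.ofNat w p.B else if r = 39 then BitVec.ofNat w p.k else 0, m, 0⟩,
    rfl, rfl, rfl, rfl, rfl, ?_, ?_, ?_, ?_⟩
  · show (BitVec.ofNat w p.k).toNat = p.k
    rw [BitVec.toNat_ofNat, Nat.mod_eq_of_lt hkw]
  · intro r h0 h1 h2 h39
    simp only [if_neg h0, if_neg h1, if_neg h2, if_neg h39]
  · ext q
    unfold Conf.output
    simp only [Set.mem_ofPred_eq, Nat.reduceEqDiff, if_false, if_true]
    rw [BitVec.toNat_ofNat, Nat.mod_eq_of_lt hkw]
    constructor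
    · rintro ⟨t, ht, rfl⟩
      rw [m17 t ht, m18 t ht, m19 t ht, tω t ht, tu t ht, tv t ht]
      exact ⟨hωs t ht, (huv _ (hωs t ht)).symm⟩
    · rintro ⟨h1, h2⟩
      obtain ⟨t, ht, h3⟩ := hωe _ h1
      refine ⟨t, ht, ?_⟩
      rw [m17 t ht, m18 t ht, m19 t ht, tω t ht, tu t ht, tv t ht]
      apply Prod.ext
      · exact h3.symm
      · rw [h2, ← h3]; exact huv _ (hωs t ht)
  · intro a ha'
    show m a = 0
    simp only [hm]
    split_ifs with h1 h2 h3 h4
    · exfalso
      apply (ha' _ h1).1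
      rw [show 64 * (a.toNat / 64) + 17 = a.toNat by omega, BitVec.ofNat_toNat,
        BitVec.setWidth_eq]
    · exfalso
      apply (ha' _ h1).2.1
      rw [show 64 * (a.toNat / 64) + 18 = a.toNat by omega, BitVec.ofNat_toNat,
        BitVec.setWidth_eq]
    · exfalso
      apply (ha' _ h1).2.2
      rw [show 64 * (a.toNat / 64) + 19 = a.toNat by omega, BitVec.ofNat_toNat,
        BitVec.setWidth_eq]
    · rfl
    · rfl

end Pool.Agent.H940_dft
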