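import Pool.Agent.H940_ver.Shift2

/-!
# The list of all shifts with small denominators
-/

namespace Pool.Agent.H940_dft

variable {E : Env} {s s' : St} {p : Par}

/-- The first `T` entries of the list. -/
structure LB (s : St) (u0 Λ T : ℕ) (D : ℕ → ℕ → Prop) : Prop where
  r86 : s.reg 86 = T
  ent : ∀ t < T, ∃ a m : ℕ, s.mem 21 (t : ℕ) = a ∧ s.mem 22 (t : ℕ) = m ∧ s.mem 23 (t : ℕ) = u0 ∧
    a < m ∧ m ≤ Λ
  cov : ∀ m a : ℕ, D m a → ∃ t < T, s.mem 21 (t : ℕ) = a ∧ s.mem 22 (t : ℕ) = m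

theorem LB.keep {u0 Λ T : ℕ} {D D' : ℕ → ℕ → Prop} (h : LB s u0 Λ T D)
    (h86 : s'.reg 86 = s.reg 86) (h21 : s'.mem 21 = s.mem 21) (h22 : s'.mem 22 = s.mem 22)
    (h23 : s'.mem 23 = s.mem 23) (hD : ∀ m a, D' m a → D m a) : LB s' u0 Λ T D' := by
  refine ⟨by rw [h86, h.r86], ?_, ?_⟩
  · rw [h21, h22, h23]; exact h.ent
  · rw [h21, h22]; exact fun m a hd => h.cov m a (hD m a hd)

theorem LB.push {u0 Λ T m0 a0 : ℕ} {D D' : ℕ → ℕ → Prop} (h : LB s u0 Λ T D)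
    (h86 : s'.reg 86 = ((T + 1 : ℕ) : ℤ))
    (h21 : ∀ t : ℕ, s'.mem 21 t = if t = T then (a0 : ℤ) else s.mem 21 t)
    (h22 : ∀ t : ℕ, s'.mem 22 t = if t = T then (m0 : ℤ) else s.mem 22 t)
    (h23 : ∀ t : ℕ, s'.mem 23 t = if t = T then (u0 : ℤ) else s.mem 23 t)
    (ha : a0 < m0) (hm : m0 ≤ Λ) (hD : ∀ m a, D' m a → D m a ∨ (m = m0 ∧ a = a0)) :
    LB s' u0 Λ (T + 1) D' := by
  refine ⟨h86, ?_, ?_⟩
  · intro t ht
    rw [h21, h22, h23]
    by_cases htT : t = T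
    · rw [if_pos htT, if_pos htT, if_pos htT]
      exact ⟨a0, m0, rfl, rfl, rfl, ha, hm⟩
    · rw [if_neg htT, if_neg htT, if_neg htT]
      exact h.ent t (by omega)
  · intro m a hd
    rcases hD m a hd with h1 | ⟨rfl, rfl⟩
    · obtain ⟨t, ht, e1, e2⟩ := h.cov m a h1
      refine ⟨t, by omega, ?_, ?_⟩
      · rw [h21, if_neg (by omega)]; exact e1
      · rw [h22, if_neg (by omega)]; exact e2
    · refine ⟨T, by omega, ?_, ?_⟩
      · rw [h21, if_pos rfl]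
      · rw [h22, if_pos rfl]

/-- Properties of the finished list. -/
structure Lst (p : Par) (s : St) (u0 Λ T : ℕ) (a m u : ℕ → ℕ) : Prop extends SL p s T a m u where
  T_le : T ≤ Λ * Λ
  T_pos : 1 ≤ T
  u_eq : ∀ t < T, u t = u0
  a_lt : ∀ t < T, a t < m t
  m_leL : ∀ t < T, m t ≤ Λ
  cov : ∀ m0 a0 : ℕ, 1 ≤ m0 → m0 ≤ Λ → a0 < m0 → ∃ t < T, a t = a0 ∧ m t = m0
  last : a (T - 1) = 0

theorem tr_listB (hE : EnvOK p E) (hg : Glob p E s) {lr u0 Λ : ℕ} {mu : Expr}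
    (hlr : (lr = 18 ∧ mu = .reg 5 ∧ u0 = 2 ^ p.P) ∨ (lr = 87 ∧ mu = .lit 0 ∧ u0 = 0))
    (hr : s.reg lr = Λ) (h1 : 1 ≤ Λ) (hΛ : Λ ≤ 2 ^ (5 * p.l)) :
    Tr E (listB lr mu) s (Λ * (Λ * 700 + 700) + 400) (fun s' => ∃ (T : ℕ) (a m u : ℕ → ℕ),
      Lst p s' u0 Λ T a m u) := by
  have hX := E.hX
  have hx10 : 10 * p.l + 2 ≤ p.x := p.le_x (a := 10) (b := 2) (by norm_num) (by norm_num)
  have hΛ2 : Λ * Λ ≤ 2 ^ (10 * p.l) := by
    calc Λ * Λ ≤ 2 ^ (5 * p.l) * 2 ^ (5 * p.l) := Nat.mul_le_mul hΛ hΛ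
      _ = _ := by rw [← pow_add]; congr 1; ring
  have hnX : ∀ n : ℕ, n ≤ Λ * Λ + 1 → |(n : ℤ)| ≤ E.X := by
    intro n hn
    apply hE.nat
    calc n ≤ 2 ^ (10 * p.l) + 1 := by omega
      _ ≤ 2 ^ (10 * p.l) + 2 ^ (10 * p.l) := Nat.add_le_add_left Nat.one_le_two_pow _
      _ = 2 ^ (10 * p.l + 1) := by rw [pow_succ]; ring
      _ ≤ 2 ^ p.x := Nat.pow_le_pow_right (by norm_num) (by omega)
  have hΛΛ : Λ ≤ Λ * Λ := Nat.le_mul_of_pos_left _ (by omega)
  have hu0 : u0 ≤ 2 ^ p.P := by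
    rcases hlr with ⟨-, -, h⟩ | ⟨-, -, h⟩
    · rw [h]
    · rw [h]; exact Nat.zero_le _
  have hu0X : |(u0 : ℤ)| ≤ E.X := hE.nat (hu0.trans (Nat.pow_le_pow_right (by norm_num) p.P_le_x))
  have hmu : ∀ s1 : St, s1.reg 5 = s.reg 5 → mu.eval s1 = u0 := by
    intro s1 h5
    rcases hlr with ⟨-, h, h'⟩ | ⟨-, h, h'⟩
    · rw [h, h', eval_reg, h5, hg.r5]; push_cast; rfl
    · rw [h, h', eval_lit]; rfl
  have hfit : mu.fits = true := by
    rcases hlr with ⟨-, h, -⟩ | ⟨-, h, -⟩ <;> rw [h] <;> decide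
  have hlr90 : lr < 90 ∧ lr ≠ 54 ∧ lr ≠ 55 ∧ lr ≠ 56 ∧ lr ≠ 86 := by
    rcases hlr with ⟨h, -, -⟩ | ⟨h, -, -⟩ <;> rw [h] <;> decide
  obtain ⟨l1, l2, l3, l4, l5⟩ := hlr90
  unfold listB
  simp only [seqs]
  refine Tr.le (Tr.aseq rfl (by simp; omega) ((Tr.forC Λ (65 + (Λ * (455 + 200) + 200))
    (fun q s1 => ∃ T : ℕ, T ≤ q * Λ ∧
      LB s1 u0 Λ T (fun m a => Λ - q < m ∧ m ≤ Λ ∧ a < m) ∧
      (0 < q → 1 ≤ T ∧ s1.mem 22 ((T - 1 : ℕ) : ℤ) = ((Λ - q + 1 : ℕ) : ℤ))) ?_ ?_ ?_ ?_).mono ?_))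
    (T := 65 + (Λ * ((65 + (Λ * (455 + 200) + 200)) + 200) + 200)) ?_
  · simp only [Bool.and_eq_true, decide_eq_true_eq]
    refine ⟨⟨⟨⟨by norm_num, l1⟩, l2⟩, ?_⟩, ?_⟩
    · simp [forc, Cmd.wr]
    · simp [forc, Cmd.wr]; omega
  · rw [setR_reg, if_neg l5, hr]
  · refine ⟨0, by omega, ⟨by simp [setR_reg], fun t ht => by omega, ?_⟩, fun h => by omega⟩
    rintro m a ⟨h2, h3, -⟩; omega
  · rintro q s1 hq h54 hlr1 hs1 ⟨T, hT, hB, hlast⟩
    have h5 : s1.reg 5 = s.reg 5 := by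
      rw [hs1.1 5 (by simp [forc, Cmd.wr]), setR_reg, if_neg (by norm_num)]
    have e55 : (Expr.reg lr - Expr.reg 54).eval s1 = ((Λ - q : ℕ) : ℤ) := by
      simp only [eval_sub, eval_reg, hlr1, h54]
      omega
    refine Tr.aseq ?_ ?_ ?_
    · show (Expr.sub (Expr.reg lr) (Expr.reg 54)).fits = true
      simp [Expr.fits, Expr.small, Expr.size, l1]
    · rw [e55]; exact hnX _ (by omega)
    rw [e55]
    refine Tr.le ((Tr.forC (Λ - q) 455 (fun r s2 => ∃ T' : ℕ, T' ≤ q * Λ + r ∧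
      LB s2 u0 Λ T' (fun m a => (Λ - q < m ∧ m ≤ Λ ∧ a < m) ∨ (m = Λ - q ∧ a < r)) ∧
      (0 < r → 1 ≤ T' ∧ s2.mem 22 ((T' - 1 : ℕ) : ℤ) = ((Λ - q : ℕ) : ℤ))) (by simp [Cmd.wr]) ?_ ?_
      ?_).mono ?_) ?_
    · rw [setR_reg, if_pos rfl]
    · refine ⟨T, by omega, hB.keep (by simp [setR_reg]) rfl rfl rfl ?_, fun h => by omega⟩
      rintro m a (h | h)
      · exact h
      · omega
    · rintro r s2 hr2 h56 h55 hs2 ⟨T', hT', hB', -⟩
      have g5 : s2.reg 5 = s.reg 5 := by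
        rw [hs2.1 5 (by simp [forc, Cmd.wr]), setR_reg, if_neg (by norm_num), h5]
      have hT'X : T' + 1 ≤ Λ * Λ := by
        have : (q + 1) * Λ ≤ Λ * Λ := Nat.mul_le_mul_right _ hq
        have e : (q + 1) * Λ = q * Λ + Λ := by ring
        omega
      have hq1 : Λ - q ≤ Λ * Λ := by omega
      refine Tr.sseq rfl rfl ?_ (Tr.sseq rfl rfl ?_ (Tr.sseq rfl hfit ?_ (Tr.asg rfl ?_ ?_)))
      · simp only [eval_reg, h56]
        exact hnX r (by omega)
      · simp only [eval_reg, setM_reg, h55]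
        exact hnX _ (by omega)
      · rw [hmu _ (by simp only [setM_reg]; exact g5)]
        exact hu0X
      · simp only [eval_add, eval_reg, eval_lit, setM_reg, hB'.r86]
        have := hnX (T' + 1) (by omega)
        push_cast at this
        exact this
      · rw [hmu _ (by simp only [setM_reg]; exact g5)]
        have hidx : ∀ (c d : ℤ) (t : ℕ), (if (t : ℤ) = (T' : ℤ) then c else d) =
            if t = T' then c else d := by
          intro c d t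
          by_cases h : t = T'
          · rw [if_pos h, if_pos (by exact_mod_cast h)]
          · rw [if_neg h, if_neg (by exact_mod_cast h)]
        refine ⟨T' + 1, by omega, hB'.push (a0 := r) (m0 := Λ - q) ?_ ?_ ?_ ?_ (by omega) (by omega)
          ?_, ?_⟩
        · simp only [eval_add, eval_reg, eval_lit, setR_reg, setM_reg, hB'.r86, reduceIte,
            Nat.reduceEqDiff]
          push_cast; rfl
        · intro t
          simp [setR_mem, setM_mem, setM_reg, h56, h55, hB'.r86]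
        · intro t
          simp [setR_mem, setM_mem, setM_reg, h56, h55, hB'.r86]
        · intro t
          simp [setR_mem, setM_mem, setM_reg, h56, h55, hB'.r86]
        · rintro m a (h | ⟨h, h'⟩)
          · exact Or.inl (Or.inl h)
          · by_cases har : a = r
            · exact Or.inr ⟨h, har⟩
            · exact Or.inl (Or.inr ⟨h, by omega⟩)
        · intro _
          refine ⟨by omega, ?_⟩
          rw [Nat.add_sub_cancel]
          simp [setR_mem, setM_mem, setM_reg, h56, h55, hB'.r86]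
    · rintro s2 - ⟨⟨T', hT', hB', hl'⟩, -⟩
      refine ⟨T', ?_, hB'.keep (by simp [setR_reg]) rfl rfl rfl ?_, ?_⟩
      · have : (q + 1) * Λ = q * Λ + Λ := by ring
        omega
      · rintro m a ⟨h2, h3, h4⟩
        by_cases hm : m = Λ - q
        · exact Or.inr ⟨hm, by omega⟩
        · exact Or.inl ⟨by omega, h3, h4⟩
      · intro _
        obtain ⟨h2, h3⟩ := hl' (by omega)
        refine ⟨h2, ?_⟩
        rw [setR_mem, h3, show Λ - (q + 1) + 1 = Λ - q by omega]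
    · exact Nat.add_le_add_right (Nat.mul_le_mul_right _ (Nat.sub_le _ _)) _
  · rintro s1 - ⟨⟨T, hT, hB, hlast⟩, -⟩
    obtain ⟨hT1, hTl⟩ := hlast (by omega)
    choose! a m h21 h22 h23 ham hmΛ using hB.ent
    refine ⟨T, a, m, fun _ => u0, ⟨hB.r86, h21, h22, h23, ?_, ?_, ?_, fun _ _ => hu0⟩, hT, hT1,
      fun _ _ => rfl, ham, hmΛ, ?_, ?_⟩
    · intro t ht
      have := ham t ht
      have := hmΛ t ht
      omega
    · intro t ht
      have := ham t ht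
      omega
    · intro t ht
      exact (hmΛ t ht).trans hΛ
    · intro m0 a0 h2 h3 h4
      obtain ⟨t, ht, e1, e2⟩ := hB.cov m0 a0 ⟨by omega, h3, h4⟩
      refine ⟨t, ht, ?_, ?_⟩
      · have := h21 t ht
        rw [e1] at this
        exact_mod_cast this.symm
      · have := h22 t ht
        rw [e2] at this
        exact_mod_cast this.symm
    · have h2 := h22 (T - 1) (by omega)
      rw [hTl] at h2
      have h3 : Λ - Λ + 1 = m (T - 1) := by exact_mod_cast h2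
      have := ham (T - 1) (by omega)
      omega
  · have : Λ * ((65 + (Λ * (455 + 200) + 200)) + 200) ≤ Λ * (Λ * 700 + 700) :=
      Nat.mul_le_mul_left _ (by omega)
    omega

end Pool.Agent.H940_dft
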