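import Pool.Agent.H940_dft.Final

/-!
# Running compiled programs from general initial configurations
-/

namespace Pool.Agent.H940_dft

open Complex Finset

variable {w : ℕ} {P : List Instr} {O : ℕ → ℕ → ℕ → ℤ × ℤ}

/-- Initial configurations: inputs `k`, `N`, `B` in the registers `0`, `1`, `2`; the register `39`
and the memory are arbitrary. -/
structure Ini (k N B : ℕ) (c : Conf w) : Prop where
  pc : c.pc = 0
  calls : c.calls = 0
  r0 : c.reg 0 = BitVec.ofNat w k
  r1 : c.reg 1 = BitVec.ofNat w N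
  r2 : c.reg 2 = BitVec.ofNat w B
  rest : ∀ r, r ≠ 0 → r ≠ 1 → r ≠ 2 → r ≠ 39 → c.reg r = 0

/-- State in the loop of the prologue. -/
structure PIn (c₀ : Conf w) (k N B q : ℕ) (c : Conf w) : Prop where
  pc : c.pc = 3
  r0 : c.reg 0 = BitVec.ofNat w k
  r1 : c.reg 1 = BitVec.ofNat w N
  r2 : c.reg 2 = BitVec.ofNat w B
  r3 : c.reg 3 = BitVec.ofNat w q
  r101 : c.reg 101 = BitVec.ofNat w 1
  r104 : c.reg 104 = BitVec.ofNat w 64
  r105 : c.reg 105 = BitVec.ofNat w (2 ^ q)
  r103 : 1 ≤ q → c.reg 103 = BitVec.ofNat w (2 ^ (q - 1))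
  rest : ∀ r, 4 ≤ r → r ≠ 101 → r ≠ 103 → r ≠ 104 → r ≠ 105 → c.reg r = c₀.reg r
  mem : c.mem = c₀.mem
  calls : c.calls = 0

theorem proX_start (hP : At P 0 prologue) {k N B : ℕ} {c₀ : Conf w} (h0 : Ini k N B c₀) :
    ∃ c, Runs P O 3 c₀ c ∧ PIn c₀ k N B 0 c := by
  rw [prologue_eq] at hP
  obtain ⟨pc, r, m, n⟩ := c₀
  have hpc : pc = 0 := h0.pc
  have hn : n = 0 := h0.calls
  subst hpc hn
  have h := runs_sl (w := w) (O := O) prolA 0 r m 0 hP.left
  have e3 : r 3 = 0 := h0.rest 3 (by norm_num) (by norm_num) (by norm_num) (by norm_num)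
  refine ⟨_, h, ?_⟩
  constructor
  · rfl
  · simpa [prolA, execs, Sl.exec] using h0.r0
  · simpa [prolA, execs, Sl.exec] using h0.r1
  · simpa [prolA, execs, Sl.exec] using h0.r2
  · simp [prolA, execs, Sl.exec, e3]
  · simp [prolA, execs, Sl.exec]
  · simp [prolA, execs, Sl.exec]
  · simp [prolA, execs, Sl.exec]
  · intro h; omega
  · intro r' h1 h2 h3 h4 h5
    simp [prolA, execs, Sl.exec, h2, h4, h5]
  · rfl
  · rfl

theorem proX_step (hP : At P 0 prologue) {k N B q : ℕ} (hq : q < w) {c₀ : Conf w}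
    (h0 : Ini k N B c₀) {c : Conf w}
    (h : PIn c₀ k N B q c) : ∃ c', Runs P O 5 c c' ∧ PIn c₀ k N B (q + 1) c' := by
  rw [prologue_eq] at hP
  obtain ⟨pc, r, m, n⟩ := c
  have hpc : pc = 3 := h.pc
  subst hpc
  have i3 : P[3]? = some (.jumpLt 100 105 5) := by
    have := hP.right.left.head
    simpa [prolA] using this
  have hB : At P 5 (prolB.map Sl.instr) := hP.right.right.left
  have i8 : P[8]? = some (.jump 3) := by
    have := hP.right.right.right.head
    simpa [prolA, prolB] using this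
  have e100 : r 100 = 0 := (h.rest 100 (by norm_num) (by norm_num) (by norm_num) (by norm_num)
      (by norm_num)).trans (h0.rest 100 (by norm_num) (by norm_num) (by norm_num) (by norm_num))
  have hlt : r 100 < r 105 := by
    have h2 : r 105 = BitVec.ofNat w (2 ^ q) := h.r105
    rw [BitVec.lt_def, e100, h2, BitVec.toNat_ofNat,
      Nat.mod_eq_of_lt (Nat.pow_lt_pow_right (by norm_num) hq)]
    simp
  have s1 : step P O ⟨3, r, m, n⟩ = some ⟨5, r, m, n⟩ := by
    unfold step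
    simp only [i3, if_pos hlt]
  have s2 := runs_sl (w := w) (O := O) prolB 5 r m n hB
  have s3 : step P O ⟨8, execs m prolB r, m, n⟩ = some ⟨3, execs m prolB r, m, n⟩ := by
    unfold step
    simp only [i8]
  refine ⟨_, (Runs.one s1).trans (s2.trans (Runs.one s3)), ?_⟩
  have e105 : r 105 = BitVec.ofNat w (2 ^ q) := h.r105
  have e101 : r 101 = BitVec.ofNat w 1 := h.r101
  have e3 : r 3 = BitVec.ofNat w q := h.r3
  constructor
  · rfl
  · simpa [prolB, execs, Sl.exec] using h.r0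
  · simpa [prolB, execs, Sl.exec] using h.r1
  · simpa [prolB, execs, Sl.exec] using h.r2
  · simp only [prolB, execs, Sl.exec, Function.update_apply, Op.eval, Nat.reduceEqDiff, reduceIte,
      e3, e101]
    rw [← BitVec.ofNat_add]
  · simpa [prolB, execs, Sl.exec] using h.r101
  · simpa [prolB, execs, Sl.exec] using h.r104
  · simp only [prolB, execs, Sl.exec, Function.update_apply, Op.eval, Nat.reduceEqDiff, reduceIte,
      e105]
    rw [← BitVec.ofNat_add, ← two_mul, ← pow_succ']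
  · intro _
    simp only [prolB, execs, Sl.exec, Function.update_apply, Op.eval, Nat.reduceEqDiff, reduceIte,
      e105, e100, Nat.add_sub_cancel]
    simp
  · intro q' h1 h2 h3 h4 h5
    have e0 : q' ≠ 3 := by omega
    simpa [prolB, execs, Sl.exec, h3, h5, e0] using h.rest q' h1 h2 h3 h4 h5
  · exact h.mem
  · exact h.calls

theorem proX_loop (hP : At P 0 prologue) {k N B : ℕ} {c₀ : Conf w} (h0 : Ini k N B c₀) (q : ℕ)
    (hq : q ≤ w) :
    ∃ c, Runs P O (3 + 5 * q) c₀ c ∧ PIn c₀ k N B q c := by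
  induction q with
  | zero => exact proX_start hP h0
  | succ q ih =>
    obtain ⟨c, h1, h2⟩ := ih (by omega)
    obtain ⟨c', h3, h4⟩ := proX_step hP (by omega) h0 h2
    refine ⟨c', ?_, h4⟩
    have := h1.trans h3
    rwa [show 3 + 5 * q + 5 = 3 + 5 * (q + 1) by ring] at this

/-- Initial state of the structured program. -/
def startX (c₀ : Conf w) (k N B : ℕ) : St where
  reg := fun r => if r = 0 then k else if r = 1 then N else if r = 2 then B else
    if r = 3 then w else if r = 39 then (c₀.reg 39).toInt else 0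
  mem := fun b i => if b < 64 then (c₀.mem (BitVec.ofInt w (64 * i + b))).toInt else 0
  calls := 0

theorem proX_end (hw : 7 ≤ w) (hP : At P 0 prologue) {k N B : ℕ} {c₀ : Conf w}
    (h0 : Ini k N B c₀) :
    ∃ c, Runs P O (5 + 5 * w) c₀ c ∧ c.pc = 9 ∧ Sim (startX c₀ k N B) c := by
  obtain ⟨c, h1, h2⟩ := proX_loop (O := O) hP (k := k) (N := N) (B := B) h0 w le_rfl
  rw [prologue_eq] at hP
  obtain ⟨pc, r, m, n⟩ := c
  have hpc : pc = 3 := h2.pc
  subst hpc
  have i3 : P[3]? = some (.jumpLt 100 105 5) := by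
    have := hP.right.left.head
    simpa [prolA] using this
  have i4 : P[4]? = some (.jump 9) := by
    have := hP.right.left.tail.head
    simpa [prolA] using this
  have e100 : r 100 = 0 := (h2.rest 100 (by norm_num) (by norm_num) (by norm_num) (by norm_num)
      (by norm_num)).trans (h0.rest 100 (by norm_num) (by norm_num) (by norm_num) (by norm_num))
  have e105 : r 105 = 0 := by
    have h3 : r 105 = BitVec.ofNat w (2 ^ w) := h2.r105
    rw [h3]
    apply BitVec.eq_of_toNat_eq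
    rw [BitVec.toNat_ofNat, Nat.mod_self]
    rfl
  have hlt : ¬ r 100 < r 105 := by
    rw [BitVec.lt_def, e100, e105]; simp
  have s1 : step P O ⟨3, r, m, n⟩ = some ⟨4, r, m, n⟩ := by
    unfold step
    simp only [i3, if_neg hlt]
  have s2 : step P O ⟨4, r, m, n⟩ = some ⟨9, r, m, n⟩ := by
    unfold step
    simp only [i4]
  refine ⟨⟨9, r, m, n⟩, ?_, rfl, ⟨⟨⟨?_, ?_, ?_, ?_⟩, ?_⟩, ?_, ?_⟩⟩
  · have := h1.trans ((Runs.one s1).trans (Runs.one s2))
    rwa [show 3 + 5 * w + (1 + 1) = 5 + 5 * w by ring] at this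
  · exact e100
  · have h3 : r 101 = BitVec.ofNat w 1 := h2.r101
    exact h3.trans (ofNat_eq_ofInt 1)
  · have h3 : r 103 = BitVec.ofNat w (2 ^ (w - 1)) := h2.r103 (by omega)
    have h4 := h3.trans (ofNat_eq_ofInt _)
    push_cast at h4
    exact h4
  · have h3 : r 104 = BitVec.ofNat w 64 := h2.r104
    exact h3.trans (ofNat_eq_ofInt 64)
  · intro q hq
    simp only [startX]
    by_cases g0 : q = 0
    · subst g0; exact h2.r0.trans (ofNat_eq_ofInt k)
    by_cases g1 : q = 1
    · subst g1; exact h2.r1.trans (ofNat_eq_ofInt N)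
    by_cases g2 : q = 2
    · subst g2; exact h2.r2.trans (ofNat_eq_ofInt B)
    by_cases g3 : q = 3
    · subst g3; exact h2.r3.trans (ofNat_eq_ofInt w)
    rw [if_neg g0, if_neg g1, if_neg g2, if_neg g3]
    have e : r q = c₀.reg q := h2.rest q (by omega) (by omega) (by omega) (by omega) (by omega)
    by_cases g39 : q = 39
    · subst g39
      rw [if_pos rfl, BitVec.ofInt_toInt]
      exact e
    · rw [if_neg g39]
      exact e.trans (h0.rest q g0 g1 g2 g39)
  · intro b hb i _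
    have e : m = c₀.mem := h2.mem
    simp only [startX]
    rw [if_pos hb, BitVec.ofInt_toInt, e]
  · exact h2.calls

theorem prog_length (M : Cmd) : (prologue ++ M.compile 9).length = 9 + M.len := by
  rw [List.length_append, Cmd.length_compile]
  rfl

theorem at_prog (M : Cmd) : At (prologue ++ M.compile 9) 0 prologue ∧
    At (prologue ++ M.compile 9) 9 (M.compile 9) := by
  have h : At (prologue ++ M.compile 9) 0 (prologue ++ M.compile 9) := by intro i _; simp
  exact ⟨h.left, h.right⟩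

/-- The final configuration represents the abstract state `s'`. -/
structure EndSt (p : Par) (cf : Conf w) (s' : St) : Prop where
  sim : Sim s' cf
  reg : ∀ r < 90, |s'.reg r| ≤ 2 ^ p.x
  mem : ∀ b i, |s'.mem b i| ≤ 2 ^ p.x
  lt : (2 : ℤ) ^ p.x * 64 < 2 ^ (w - 1)
  w7 : 7 ≤ w

/-- Running a compiled program. -/
theorem mach_run (p : Par) (hw : w = wordLength (Vc p.c : ℝ) p.N p.B)
    {f : ℤ →₀ ℂ} (ha : Adm p f) (hO : IsOracle w f O) {M : Cmd} (hrb : M.rb = true)
    {c₀ : Conf w} (h0 : Ini p.k p.N p.B c₀) (hmem : ∀ a, |(c₀.mem a).toInt| ≤ 2 ^ p.x)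
    (h39 : |(c₀.reg 39).toInt| ≤ 2 ^ p.x) {T : ℕ} {Q : St → Prop}
    (htr : ∀ E : Env, E.w = w → EnvOK p E → OracleOK E f → Inp p E (startX c₀ p.k p.N p.B) →
      Tr E M (startX c₀ p.k p.N p.B) T Q) :
    ∃ n : ℕ, n ≤ 5 + 5 * w + 20 * T ∧ ∃ (cf : Conf w) (s' : St),
      Runs (prologue ++ M.compile 9) O n c₀ cf ∧ Halted (prologue ++ M.compile 9) cf ∧
        EndSt p cf s' ∧ Q s' := by
  obtain ⟨w1, w2⟩ := wl_bounds p
  rw [← hw] at w1 w2
  have hl := p.l_ge
  have hPl := p.P_le_l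
  have hlP : p.l = p.P + p.B := rfl
  have hcl : p.l ≤ (6410 + 128 * p.c) * p.l := Nat.le_mul_of_pos_left _ (by omega)
  have hcl2 : 6410 * p.l ≤ (6410 + 128 * p.c) * p.l := Nat.mul_le_mul_right _ (by omega)
  have hw7 : 7 ≤ w := by omega
  obtain ⟨E, hE⟩ : ∃ E, E = mkEnv p w O w1 := ⟨_, rfl⟩
  have hEok : EnvOK p E := by rw [hE]; exact mkEnv_ok p O w1 w2
  have hEw : E.w = w := by rw [hE]; rfl
  have hEO : E.O = absO O := by rw [hE]; rfl
  have hx1 : p.l ≤ p.x := by unfold Par.x; nlinarith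
  have hxb : ∀ n : ℕ, n ≤ 2 ^ p.l → |(n : ℤ)| ≤ E.X := fun n hn =>
    hEok.nat (hn.trans (Nat.pow_le_pow_right (by norm_num) hx1))
  have hkl : p.k ≤ 2 ^ p.l := by
    have h1 := p.lt_P
    have h2 := p.hkN
    have h3 : 2 ^ p.P ≤ 2 ^ p.l := Nat.pow_le_pow_right (by norm_num) hPl
    omega
  have hNl : p.N ≤ 2 ^ p.l := by
    have h1 := p.lt_P
    have h3 : 2 ^ p.P ≤ 2 ^ p.l := Nat.pow_le_pow_right (by norm_num) hPl
    omega
  have hBl : p.B ≤ 2 ^ p.l := (Par.n_le_pow _).trans (Nat.pow_le_pow_right (by norm_num) (by omega))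
  have hbw : |(w : ℤ)| ≤ E.X := by
    rw [abs_of_nonneg (by positivity), ← hEw]; exact hEok.hw
  have hb0 : |(0 : ℤ)| ≤ E.X := by rw [abs_zero]; have := E.hX; omega
  obtain ⟨s0, hs0⟩ : ∃ s0, s0 = startX c₀ p.k p.N p.B := ⟨_, rfl⟩
  have hreg : ∀ r, |s0.reg r| ≤ E.X := by
    intro r
    rw [hs0]
    simp only [startX]
    split_ifs
    · exact hxb _ hkl
    · exact hxb _ hNl
    · exact hxb _ hBl
    · exact hbw
    · rw [hEok.hX]; exact h39
    · exact hb0
  have hm0 : ∀ b i, |s0.mem b i| ≤ E.X := by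
    intro b i
    rw [hs0]
    simp only [startX]
    split_ifs
    · rw [hEok.hX]; exact hmem _
    · exact hb0
  have hbd : Bd E s0 := ⟨fun r _ => hreg r, hm0⟩
  have hws : WordSt w s0 := by
    rw [← hEw]
    exact ⟨fun r => word_of_le (hreg r), fun b i => word_of_le (hm0 b i)⟩
  have hinp : Inp p E s0 := by
    rw [hs0]
    exact ⟨rfl, rfl, rfl, by rw [hEw]; rfl⟩
  have hor : OracleOK E f := oracleOK (by rw [hEw]; exact hO) hEO
  obtain ⟨s', t, hex, ht, hbd', hQ⟩ := htr E hEw hEok hor (by rw [← hs0]; exact hinp)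
    (by rw [← hs0]; exact hbd)
  rw [← hs0] at hex
  rw [hEw, hEO] at hex
  obtain ⟨hat1, hat2⟩ := at_prog M
  obtain ⟨c1, hr1, hp1, hsim1⟩ := proX_end (O := O) hw7 hat1 h0
  rw [← hs0] at hsim1
  obtain ⟨n, cf, hn, hr2, hp2, hsim2, hws2⟩ := compile_correct (P := prologue ++ M.compile 9) hw7
    (fun t a m h1 h2 => oracle_word hO ha.sum (by omega) h1 h2) hex hrb hws c1
    (by rw [hp1]; exact hat2) hsim1
  have hX64 : (2 : ℤ) ^ p.x * 64 < 2 ^ (w - 1) := by
    have h1 := E.hM
    rw [hEw] at h1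
    have hX := E.hX
    have h2 : E.X * 64 ≤ 64 * (2 * E.X) ^ 64 := by
      have h3 : (2 * E.X) ^ 1 ≤ (2 * E.X) ^ 64 := pow_le_pow_right₀ (by omega) (by norm_num)
      rw [pow_one] at h3
      omega
    rw [hEok.hX] at h1 h2
    omega
  refine ⟨(5 + 5 * w) + n, by omega, cf, s', hr1.trans hr2, ?_, ⟨hsim2, ?_, ?_, hX64, hw7⟩, hQ⟩
  · unfold Halted
    rw [prog_length, hp2, hp1]
  · intro r hr
    have := hbd'.1 r hr
    rwa [hEok.hX] at this
  · intro b i
    have := hbd'.2 b i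
    rwa [hEok.hX] at this

theorem EndSt.toInt {p : Par} {cf : Conf w} {s' : St} (h : EndSt p cf s') {x : ℤ} (hx : |x| ≤ 2 ^ p.x) :
    (BitVec.ofInt w x).toInt = x := by
  have h1 := h.lt
  have h7 := h.w7
  rw [abs_le] at hx
  rw [BitVec.toInt_ofInt]
  have h5 : (2 : ℤ) ^ w = 2 * 2 ^ (w - 1) := by rw [← pow_succ']; congr 1; omega
  apply Int.bmod_eq_of_le
  · push_cast; omega
  · push_cast; omega

theorem EndSt.cell {p : Par} {cf : Conf w} {s' : St} (h : EndSt p cf s') {b : ℕ} (hb : b < 64) {t : ℕ}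
    (ht : (t : ℤ) ≤ 2 ^ p.x) : (cf.mem (BitVec.ofNat w (64 * t + b))).toInt = s'.mem b t := by
  have h1 := h.lt
  have hidx : Idx w (t : ℤ) := by
    constructor
    · have : (0 : ℤ) < 2 ^ (w - 1) := by positivity
      omega
    · omega
  have h2 := h.sim.mem b hb t hidx
  have h3 : BitVec.ofNat w (64 * t + b) = BitVec.ofInt w (64 * (t : ℤ) + b) := by
    rw [ofNat_eq_ofInt]; push_cast; rfl
  rw [h3, h2, h.toInt (h.mem b t)]

theorem EndSt.count {p : Par} {cf : Conf w} {s' : St} (h : EndSt p cf s') {n : ℕ}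
    (hn : s'.reg 39 = n) (hle : (n : ℤ) ≤ 2 ^ p.x) : (cf.reg 39).toNat = n := by
  rw [h.sim.reg 39 (by norm_num), hn]
  apply ofInt_natCast_toNat
  have h1 := h.lt
  have h7 := h.w7
  have h5 : (2 : ℤ) ^ w = 2 * 2 ^ (w - 1) := by rw [← pow_succ']; congr 1; omega
  have : ((n : ℕ) : ℤ) < 2 ^ w := by
    have : (0 : ℤ) < 2 ^ p.x := by positivity
    omega
  exact_mod_cast this

theorem Par.k_le_x (p : Par) : (p.k : ℤ) ≤ 2 ^ p.x := by
  have h1 := p.lt_P
  have h2 := p.hkN
  have h3 : 2 ^ p.P ≤ 2 ^ p.x := Nat.pow_le_pow_right (by norm_num) p.P_le_x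
  have h4 : p.k ≤ 2 ^ p.x := by omega
  exact_mod_cast h4

/-- The output of the machine. -/
theorem EndSt.output {p : Par} {cf : Conf w} {s' : St} (h : EndSt p cf s') {f : ℤ →₀ ℂ}
    (ha : Adm p f) (hgood : Good f p.B s') :
    cf.output p.B = {q | q.1 ∈ f.support ∧ q.2 = f q.1} := by
  have hcard : f.support.card = p.k := ha.card
  have hk := p.k_le_x
  have h39 : (cf.reg 39).toNat = f.support.card :=
    h.count hgood.count (by rw [hcard]; exact hk)
  have hmem : ∀ (b : ℕ), b < 64 → ∀ t < f.support.card,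
      (cf.mem (BitVec.ofNat w (64 * t + b))).toInt = s'.mem b t := by
    intro b hb t ht
    apply h.cell hb
    rw [hcard] at ht
    have : (t : ℤ) < p.k := by exact_mod_cast ht
    omega
  have himg : (range f.support.card).image (fun t : ℕ => s'.mem 17 (t : ℤ)) = f.support := by
    apply Finset.eq_of_subset_of_card_le
    · intro ω hω
      rw [Finset.mem_image] at hω
      obtain ⟨t, ht, rfl⟩ := hω
      exact hgood.mem t (mem_range.1 ht)
    · rw [card_image_of_injOn, card_range]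
      intro t ht t' ht' heq
      simp only [coe_range, Set.mem_Iio] at ht ht'
      exact hgood.inj t ht t' ht' heq
  ext q
  unfold Conf.output
  simp only [Set.mem_ofPred_eq, h39]
  constructor
  · rintro ⟨t, ht, rfl⟩
    rw [hmem 17 (by norm_num) t ht, hmem 18 (by norm_num) t ht, hmem 19 (by norm_num) t ht]
    exact ⟨hgood.mem t ht, (hgood.val t ht).symm⟩
  · rintro ⟨h1, h2⟩
    rw [← himg, Finset.mem_image] at h1
    obtain ⟨t, ht, h3⟩ := h1
    rw [mem_range] at ht
    refine ⟨t, ht, ?_⟩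
    rw [hmem 17 (by norm_num) t ht, hmem 18 (by norm_num) t ht, hmem 19 (by norm_num) t ht]
    apply Prod.ext
    · exact h3.symm
    · rw [h2, ← h3]; exact hgood.val t ht

end Pool.Agent.H940_dft
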