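import Pool.Agent.H940_ver.Round2

/-!
# From one level to the next, without assumptions on the marks
-/

namespace Pool.Agent.H940_dft

open Finset

variable {E : Env} {s s' : St} {p : Par}

/-- Structure of the candidates of level `j`. -/
structure Cnd (p : Par) (j : ℕ) (C : ℕ → ℤ) (n : ℕ) : Prop extends Stc p C n where
  dvd : ∀ i < n, (2 : ℤ) ^ (p.P - j) ∣ C i

/-- The candidates cover the frequencies. -/
def Cov (p : Par) (f : ℤ →₀ ℂ) (j : ℕ) (C : ℕ → ℤ) (n : ℕ) : Prop :=
  ∀ ω ∈ f.support, ∃ i < n, (ω * 2 ^ (p.P - j)) % 2 ^ p.P = C i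

/-- The marks are correct. -/
def Mk (p : Par) (f : ℤ →₀ ℂ) (g : ℤ) (C : ℕ → ℤ) (n : ℕ) (M : ℤ → ℤ) : Prop :=
  ∀ i < n, (Occ f p.P g (C i) → M (i : ℕ) = 1) ∧ (¬ Occ f p.P g (C i) → M (i : ℕ) = 0)

theorem Cnd.even {j n : ℕ} {C : ℕ → ℤ} (h : Cnd p j C n) (hj : j < p.P) {i : ℕ} (hi : i < n) :
    C i = 2 * (C i / 2) := by
  have h1 : (2 : ℤ) ∣ C i := by
    refine dvd_trans ?_ (h.dvd i hi)
    rw [show p.P - j = (p.P - j - 1) + 1 by omega, pow_succ]
    exact dvd_mul_left _ _
  omega

/-- Contents of the list of new candidates. -/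
structure NL2 (p : Par) (f : ℤ →₀ ℂ) (g : ℤ) (C F : ℕ → ℤ) (n : ℕ) (M : ℤ → ℤ) (q r : ℕ) :
    Prop where
  even : 2 ∣ r
  le : r ≤ 2 ^ (p.j0 + 1)
  sound : ∀ t < r, ∃ i < q, F t = C i / 2 ∨ F t = C i / 2 + 2 ^ (p.P - 1)
  inj : ∀ t < r, ∀ t' < r, F t = F t' → t = t'
  cor : Mk p f g C n M → r = 2 * oc f p.P g C q ∧ ∀ i < q, Occ f p.P g (C i) →
    (∃ t < r, F t = C i / 2) ∧ ∃ t < r, F t = C i / 2 + 2 ^ (p.P - 1)

theorem tr_next2 {f : ℤ →₀ ℂ} (hE : EnvOK p E) (hg : Glob p E s) (hk : f.support.card ≤ p.k)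
    {j n : ℕ} (hj : j < p.P)
    (h26 : s.reg 26 = n) (h27 : s.reg 27 = 2 ^ (p.P - j)) (hC : Cnd p j (cand s) n) :
    Tr E next2 s (p.cnext (2 ^ (p.j0 + 1))) (fun s' => ∃ n' : ℕ, s'.reg 26 = n' ∧
      s'.reg 27 = 2 ^ (p.P - (j + 1)) ∧ Cnd p (j + 1) (cand s') n' ∧
      (Cov p f j (cand s) n → Mk p f (2 ^ (p.P - j)) (cand s) n (s.mem 7) →
        Cov p f (j + 1) (cand s') n')) := by
  have hX := E.hX
  have hP := p.P_ge
  have hPX := hE.pow p.P_le_x
  rw [abs_of_pos (by positivity)] at hPX
  have hM : (2 : ℤ) ^ p.P = 2 * 2 ^ (p.P - 1) := by rw [← pow_succ']; congr 1; omega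
  have hM0 : (0 : ℤ) < 2 ^ (p.P - 1) := by positivity
  have hoc : ∀ q ≤ n, 2 * oc f p.P (2 ^ (p.P - j)) (cand s) q ≤ 2 ^ (p.j0 + 1) := by
    intro q hq
    have h1 := oc_mono f p.P (2 ^ (p.P - j)) (cand s) hq
    have h2 : oc f p.P (2 ^ (p.P - j)) (cand s) n ≤ f.support.card := occ_count hC.inj
    have h3 := p.k_le
    rw [pow_succ]; omega
  have hn := hC.n_le
  have hj0P : p.j0 + 1 ≤ p.P := by have := p.mu_lt; unfold Par.mu at this; omega
  have h2j : (2 : ℕ) ^ (p.j0 + 1) ≤ 2 ^ p.P := Nat.pow_le_pow_right (by norm_num) hj0P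
  have h2x : (2 : ℕ) ^ p.P ≤ 2 ^ p.x := Nat.pow_le_pow_right (by norm_num) p.P_le_x
  have hpw : s.mem 0 ((p.j0 : ℤ) + 1) = ((2 ^ (p.j0 + 1) : ℕ) : ℤ) := by
    have := hg.pw (p.j0 + 1) (by have hW : p.W = 40 * p.l := rfl; have := p.P_le_l; omega)
    push_cast at this ⊢
    exact this
  have heven2 : 2 ∣ 2 ^ (p.j0 + 1) := dvd_pow_self 2 (by omega)
  unfold next2
  simp only [seqs]
  refine Tr.le (Tr.aseq rfl (by simp; omega) (Tr.seq (T₂ := 65 + ((2 ^ (p.j0 + 1) * (130 + 200) + 200) + 65))
    (R := fun s1 => ∃ r : ℕ, s1.reg 30 = r ∧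
      NL2 p f (2 ^ (p.P - j)) (cand s) (fun t => s1.mem 6 t) n (s.mem 7) n r)
    ((Tr.forC n 585 (fun q s1 => ∃ r : ℕ, s1.reg 30 = r ∧
      NL2 p f (2 ^ (p.P - j)) (cand s) (fun t => s1.mem 6 t) n (s.mem 7) q r) (by decide) ?_ ?_ ?_).mono
        (fun _ _ h => h.1)) ?_)) (T := 65 + ((n * (585 + 200) + 200) + (65 + ((2 ^ (p.j0 + 1) * (130 + 200) + 200) + 65))))
    (by
      unfold Par.cnext
      have : n * (585 + 200) ≤ 2 ^ (p.j0 + 1) * (585 + 200) := Nat.mul_le_mul_right _ hn
      omega)
  · rw [setR_reg, if_neg (by norm_num), h26]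
  · refine ⟨0, by simp [setR_reg], ?_, ?_, ?_, ?_, ?_⟩
    · exact dvd_zero _
    · exact Nat.zero_le _
    · intro t ht; omega
    · intro t ht; omega
    · intro _
      refine ⟨by simp [oc], fun i hi => by omega⟩
  · rintro q s1 hq h46 - hs1 ⟨r, h30, hN⟩
    have m0 : s1.mem 0 = s.mem 0 := by rw [hs1.2 0 (by decide)]; rfl
    have m5 : s1.mem 5 = s.mem 5 := by rw [hs1.2 5 (by decide)]; rfl
    have m7 : s1.mem 7 = s.mem 7 := by rw [hs1.2 7 (by decide)]; rfl
    have e6 : s1.reg 6 = p.j0 := by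
      rw [hs1.1 6 (by decide), setR_reg, if_neg (by norm_num), hg.r6]
    have e5 : s1.reg 5 = 2 ^ p.P := by
      rw [hs1.1 5 (by decide), setR_reg, if_neg (by norm_num), hg.r5]
    have hocq1 := hoc (q + 1) hq
    have hrle := hN.le
    have hrX : r + 2 ≤ 2 ^ p.x := by
      have h4 : 2 ^ 4 ≤ 2 ^ p.P := Nat.pow_le_pow_right (by norm_num) (by omega)
      have h5 : 2 ^ (p.P + 1) ≤ 2 ^ p.x := Nat.pow_le_pow_right (by norm_num) (by
        have := p.le_x (a := 1) (b := 1) (by norm_num) (by norm_num)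
        have := p.P_le_l; omega)
      rw [pow_succ] at h5
      omega
    have hM2 : (2 : ℤ) ^ p.P / 2 = 2 ^ (p.P - 1) := by omega
    refine Tr.le (Tr.wp rfl ?_) (by decide)
    simp only [Cmd.wp, eval_reg, eval_lit, eval_ld, eval_add, eval_div, setM_reg, setM_mem, setR_reg,
      h46, m0, m5, m7, e5, e6, h30, hM2, hpw]
    have hC0 := hC.nonneg q hq
    have hC1 := hC.lt q hq
    have heven := hC.even hj hq
    unfold cand at hC0 hC1 heven
    refine ⟨fun h => ⟨fun hcap => ?_, fun hcap => ?_⟩, fun h => ?_⟩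
    · have hcap' : r + 2 ≤ 2 ^ (p.j0 + 1) := by
        have h1 : r + 1 < 2 ^ (p.j0 + 1) := by exact_mod_cast hcap
        have h2 := hN.even
        omega
      simp only [show ¬ ((5 : ℕ) = 6) by norm_num, false_and, if_false]
      refine ⟨by rw [abs_of_nonneg (by omega)]; omega, by rw [abs_of_nonneg (by omega)]; omega,
        by rw [abs_of_nonneg (by positivity)]; exact (le_abs_self _).trans (hE.nat (by simpa using hrX)) |>.trans' (by push_cast; omega), r + 2, ?_, ?_⟩
      · simp
      · have hF : ∀ t : ℕ, (((((s1.setM 6 (r : ℤ) (s.mem 5 q / 2)).setM 6 ((r : ℤ) + 1)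
            (s.mem 5 q / 2 + 2 ^ (p.P - 1))).setR 30 ((r : ℤ) + 2)).setR 46 ((q : ℤ) + 1)).mem 6 (t : ℤ)) =
            if t = r + 1 then s.mem 5 q / 2 + 2 ^ (p.P - 1) else if t = r then s.mem 5 q / 2
              else s1.mem 6 t := by
          intro t
          simp only [setR_mem, setM_mem, true_and]
          by_cases h1 : t = r + 1
          · subst h1; simp
          · have h1' : ¬ ((t : ℤ) = (r : ℤ) + 1) := by omega
            rw [if_neg h1, if_neg h1']
            by_cases h2 : t = r
            · subst h2; simp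
            · have h2' : ¬ ((t : ℤ) = (r : ℤ)) := by omega
              rw [if_neg h2, if_neg h2']
        simp only [hF]
        have hne : ∀ i < q, s.mem 5 i / 2 ≠ s.mem 5 q / 2 ∧
            0 ≤ s.mem 5 (i : ℕ) ∧ s.mem 5 (i : ℕ) / 2 < 2 ^ (p.P - 1) := by
          intro i hi
          have h1 := hC.even hj (show i < n by omega)
          have h2 := hC.nonneg i (by omega)
          have h3 := hC.lt i (by omega)
          unfold cand at h1 h2 h3
          refine ⟨?_, h2, by omega⟩
          intro heq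
          have h4 : cand s i = cand s q := by unfold cand; omega
          have := hC.inj i (by omega) q hq h4
          omega
        refine ⟨?_, ?_, ?_, ?_, ?_⟩
        · have := hN.even; omega
        · exact hcap'
        · intro t ht
          by_cases h1 : t = r + 1
          · exact ⟨q, by omega, Or.inr (by rw [if_pos h1]; rfl)⟩
          · by_cases h2 : t = r
            · exact ⟨q, by omega, Or.inl (by rw [if_neg h1, if_pos h2]; rfl)⟩
            · obtain ⟨i, hi, h3⟩ := hN.sound t (by omega)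
              exact ⟨i, by omega, by rw [if_neg h1, if_neg h2]; exact h3⟩
        · have key : ∀ t < r, s1.mem 6 t ≠ s.mem 5 q / 2 ∧ s1.mem 6 t ≠ s.mem 5 q / 2 + 2 ^ (p.P - 1) := by
            intro t ht
            obtain ⟨i, hi, h3⟩ := hN.sound t ht
            obtain ⟨a1, a2, a3⟩ := hne i hi
            have hcs : cand s i = s.mem 5 i := rfl
            rw [hcs] at h3
            rcases h3 with h3 | h3 <;> (rw [h3]; constructor <;> omega)
          intro t ht t' ht' heq
          by_cases h1 : t = r + 1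
          · by_cases h1' : t' = r + 1
            · omega
            · rw [if_pos h1, if_neg h1'] at heq
              by_cases h2' : t' = r
              · rw [if_pos h2'] at heq; omega
              · rw [if_neg h2'] at heq
                exact absurd heq.symm (key t' (by omega)).2
          · by_cases h2 : t = r
            · rw [if_neg h1, if_pos h2] at heq
              by_cases h1' : t' = r + 1
              · rw [if_pos h1'] at heq; omega
              · rw [if_neg h1'] at heq
                by_cases h2' : t' = r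
                · omega
                · rw [if_neg h2'] at heq
                  exact absurd heq.symm (key t' (by omega)).1
            · rw [if_neg h1, if_neg h2] at heq
              by_cases h1' : t' = r + 1
              · rw [if_pos h1'] at heq
                exact absurd heq (key t (by omega)).2
              · rw [if_neg h1'] at heq
                by_cases h2' : t' = r
                · rw [if_pos h2'] at heq
                  exact absurd heq (key t (by omega)).1
                · rw [if_neg h2'] at heq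
                  exact hN.inj t (by omega) t' (by omega) heq
        · intro hmk
          obtain ⟨c1, c2⟩ := hN.cor hmk
          have hocc : Occ f p.P (2 ^ (p.P - j)) (cand s q) := by
            by_contra hcon
            have := (hmk q hq).2 hcon
            omega
          refine ⟨?_, ?_⟩
          · rw [oc_succ, if_pos hocc]; omega
          · intro i hi ho
            by_cases hiq : i = q
            · subst hiq
              refine ⟨⟨r, by omega, ?_⟩, ⟨r + 1, by omega, ?_⟩⟩
              · rw [if_neg (by omega), if_pos rfl]; rfl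
              · rw [if_pos rfl]; rfl
            · obtain ⟨⟨t, ht, h1⟩, ⟨t', ht', h2⟩⟩ := c2 i (by omega) ho
              refine ⟨⟨t, by omega, ?_⟩, ⟨t', by omega, ?_⟩⟩
              · rw [if_neg (by omega), if_neg (by omega)]; exact h1
              · rw [if_neg (by omega), if_neg (by omega)]; exact h2
    · refine ⟨r, by simp, hN.even, hN.le, ?_, hN.inj, ?_⟩
      · intro t ht
        obtain ⟨i, hi, h⟩ := hN.sound t ht
        exact ⟨i, by omega, h⟩
      · intro hmk
        exfalso
        obtain ⟨c1, c2⟩ := hN.cor hmk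
        have hocc : Occ f p.P (2 ^ (p.P - j)) (cand s q) := by
          by_contra hcon
          have := (hmk q hq).2 hcon
          omega
        have h1 : 2 ^ (p.j0 + 1) ≤ r + 1 := by exact_mod_cast hcap
        rw [oc_succ, if_pos hocc] at hocq1
        omega
    · refine ⟨r, by simp, hN.even, hN.le, ?_, hN.inj, ?_⟩
      · intro t ht
        obtain ⟨i, hi, h⟩ := hN.sound t ht
        exact ⟨i, by omega, h⟩
      · intro hmk
        obtain ⟨c1, c2⟩ := hN.cor hmk
        have hemp : ¬ Occ f p.P (2 ^ (p.P - j)) (cand s q) := by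
          intro hcon
          have := (hmk q hq).1 hcon
          omega
        refine ⟨?_, ?_⟩
        · rw [oc_succ, if_neg hemp, add_zero]; exact c1
        · intro i hi ho
          have : i ≠ q := fun h' => hemp (h' ▸ ho)
          exact c2 i (by omega) ho
  · rintro s1 hs1 ⟨r, h30, hN⟩
    have hrle : r ≤ 2 ^ (p.j0 + 1) := hN.le
    have e27 : s1.reg 27 = 2 ^ (p.P - j) := by
      rw [hs1.1 27 (by decide), setR_reg, if_neg (by norm_num), h27]
    refine Tr.aseq rfl ?_ ?_
    · simp only [eval_reg, h30]; exact hE.nat (by omega)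
    refine Tr.le (Tr.seq (T₁ := r * (130 + 200) + 200) (R := fun s2 => ∀ t < r, s2.mem 5 (t : ℕ) = s1.mem 6 t)
      ((Tr.forC r 130 (fun q s2 => ∀ t < q, s2.mem 5 (t : ℕ) = s1.mem 6 t) (by decide) ?_ ?_ ?_).mono
        (fun _ _ h => h.1)) ?_) (T := (r * (130 + 200) + 200) + 65)
        (Nat.add_le_add_right (Nat.add_le_add_right (Nat.mul_le_mul_right _ hrle) _) _)
    · simp only [eval_reg, h30, setR_reg, reduceIte]
    · intro t ht; omega
    · rintro q s2 hq h46 - hs2 hI
      have m6 : s2.mem 6 = s1.mem 6 := by rw [hs2.2 6 (by decide)]; rfl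
      apply Tr.bd
      intro hbd
      refine Tr.le (Tr.wp rfl ?_) (by decide)
      simp only [Cmd.wp, eval_reg, eval_ld, h46]
      refine ⟨hbd.2 _ _, ?_⟩
      intro t ht
      simp only [setR_mem, setM_mem, true_and]
      by_cases htq : t = q
      · subst htq; rw [if_pos rfl, m6]
      · have hne : ¬ ((t : ℤ) = (q : ℤ)) := by exact_mod_cast htq
        rw [if_neg hne]
        exact hI t (by omega)
    · rintro s2 hs2 h5
      have f26 : s2.reg 26 = r := by
        rw [hs2.1 26 (by decide)]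
        simp only [eval_reg, h30, setR_reg, reduceIte]
      have f27 : s2.reg 27 = 2 ^ (p.P - j) := by
        rw [hs2.1 27 (by decide), setR_reg, if_neg (by norm_num), e27]
      have h2g : (2 : ℤ) ^ (p.P - j) = 2 * 2 ^ (p.P - (j + 1)) := by
        rw [← pow_succ']; congr 1; omega
      have hval : (Expr.reg 27 / Expr.lit 2).eval s2 = 2 ^ (p.P - (j + 1)) := by
        simp only [eval_div, eval_reg, eval_lit, f27, h2g]
        omega
      refine Tr.asg rfl ?_ ?_
      · rw [hval]
        exact hE.pow (by have := p.P_le_x; omega)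
      · rw [hval]
        have hc : ∀ t < r, cand (s2.setR 27 (2 ^ (p.P - (j + 1)))) t = s1.mem 6 t := by
          intro t ht; unfold cand; rw [setR_mem]; exact h5 t ht
        refine ⟨r, by simp only [setR_reg, reduceIte, Nat.reduceEqDiff]; exact f26,
          by simp only [setR_reg, reduceIte], ⟨⟨hrle, ?_, ?_, ?_⟩, ?_⟩, ?_⟩
        · intro t ht
          rw [hc t ht]
          obtain ⟨i, hi, h⟩ := hN.sound t ht
          have := hC.nonneg i hi
          rcases h with h | h <;> rw [h] <;> omega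
        · intro t ht
          rw [hc t ht]
          obtain ⟨i, hi, h⟩ := hN.sound t ht
          have h1 := hC.nonneg i hi
          have h2 := hC.lt i hi
          have h3 := hC.even hj hi
          rcases h with h | h <;> rw [h] <;> omega
        · intro t ht t' ht' heq
          rw [hc t ht, hc t' ht'] at heq
          exact hN.inj t ht t' ht' heq
        · intro t ht
          rw [hc t ht]
          obtain ⟨i, hi, h⟩ := hN.sound t ht
          obtain ⟨d, hd⟩ := hC.dvd i hi
          have h4 : cand s i / 2 = 2 ^ (p.P - (j + 1)) * d := by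
            rw [hd, h2g, mul_assoc]
            exact Int.mul_ediv_cancel_left _ (by norm_num)
          have h5 : (2 : ℤ) ^ (p.P - (j + 1)) ∣ 2 ^ (p.P - 1) := pow_dvd_pow 2 (by omega)
          rcases h with h | h
          · rw [h, h4]; exact dvd_mul_right _ _
          · rw [h, h4]; exact dvd_add (dvd_mul_right _ _) h5
        · intro hcov hmk ω hω
          obtain ⟨c1, c2⟩ := hN.cor hmk
          obtain ⟨i, hi, h⟩ := hcov ω hω
          have ho : Occ f p.P (2 ^ (p.P - j)) (cand s i) := ⟨ω, hω, h⟩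
          obtain ⟨⟨t, ht, h1⟩, ⟨t', ht', h2⟩⟩ := c2 i hi ho
          rcases residue_next hj h with h3 | h3
          · exact ⟨t, ht, by rw [hc t ht, h3]; exact h1.symm⟩
          · exact ⟨t', ht', by rw [hc t' ht', h3]; exact h2.symm⟩

theorem tr_start2 {f : ℤ →₀ ℂ} (hE : EnvOK p E) (hg : Glob p E s) :
    Tr E start s (2 ^ p.j0 * 330 + 330) (fun s' => s'.reg 26 = ((2 ^ p.j0 : ℕ) : ℤ) ∧
      s'.reg 27 = 2 ^ (p.P - p.j0) ∧ Cnd p p.j0 (cand s') (2 ^ p.j0) ∧
      Cov p f p.j0 (cand s') (2 ^ p.j0)) := by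
  have hX := E.hX
  have hP := p.P_ge
  have hW : p.W = 40 * p.l := rfl
  have hPl := p.P_le_l
  have hj0P : p.j0 + 1 ≤ p.P := by have := p.mu_lt; unfold Par.mu at this; omega
  have hPX := hE.pow p.P_le_x
  rw [abs_of_pos (by positivity)] at hPX
  have m1 := hg.pw p.j0 (by omega)
  have m2 := hg.pw (p.P - p.j0) (by omega)
  have hPs : (2 : ℤ) ^ p.P = 2 ^ p.j0 * 2 ^ (p.P - p.j0) := by rw [← pow_add]; congr 1; omega
  have c1 : ((2 : ℤ) ^ p.j0) = ((2 ^ p.j0 : ℕ) : ℤ) := by push_cast; rfl
  unfold start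
  simp only [seqs]
  refine Tr.le (Tr.aseq rfl ?_ (Tr.aseq rfl ?_ ((Tr.forC (2 ^ p.j0) 130 (fun q s1 =>
    ∀ i < q, s1.mem 5 (i : ℕ) = i * 2 ^ (p.P - p.j0)) (by decide) ?_ ?_ ?_).mono ?_))) (by ring_nf; omega)
  · simp only [eval_ld, eval_reg, hg.r6, m1]; exact hE.pow (by have := p.P_le_x; omega)
  · simp only [eval_ld, eval_reg, setR_reg, setR_mem, hg.r20, reduceIte, Nat.reduceEqDiff, m2]
    exact hE.pow (by have := p.P_le_x; omega)
  · simp only [eval_ld, eval_reg, setR_reg, setR_mem, hg.r6, reduceIte, Nat.reduceEqDiff, m1, c1]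
  · intro i hi; omega
  · rintro q s1 hq h46 - hs1 hI
    have e27 : s1.reg 27 = 2 ^ (p.P - p.j0) := by
      rw [hs1.1 27 (by decide)]
      simp only [eval_ld, eval_reg, setR_reg, setR_mem, hg.r20, reduceIte, Nat.reduceEqDiff, m2]
    refine Tr.le (Tr.wp rfl ?_) (by decide)
    simp only [Cmd.wp, eval_reg, eval_mul, h46, e27]
    refine ⟨?_, ?_⟩
    · rw [abs_of_nonneg (by positivity)]
      have h1 : (q : ℤ) ≤ 2 ^ p.j0 := by exact_mod_cast hq.le
      have h2 : (q : ℤ) * 2 ^ (p.P - p.j0) ≤ 2 ^ p.j0 * 2 ^ (p.P - p.j0) :=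
        mul_le_mul_of_nonneg_right h1 (by positivity)
      omega
    · intro i hi
      simp only [setR_mem, setM_mem, true_and]
      by_cases hiq : i = q
      · subst hiq; rw [if_pos rfl]
      · have hne : ¬ ((i : ℤ) = (q : ℤ)) := by exact_mod_cast hiq
        rw [if_neg hne]
        exact hI i (by omega)
  · rintro s1 hs1 ⟨hI, -⟩
    have hpos : (0 : ℤ) < 2 ^ (p.P - p.j0) := by positivity
    refine ⟨?_, ?_, ⟨⟨?_, ?_, ?_, ?_⟩, ?_⟩, ?_⟩
    · rw [hs1.1 26 (by decide)]
      simp only [eval_ld, eval_reg, setR_reg, setR_mem, hg.r6, reduceIte, Nat.reduceEqDiff, m1, c1]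
    · rw [hs1.1 27 (by decide)]
      simp only [eval_ld, eval_reg, setR_reg, setR_mem, hg.r20, reduceIte, Nat.reduceEqDiff, m2]
    · exact Nat.pow_le_pow_right (by norm_num) (by omega)
    · intro i hi
      unfold cand; rw [hI i hi]; positivity
    · intro i hi
      unfold cand; rw [hI i hi, hPs]
      have h1 : (i : ℤ) < 2 ^ p.j0 := by exact_mod_cast hi
      exact mul_lt_mul_of_pos_right h1 hpos
    · intro i hi j hj h
      unfold cand at h
      rw [hI i hi, hI j hj] at h
      have := mul_right_cancel₀ hpos.ne' h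
      exact_mod_cast this
    · intro i hi
      unfold cand; rw [hI i hi]
      exact dvd_mul_left _ _
    · intro ω _
      have h2 : (0 : ℤ) < 2 ^ p.j0 := by positivity
      have h3 := Int.emod_nonneg ω h2.ne'
      have h4 := Int.emod_lt_of_pos ω h2
      obtain ⟨i, hi⟩ : ∃ i : ℕ, (i : ℤ) = ω % 2 ^ p.j0 :=
        ⟨(ω % 2 ^ p.j0).toNat, Int.toNat_of_nonneg h3⟩
      have hilt : i < 2 ^ p.j0 := by
        have : (i : ℤ) < 2 ^ p.j0 := by rw [hi]; exact h4
        exact_mod_cast this
      refine ⟨i, hilt, ?_⟩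
      unfold cand; rw [hI i hilt, hi]
      rw [hPs, mul_comm ω, mul_comm (2 ^ p.j0), Int.mul_emod_mul_of_pos _ _ hpos, mul_comm]

end Pool.Agent.H940_dft
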