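import Pool.Agent.H940_ver.ListR

/-!
# Products of values at roots of unity of order `2 ^ P`
-/

namespace Pool.Agent.H940_dft

open Complex Finset Polynomial

/-- An integer polynomial of degree less than `φ n` which is not zero has product of norms of
its values at the primitive `n`-th roots of unity at least one. -/
theorem one_le_prod {n : ℕ} (hn : 0 < n) (R : ℤ[X]) (hR : R ≠ 0)
    (hd : R.natDegree < n.totient) :
    1 ≤ ∏ ζ ∈ primitiveRoots n ℂ, ‖(R.map (Int.castRingHom ℂ)).eval ζ‖ := by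
  set d := R.natDegree with hdef
  have h1 : resultant ((cyclotomic n ℤ).map (Int.castRingHom ℂ)) (R.map (Int.castRingHom ℂ))
      (cyclotomic n ℤ).natDegree d = ((resultant (cyclotomic n ℤ) R
        (cyclotomic n ℤ).natDegree d : ℤ) : ℂ) := by
    rw [resultant_map_map]; rfl
  have h2 : resultant ((cyclotomic n ℤ).map (Int.castRingHom ℚ)) (R.map (Int.castRingHom ℚ))
      (cyclotomic n ℤ).natDegree d = ((resultant (cyclotomic n ℤ) R
        (cyclotomic n ℤ).natDegree d : ℤ) : ℚ) := by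
    rw [resultant_map_map]; rfl
  have hinj : Function.Injective (Int.castRingHom ℚ) := by
    rw [RingHom.injective_iff_ker_eq_bot, RingHom.ker_eq_bot_iff_eq_zero]
    intro x hx; simpa using hx
  have h3 : resultant (cyclotomic n ℤ) R (cyclotomic n ℤ).natDegree d ≠ 0 := by
    intro h0
    rw [h0, Int.cast_zero, map_cyclotomic] at h2
    have hRq : (R.map (Int.castRingHom ℚ)).natDegree = d :=
      natDegree_map_eq_of_injective hinj R
    have hcd : (cyclotomic n ℤ).natDegree = (cyclotomic n ℚ).natDegree := by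
      rw [natDegree_cyclotomic, natDegree_cyclotomic]
    have hco : IsCoprime (cyclotomic n ℚ) (R.map (Int.castRingHom ℚ)) := by
      apply ((cyclotomic.irreducible_rat hn).coprime_iff_not_dvd).2
      intro hdvd
      have hne : R.map (Int.castRingHom ℚ) ≠ 0 := (Polynomial.map_ne_zero_iff hinj).2 hR
      have := natDegree_le_of_dvd hdvd hne
      rw [natDegree_cyclotomic, hRq] at this
      omega
    have := resultant_ne_zero _ _ hco
    rw [hRq, ← hcd] at this
    exact this h2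
  have h4 : (1 : ℝ) ≤ ‖((resultant (cyclotomic n ℤ) R (cyclotomic n ℤ).natDegree d : ℤ) : ℂ)‖ := by
    rw [Complex.norm_intCast]
    exact_mod_cast Int.one_le_abs h3
  rw [← h1, map_cyclotomic] at h4
  have hcd : (cyclotomic n ℤ).natDegree = (cyclotomic n ℂ).natDegree := by
    rw [natDegree_cyclotomic, natDegree_cyclotomic]
  have hle : (R.map (Int.castRingHom ℂ)).natDegree ≤ d := natDegree_map_le
  rw [hcd, resultant_eq_prod_eval _ _ d hle (IsAlgClosed.splits _)] at h4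
  rw [(cyclotomic.monic n ℂ).leadingCoeff, one_pow, one_mul] at h4
  have : NeZero (n : ℂ) := ⟨Nat.cast_ne_zero.2 hn.ne'⟩
  have hroots : (cyclotomic n ℂ).roots = (primitiveRoots n ℂ).val :=
    cyclotomic.roots_eq_primitiveRoots_val
  rw [hroots] at h4
  rw [show (Multiset.map (eval · (R.map (Int.castRingHom ℂ))) (primitiveRoots n ℂ).val).prod
    = ∏ ζ ∈ primitiveRoots n ℂ, (R.map (Int.castRingHom ℂ)).eval ζ from rfl, norm_prod] at h4
  exact h4

theorem ee_exp (x : ℝ) : ee x = exp (2 * Real.pi * I * x) := by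
  unfold ee
  congr 1
  push_cast
  ring

/-- The primitive roots of unity of order `2 ^ P`. -/
theorem prod_primitive2 {P : ℕ} (hP : 1 ≤ P) (F : ℂ → ℝ) :
    ∏ ζ ∈ primitiveRoots (2 ^ P) ℂ, F ζ =
      ∏ a ∈ range (2 ^ (P - 1)), F (ee (((2 * a + 1 : ℕ) : ℝ) / 2 ^ P)) := by
  have hpow : 2 ^ P = 2 * 2 ^ (P - 1) := by rw [← pow_succ']; congr 1; omega
  have hne : (2 : ℕ) ^ P ≠ 0 := by positivity
  have hodd : ∀ i : ℕ, i.Coprime (2 ^ P) ↔ i % 2 = 1 := by
    intro i
    rw [Nat.coprime_pow_right_iff (by omega), Nat.coprime_comm, Nat.coprime_two_left,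
      Nat.odd_iff]
  have hz : ∀ b : ℕ, ee ((b : ℝ) / 2 ^ P) = exp (2 * Real.pi * I / ((2 ^ P : ℕ) : ℂ)) ^ b := by
    intro b
    rw [ee_exp, ← Complex.exp_nat_mul]
    congr 1
    push_cast
    ring
  symm
  apply Finset.prod_bij (fun a _ => ee (((2 * a + 1 : ℕ) : ℝ) / 2 ^ P))
  · intro a ha
    rw [mem_range] at ha
    rw [mem_primitiveRoots (by positivity), Complex.isPrimitiveRoot_iff _ _ hne]
    refine ⟨2 * a + 1, by omega, (hodd _).2 (by omega), ?_⟩
    rw [ee_exp]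
    congr 1
    push_cast
    ring
  · intro a ha b hb hab
    rw [mem_range] at ha hb
    have h1 := (Complex.isPrimitiveRoot_exp (2 ^ P) hne)
    simp only [hz] at hab
    have := h1.pow_inj (by omega) (by omega) hab
    omega
  · intro ζ hζ
    rw [mem_primitiveRoots (by positivity), Complex.isPrimitiveRoot_iff _ _ hne] at hζ
    obtain ⟨b, hb, hc, he⟩ := hζ
    have h1 := (hodd b).1 hc
    refine ⟨b / 2, ?_, ?_⟩
    · rw [mem_range]; omega
    · have e : 2 * (b / 2) + 1 = b := by omega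
      simp only [e]
      rw [← he, ee_exp]
      congr 1
      push_cast
      ring
  · intro a _; rfl

/-- Sum of the terms in `S`. -/
noncomputable def gS (f : ℤ →₀ ℂ) (S : Finset ℤ) (y : ℝ) : ℂ := ∑ ω ∈ S, f ω * ee (ω * y)

/-- The product of the values at all odd multiples of `1 / 2 ^ P`. -/
theorem prod_gS {P N B : ℕ} (hP : 1 ≤ P) (hN : 4 * N < 2 ^ (P - 1)) {f : ℤ →₀ ℂ} {S : Finset ℤ}
    (hS : S ⊆ f.support) (hne : S.Nonempty) (hfr : ∀ ω ∈ f.support, |ω| ≤ (N : ℤ))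
    (hgr : ∀ ω ∈ f.support, ∃ a b : ℤ, f ω = (a + b * I) / 2 ^ B) :
    1 ≤ ∏ a ∈ range (2 ^ (P - 1)), ‖2 ^ B * gS f S (((2 * a + 1 : ℕ) : ℝ) / 2 ^ P)‖ := by
  classical
  have hpow : 2 ^ P = 2 * 2 ^ (P - 1) := by rw [← pow_succ']; congr 1; omega
  have hpowR : (2 : ℝ) ^ P = 2 * 2 ^ (P - 1) := by exact_mod_cast hpow
  have h1 : ∀ ω, ∃ q : ℤ × ℤ, ω ∈ f.support → f ω = (q.1 + q.2 * I) / 2 ^ B := by
    intro ω
    by_cases h : ω ∈ f.support
    · obtain ⟨a, b, hab⟩ := hgr ω h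
      exact ⟨(a, b), fun _ => hab⟩
    · exact ⟨(0, 0), fun h' => absurd h' h⟩
  choose q hq using h1
  obtain ⟨U, hU⟩ : ∃ U : ℤ[X], U = ∑ ω ∈ S, C (q ω).1 * X ^ (ω + N).toNat := ⟨_, rfl⟩
  obtain ⟨V, hV⟩ : ∃ V : ℤ[X], V = ∑ ω ∈ S, C (q ω).2 * X ^ (ω + N).toNat := ⟨_, rfl⟩
  have hrng : ∀ ω ∈ S, 0 ≤ ω + N ∧ ω + N ≤ 2 * N := by
    intro ω hω
    have := abs_le.1 (hfr ω (hS hω))
    constructor <;> linarith [this.1, this.2]
  have hcoef : ∀ (r : ℤ → ℤ) (ω : ℤ), ω ∈ S →
      (∑ ω ∈ S, C (r ω) * X ^ (ω + N).toNat : ℤ[X]).coeff (ω + N).toNat = r ω := by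
    intro r ω hω
    rw [finsetSum_coeff, Finset.sum_eq_single ω]
    · rw [coeff_C_mul_X_pow, if_pos rfl]
    · intro ω' hω' hne'
      rw [coeff_C_mul_X_pow, if_neg]
      have := hrng ω hω
      have := hrng ω' hω'
      omega
    · intro h; exact absurd hω h
  have hdeg : ∀ (r : ℤ → ℤ), (∑ ω ∈ S, C (r ω) * X ^ (ω + N).toNat : ℤ[X]).natDegree ≤ 2 * N := by
    intro r
    apply natDegree_sum_le_of_forall_le
    intro ω hω
    refine (natDegree_C_mul_X_pow_le _ _).trans ?_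
    have := hrng ω hω
    omega
  have hRne : U ^ 2 + V ^ 2 ≠ 0 := by
    intro h0
    have key : ∀ u v : ℤ[X], u ^ 2 + v ^ 2 = 0 → u = 0 ∧ v = 0 := by
      intro u v huv
      have h1 : ∀ x : ℤ, u.eval x = 0 ∧ v.eval x = 0 := by
        intro x
        have := congrArg (Polynomial.eval x) huv
        simp at this
        constructor <;> nlinarith [sq_nonneg (u.eval x), sq_nonneg (v.eval x)]
      exact ⟨Polynomial.funext (fun x => by simpa using (h1 x).1),
        Polynomial.funext (fun x => by simpa using (h1 x).2)⟩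
    obtain ⟨hu0, hv0⟩ := key _ _ h0
    obtain ⟨ω, hω⟩ := hne
    have e1 := hcoef (fun ω => (q ω).1) ω hω
    have e2 := hcoef (fun ω => (q ω).2) ω hω
    rw [← hU, hu0, coeff_zero] at e1
    rw [← hV, hv0, coeff_zero] at e2
    have e3 := hq ω (hS hω)
    rw [← e1, ← e2] at e3
    simp at e3
    exact (Finsupp.mem_support_iff.1 (hS hω)) e3
  have hRdeg : (U ^ 2 + V ^ 2).natDegree < (2 ^ P).totient := by
    rw [Nat.totient_prime_pow Nat.prime_two (by omega)]
    have hdU : U.natDegree ≤ 2 * N := by rw [hU]; exact hdeg _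
    have hdV : V.natDegree ≤ 2 * N := by rw [hV]; exact hdeg _
    have h1 : (U ^ 2 + V ^ 2).natDegree ≤ 4 * N := by
      refine (natDegree_add_le _ _).trans (max_le ?_ ?_)
      · refine natDegree_pow_le.trans ?_
        omega
      · refine natDegree_pow_le.trans ?_
        omega
    omega
  have hprod := one_le_prod (n := 2 ^ P) (by positivity) _ hRne hRdeg
  rw [prod_primitive2 hP] at hprod
  -- the values
  have hev : ∀ y : ℝ, (U.map (Int.castRingHom ℂ)).eval (ee y) +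
      I * (V.map (Int.castRingHom ℂ)).eval (ee y) = ee (N * y) * (2 ^ B * gS f S y) := by
    intro y
    rw [hU, hV]
    unfold gS
    simp only [Polynomial.map_sum, eval_finsetSum, Polynomial.map_mul, Polynomial.map_pow, map_C,
      map_X, Polynomial.eval_mul, eval_C, Polynomial.eval_pow, eval_X, mul_sum,
      ← sum_add_distrib]
    apply Finset.sum_congr rfl
    intro ω hω
    have h2 := (hrng ω hω).1
    have h3 : ee y ^ (ω + N).toNat = ee (N * y) * ee (ω * y) := by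
      rw [ee_pow, ← ee_add]
      congr 1
      have h4 : (((ω + N).toNat : ℕ) : ℝ) = (ω : ℝ) + N := by
        have : ((((ω + N).toNat : ℕ) : ℤ)) = ω + N := Int.toNat_of_nonneg h2
        exact_mod_cast this
      rw [h4]
      ring
    rw [h3, hq ω (hS hω)]
    have h5 : (2 : ℂ) ^ B ≠ 0 := pow_ne_zero _ two_ne_zero
    simp only [eq_intCast]
    field_simp
  have hevc : ∀ y : ℝ, ‖(U.map (Int.castRingHom ℂ)).eval (ee y) -
      I * (V.map (Int.castRingHom ℂ)).eval (ee y)‖ = ‖2 ^ B * gS f S (-y)‖ := by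
    intro y
    have hcj : (starRingEnd ℂ) (ee y) = ee (-y) := by
      unfold ee
      rw [← Complex.exp_conj]
      congr 1
      rw [map_mul, Complex.conj_ofReal, Complex.conj_I]
      push_cast
      ring
    have hpc : ∀ W : ℤ[X], (starRingEnd ℂ) ((W.map (Int.castRingHom ℂ)).eval (ee y)) =
        (W.map (Int.castRingHom ℂ)).eval (ee (-y)) := by
      intro W
      rw [← hcj, Polynomial.eval_map, Polynomial.eval_map, Polynomial.eval₂_eq_sum_range,
        Polynomial.eval₂_eq_sum_range, map_sum]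
      apply Finset.sum_congr rfl
      intro i _
      rw [map_mul, map_pow]
      simp
    have e1 := hev (-y)
    have e2 : (U.map (Int.castRingHom ℂ)).eval (ee y) -
        I * (V.map (Int.castRingHom ℂ)).eval (ee y) =
        (starRingEnd ℂ) (ee (N * (-y)) * (2 ^ B * gS f S (-y))) := by
      rw [← e1, map_add, map_mul, ← hpc U, ← hpc V]
      simp
      ring
    rw [e2]
    have e3 : ‖(starRingEnd ℂ) (ee (N * (-y)) * (2 ^ B * gS f S (-y)))‖ =
        ‖ee (N * (-y)) * (2 ^ B * gS f S (-y))‖ := Complex.norm_conj _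
    rw [e3, norm_mul, norm_ee, one_mul]
  have hval : ∀ a < 2 ^ (P - 1),
      ‖((U ^ 2 + V ^ 2).map (Int.castRingHom ℂ)).eval (ee (((2 * a + 1 : ℕ) : ℝ) / 2 ^ P))‖ =
      ‖2 ^ B * gS f S (((2 * a + 1 : ℕ) : ℝ) / 2 ^ P)‖ *
      ‖2 ^ B * gS f S (((2 * (2 ^ (P - 1) - 1 - a) + 1 : ℕ) : ℝ) / 2 ^ P)‖ := by
    intro a ha
    obtain ⟨y, hy⟩ : ∃ y : ℝ, y = ((2 * a + 1 : ℕ) : ℝ) / 2 ^ P := ⟨_, rfl⟩
    have hy2 : ((2 * (2 ^ (P - 1) - 1 - a) + 1 : ℕ) : ℝ) / 2 ^ P = 1 - y := by
      have e : 2 * (2 ^ (P - 1) - 1 - a) + 1 + (2 * a + 1) = 2 ^ P := by omega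
      have e2 : ((2 * (2 ^ (P - 1) - 1 - a) + 1 : ℕ) : ℝ) + ((2 * a + 1 : ℕ) : ℝ) = 2 ^ P := by
        exact_mod_cast e
      rw [hy]
      have h0 : (2 : ℝ) ^ P ≠ 0 := by positivity
      field_simp
      linarith
    rw [hy2, ← hy]
    have hg : gS f S (1 - y) = gS f S (-y) := by
      unfold gS
      apply Finset.sum_congr rfl
      intro ω _
      congr 1
      have : (ω : ℝ) * (1 - y) = ω * (-y) + ((ω : ℤ) : ℝ) := by ring
      rw [this, ee_add_int]
    rw [hg, ← hevc y]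
    have h1 := hev y
    have e : ((U ^ 2 + V ^ 2).map (Int.castRingHom ℂ)).eval (ee y) =
        ((U.map (Int.castRingHom ℂ)).eval (ee y) + I * (V.map (Int.castRingHom ℂ)).eval (ee y)) *
        ((U.map (Int.castRingHom ℂ)).eval (ee y) - I * (V.map (Int.castRingHom ℂ)).eval (ee y)) := by
      simp only [Polynomial.map_add, Polynomial.map_pow, Polynomial.eval_add, Polynomial.eval_pow]
      have : I ^ 2 = -1 := I_sq
      linear_combination (((V.map (Int.castRingHom ℂ)).eval (ee y)) ^ 2) * this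
    rw [e, norm_mul, h1, norm_mul (ee _), norm_ee, one_mul]
  rw [Finset.prod_congr rfl (fun a ha => hval a (mem_range.1 ha)), Finset.prod_mul_distrib] at hprod
  have hrefl : ∏ a ∈ range (2 ^ (P - 1)),
      ‖2 ^ B * gS f S (((2 * (2 ^ (P - 1) - 1 - a) + 1 : ℕ) : ℝ) / 2 ^ P)‖ =
      ∏ a ∈ range (2 ^ (P - 1)), ‖2 ^ B * gS f S (((2 * a + 1 : ℕ) : ℝ) / 2 ^ P)‖ :=
    Finset.prod_range_reflect (fun a => ‖2 ^ B * gS f S (((2 * a + 1 : ℕ) : ℝ) / 2 ^ P)‖) _
  rw [hrefl] at hprod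
  have h0 : 0 ≤ ∏ a ∈ range (2 ^ (P - 1)), ‖2 ^ B * gS f S (((2 * a + 1 : ℕ) : ℝ) / 2 ^ P)‖ :=
    Finset.prod_nonneg (fun _ _ => norm_nonneg _)
  nlinarith

end Pool.Agent.H940_dft
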