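import Pool.Agent.H940_ver.Next2

/-!
# The output, without assumptions on the marks
-/

namespace Pool.Agent.H940_dft

open Finset

variable {E : Env} {s s' : St} {p : Par}

theorem round_exact2 {v a : ℤ} (h : |(v : ℝ) - 256 * a| ≤ 11) : (v + 128) / 256 = a := by
  have h1 : |v - 256 * a| ≤ 11 := by
    have : |((v - 256 * a : ℤ) : ℝ)| ≤ 11 := by push_cast; exact h
    exact_mod_cast this
  rw [abs_le] at h1
  omega

theorem val_exact2 {f : ℤ →₀ ℂ} (h : Adm p f) {ω : ℤ} (hω : ω ∈ f.support) {v1 v2 : ℤ}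
    (hv : Val2 p f 1 (ω % 2 ^ p.P) 0 v1 v2) :
    f ω = ((((v1 + 128) / 256 : ℤ) : ℂ) + (((v2 + 128) / 256 : ℤ) : ℂ) * Complex.I) / 2 ^ p.B := by
  obtain ⟨a, b, hab⟩ := h.grid ω hω
  unfold Val2 at hv
  rw [csum_last h hω, hab] at hv
  have e : (v1 : ℂ) + v2 * Complex.I - 2 ^ (p.B + 8) * ((a + b * Complex.I) / 2 ^ p.B) =
      ((v1 - 256 * a : ℝ) : ℂ) + ((v2 - 256 * b : ℝ) : ℂ) * Complex.I := by
    have : (2 : ℂ) ^ p.B ≠ 0 := pow_ne_zero _ two_ne_zero
    rw [pow_add]
    push_cast
    field_simp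
    ring
  rw [e] at hv
  have h1 := Complex.abs_re_le_norm (((v1 - 256 * a : ℝ) : ℂ) + ((v2 - 256 * b : ℝ) : ℂ) * Complex.I)
  have h2 := Complex.abs_im_le_norm (((v1 - 256 * a : ℝ) : ℂ) + ((v2 - 256 * b : ℝ) : ℂ) * Complex.I)
  simp only [Complex.add_re, Complex.mul_re, Complex.ofReal_re, Complex.I_re, Complex.ofReal_im,
    Complex.I_im, mul_zero, add_zero, mul_one, sub_self] at h1
  simp only [Complex.add_im, Complex.mul_im, Complex.ofReal_re, Complex.I_re, Complex.ofReal_im,
    Complex.I_im, mul_zero, zero_add, add_zero, mul_one] at h2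
  rw [round_exact2 (h1.trans hv), round_exact2 (h2.trans hv)]
  exact hab

theorem cen_abs {P : ℕ} (hP : 1 ≤ P) {c : ℤ} (h0 : 0 ≤ c) (h1 : c < 2 ^ P) :
    |cen P c| ≤ 2 ^ (P - 1) := by
  have h2 : (2 : ℤ) ^ P = 2 * 2 ^ (P - 1) := by rw [← pow_succ']; congr 1; omega
  unfold cen
  rw [abs_le]
  split_ifs <;> omega

theorem cen_mod {P : ℕ} {c : ℤ} (h0 : 0 ≤ c) (h1 : c < 2 ^ P) : cen P c % 2 ^ P = c := by
  unfold cen
  split_ifs
  · exact Int.emod_eq_of_lt h0 h1
  · rw [Int.sub_emod_right]
    exact Int.emod_eq_of_lt h0 h1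

/-- Rounding keeps the bounds. -/
theorem rnd_bd {v : ℤ} {n : ℕ} (hn : 1 ≤ n) (h : |v| ≤ 2 ^ n) : |(v + 128) / 256| ≤ 2 ^ n := by
  have h1 : (2 : ℤ) ≤ 2 ^ n := by
    calc (2 : ℤ) = 2 ^ 1 := by norm_num
      _ ≤ _ := pow_le_pow_right₀ (by norm_num) hn
  rw [abs_le] at h ⊢
  omega

/-- Contents of the output arrays. -/
structure OL2 (p : Par) (f : ℤ →₀ ℂ) (C F G H : ℕ → ℤ) (M V1 V2 : ℤ → ℤ) (n q r : ℕ) : Prop where
  len : r ≤ q
  sound : ∀ t < r, ∃ i < q, F t = cen p.P (C i) ∧ G t = (V1 (i : ℕ) + 128) / 256 ∧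
    H t = (V2 (i : ℕ) + 128) / 256
  inj : ∀ t < r, ∀ t' < r, F t = F t' → t = t'
  cor : Mk p f 1 C n M → (∀ i < n, Val2 p f 1 (C i) 0 (V1 (i : ℕ)) (V2 (i : ℕ))) →
    OL p f C F G H q r

theorem tr_output2 {f : ℤ →₀ ℂ} (hE : EnvOK p E) (hg : Glob p E s) (ha : Adm p f)
    {n : ℕ} (h26 : s.reg 26 = n) (hC : Stc p (cand s) n)
    (hb : ∀ i < n, |s.mem 10 (i : ℕ)| ≤ 2 ^ (3 * p.l) ∧ |s.mem 11 (i : ℕ)| ≤ 2 ^ (3 * p.l)) :
    Tr E H940_dft.output s (n * 1200 + 300) (fun s' => (∃ n' : ℕ, FOut p s' n') ∧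
      (Cov p f p.P (cand s) n → (∀ i < n, Gd2 p f 1 s i) → Good f p.B s')) := by
  have hX := E.hX
  have hP := p.P_ge
  have hl := p.l_ge
  have hPX := hE.pow p.P_le_x
  rw [abs_of_pos (by positivity)] at hPX
  have h2j : (2 : ℕ) ^ (p.j0 + 1) ≤ 2 ^ p.P := Nat.pow_le_pow_right (by norm_num)
    (by have := p.mu_lt; unfold Par.mu at this; omega)
  have h2x : (2 : ℕ) ^ p.P ≤ 2 ^ p.x := Nat.pow_le_pow_right (by norm_num) p.P_le_x
  have hn := hC.n_le
  have hnX : ((n : ℤ)) ≤ E.X := by
    have := hE.nat (n := n) (by omega)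
    exact (le_abs_self _).trans this
  have h3X : (2 : ℤ) ^ (3 * p.l) ≤ E.X := by
    have := hE.lin (a := 3) (b := 0) (v := 2 ^ (3 * p.l)) (by norm_num) (by norm_num)
      (by rw [abs_of_pos (by positivity)]; rfl)
    rwa [abs_of_pos (by positivity)] at this
  unfold H940_dft.output
  simp only [seqs]
  refine Tr.le (Tr.aseq rfl (by simp; omega) (T := n * (975 + 200) + 200) ?_) (by omega)
  refine (Tr.forC n 975 (fun q s1 => ∃ r : ℕ, s1.reg 39 = r ∧
      OL2 p f (cand s) (fun t => s1.mem 17 t) (fun t => s1.mem 18 t) (fun t => s1.mem 19 t)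
        (s.mem 7) (s.mem 10) (s.mem 11) n q r)
      (by decide) ?_ ?_ ?_).mono ?_
  · rw [setR_reg, if_neg (by norm_num), h26]
  · refine ⟨0, by simp [setR_reg], ?_, ?_, ?_, ?_⟩
    · omega
    · intro t ht; omega
    · intro t ht; omega
    · intro _ _
      exact ⟨le_rfl, fun t ht => by omega, fun t ht => by omega, fun i hi => by omega⟩
  · rintro q s1 hq h46 - hs1 ⟨r, h39, hN⟩
    have m5 : s1.mem 5 = s.mem 5 := by rw [hs1.2 5 (by decide)]; rfl
    have m7 : s1.mem 7 = s.mem 7 := by rw [hs1.2 7 (by decide)]; rfl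
    have m10 : s1.mem 10 = s.mem 10 := by rw [hs1.2 10 (by decide)]; rfl
    have m11 : s1.mem 11 = s.mem 11 := by rw [hs1.2 11 (by decide)]; rfl
    have e5 : s1.reg 5 = 2 ^ p.P := by
      rw [hs1.1 5 (by decide), setR_reg, if_neg (by norm_num), hg.r5]
    have hlenr := hN.len
    have hC0 := hC.nonneg q hq
    have hC1 := hC.lt q hq
    have hb1 : |(s.mem 10 q + 128) / 256| ≤ E.X := (rnd_bd (by omega) (hb q hq).1).trans h3X
    have hb2 : |(s.mem 11 q + 128) / 256| ≤ E.X := (rnd_bd (by omega) (hb q hq).2).trans h3X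
    have hne : ∀ t < r, s1.mem 17 t ≠ cen p.P (cand s q) := by
      intro t ht h
      obtain ⟨i, hi, h2, -⟩ := hN.sound t ht
      rw [h] at h2
      have := hC.inj i (by omega) q hq (cen_inj (hC.nonneg _ (by omega))
        (hC.lt _ (by omega)) hC0 hC1 h2.symm)
      omega
    have key : ∀ c : ℤ, c = cen p.P (cand s q) →
        (0 < s.mem 7 q) → ∀ s2 : St,
        (∀ t : ℕ, s2.mem 17 t = if t = r then c else s1.mem 17 t) →
        (∀ t : ℕ, s2.mem 18 t = if t = r then (s.mem 10 q + 128) / 256 else s1.mem 18 t) →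
        (∀ t : ℕ, s2.mem 19 t = if t = r then (s.mem 11 q + 128) / 256 else s1.mem 19 t) →
        ∃ r' : ℕ, (r : ℤ) + 1 = r' ∧ OL2 p f (cand s) (fun t => s2.mem 17 t)
          (fun t => s2.mem 18 t) (fun t => s2.mem 19 t) (s.mem 7) (s.mem 10) (s.mem 11) n
          (q + 1) r' := by
      intro c hc h7 s2 h17 h18 h19
      have hinj : ∀ t < r + 1, ∀ t' < r + 1, s2.mem 17 (t : ℕ) = s2.mem 17 (t' : ℕ) → t = t' := by
        intro t ht t' ht' heq
        simp only [h17] at heq
        by_cases h1 : t = r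
        · by_cases h2 : t' = r
          · omega
          · rw [if_pos h1, if_neg h2, hc] at heq
            exact absurd heq.symm (hne t' (by omega))
        · by_cases h2 : t' = r
          · rw [if_neg h1, if_pos h2, hc] at heq
            exact absurd heq (hne t (by omega))
          · rw [if_neg h1, if_neg h2] at heq
            exact hN.inj t (by omega) t' (by omega) heq
      refine ⟨r + 1, by push_cast; ring, ?_, ?_, hinj, ?_⟩
      · omega
      · intro t ht
        simp only [h17, h18, h19]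
        by_cases htr : t = r
        · subst htr
          refine ⟨q, by omega, by rw [if_pos rfl, hc], by rw [if_pos rfl], by rw [if_pos rfl]⟩
        · rw [if_neg htr, if_neg htr, if_neg htr]
          obtain ⟨i, hi, h⟩ := hN.sound t (by omega)
          exact ⟨i, by omega, h⟩
      · intro hmk hval
        have hO := hN.cor hmk hval
        have hocc : Occ f p.P 1 (cand s q) := by
          by_contra hcon
          have := (hmk q hq).2 hcon
          omega
        refine ⟨by omega, ?_, hinj, ?_⟩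
        · intro t ht
          simp only [h17, h18, h19]
          by_cases htr : t = r
          · subst htr
            refine ⟨q, by omega, hocc, by rw [if_pos rfl, hc], ?_⟩
            rw [if_pos rfl, if_pos rfl, if_pos rfl]
            obtain ⟨ω, hω, h⟩ := hocc
            rw [mul_one] at h
            have h2 : c = ω := by rw [hc, ← h, cen_eq (by omega) (ha.lt hω)]
            rw [h2]
            apply val_exact2 ha hω
            have := hval q hq
            rwa [← h] at this
          · rw [if_neg htr, if_neg htr, if_neg htr]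
            obtain ⟨i, hi, h⟩ := hO.sound t (by omega)
            exact ⟨i, by omega, h⟩
        · intro i hi ho
          by_cases hiq : i = q
          · subst hiq
            exact ⟨r, by omega, (h17 _).trans (by rw [if_pos rfl, hc])⟩
          · obtain ⟨t, ht, h⟩ := hO.compl i (by omega) ho
            exact ⟨t, by omega, by simp only [h17]; rw [if_neg (by omega)]; exact h⟩
    refine Tr.le (Tr.wp rfl ?_) (by decide)
    simp only [Cmd.wp, eval_reg, eval_lit, eval_ld, eval_add, eval_sub, eval_div, setM_reg,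
      setM_mem, setR_reg, h46, m5, m7, m10, m11, e5, h39, Nat.reduceEqDiff, reduceIte, false_and, if_false]
    have hC0' := hC0
    have hC1' := hC1
    unfold cand at hC0' hC1'
    refine ⟨fun h7 => ⟨fun h5 => ⟨?_, hb1, hb2, ?_, ?_⟩, fun h5 => ⟨?_, hb1, hb2, ?_, ?_⟩⟩,
      fun h7 => ?_⟩
    · rw [abs_of_nonneg hC0']; omega
    · rw [abs_of_nonneg (by positivity)]; omega
    · refine key (s.mem 5 q) ?_ h7 _ ?_ ?_ ?_
      · unfold cen cand; rw [if_pos h5]
      · intro t; simp [setM_mem, setR_mem]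
      · intro t; simp [setM_mem, setR_mem]
      · intro t; simp [setM_mem, setR_mem]
    · rw [abs_le]; omega
    · rw [abs_of_nonneg (by positivity)]; omega
    · refine key (s.mem 5 q - 2 ^ p.P) ?_ h7 _ ?_ ?_ ?_
      · unfold cen cand; rw [if_neg (by omega)]
      · intro t; simp [setM_mem, setR_mem]
      · intro t; simp [setM_mem, setR_mem]
      · intro t; simp [setM_mem, setR_mem]
    · refine ⟨r, by simp, ?_⟩
      refine ⟨by omega, ?_, hN.inj, ?_⟩
      · intro t ht
        obtain ⟨i, hi, h⟩ := hN.sound t ht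
        exact ⟨i, by omega, h⟩
      · intro hmk hval
        have hO := hN.cor hmk hval
        have hemp : ¬ Occ f p.P 1 (cand s q) := by
          intro hcon
          have := (hmk q hq).1 hcon
          omega
        refine ⟨by omega, ?_, hO.inj, ?_⟩
        · intro t ht
          obtain ⟨i, hi, h⟩ := hO.sound t ht
          exact ⟨i, by omega, h⟩
        · intro i hi ho
          have : i ≠ q := fun h' => hemp (h' ▸ ho)
          exact hO.compl i (by omega) ho
  · rintro s1 - ⟨⟨r, h39, hN⟩, -⟩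
    refine ⟨⟨r, h39, hN.len.trans hn, ?_, ?_, ?_, ?_⟩, ?_⟩
    · intro t ht
      obtain ⟨i, hi, h1, -⟩ := hN.sound t ht
      rw [h1]
      exact cen_abs (by omega) (hC.nonneg i hi) (hC.lt i hi)
    · intro t ht t' ht' heq
      apply hN.inj t ht t' ht'
      obtain ⟨i, hi, h1, -⟩ := hN.sound t ht
      obtain ⟨i', hi', h1', -⟩ := hN.sound t' ht'
      show s1.mem 17 (t : ℤ) = s1.mem 17 (t' : ℤ)
      rw [h1, h1', cen_mod (hC.nonneg i hi) (hC.lt i hi),
        cen_mod (hC.nonneg i' hi') (hC.lt i' hi')] at heq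
      rw [h1, h1', heq]
    · intro t ht
      obtain ⟨i, hi, -, h2, -⟩ := hN.sound t ht
      rw [h2]
      exact rnd_bd (by omega) (hb i hi).1
    · intro t ht
      obtain ⟨i, hi, -, -, h3⟩ := hN.sound t ht
      rw [h3]
      exact rnd_bd (by omega) (hb i hi).2
    · intro hcov hG
      have hO := hN.cor (fun i hi => ⟨(hG i hi).occ, (hG i hi).emp⟩) (fun i hi => (hG i hi).val)
      have hmem : ∀ t < r, s1.mem 17 (t : ℕ) ∈ f.support := by
        intro t ht
        obtain ⟨i, hi, ⟨ω, hω, h⟩, h2, -⟩ := hO.sound t ht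
        rw [mul_one] at h
        rw [h2, ← h, cen_eq (by omega) (ha.lt hω)]
        exact hω
      have himg : (range r).image (fun t : ℕ => s1.mem 17 (t : ℤ)) = f.support := by
        ext ω
        rw [mem_image]
        constructor
        · rintro ⟨t, ht, rfl⟩
          exact hmem t (mem_range.1 ht)
        · intro hω
          obtain ⟨i, hi, h⟩ := hcov ω hω
          rw [Nat.sub_self, pow_zero] at h
          obtain ⟨t, ht, h2⟩ := hO.compl i hi ⟨ω, hω, h⟩
          refine ⟨t, mem_range.2 ht, ?_⟩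
          rw [mul_one] at h
          rw [h2, ← h, cen_eq (by omega) (ha.lt hω)]
      have hr : f.support.card = r := by
        rw [← himg, card_image_of_injOn, card_range]
        intro t ht t' ht' heq
        simp only [coe_range, Set.mem_Iio] at ht ht'
        exact hO.inj t ht t' ht' heq
      refine ⟨by rw [hr]; exact h39, ?_, ?_, ?_⟩
      · rw [hr]; exact hmem
      · rw [hr]
        intro t ht
        obtain ⟨i, hi, -, -, h⟩ := hO.sound t ht
        exact h
      · rw [hr]; exact hO.inj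

end Pool.Agent.H940_dft
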