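import Pool.Agent.H940_ver.Wsum
import Pool.Agent.H940_dft.Round
import Pool.Agent.H940_dft.Tame

/-!
# Soundness of the verification
-/

namespace Pool.Agent.H940_dft

open Complex Finset

variable {p : Par}

/-- Far points stay far when one of them is replaced by a point in the same class. -/
theorem far_mod {σ C C' ω g : ℤ} {δ : ℝ}
    (h : Far (((σ * C' - σ * C : ℤ) : ℝ) / 2 ^ p.P) δ) (hω : (ω * g) % 2 ^ p.P = C') :
    Far (((σ * (ω * g) - σ * C : ℤ) : ℝ) / 2 ^ p.P) δ := by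
  have h2 := Int.mul_ediv_add_emod (ω * g) (2 ^ p.P)
  rw [hω] at h2
  have h3 := h.add_int (σ * (ω * g / 2 ^ p.P))
  have e : (((σ * (ω * g) - σ * C : ℤ) : ℝ) / 2 ^ p.P) =
      ((σ * C' - σ * C : ℤ) : ℝ) / 2 ^ p.P + ((σ * (ω * g / 2 ^ p.P) : ℤ) : ℝ) := by
    have h4 : ((ω * g : ℤ) : ℝ) = 2 ^ p.P * ((ω * g / 2 ^ p.P : ℤ) : ℝ) + C' := by
      exact_mod_cast h2.symm
    have h5 : ((σ * (ω * g) - σ * C : ℤ) : ℝ) = σ * ((ω * g : ℤ) : ℝ) - σ * C := by
      push_cast; ring
    rw [h5, h4]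
    have h6 : (2 : ℝ) ^ p.P ≠ 0 := by positivity
    push_cast
    field_simp
    ring
  rw [e]
  exact h3

/-- The average over the shifts `a / m` selects a residue class. -/
theorem avg_gsum {f : ℤ →₀ ℂ} {σ C W : ℤ} {c : ℂ} {m : ℕ} (hm : 0 < m) {ε : ℝ}
    (h : ∀ a : ℕ, a < m → ‖gsum p f σ 1 C ((a : ℝ) / m) - c * ee (W * ((a : ℝ) / m))‖ ≤ ε) :
    ‖(∑ ω ∈ f.support.filter (fun ω => (m : ℤ) ∣ ω - W), f ω * RR p σ C (σ * ω * 1 / 2 ^ p.P)) -
      c‖ ≤ ε := by
  have hm0 : (0 : ℝ) < m := by exact_mod_cast hm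
  have e1 : (m : ℂ) * ((∑ ω ∈ f.support.filter (fun ω => (m : ℤ) ∣ ω - W),
      f ω * RR p σ C (σ * ω * 1 / 2 ^ p.P)) - c) =
      ∑ a ∈ range m, ee (-(W * ((a : ℝ) / m))) *
        (gsum p f σ 1 C ((a : ℝ) / m) - c * ee (W * ((a : ℝ) / m))) := by
    have e2 : ∀ a : ℕ, ee (-(W * ((a : ℝ) / m))) *
        (gsum p f σ 1 C ((a : ℝ) / m) - c * ee (W * ((a : ℝ) / m))) =
        (∑ ω ∈ f.support, f ω * RR p σ C (σ * ω * 1 / 2 ^ p.P) *
          ee (((ω - W : ℤ) : ℝ) * (a / m))) - c := by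
      intro a
      have h1 : ee (-(W * ((a : ℝ) / m))) * (c * ee (W * ((a : ℝ) / m))) = c := by
        rw [mul_left_comm, ← ee_add]
        simp [ee_zero]
      rw [mul_sub, h1]
      congr 1
      unfold gsum
      rw [Finset.mul_sum]
      refine Finset.sum_congr rfl (fun ω _ => ?_)
      have h2 : (((ω - W : ℤ) : ℝ) * (a / m)) = -(W * ((a : ℝ) / m)) + ω * ((a : ℝ) / m) := by
        push_cast; ring
      rw [h2, ee_add]
      push_cast
      ring
    rw [Finset.sum_congr rfl (fun a _ => e2 a), Finset.sum_sub_distrib, Finset.sum_comm,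
      Finset.sum_const, card_range, nsmul_eq_mul, mul_sub]
    congr 1
    rw [Finset.sum_filter, Finset.mul_sum]
    refine Finset.sum_congr rfl (fun ω _ => ?_)
    rw [← Finset.mul_sum, sum_ee hm]
    split_ifs
    · ring
    · simp
  have h1 : ‖(m : ℂ) * ((∑ ω ∈ f.support.filter (fun ω => (m : ℤ) ∣ ω - W),
      f ω * RR p σ C (σ * ω * 1 / 2 ^ p.P)) - c)‖ ≤ m * ε := by
    rw [e1]
    refine (norm_sum_le _ _).trans ?_
    calc _ ≤ ∑ a ∈ range m, ε := by
          apply Finset.sum_le_sum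
          intro a ha
          rw [norm_mul, norm_ee, one_mul]
          exact h a (mem_range.1 ha)
      _ = m * ε := by simp
  rw [norm_mul, Complex.norm_natCast] at h1
  exact le_of_mul_le_mul_left h1 hm0

/-- The position of `ω` is close to the position of `C`. -/
def Clo (p : Par) (σ C ω : ℤ) : Prop :=
  ¬ Far (((σ * (ω * 1) - σ * C : ℤ) : ℝ) / 2 ^ p.P) (1 / 2 ^ p.lam)

/-- A passed test determines the coefficient, if there is a separating modulus. -/
theorem coef_of_tests {f : ℤ →₀ ℂ} (ha : Adm p f) (hM : ∑ ω ∈ f.support, ‖f ω‖ ≤ 2 ^ p.l)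
    {σ W : ℤ} {c : ℂ} (hc : ∃ a b : ℤ, c = (a + b * I) / 2 ^ p.B)
    {m : ℕ} (hm : 0 < m)
    (h : ∀ a : ℕ, a < m → ‖gsum p f σ 1 (W % 2 ^ p.P) ((a : ℝ) / m) - c * ee (W * ((a : ℝ) / m))‖ ≤
      46 / 2 ^ (p.B + 8))
    (hsep : ∀ ω ∈ f.support, ω ≠ W → Clo p σ (W % 2 ^ p.P) ω → ¬ (m : ℤ) ∣ ω - W) :
    f W = c := by
  classical
  have h1 := avg_gsum hm h
  have h2 : ‖(∑ ω ∈ f.support.filter (fun ω => (m : ℤ) ∣ ω - W),
      f ω * RR p σ (W % 2 ^ p.P) (σ * ω * 1 / 2 ^ p.P)) - f W‖ ≤ 1 / 2 ^ (2 * p.l + 6) := by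
    have e1 : (∑ ω ∈ f.support.filter (fun ω => (m : ℤ) ∣ ω - W),
        f ω * RR p σ (W % 2 ^ p.P) (σ * ω * 1 / 2 ^ p.P)) - f W =
        ∑ ω ∈ f.support, (if ω = W then 0 else if (m : ℤ) ∣ ω - W then
          f ω * RR p σ (W % 2 ^ p.P) (σ * ω * 1 / 2 ^ p.P) else 0) := by
      have e2 : f W = ∑ ω ∈ f.support, (if ω = W then f ω else 0) := by
        rw [Finset.sum_ite_eq']
        split_ifs with hW
        · rfl
        · rwa [Finsupp.mem_support_iff, not_not] at hW
      rw [e2, Finset.sum_filter, ← Finset.sum_sub_distrib]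
      refine Finset.sum_congr rfl (fun ω _ => ?_)
      by_cases hw : ω = W
      · subst hw
        have := RR_self (p := p) (σ := σ) (g := 1) (C := ω % 2 ^ p.P) (ω := ω) (by rw [mul_one])
        push_cast at this
        simp only [sub_self, dvd_zero, if_true]
        rw [this, mul_one, sub_self]
      · simp only [if_neg hw, sub_zero]
    rw [e1]
    refine (norm_sum_le _ _).trans ?_
    calc _ ≤ ∑ ω ∈ f.support, ‖f ω‖ * (1 / 8) ^ p.h := by
          apply Finset.sum_le_sum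
          intro ω hω
          split_ifs with h3 h4
          · rw [norm_zero]; positivity
          · have h5 : Far (((σ * (ω * 1) - σ * (W % 2 ^ p.P) : ℤ) : ℝ) / 2 ^ p.P)
                (1 / 2 ^ p.lam) := by
              by_contra hcon
              exact hsep ω hω h3 hcon h4
            have h6 := RR_far h5
            push_cast at h6
            rw [norm_mul]
            exact mul_le_mul_of_nonneg_left h6 (norm_nonneg _)
          · rw [norm_zero]; positivity
      _ = (∑ ω ∈ f.support, ‖f ω‖) * (1 / 8) ^ p.h := by rw [Finset.sum_mul]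
      _ ≤ 2 ^ p.l * (1 / 8) ^ p.h := mul_le_mul_of_nonneg_right hM (by positivity)
      _ = _ := eighth_h p
  have h3 : ‖f W - c‖ < 1 / 2 ^ p.B := by
    have e : f W - c = ((∑ ω ∈ f.support.filter (fun ω => (m : ℤ) ∣ ω - W),
      f ω * RR p σ (W % 2 ^ p.P) (σ * ω * 1 / 2 ^ p.P)) - c) -
      ((∑ ω ∈ f.support.filter (fun ω => (m : ℤ) ∣ ω - W),
      f ω * RR p σ (W % 2 ^ p.P) (σ * ω * 1 / 2 ^ p.P)) - f W) := by ring
    rw [e]
    refine (norm_sub_le _ _).trans_lt ?_
    have h4 : (1 : ℝ) / 2 ^ (2 * p.l + 6) ≤ 1 / 2 ^ (p.B + 8) := by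
      apply one_div_le_one_div_of_le (by positivity)
      apply two_pow_real_le
      have := p.P_ge
      have : p.l = p.P + p.B := rfl
      omega
    have h5 : (46 : ℝ) / 2 ^ (p.B + 8) + 1 / 2 ^ (p.B + 8) < 1 / 2 ^ p.B := by
      rw [← add_div, pow_add, div_lt_div_iff₀ (by positivity) (by positivity)]
      have : (0 : ℝ) < 2 ^ p.B := by positivity
      nlinarith
    linarith
  have hg : ∃ a b : ℤ, f W - c = (a + b * I) / 2 ^ p.B := by
    obtain ⟨a, b, hab⟩ := hc
    by_cases hW : W ∈ f.support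
    · obtain ⟨a', b', hab'⟩ := ha.grid W hW
      refine ⟨a' - a, b' - b, ?_⟩
      rw [hab, hab']; push_cast; ring
    · have : f W = 0 := by rwa [Finsupp.mem_support_iff, not_not] at hW
      refine ⟨-a, -b, ?_⟩
      rw [hab, this]; push_cast; ring
  by_contra hcon
  have := grid_norm hg (sub_ne_zero.2 hcon)
  linarith

/-- At most two isolated candidates are close to a given frequency. -/
theorem clo_two {σ : ℤ} {n : ℕ} {C : ℕ → ℤ} (A : Finset ℕ) (hA : ∀ i ∈ A, i < n)
    (hnb : ∀ i ∈ A, nb p σ n C i < 2) (ω : ℤ) (hclo : ∀ i ∈ A, Clo p σ (C i) ω) :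
    A.card ≤ 2 := by
  by_contra hcon
  push Not at hcon
  obtain ⟨i₁, i₂, i₃, h1, h2, h3, h12, h13, h23⟩ := Finset.two_lt_card_iff.1 hcon
  have far : ∀ i ∈ A, ∀ i' ∈ A, i ≠ i' →
      Far (((σ * C i' - σ * C i : ℤ) : ℝ) / 2 ^ p.P) (1 / 2 ^ p.lam) := by
    intro i hi i' hi' hne
    have := (nb_iff (hA i hi)).1 (hnb i hi) i' (hA i' hi') (Ne.symm hne)
    exact far_of_not_adj this
  have clo : ∀ i ∈ A, ∃ t : ℤ,
      |((σ * (ω * 1) - σ * C i : ℤ) : ℝ) / 2 ^ p.P - t| < 1 / 2 ^ p.lam := by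
    intro i hi
    have := hclo i hi
    unfold Clo Far at this
    push Not at this
    exact this
  have key : ∀ i ∈ A, ∀ i' ∈ A, i ≠ i' → ∀ t t' : ℤ, 1 / 2 ^ p.lam ≤
      |(((σ * (ω * 1) - σ * C i : ℤ) : ℝ) / 2 ^ p.P - t) -
        (((σ * (ω * 1) - σ * C i' : ℤ) : ℝ) / 2 ^ p.P - t')| := by
    intro i hi i' hi' hne t t'
    have h := far i hi i' hi' hne (t - t')
    have e : (((σ * (ω * 1) - σ * C i : ℤ) : ℝ) / 2 ^ p.P - t) -
        (((σ * (ω * 1) - σ * C i' : ℤ) : ℝ) / 2 ^ p.P - t') =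
        ((σ * C i' - σ * C i : ℤ) : ℝ) / 2 ^ p.P - ((t - t' : ℤ) : ℝ) := by
      push_cast; ring
    rw [e]; exact h
  obtain ⟨t1, a1⟩ := clo i₁ h1
  obtain ⟨t2, a2⟩ := clo i₂ h2
  obtain ⟨t3, a3⟩ := clo i₃ h3
  have b12 := key i₁ h1 i₂ h2 h12 t1 t2
  have b13 := key i₁ h1 i₃ h3 h13 t1 t3
  have b23 := key i₂ h2 i₃ h3 h23 t2 t3
  generalize ((σ * (ω * 1) - σ * C i₁ : ℤ) : ℝ) / 2 ^ p.P - t1 = y1 at *
  generalize ((σ * (ω * 1) - σ * C i₂ : ℤ) : ℝ) / 2 ^ p.P - t2 = y2 at *
  generalize ((σ * (ω * 1) - σ * C i₃ : ℤ) : ℝ) / 2 ^ p.P - t3 = y3 at *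
  generalize (1 : ℝ) / 2 ^ p.lam = δ at *
  rw [abs_lt] at a1 a2 a3
  rw [le_abs] at b12 b13 b23
  rcases b12 with b12 | b12 <;> rcases b13 with b13 | b13 <;> rcases b23 with b23 | b23 <;>
    linarith [a1.1, a1.2, a2.1, a2.2, a3.1, a3.2]

/-- Soundness of the verification. -/
theorem verif_sound {f : ℤ →₀ ℂ} (ha : Adm p f) (hM : ∑ ω ∈ f.support, ‖f ω‖ ≤ 2 ^ p.l)
    {n : ℕ} {W : ℕ → ℤ} {c : ℕ → ℂ} (hn : n = p.k) (hW : ∀ i < n, |W i| ≤ 2 ^ (p.P - 1))
    (hinj : ∀ i < n, ∀ j < n, W i = W j → i = j)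
    (hc : ∀ i < n, ∃ a b : ℤ, c i = (a + b * I) / 2 ^ p.B) (hc0 : ∀ i < n, c i ≠ 0)
    {R : ℕ} (hR : R ≤ p.j0 + 2) (σ : ℕ → ℤ)
    (h : ∀ i < n, ∃ r < R, nb p (σ r) n (fun i => W i % 2 ^ p.P) i < 2 ∧
      ∀ m : ℕ, 1 ≤ m → m ≤ 4 * p.P * (p.P + 1) → ∀ a : ℕ, a < m →
        ‖gsum p f (σ r) 1 (W i % 2 ^ p.P) ((a : ℝ) / m) - c i * ee (W i * ((a : ℝ) / m))‖ ≤
          46 / 2 ^ (p.B + 8)) : ∀ i < n, f (W i) = c i := by
  classical
  have hP := p.P_ge
  choose! r hr1 hr2 hr3 using h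
  set S₀ : Finset ℤ := (range n).image W with hS₀
  set J : Finset ℤ := f.support \ S₀ with hJ
  set Bad : Finset ℕ := (range n).filter (fun i => f (W i) ≠ c i) with hBad
  have hS₀card : S₀.card = n := by
    rw [hS₀, card_image_of_injOn, card_range]
    intro i hi j hj hij
    simp only [coe_range, Set.mem_Iio] at hi hj
    exact hinj i hi j hj hij
  have hcardeq : S₀.card = f.support.card := by rw [hS₀card, hn, ha.card]
  -- `J` is not larger than the set of bad candidates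
  have hJBad : J.card ≤ Bad.card := by
    have h1 : (S₀ \ f.support).card = J.card := by
      have a1 := Finset.card_sdiff_add_card_inter S₀ f.support
      have a2 := Finset.card_sdiff_add_card_inter f.support S₀
      rw [Finset.inter_comm] at a2
      rw [hJ]; omega
    rw [← h1]
    have h2 : S₀ \ f.support ⊆ Bad.image W := by
      intro ω hω
      rw [mem_sdiff, hS₀, mem_image] at hω
      obtain ⟨⟨i, hi, rfl⟩, h3⟩ := hω
      rw [mem_image]
      refine ⟨i, ?_, rfl⟩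
      rw [hBad, mem_filter]
      refine ⟨hi, ?_⟩
      rw [Finsupp.mem_support_iff, not_not] at h3
      rw [h3]
      exact (hc0 i (mem_range.1 hi)).symm
    exact (card_le_card h2).trans card_image_le
  -- bad candidates have many elements of `J` close to them
  have hmany : ∀ i ∈ Bad, 2 * p.P ≤ (J.filter (fun ω => Clo p (σ (r i)) (W i % 2 ^ p.P) ω)).card := by
    intro i hi
    rw [hBad, mem_filter, mem_range] at hi
    obtain ⟨hin, hbad⟩ := hi
    by_contra hcon
    push Not at hcon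
    set K := J.filter (fun ω => Clo p (σ (r i)) (W i % 2 ^ p.P) ω) with hK
    have hbd : ∀ ω ∈ insert (W i) K, |ω| ≤ ((2 ^ (p.P - 1) : ℕ) : ℤ) := by
      intro ω hω
      rw [mem_insert] at hω
      rcases hω with rfl | hω
      · push_cast; exact hW i hin
      · rw [hK, mem_filter, hJ, mem_sdiff] at hω
        have := ha.lt hω.1.1
        push_cast; exact this.le
    obtain ⟨m, h1, h2, h3⟩ := exists_modulus (N := 2 ^ (p.P - 1)) (s := 2 * p.P)
      (n := 2 * p.P * (p.P + 1)) (insert (W i) K) hbd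
      ((card_insert_le _ _).trans (by omega)) (by
        have e1 : 2 * 2 ^ (p.P - 1) + 1 < 2 ^ (p.P + 1) := by
          have e2 : 2 * 2 ^ (p.P - 1) = 2 ^ p.P := by rw [← pow_succ']; congr 1; omega
          have e3 : 2 ^ (p.P + 1) = 2 * 2 ^ p.P := by rw [pow_succ']
          have e4 : 1 < 2 ^ p.P := Nat.one_lt_two_pow (by omega)
          omega
        calc (2 * 2 ^ (p.P - 1) + 1) ^ (2 * p.P) < (2 ^ (p.P + 1)) ^ (2 * p.P) :=
              Nat.pow_lt_pow_left e1 (by omega)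
          _ = 2 ^ (2 * p.P * (p.P + 1)) := by rw [← pow_mul]; congr 1; ring) (W i)
      (mem_insert_self _ _)
    refine hbad (coef_of_tests ha hM (hc i hin) (by omega) (hr3 i hin m h1 (h2.trans (le_of_eq (by
      ring)))) ?_)
    intro ω hω hne hclo hdvd
    by_cases hS : ω ∈ S₀
    · rw [hS₀, mem_image] at hS
      obtain ⟨i', hi', rfl⟩ := hS
      rw [mem_range] at hi'
      have hii : i' ≠ i := fun h => hne (by rw [h])
      have h5 := (nb_iff hin).1 (hr2 i hin) i' hi' hii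
      have h6 := far_mod (p := p) (g := 1) (ω := W i') (far_of_not_adj h5) (by rw [mul_one])
      exact hclo h6
    · have h5 : ω ∈ (insert (W i) K).filter (fun ω => (m : ℤ) ∣ ω - W i) := by
        rw [mem_filter, mem_insert]
        refine ⟨Or.inr ?_, hdvd⟩
        rw [hK, mem_filter, hJ, mem_sdiff]
        exact ⟨⟨hω, hS⟩, hclo⟩
      rw [h3, mem_singleton] at h5
      exact hne h5
  -- double counting
  have hcount : Bad.card * (2 * p.P) ≤ J.card * (2 * R) := by
    have h1 : Bad.card * (2 * p.P) ≤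
        ∑ i ∈ Bad, (J.filter (fun ω => Clo p (σ (r i)) (W i % 2 ^ p.P) ω)).card := by
      rw [← smul_eq_mul]
      exact Finset.card_nsmul_le_sum _ _ _ hmany
    have h2 : ∑ i ∈ Bad, (J.filter (fun ω => Clo p (σ (r i)) (W i % 2 ^ p.P) ω)).card =
        ∑ ω ∈ J, (Bad.filter (fun i => Clo p (σ (r i)) (W i % 2 ^ p.P) ω)).card := by
      simp only [Finset.card_filter]
      rw [Finset.sum_comm]
    have h3 : ∑ ω ∈ J, (Bad.filter (fun i => Clo p (σ (r i)) (W i % 2 ^ p.P) ω)).card ≤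
        J.card * (2 * R) := by
      rw [← smul_eq_mul]
      apply Finset.sum_le_card_nsmul
      intro ω _
      have h4 : Bad.filter (fun i => Clo p (σ (r i)) (W i % 2 ^ p.P) ω) ⊆
          (range R).biUnion (fun t => (Bad.filter (fun i => r i = t)).filter
            (fun i => Clo p (σ t) (W i % 2 ^ p.P) ω)) := by
        intro i hi
        rw [mem_filter] at hi
        rw [mem_biUnion]
        have hin : i < n := by
          have := hi.1
          rw [hBad, mem_filter, mem_range] at this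
          exact this.1
        refine ⟨r i, mem_range.2 (hr1 i hin), ?_⟩
        rw [mem_filter, mem_filter]
        exact ⟨⟨hi.1, rfl⟩, hi.2⟩
      refine (card_le_card h4).trans (card_biUnion_le.trans ?_)
      calc _ ≤ ∑ t ∈ range R, 2 := by
            apply Finset.sum_le_sum
            intro t _
            apply clo_two (p := p) (σ := σ t) (n := n) (C := fun i => W i % 2 ^ p.P) _ ?_ ?_ ω ?_
            · intro i hi
              rw [mem_filter, mem_filter, hBad, mem_filter, mem_range] at hi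
              exact hi.1.1.1
            · intro i hi
              rw [mem_filter, mem_filter, hBad, mem_filter, mem_range] at hi
              have := hr2 i hi.1.1.1
              rwa [hi.1.2] at this
            · intro i hi
              rw [mem_filter] at hi
              exact hi.2
        _ = 2 * R := by simp; ring
    omega
  have hmu := p.mu_lt
  unfold Par.mu at hmu
  have hBad0 : Bad.card = 0 := by
    by_contra hcon
    have h1 : 0 < Bad.card := Nat.pos_of_ne_zero hcon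
    have h2 : Bad.card * (2 * p.P) ≤ Bad.card * (2 * R) :=
      hcount.trans (Nat.mul_le_mul_right _ hJBad)
    have h3 := Nat.le_of_mul_le_mul_left h2 h1
    omega
  intro i hi
  by_contra hcon
  have h1 : i ∈ Bad := by
    rw [hBad, mem_filter]
    exact ⟨mem_range.2 hi, hcon⟩
  rw [Finset.card_eq_zero] at hBad0
  rw [hBad0] at h1
  simp at h1

end Pool.Agent.H940_dft
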