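import Pool.Agent.H940_ver.ListB
import Pool.Agent.H940_ver.Verif

/-!
# Preparation of the verification
-/

namespace Pool.Agent.H940_dft

variable {E : Env} {s s' : St} {p : Par}

/-- A list of frequencies and coefficients in the output arrays. -/
structure FOut (p : Par) (s : St) (n : ℕ) : Prop where
  r39 : s.reg 39 = n
  n_le : n ≤ 2 ^ (p.j0 + 1)
  freq : ∀ i < n, |s.mem 17 (i : ℕ)| ≤ 2 ^ (p.P - 1)
  inj : ∀ i < n, ∀ j < n, s.mem 17 (i : ℕ) % 2 ^ p.P = s.mem 17 (j : ℕ) % 2 ^ p.P → i = j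
  re : ∀ i < n, |s.mem 18 (i : ℕ)| ≤ 2 ^ (3 * p.l)
  im : ∀ i < n, |s.mem 19 (i : ℕ)| ≤ 2 ^ (3 * p.l)

theorem FOut.same {n : ℕ} (h : FOut p s n) (h39 : s'.reg 39 = s.reg 39)
    (h17 : s'.mem 17 = s.mem 17) (h18 : s'.mem 18 = s.mem 18) (h19 : s'.mem 19 = s.mem 19) :
    FOut p s' n := by
  refine ⟨by rw [h39, h.r39], h.n_le, ?_, ?_, ?_, ?_⟩
  · rw [h17]; exact h.freq
  · rw [h17]; exact h.inj
  · rw [h18]; exact h.re
  · rw [h19]; exact h.im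

theorem FOut.of {n : ℕ} (h : FOut p s n) {c : Cmd} (hs : Same c s s')
    (hc : (decide (39 ∉ c.wr) && decide (17 ∉ c.wm) && decide (18 ∉ c.wm) &&
      decide (19 ∉ c.wm)) = true) : FOut p s' n := by
  simp only [Bool.and_eq_true, decide_eq_true_eq] at hc
  exact h.same (hs.1 39 hc.1.1.1) (hs.2 17 hc.1.1.2) (hs.2 18 hc.1.2) (hs.2 19 hc.2)

/-- The first part of the test: the number of frequencies is `k`, and no coefficient vanishes. -/
def Pre (p : Par) (s : St) (n : ℕ) : Prop :=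
  n = p.k ∧ ∀ i < n, s.mem 18 (i : ℕ) ≠ 0 ∨ s.mem 19 (i : ℕ) ≠ 0

theorem sq_lt_one {a b : ℤ} : a * a + b * b < 1 ↔ ¬ (a ≠ 0 ∨ b ≠ 0) := by
  constructor
  · intro h
    push Not
    constructor
    · by_contra ha
      have := mul_self_pos.2 ha
      nlinarith [mul_self_nonneg b]
    · by_contra hb
      have := mul_self_pos.2 hb
      nlinarith [mul_self_nonneg a]
  · intro h
    push Not at h
    rw [h.1, h.2]; norm_num

theorem tr_prep (hE : EnvOK p E) (hg : GX p E s) {n : ℕ} (hF : FOut p s n) :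
    Tr E prep s (n * 655 + 785) (fun s' => s'.reg 26 = n ∧ s'.reg 27 = 1 ∧
      (∀ i < n, s'.mem 5 (i : ℕ) = s.mem 17 (i : ℕ) % 2 ^ p.P) ∧
      (∀ i < n, s'.mem 8 (i : ℕ) = 0) ∧
      ((s'.reg 85 = 1 ∧ Pre p s n) ∨ (s'.reg 85 = 0 ∧ ¬ Pre p s n))) := by
  have hX := E.hX
  have hPX := hE.pow p.P_le_x
  rw [abs_of_pos (by positivity)] at hPX
  have h2P : (0 : ℤ) < 2 ^ p.P := by positivity
  have hkX : (p.k : ℤ) < E.X := by
    have h1 := p.lt_P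
    have h2 := p.hkN
    have : (p.k : ℤ) < 2 ^ p.P := by
      have : p.k < 2 ^ p.P := by omega
      exact_mod_cast this
    omega
  apply Tr.bd
  intro hbd
  have h39 : |s.reg 39| ≤ E.X := hbd.1 39 (by norm_num)
  have e1 : prep = .seq (.asg 85 (.lit 1)) (.seq (.asg 26 (.reg 39)) (.seq (.asg 27 (.lit 1))
    (.seq (.ite (.reg 39) (.reg 0) (.asg 85 (.lit 0)) .skip)
      (.seq (.ite (.reg 0) (.reg 39) (.asg 85 (.lit 0)) .skip)
        (forc 46 26 (seqs [.sto 5 (.reg 46) (.ld 17 (.reg 46) % .reg 5),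
          .sto 8 (.reg 46) (.lit 0),
          .ite (.ld 18 (.reg 46) * .ld 18 (.reg 46) + .ld 19 (.reg 46) * .ld 19 (.reg 46)) (.lit 1)
            (.asg 85 (.lit 0)) .skip])))))) := rfl
  rw [e1]
  refine Tr.le (Tr.aseq rfl (by simp; omega) (Tr.aseq rfl (by simpa [setR_reg] using h39)
    (Tr.aseq rfl (by simp; omega) (Tr.seq (T₁ := 195) (R := fun s1 =>
      s1.mem = s.mem ∧ s1.reg 26 = n ∧ s1.reg 27 = 1 ∧ s1.reg 39 = n ∧
      ((s1.reg 85 = 1 ∧ p.k ≤ n) ∨ (s1.reg 85 = 0 ∧ ¬ p.k ≤ n))) ?_ ?_)))) (T := 65 + (65 + (65 +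
        (195 + (195 + (n * (455 + 200) + 200)))))) (by omega)
  · refine Tr.le (Tr.wp rfl ?_) (by decide)
    simp only [Cmd.wp, eval_reg, eval_lit, setR_reg, setR_mem, Nat.reduceEqDiff, reduceIte, hF.r39,
      hg.r0]
    refine ⟨fun h => ⟨by rw [abs_zero]; omega, trivial, trivial, trivial, trivial, Or.inr ⟨trivial, ?_⟩⟩,
      fun h => ⟨trivial, trivial, trivial, trivial, Or.inl ⟨trivial, ?_⟩⟩⟩
    · omega
    · omega
  rintro s1 hs1 ⟨m1, a26, a27, a39, a85⟩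
  have g0 : s1.reg 0 = p.k := by
    rw [hs1.1 0 (by decide)]
    simp only [setR_reg, Nat.reduceEqDiff, reduceIte, hg.r0]
  have g5 : s1.reg 5 = 2 ^ p.P := by
    rw [hs1.1 5 (by decide)]
    simp only [setR_reg, Nat.reduceEqDiff, reduceIte, hg.r5]
  refine Tr.seq (T₁ := 195) (R := fun s2 => s2.mem = s.mem ∧ s2.reg 26 = n ∧ s2.reg 27 = 1 ∧
      s2.reg 5 = 2 ^ p.P ∧
      ((s2.reg 85 = 1 ∧ n = p.k) ∨ (s2.reg 85 = 0 ∧ ¬ n = p.k))) ?_ ?_
  · refine Tr.le (Tr.wp rfl ?_) (by decide)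
    simp only [Cmd.wp, eval_reg, eval_lit, setR_reg, setR_mem, Nat.reduceEqDiff, reduceIte, m1, a26,
      a27, a39, g0, g5]
    refine ⟨fun h => ⟨by rw [abs_zero]; omega, trivial, trivial, trivial, trivial, Or.inr ⟨trivial, ?_⟩⟩,
      fun h => ⟨trivial, trivial, trivial, trivial, ?_⟩⟩
    · omega
    · rcases a85 with ⟨h1, h2⟩ | ⟨h1, h2⟩
      · exact Or.inl ⟨h1, by omega⟩
      · exact Or.inr ⟨h1, by omega⟩
  rintro s2 hs2 ⟨m2, b26, b27, b5, b85⟩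
  refine (Tr.forC n 455 (fun q s3 => (∀ i < q, s3.mem 5 (i : ℕ) = s.mem 17 (i : ℕ) % 2 ^ p.P) ∧
      (∀ i < q, s3.mem 8 (i : ℕ) = 0) ∧
      ((s3.reg 85 = 1 ∧ n = p.k ∧ ∀ i < q, s.mem 18 (i : ℕ) ≠ 0 ∨ s.mem 19 (i : ℕ) ≠ 0) ∨
        (s3.reg 85 = 0 ∧ ¬ (n = p.k ∧ ∀ i < q, s.mem 18 (i : ℕ) ≠ 0 ∨ s.mem 19 (i : ℕ) ≠ 0))))
      (by decide) b26 ?_ ?_).mono ?_
  · refine ⟨fun i hi => by omega, fun i hi => by omega, ?_⟩
    rcases b85 with ⟨h1, h2⟩ | ⟨h1, h2⟩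
    · exact Or.inl ⟨by simpa [setR_reg] using h1, h2, fun i hi => by omega⟩
    · exact Or.inr ⟨by simpa [setR_reg] using h1, fun h => h2 h.1⟩
  · rintro q s3 hq h46 - hs3 ⟨i1, i2, i3⟩
    have c17 : s3.mem 17 = s.mem 17 := by rw [hs3.2 17 (by decide), m2]
    have c18 : s3.mem 18 = s.mem 18 := by rw [hs3.2 18 (by decide), m2]
    have c19 : s3.mem 19 = s.mem 19 := by rw [hs3.2 19 (by decide), m2]
    have c5 : s3.reg 5 = 2 ^ p.P := by rw [hs3.1 5 (by decide), b5]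
    have hmod0 := Int.emod_nonneg (s.mem 17 q) h2P.ne'
    have hmod1 := Int.emod_lt_of_pos (s.mem 17 q) h2P
    have key : ∀ z : ℤ, (z = 1 ∧ (s.mem 18 (q : ℕ) ≠ 0 ∨ s.mem 19 (q : ℕ) ≠ 0) ∨ z = 0 ∧
        ¬ (s.mem 18 (q : ℕ) ≠ 0 ∨ s.mem 19 (q : ℕ) ≠ 0)) → ∀ s4 : St,
        (∀ i : ℕ, s4.mem 5 i = if i = q then s.mem 17 q % 2 ^ p.P else s3.mem 5 i) →
        (∀ i : ℕ, s4.mem 8 i = if i = q then 0 else s3.mem 8 i) →
        (s4.reg 85 = s3.reg 85 * z) →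
        (∀ i < q + 1, (s4.setR 46 (q + 1)).mem 5 (i : ℕ) = s.mem 17 (i : ℕ) % 2 ^ p.P) ∧
        (∀ i < q + 1, (s4.setR 46 (q + 1)).mem 8 (i : ℕ) = 0) ∧
        (((s4.setR 46 (q + 1)).reg 85 = 1 ∧ n = p.k ∧
          ∀ i < q + 1, s.mem 18 (i : ℕ) ≠ 0 ∨ s.mem 19 (i : ℕ) ≠ 0) ∨
        ((s4.setR 46 (q + 1)).reg 85 = 0 ∧ ¬ (n = p.k ∧
          ∀ i < q + 1, s.mem 18 (i : ℕ) ≠ 0 ∨ s.mem 19 (i : ℕ) ≠ 0))) := by
      intro z hz s4 h5 h8 h85
      refine ⟨?_, ?_, ?_⟩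
      · intro i hi
        rw [setR_mem, h5]
        by_cases hiq : i = q
        · subst hiq; rw [if_pos rfl]
        · rw [if_neg hiq]; exact i1 i (by omega)
      · intro i hi
        rw [setR_mem, h8]
        by_cases hiq : i = q
        · rw [if_pos hiq]
        · rw [if_neg hiq]; exact i2 i (by omega)
      · rw [setR_reg, if_neg (by norm_num), h85]
        rcases hz with ⟨z1, z2⟩ | ⟨z1, z2⟩
        · rw [z1, mul_one]
          rcases i3 with ⟨h1, h2, h3⟩ | ⟨h1, h2⟩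
          · refine Or.inl ⟨h1, h2, fun i hi => ?_⟩
            by_cases hiq : i = q
            · subst hiq; exact z2
            · exact h3 i (by omega)
          · refine Or.inr ⟨h1, fun h => h2 ⟨h.1, fun i hi => h.2 i (by omega)⟩⟩
        · rw [z1, mul_zero]
          exact Or.inr ⟨rfl, fun h => z2 (h.2 q (by omega))⟩
    refine Tr.le (Tr.wp rfl ?_) (by decide)
    simp only [seqs, Cmd.wp, eval_reg, eval_lit, eval_mod, eval_mul, eval_add, eval_ld, setM_reg,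
      setM_mem, h46, c17, c18, c19, c5, Nat.reduceEqDiff, false_and, reduceIte]
    refine ⟨by rw [abs_of_nonneg hmod0]; omega, by rw [abs_zero]; omega, fun h => ⟨by rw [abs_zero]; omega, ?_⟩,
      fun h => ?_⟩
    · refine key 0 (Or.inr ⟨rfl, sq_lt_one.1 h⟩) _ ?_ ?_ ?_
      · intro i; simp [setM_mem, setR_mem]
      · intro i; simp [setM_mem, setR_mem]
      · simp [setR_reg]
    · refine key 1 (Or.inl ⟨rfl, ?_⟩) _ ?_ ?_ ?_
      · by_contra hcon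
        have := sq_lt_one.2 hcon
        omega
      · intro i; simp [setM_mem]
      · intro i; simp [setM_mem]
      · simp [setM_reg]
  · rintro s3 hs3 ⟨⟨i1, i2, i3⟩, -⟩
    refine ⟨by rw [hs3.1 26 (by decide), b26], by rw [hs3.1 27 (by decide), b27], i1, i2, i3⟩

end Pool.Agent.H940_dft
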