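import Pool.Agent.H940_ver.Norm2
import Pool.Agent.H940_ver.FinalR

/-!
# Random shifts
-/

namespace Pool.Agent.H940_dft

open Complex Finset

variable {p : Par}

/-- Odd multiples of `1 / 2 ^ P` at which the sum over `S` is small. -/
noncomputable def badA (p : Par) (f : ℤ →₀ ℂ) (S : Finset ℤ) : Finset ℕ :=
  (range (2 ^ (p.P - 1))).filter
    (fun a => ‖gS f S (((2 * a + 1 : ℕ) : ℝ) / 2 ^ p.P)‖ < 3 / 5 / 2 ^ p.B)

theorem card_badA {f : ℤ →₀ ℂ} (ha : Adm p f) {S : Finset ℤ} (hS : S ⊆ f.support)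
    (hne : S.Nonempty) : (badA p f S).card * (4 * p.l + 1) ≤ 2 ^ (p.P - 1) * (4 * p.l) := by
  have hl := p.l_ge
  have hP := p.P_ge
  have hpow : 2 ^ p.P = 2 * 2 ^ (p.P - 1) := by rw [← pow_succ']; congr 1; omega
  have hprod := prod_gS (P := p.P) (N := p.N) (B := p.B) (by omega)
    (by have := p.lt_P; omega) hS hne ha.freq ha.grid
  obtain ⟨M, hM⟩ : ∃ M, M = 2 ^ (p.P - 1) := ⟨_, rfl⟩
  obtain ⟨A, hA⟩ : ∃ A, A = badA p f S := ⟨_, rfl⟩
  have hAsub : A ⊆ range M := by rw [hA, hM]; exact filter_subset _ _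
  rw [← hM] at hprod ⊢
  rw [← hA]
  have hup : ∀ y : ℝ, ‖2 ^ p.B * gS f S y‖ ≤ 2 ^ (2 * p.l) := by
    intro y
    have h1 : ‖gS f S y‖ ≤ 2 ^ p.l := by
      unfold gS
      refine (norm_sum_le _ _).trans ?_
      refine le_trans ?_ ha.sum
      refine le_trans (le_of_eq ?_) (Finset.sum_le_sum_of_subset_of_nonneg hS
        (fun _ _ _ => norm_nonneg _))
      apply Finset.sum_congr rfl
      intro ω _
      rw [norm_mul, norm_ee, mul_one]
    rw [norm_mul, norm_pow, Complex.norm_ofNat]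
    calc (2 : ℝ) ^ p.B * ‖gS f S y‖ ≤ 2 ^ p.l * 2 ^ p.l := by
          apply mul_le_mul _ h1 (norm_nonneg _) (by positivity)
          exact pow_le_pow_right₀ (by norm_num) (by unfold Par.l; omega)
      _ = _ := by rw [← pow_add]; congr 1; ring
  have hb : ∀ a ∈ range M, ‖2 ^ p.B * gS f S (((2 * a + 1 : ℕ) : ℝ) / 2 ^ p.P)‖ ≤
      if a ∈ A then 3 / 5 else 2 ^ (2 * p.l) := by
    intro a _
    split_ifs with h
    · rw [hA] at h
      have h2 := (mem_filter.1 h).2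
      rw [norm_mul, norm_pow, Complex.norm_ofNat]
      have h3 : (0 : ℝ) < 2 ^ p.B := by positivity
      rw [lt_div_iff₀ h3] at h2
      linarith
    · exact hup _
  have h5 := hprod.trans (Finset.prod_le_prod (fun _ _ => norm_nonneg _) hb)
  rw [Finset.prod_ite, Finset.prod_const, Finset.prod_const] at h5
  have c1 : ((range M).filter (fun a => a ∈ A)).card = A.card := by
    congr 1
    ext a
    rw [mem_filter]
    exact ⟨fun h => h.2, fun h => ⟨hAsub h, h⟩⟩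
  have c2 : ((range M).filter (fun a => a ∉ A)).card + A.card = M := by
    have := Finset.card_filter_add_card_filter_not (s := range M) (fun a => a ∈ A)
    rw [c1, card_range] at this
    omega
  rw [c1] at h5
  obtain ⟨g, hg⟩ : ∃ g, g = ((range M).filter (fun a => a ∉ A)).card := ⟨_, rfl⟩
  rw [← hg] at h5 c2
  -- `|A| ≤ 4 l g`
  have h6 : A.card ≤ 4 * p.l * g := by
    have h7 : (1 : ℝ) ≤ ((3 / 5 : ℝ) ^ A.card * (2 ^ (2 * p.l)) ^ g) ^ 2 := one_le_pow₀ h5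
    have h8 : ((3 / 5 : ℝ) ^ A.card * (2 ^ (2 * p.l)) ^ g) ^ 2 =
        ((9 / 25 : ℝ)) ^ A.card * 2 ^ (4 * p.l * g) := by
      rw [mul_pow, ← pow_mul, ← pow_mul, ← pow_mul, mul_comm A.card 2, pow_mul]
      congr 1
      · norm_num
      · congr 1; ring
    rw [h8] at h7
    have h9 : ((9 / 25 : ℝ)) ^ A.card ≤ (1 / 2) ^ A.card :=
      pow_le_pow_left₀ (by norm_num) (by norm_num) _
    have h10 : (1 : ℝ) ≤ (1 / 2) ^ A.card * 2 ^ (4 * p.l * g) :=
      h7.trans (mul_le_mul_of_nonneg_right h9 (by positivity))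
    rw [one_div, inv_pow, ← div_eq_inv_mul, le_div_iff₀ (by positivity), one_mul] at h10
    exact (pow_le_pow_iff_right₀ (by norm_num)).1 h10
  calc A.card * (4 * p.l + 1) = 4 * p.l * A.card + A.card := by ring
    _ ≤ 4 * p.l * A.card + 4 * p.l * g := by omega
    _ = (g + A.card) * (4 * p.l) := by ring
    _ = M * (4 * p.l) := by rw [c2]

/-- Binary digits are unique. -/
theorem digits_unique (n : ℕ) : ∀ (b b' : ℕ → ℕ), (∀ i, b i ≤ 1) → (∀ i, b' i ≤ 1) →
    ∑ i ∈ range n, b i * 2 ^ i = ∑ i ∈ range n, b' i * 2 ^ i → ∀ i < n, b i = b' i := by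
  induction n with
  | zero => intro b b' _ _ _ i hi; omega
  | succ n ih =>
    intro b b' hb hb' h i hi
    rw [Finset.sum_range_succ', Finset.sum_range_succ'] at h
    have e : ∀ c : ℕ → ℕ, ∑ i ∈ range n, c (i + 1) * 2 ^ (i + 1) =
        2 * ∑ i ∈ range n, c (i + 1) * 2 ^ i := by
      intro c
      rw [Finset.mul_sum]
      apply Finset.sum_congr rfl
      intro i _
      ring
    rw [e, e] at h
    have h0 := hb 0
    have h0' := hb' 0
    simp only [pow_zero, mul_one] at h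
    have h1 : b 0 = b' 0 := by omega
    have h2 : ∑ i ∈ range n, b (i + 1) * 2 ^ i = ∑ i ∈ range n, b' (i + 1) * 2 ^ i := by omega
    rcases Nat.eq_zero_or_pos i with h3 | h3
    · rw [h3]; exact h1
    · have := ih (fun i => b (i + 1)) (fun i => b' (i + 1)) (fun i => hb _) (fun i => hb' _) h2
        (i - 1) (by omega)
      simp only [show i - 1 + 1 = i by omega] at this
      exact this

/-- The number given by the bits for the shift with number `t`. -/
def vR (p : Par) (bt : ℕ → ℕ) (t : ℕ) : ℕ :=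
  ∑ i ∈ range (p.P - 1), bt (t * (p.P - 1) + i) * 2 ^ i

theorem aR_eq (bt : ℕ → ℕ) {t : ℕ} (ht : t < p.R) : aR p bt t = 2 * vR p bt t + 1 := by
  unfold aR vR
  rw [if_pos ht, Finset.mul_sum, add_comm]
  congr 1
  apply Finset.sum_congr rfl
  intro i _
  rw [pow_succ]; ring

theorem vR_lt (bt : ℕ → ℕ) (h : ∀ t, bt t ≤ 1) {t : ℕ} (ht : t < p.R) :
    vR p bt t < 2 ^ (p.P - 1) := by
  have hP := p.P_ge
  have h1 := aR_lt p bt h t
  rw [aR_eq bt ht] at h1
  have hpow : 2 ^ p.P = 2 * 2 ^ (p.P - 1) := by rw [← pow_succ']; congr 1; omega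
  omega

theorem vR_inj {ρ ρ' : Fin p.nb → Bool} (h : ∀ t < p.R, vR p (bitOf ρ) t = vR p (bitOf ρ') t) :
    ρ = ρ' := by
  have hP := p.P_ge
  funext i
  obtain ⟨i, hi⟩ := i
  have h1 : i / (p.P - 1) < p.R := by
    rw [Nat.div_lt_iff_lt_mul (by omega)]; exact hi
  have h2 : i % (p.P - 1) < p.P - 1 := Nat.mod_lt _ (by omega)
  have h3 := digits_unique (p.P - 1) (fun j => bitOf ρ (i / (p.P - 1) * (p.P - 1) + j))
    (fun j => bitOf ρ' (i / (p.P - 1) * (p.P - 1) + j)) (fun _ => bitOf_le _ _)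
    (fun _ => bitOf_le _ _) (h _ h1) _ h2
  simp only [Nat.div_add_mod'] at h3
  unfold bitOf at h3
  rw [dif_pos hi, dif_pos hi] at h3
  revert h3
  cases ρ ⟨i, hi⟩ <;> cases ρ' ⟨i, hi⟩ <;> simp

open Classical in
/-- Bit strings for which the sum over `S` is small at all shifts. -/
noncomputable def Inv (p : Par) (f : ℤ →₀ ℂ) (S : Finset ℤ) : Finset (Fin p.nb → Bool) :=
  univ.filter (fun ρ => ∀ t < p.R, ‖gS f S ((aR p (bitOf ρ) t : ℝ) / 2 ^ p.P)‖ < 3 / 5 / 2 ^ p.B)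

theorem card_Inv (f : ℤ →₀ ℂ) (S : Finset ℤ) : (Inv p f S).card ≤ (badA p f S).card ^ p.R := by
  classical
  have h1 : (Fintype.piFinset fun _ : Fin p.R => badA p f S).card = (badA p f S).card ^ p.R := by
    rw [Fintype.card_piFinset]
    simp
  rw [← h1]
  apply Finset.card_le_card_of_injOn
    (fun (ρ : Fin p.nb → Bool) (t : Fin p.R) => vR p (bitOf ρ) (t : ℕ))
  · intro ρ hρ
    have hρ' : ρ ∈ Inv p f S := hρ
    unfold Inv at hρ'
    rw [mem_filter] at hρ'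
    have : (fun t : Fin p.R => vR p (bitOf ρ) t) ∈ Fintype.piFinset fun _ => badA p f S := by
      rw [Fintype.mem_piFinset]
      intro t
      unfold badA
      rw [mem_filter, mem_range]
      refine ⟨vR_lt _ (bitOf_le ρ) t.2, ?_⟩
      have := hρ'.2 t t.2
      rwa [aR_eq _ t.2] at this
    exact this
  · intro ρ _ ρ' _ h
    apply vR_inj
    intro t ht
    exact congrFun h ⟨t, ht⟩

theorem ratio_le (p : Par) : ((4 * p.l : ℝ) / (4 * p.l + 1)) ^ p.R ≤ (1 / 2) ^ (45 * p.l) := by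
  have hl : (15 : ℝ) ≤ p.l := by exact_mod_cast p.l_ge
  have hln := p.l_ge
  have h0 : (0 : ℝ) ≤ (4 * p.l : ℝ) / (4 * p.l + 1) := by positivity
  have h1 : (4 * p.l : ℝ) / (4 * p.l + 1) ≤ 1 := by
    rw [div_le_one (by positivity)]; linarith
  -- Bernoulli
  have h2 : ((4 * p.l : ℝ) / (4 * p.l + 1)) ^ (4 * p.l + 1) ≤ 1 / 2 := by
    have h3 : (2 : ℝ) ≤ (1 + 1 / (4 * p.l : ℝ)) ^ (4 * p.l + 1) := by
      have h4 := one_add_mul_le_pow (a := 1 / (4 * p.l : ℝ)) (by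
        have : (0 : ℝ) ≤ 1 / (4 * p.l : ℝ) := by positivity
        linarith) (4 * p.l + 1)
      have h5 : (1 : ℝ) ≤ ((4 * p.l + 1 : ℕ) : ℝ) * (1 / (4 * p.l : ℝ)) := by
        push_cast
        rw [mul_one_div, le_div_iff₀ (by positivity)]
        linarith
      linarith
    have h6 : (4 * p.l : ℝ) / (4 * p.l + 1) = (1 + 1 / (4 * p.l : ℝ))⁻¹ := by
      field_simp
    rw [h6, inv_pow]
    refine (inv_anti₀ (by norm_num) h3).trans (le_of_eq (by norm_num))
  have hR : (4 * p.l + 1) * (45 * p.l) ≤ p.R := by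
    unfold Par.R
    have h3 : (4 * p.l + 1) * 45 ≤ p.l * p.l * p.l := by
      have : 15 * 15 ≤ p.l * p.l := Nat.mul_le_mul hln hln
      have h4 : 225 * p.l ≤ p.l * p.l * p.l := Nat.mul_le_mul_right _ this
      omega
    calc (4 * p.l + 1) * (45 * p.l) = (4 * p.l + 1) * 45 * p.l := by ring
      _ ≤ p.l * p.l * p.l * p.l := Nat.mul_le_mul_right _ h3
      _ = _ := by ring
  calc ((4 * p.l : ℝ) / (4 * p.l + 1)) ^ p.R
      ≤ ((4 * p.l : ℝ) / (4 * p.l + 1)) ^ ((4 * p.l + 1) * (45 * p.l)) :=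
        pow_le_pow_of_le_one h0 h1 hR
    _ = (((4 * p.l : ℝ) / (4 * p.l + 1)) ^ (4 * p.l + 1)) ^ (45 * p.l) := by rw [pow_mul]
    _ ≤ (1 / 2) ^ (45 * p.l) := pow_le_pow_left₀ (pow_nonneg h0 _) h2 _

theorem card_Inv_le {f : ℤ →₀ ℂ} (ha : Adm p f) {S : Finset ℤ} (hS : S ⊆ f.support)
    (hne : S.Nonempty) : ((Inv p f S).card : ℝ) ≤ 2 ^ p.nb * (1 / 2) ^ (45 * p.l) := by
  have h1 := card_badA ha hS hne
  have hln := p.l_ge
  have h2 : ((badA p f S).card : ℝ) ≤ 2 ^ (p.P - 1) * ((4 * p.l : ℝ) / (4 * p.l + 1)) := by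
    rw [← mul_div_assoc, le_div_iff₀ (by positivity)]
    exact_mod_cast h1
  calc ((Inv p f S).card : ℝ) ≤ ((badA p f S).card : ℝ) ^ p.R := by
        exact_mod_cast card_Inv f S
    _ ≤ (2 ^ (p.P - 1) * ((4 * p.l : ℝ) / (4 * p.l + 1))) ^ p.R :=
        pow_le_pow_left₀ (Nat.cast_nonneg _) h2 _
    _ = 2 ^ p.nb * ((4 * p.l : ℝ) / (4 * p.l + 1)) ^ p.R := by
        rw [mul_pow, ← pow_mul]
        congr 2
        unfold Par.nb
        ring
    _ ≤ _ := mul_le_mul_of_nonneg_left (ratio_le p) (by positivity)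

open Classical in
/-- Bit strings for which some class is not visible. -/
noncomputable def BadR (p : Par) (f : ℤ →₀ ℂ) : Finset (Fin p.nb → Bool) :=
  univ.filter (fun ρ => ¬ VisL p f (p.R + 1) (aR p (bitOf ρ)) (fun _ => 1) (fun _ => 1))

theorem card_BadR {f : ℤ →₀ ℂ} (ha : Adm p f) :
    ((BadR p f).card : ℝ) ≤ (p.P + 1) * p.k * (2 ^ p.nb * (1 / 2) ^ (45 * p.l)) := by
  classical
  obtain ⟨cl, hcl⟩ : ∃ cl : ℕ → ℤ → Finset ℤ, cl = fun j ω₀ => f.support.filter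
    (fun ω => (ω * 2 ^ (p.P - j)) % 2 ^ p.P = (ω₀ * 2 ^ (p.P - j)) % 2 ^ p.P) := ⟨_, rfl⟩
  have hsub : BadR p f ⊆ (range (p.P + 1)).biUnion
      (fun j => f.support.biUnion (fun ω₀ => Inv p f (cl j ω₀))) := by
    intro ρ hρ
    unfold BadR at hρ
    rw [mem_filter] at hρ
    have h1 := hρ.2
    unfold VisL at h1
    push Not at h1
    obtain ⟨j, hj0, hj, C, ⟨ω₀, hω₀, hC⟩, h2⟩ := h1
    rw [mem_biUnion]
    refine ⟨j, mem_range.2 (by omega), ?_⟩
    rw [mem_biUnion]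
    refine ⟨ω₀, hω₀, ?_⟩
    unfold Inv
    rw [mem_filter]
    refine ⟨mem_univ _, fun t ht => ?_⟩
    have h3 := h2 t (by omega)
    have e1 : csum f p.P (2 ^ (p.P - j)) C (ysh p (aR p (bitOf ρ)) (fun _ => 1) (fun _ => 1)
        (2 ^ (p.P - j)) t) = gS f (cl j ω₀) ((aR p (bitOf ρ) t : ℝ) / 2 ^ p.P) := by
      unfold csum gS ysh nsh
      rw [hcl, ← hC]
      simp
    rwa [e1] at h3
  have hcard : ∀ j ∈ range (p.P + 1), ∀ ω₀ ∈ f.support,
      ((Inv p f (cl j ω₀)).card : ℝ) ≤ 2 ^ p.nb * (1 / 2) ^ (45 * p.l) := by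
    intro j _ ω₀ hω₀
    apply card_Inv_le ha
    · rw [hcl]; exact filter_subset _ _
    · exact ⟨ω₀, by rw [hcl]; exact mem_filter.2 ⟨hω₀, rfl⟩⟩
  calc ((BadR p f).card : ℝ) ≤ (((range (p.P + 1)).biUnion
          (fun j => f.support.biUnion (fun ω₀ => Inv p f (cl j ω₀)))).card : ℝ) := by
        exact_mod_cast card_le_card hsub
    _ ≤ ∑ j ∈ range (p.P + 1), ((f.support.biUnion (fun ω₀ => Inv p f (cl j ω₀))).card : ℝ) := by
        exact_mod_cast card_biUnion_le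
    _ ≤ ∑ j ∈ range (p.P + 1), ∑ ω₀ ∈ f.support, ((Inv p f (cl j ω₀)).card : ℝ) := by
        apply Finset.sum_le_sum
        intro j _
        exact_mod_cast card_biUnion_le
    _ ≤ ∑ j ∈ range (p.P + 1), ∑ ω₀ ∈ f.support, (2 ^ p.nb * (1 / 2) ^ (45 * p.l) : ℝ) := by
        apply Finset.sum_le_sum
        intro j hj
        exact Finset.sum_le_sum (fun ω₀ hω₀ => hcard j hj ω₀ hω₀)
    _ = _ := by
        rw [Finset.sum_const, Finset.sum_const, card_range, ha.card]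
        simp only [nsmul_eq_mul]
        push_cast
        ring

end Pool.Agent.H940_dft
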