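import Pool.Agent.H940_ver.RoundV

/-!
# Rounds and levels of the recovery with a list of shifts
-/

namespace Pool.Agent.H940_dft

open Complex Finset

variable {E : Env} {s s' : St} {p : Par}

/-- Hypothesis on the candidates of a level: they cover the frequencies, and every occupied
candidate is visible at some shift of the list. -/
structure Hy (p : Par) (f : ℤ →₀ ℂ) (g : ℤ) (C : ℕ → ℤ) (n T : ℕ) (y : ℕ → ℝ) : Prop where
  cover : ∀ ω ∈ f.support, ∃ i < n, (ω * g) % 2 ^ p.P = C i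
  vis : ∀ i < n, Occ f p.P g (C i) → ∃ t < T, 3 / 5 / 2 ^ p.B ≤ ‖csum f p.P g (C i) (y t)‖

/-- `v1 + i v2` is close to `2 ^ (B + 8)` times the class sum at the shift `0`. -/
def Val2 (p : Par) (f : ℤ →₀ ℂ) (g C : ℤ) (y : ℝ) (v1 v2 : ℤ) : Prop :=
  ‖(v1 : ℂ) + (v2 : ℂ) * I - 2 ^ (p.B + 8) * csum f p.P g C y‖ ≤ 11

theorem ValG.val2 {f : ℤ →₀ ℂ} {σ g C : ℤ} {y : ℝ} {v1 v2 : ℤ}
    (hM : ∑ ω ∈ f.support, ‖f ω‖ ≤ 2 ^ p.l) (hI : Iso f p.P p.lam σ g C)
    (h : ValG p f σ g C y v1 v2) : Val2 p f g C y v1 v2 := by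
  have h1 := gsum_iso hM hI y
  have hP := p.P_ge
  have hl : p.l = p.P + p.B := rfl
  unfold ValG at h
  unfold Val2
  have e : (v1 : ℂ) + (v2 : ℂ) * I - 2 ^ (p.B + 8) * csum f p.P g C y =
      ((v1 : ℂ) + (v2 : ℂ) * I - 2 ^ (p.B + 8) * gsum p f σ g C y) +
        2 ^ (p.B + 8) * (gsum p f σ g C y - csum f p.P g C y) := by ring
  rw [e]
  refine (norm_add_le _ _).trans ?_
  rw [norm_mul, norm_pow, Complex.norm_ofNat]
  have h4 : (2 : ℝ) ^ (p.B + 8) * (1 / 2 ^ (2 * p.l + 6)) ≤ 1 := by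
    rw [mul_one_div, div_le_one (by positivity)]
    apply two_pow_real_le
    omega
  have h5 : (2 : ℝ) ^ (p.B + 8) * ‖gsum p f σ g C y - csum f p.P g C y‖ ≤
      2 ^ (p.B + 8) * (1 / 2 ^ (2 * p.l + 6)) := mul_le_mul_of_nonneg_left h1 (by positivity)
  linarith

theorem Val2.small {f : ℤ →₀ ℂ} {g C : ℤ} {y : ℝ} {v1 v2 : ℤ} (h : Val2 p f g C y v1 v2)
    (h0 : csum f p.P g C y = 0) : ¬ Big (v1, v2) := by
  unfold Val2 at h
  rw [h0, mul_zero, sub_zero] at h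
  have h1 : ‖(v1 : ℂ) + (v2 : ℂ) * I‖ ^ 2 ≤ 11 ^ 2 := pow_le_pow_left₀ (norm_nonneg _) h 2
  rw [gauss_sq] at h1
  have h2 : v1 * v1 + v2 * v2 ≤ 121 := by
    have : ((v1 * v1 + v2 * v2 : ℤ) : ℝ) ≤ ((121 : ℤ) : ℝ) := by push_cast at h1 ⊢; linarith
    exact_mod_cast this
  unfold Big
  simp only
  omega

theorem Val2.big {f : ℤ →₀ ℂ} {g C : ℤ} {y : ℝ} {v1 v2 : ℤ} (h : Val2 p f g C y v1 v2)
    (h0 : 3 / 5 / 2 ^ p.B ≤ ‖csum f p.P g C y‖) : Big (v1, v2) := by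
  unfold Val2 at h
  have h1 : (153 : ℝ) ≤ ‖(2 : ℂ) ^ (p.B + 8) * csum f p.P g C y‖ := by
    rw [norm_mul, norm_pow, Complex.norm_ofNat]
    calc (153 : ℝ) ≤ 2 ^ (p.B + 8) * (3 / 5 / 2 ^ p.B) := by
          rw [pow_add]; field_simp; norm_num
      _ ≤ _ := mul_le_mul_of_nonneg_left h0 (by positivity)
  have h2 : (142 : ℝ) ≤ ‖(v1 : ℂ) + (v2 : ℂ) * I‖ := by
    have h3 : (2 : ℂ) ^ (p.B + 8) * csum f p.P g C y = ((v1 : ℂ) + (v2 : ℂ) * I) -
      ((v1 : ℂ) + (v2 : ℂ) * I - 2 ^ (p.B + 8) * csum f p.P g C y) := by ring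
    rw [h3] at h1
    have h4 := norm_sub_le ((v1 : ℂ) + (v2 : ℂ) * I)
      ((v1 : ℂ) + (v2 : ℂ) * I - 2 ^ (p.B + 8) * csum f p.P g C y)
    linarith
  have h3 : (142 : ℝ) ^ 2 ≤ ‖(v1 : ℂ) + (v2 : ℂ) * I‖ ^ 2 := pow_le_pow_left₀ (by norm_num) h2 2
  rw [gauss_sq] at h3
  have h4 : (20164 : ℤ) ≤ v1 * v1 + v2 * v2 := by
    have : ((20164 : ℤ) : ℝ) ≤ ((v1 * v1 + v2 * v2 : ℤ) : ℝ) := by
      push_cast at h3 ⊢; linarith
    exact_mod_cast this
  unfold Big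
  simp only
  omega

/-- Candidate `i` is decided correctly. -/
structure Gd2 (p : Par) (f : ℤ →₀ ℂ) (g : ℤ) (s : St) (i : ℕ) : Prop where
  occ : Occ f p.P g (cand s i) → s.mem 7 i = 1
  emp : ¬ Occ f p.P g (cand s i) → s.mem 7 i = 0
  val : Val2 p f g (cand s i) 0 (s.mem 10 i) (s.mem 11 i)

/-- State after `t` rounds. -/
structure RI2 (p : Par) (f : ℤ →₀ ℂ) (g : ℤ) (n T : ℕ) (y : ℕ → ℝ) (t : ℕ) (s : St) : Prop where
  few : 2 ^ t * (act n (s.mem 8)).card ≤ n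
  open_ : ∀ i < n, s.mem 8 (i : ℕ) < 1 → s.mem 7 (i : ℕ) = 0
  bdd : ∀ i < n, ¬ s.mem 8 (i : ℕ) < 1 → |s.mem 10 (i : ℕ)| ≤ 2 ^ (3 * p.l) ∧
    |s.mem 11 (i : ℕ)| ≤ 2 ^ (3 * p.l)
  cor : Hy p f g (cand s) n T y → ∀ i < n, ¬ s.mem 8 (i : ℕ) < 1 → Gd2 p f g s i

theorem iso_of_nb2 {f : ℤ →₀ ℂ} {g : ℤ} {C : ℕ → ℤ} {n : ℕ}
    (hc : ∀ ω ∈ f.support, ∃ i < n, (ω * g) % 2 ^ p.P = C i) {σ : ℤ} {i : ℕ}
    (hi : i < n) (h : nb p σ n C i < 2) : Iso f p.P p.lam σ g (C i) := by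
  rw [nb_iff hi] at h
  intro ω hω
  obtain ⟨i', hi', hc⟩ := hc ω hω
  by_cases hii : i' = i
  · left; rw [hc, hii]
  · right
    exact far_mod (far_of_not_adj (h i' hi' hii)) hc

/-- Cost of a round. -/
def Par.crnd2 (p : Par) (n T : ℕ) : ℕ :=
  p.csel n + (p.ciso n + ((T * (p.cshift n + 600) + 200) + (n * 460 + 200)))

theorem tr_round2 {f : ℤ →₀ ℂ} (hE : EnvOK p E) (hg : Glob p E s) (hO : OracleOK E f)
    (hM : ∑ ω ∈ f.support, ‖f ω‖ ≤ 2 ^ p.l) {T : ℕ} {a m u : ℕ → ℕ} (hS : SL p s T a m u)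
    (hT : 1 ≤ T) (hlast : a (T - 1) = 0) {g : ℤ} (hgP : |g| ≤ 2 ^ p.P) {n t : ℕ}
    (h26 : s.reg 26 = n) (h27 : s.reg 27 = g) (hL : Stc p (cand s) n)
    (hR : RI2 p f g n T (ysh p a m u g) t s) :
    Tr E round2 s (p.crnd2 n T) (RI2 p f g n T (ysh p a m u g) (t + 1)) := by
  have hX := E.hX
  have hnP : n ≤ 2 ^ p.P := hL.n_le.trans (Nat.pow_le_pow_right (by norm_num) (by
    have := p.mu_lt; unfold Par.mu at this; omega))
  unfold round2
  simp only [seqs]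
  unfold Par.crnd2
  refine Tr.seq (tr_select hE hg.toBase h26 hnP) ?_
  rintro s1 hs1 ⟨σ, h28, hphi⟩
  have hg1 : Glob p E s1 := hg.same (m := 5) hs1 (by decide) (by norm_num)
  have a26 : s1.reg 26 = n := by rw [hs1.1 26 (by decide), h26]
  have a27 : s1.reg 27 = g := by rw [hs1.1 27 (by decide), h27]
  have a5 : s1.mem 5 = s.mem 5 := hs1.2 5 (by decide)
  have a7 : s1.mem 7 = s.mem 7 := hs1.2 7 (by decide)
  have a8 : s1.mem 8 = s.mem 8 := hs1.2 8 (by decide)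
  have a10 : s1.mem 10 = s.mem 10 := hs1.2 10 (by decide)
  have a11 : s1.mem 11 = s.mem 11 := hs1.2 11 (by decide)
  have ac : cand s1 = cand s := by funext i; unfold cand; rw [a5]
  refine Tr.seq (tr_isolate (σ := σ) hg1.toBase a26 h28 hnP hE) ?_
  rintro s2 hs2 h9
  rw [ac, a8] at h9
  have hg2 : Glob p E s2 := hg1.same (m := 5) hs2 (by decide) (by norm_num)
  have b26 : s2.reg 26 = n := by rw [hs2.1 26 (by decide), a26]
  have b27 : s2.reg 27 = g := by rw [hs2.1 27 (by decide), a27]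
  have b28 : s2.reg 28 = σ := by rw [hs2.1 28 (by decide), h28]
  have b5 : s2.mem 5 = s.mem 5 := by rw [hs2.2 5 (by decide), a5]
  have b7 : s2.mem 7 = s.mem 7 := by rw [hs2.2 7 (by decide), a7]
  have b8 : s2.mem 8 = s.mem 8 := by rw [hs2.2 8 (by decide), a8]
  have b10 : s2.mem 10 = s.mem 10 := by rw [hs2.2 10 (by decide), a10]
  have b11 : s2.mem 11 = s.mem 11 := by rw [hs2.2 11 (by decide), a11]
  have hS2 : SL p s2 T a m u := (hS.of hs1 (by decide)).of hs2 (by decide)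
  have hpos : ∀ i < n, 0 < s2.mem 9 (i : ℕ) → nb p σ n (cand s) i < 2 ∧ s.mem 8 i < 1 := by
    intro i hi h
    rw [h9 i hi] at h
    by_contra hcon
    rw [if_neg hcon] at h
    omega
  have hneg : ∀ i < n, ¬ 0 < s2.mem 9 (i : ℕ) → ¬ (nb p σ n (cand s) i < 2 ∧ s.mem 8 i < 1) := by
    intro i hi h h'
    rw [h9 i hi, if_pos h'] at h
    omega
  refine Tr.seq (tr_shifts2 hE hg2 hO hM hS2 hgP b26 b28 b27) ?_
  rintro s3 hs3 hS3
  have hg3 : Glob p E s3 := hg2.same (m := 5) hs3 (by decide) (by norm_num)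
  have c26 : s3.reg 26 = n := by rw [hs3.1 26 (by decide), b26]
  have c5 : s3.mem 5 = s.mem 5 := by rw [hs3.2 5 (by decide), b5]
  have c8 : s3.mem 8 = s.mem 8 := by rw [hs3.2 8 (by decide), b8]
  have c9 : s3.mem 9 = s2.mem 9 := hs3.2 9 (by decide)
  refine (tr_markDone c26).mono ?_
  rintro s4 hs4 hI
  rw [c9, c8] at hI
  have e5 : s4.mem 5 = s.mem 5 := by rw [hs4.2 5 (by decide), c5]
  have e7 : s4.mem 7 = s3.mem 7 := hs4.2 7 (by decide)
  have e10 : s4.mem 10 = s3.mem 10 := hs4.2 10 (by decide)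
  have e11 : s4.mem 11 = s3.mem 11 := hs4.2 11 (by decide)
  have ec : cand s4 = cand s := by funext i; unfold cand; rw [e5]
  have h8 : ∀ i < n, s4.mem 8 (i : ℕ) < 1 → ¬ 0 < s2.mem 9 (i : ℕ) ∧ s.mem 8 (i : ℕ) < 1 := by
    intro i hi h
    rw [hI i] at h
    split_ifs at h with h'
    · omega
    · refine ⟨fun h'' => h' ⟨hi, h''⟩, h⟩
  have h8' : ∀ i < n, ¬ s4.mem 8 (i : ℕ) < 1 → ¬ 0 < s2.mem 9 (i : ℕ) → ¬ s.mem 8 (i : ℕ) < 1 := by
    intro i hi h hact h'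
    apply h
    rw [hI i, if_neg (fun h'' => hact h''.2)]
    exact h'
  refine ⟨?_, ?_, ?_, ?_⟩
  · refine few_step2 (D := s.mem 8) (D' := s4.mem 8) hL hphi hR.few ?_
    intro i hi h
    obtain ⟨h1, h2⟩ := h8 i hi h
    exact ⟨h2, fun h3 => hneg i hi h1 ⟨h3, h2⟩⟩
  · intro i hi h
    obtain ⟨h1, h2⟩ := h8 i hi h
    rw [e7, ((hS3 i hi).inact h1).1, b7]
    exact hR.open_ i hi h2
  · intro i hi h
    by_cases hact : 0 < s2.mem 9 (i : ℕ)
    · rw [e10, e11]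
      exact ((hS3 i hi).val (by omega) hact).bd hM
    · obtain ⟨h1, h2, h3⟩ := (hS3 i hi).inact hact
      rw [e10, e11, h2, h3, b10, b11]
      exact hR.bdd i hi (h8' i hi h hact)
  · intro hHy i hi h
    rw [ec] at hHy
    by_cases hact : 0 < s2.mem 9 (i : ℕ)
    · have hS' := hS3 i hi
      have hc5 : s2.mem 5 (i : ℕ) = cand s i := by rw [b5]; rfl
      have hiso : Iso f p.P p.lam σ g (cand s i) := iso_of_nb2 hHy.cover hi (hpos i hi hact).1
      obtain ⟨v, hv1, hv2, hv3⟩ := hS'.mark hact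
      rw [hc5] at hv1
      refine ⟨?_, ?_, ?_⟩
      · intro hocc
        rw [ec] at hocc
        obtain ⟨q, hq, hv⟩ := hHy.vis i hi hocc
        rw [e7]
        exact hv2 ⟨q, hq, ((hv1 q hq).val2 hM hiso).big hv⟩
      · intro hemp
        rw [ec] at hemp
        rw [e7, hv3 (fun q hq => ((hv1 q hq).val2 hM hiso).small (csum_zero hemp _)), b7]
        exact hR.open_ i hi (hpos i hi hact).2
      · have hval := hS'.val (by omega) hact
        rw [hc5] at hval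
        have hy : ysh p a m u g (T - 1) = 0 := by
          unfold ysh nsh
          rw [hlast]
          split_ifs <;> simp
        rw [hy] at hval
        rw [e10, e11, ec]
        exact hval.val2 hM hiso
    · have hG := hR.cor hHy i hi (h8' i hi h hact)
      obtain ⟨h1, h2, h3⟩ := (hS3 i hi).inact hact
      refine ⟨?_, ?_, ?_⟩
      · rw [ec, e7, h1, b7]; exact hG.occ
      · rw [ec, e7, h1, b7]; exact hG.emp
      · rw [ec, e10, e11, h2, h3, b10, b11]; exact hG.val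

/-- Result of a level. -/
structure LR (p : Par) (f : ℤ →₀ ℂ) (g : ℤ) (n T : ℕ) (y : ℕ → ℝ) (s : St) : Prop where
  bdd : ∀ i < n, |s.mem 10 (i : ℕ)| ≤ 2 ^ (3 * p.l) ∧ |s.mem 11 (i : ℕ)| ≤ 2 ^ (3 * p.l)
  cor : Hy p f g (cand s) n T y → ∀ i < n, Gd2 p f g s i

/-- Cost of a level. -/
def Par.clev2 (p : Par) (n T : ℕ) : ℕ :=
  (n * 500 + 200) + ((p.j0 + 2) * (p.crnd2 n T + 200) + 200)

theorem tr_level2 {f : ℤ →₀ ℂ} (hE : EnvOK p E) (hg : Glob p E s) (hO : OracleOK E f)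
    (hM : ∑ ω ∈ f.support, ‖f ω‖ ≤ 2 ^ p.l) {T : ℕ} {a m u : ℕ → ℕ} (hS : SL p s T a m u)
    (hT : 1 ≤ T) (hlast : a (T - 1) = 0) {g : ℤ} (hgP : |g| ≤ 2 ^ p.P) {n : ℕ}
    (h26 : s.reg 26 = n) (h27 : s.reg 27 = g) (hL : Stc p (cand s) n) :
    Tr E level2 s (p.clev2 n T) (LR p f g n T (ysh p a m u g)) := by
  have hX := E.hX
  unfold level2
  simp only [seqs]
  refine Tr.seq (R := fun s1 => ∀ i < n, s1.mem 7 (i : ℕ) = 0 ∧ s1.mem 8 (i : ℕ) = 0)
    (Tr.le ((Tr.forC n 260 (fun q s1 => ∀ i < q, s1.mem 7 (i : ℕ) = 0 ∧ s1.mem 8 (i : ℕ) = 0)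
      (by decide) h26 ?_ ?_).mono (fun _ _ h => h.1)) (by ring_nf; omega)) ?_
  · intro i hi; omega
  · rintro q s1 hq h46 - hs1 hI
    refine Tr.le (Tr.wp rfl ?_) (by decide)
    simp only [Cmd.wp, eval_reg, eval_lit, setM_reg, h46]
    refine ⟨by rw [abs_zero]; omega, by rw [abs_zero]; omega, ?_⟩
    intro i hi
    simp only [setR_mem, setM_mem]
    by_cases hiq : i = q
    · subst hiq; simp
    · have hne : ¬ ((i : ℤ) = (q : ℤ)) := by exact_mod_cast hiq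
      have := hI i (by omega)
      simp [hne, this.1, this.2]
  · rintro s1 hs1 h78
    have hg1 : Glob p E s1 := hg.same (m := 5) hs1 (by decide) (by norm_num)
    have hS1 : SL p s1 T a m u := hS.of hs1 (by decide)
    have a26 : s1.reg 26 = n := by rw [hs1.1 26 (by decide), h26]
    have a27 : s1.reg 27 = g := by rw [hs1.1 27 (by decide), h27]
    have a5 : s1.mem 5 = s.mem 5 := hs1.2 5 (by decide)
    have ac : cand s1 = cand s := by funext i; unfold cand; rw [a5]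
    refine (Tr.forC (p.j0 + 2) (p.crnd2 n T) (fun t s2 => RI2 p f g n T (ysh p a m u g) t s2)
      (by decide) hg1.r21 ?_ ?_).mono ?_
    · refine ⟨?_, ?_, ?_, ?_⟩
      · rw [pow_zero, one_mul]
        exact (card_filter_le _ _).trans (by simp)
      · intro i hi _; rw [setR_mem]; exact (h78 i hi).1
      · intro i hi h
        rw [setR_mem, (h78 i hi).2] at h
        exact absurd (by norm_num : (0 : ℤ) < 1) h
      · intro _ i hi h
        rw [setR_mem, (h78 i hi).2] at h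
        exact absurd (by norm_num : (0 : ℤ) < 1) h
    · rintro t s2 ht h57 - hs2 hR
      have hg2 : Glob p E s2 := hg1.same (m := 5) hs2 (by decide) (by norm_num)
      have b26 : s2.reg 26 = n := by rw [hs2.1 26 (by decide), a26]
      have b27 : s2.reg 27 = g := by rw [hs2.1 27 (by decide), a27]
      have b5 : s2.mem 5 = s.mem 5 := by rw [hs2.2 5 (by decide), a5]
      have bc : cand s2 = cand s := by funext i; unfold cand; rw [b5]
      refine (tr_round2 hE hg2 hO hM (hS1.of hs2 (by decide)) hT hlast hgP b26 b27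
        (by rw [bc]; exact hL) hR).mono ?_
      rintro s3 - h3
      exact ⟨h3.few, h3.open_, h3.bdd, fun hh i hi h => ⟨(h3.cor hh i hi h).occ,
        (h3.cor hh i hi h).emp, (h3.cor hh i hi h).val⟩⟩
    · rintro s2 hs2 ⟨hR, -⟩
      have hdone := few_done (p := p) (C := cand s) hL hR.few
      exact ⟨fun i hi => hR.bdd i hi (hdone i hi), fun hh i hi => hR.cor hh i hi (hdone i hi)⟩

end Pool.Agent.H940_dft
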