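import Pool.Agent.H940_ver.CheckT

/-!
# Rounds of the verification
-/

namespace Pool.Agent.H940_dft

open Complex Finset

variable {E : Env} {s s' : St} {p : Par}

/-- Structure of the list of candidates. -/
structure Stc (p : Par) (C : ℕ → ℤ) (n : ℕ) : Prop where
  n_le : n ≤ 2 ^ (p.j0 + 1)
  nonneg : ∀ i < n, 0 ≤ C i
  lt : ∀ i < n, C i < 2 ^ p.P
  inj : ∀ i < n, ∀ j < n, C i = C j → i = j

theorem few_step2 {C : ℕ → ℤ} {n t : ℕ} (hL : Stc p C n) {σ : ℕ}
    {D D' : ℤ → ℤ} (hphi : Phi p.P p.u n (act n D) C p.P σ ≤ 32 * 2 ^ p.u * ((act n D).card * n))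
    (hfew : 2 ^ t * (act n D).card ≤ n)
    (hD : ∀ i < n, D' (i : ℕ) < 1 → D (i : ℕ) < 1 ∧ ¬ nb p σ n C i < 2) :
    2 ^ (t + 1) * (act n D').card ≤ n := by
  classical
  have huP : p.u ≤ p.P := by have := p.u_add; omega
  have h1 := near_count (A := act n D) (C := C) huP
    (fun i hi => mem_range.1 (mem_filter.1 hi).1) hL.nonneg hL.lt hL.inj hphi
  have hsub : act n D' ⊆ (act n D).filter (fun i' => ∃ i < n, i ≠ i' ∧ Near p.P p.u σ (C i') (C i)) := by
    intro i hi
    unfold act at hi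
    rw [mem_filter, mem_range] at hi
    obtain ⟨h2, h3⟩ := hD i hi.1 hi.2
    rw [mem_filter]
    refine ⟨mem_filter.2 ⟨mem_range.2 hi.1, h2⟩, ?_⟩
    rw [nb_iff hi.1] at h3
    push Not at h3
    obtain ⟨i', hi', hne, j, hj, hadj⟩ := h3
    exact ⟨i', hi', hne, near_of_adj hj hadj⟩
  have h2 := Finset.card_le_card hsub
  set A := (act n D).card
  set A' := (act n D').card
  have h3 : 2 ^ p.P * A' ≤ 32 * 2 ^ p.u * (A * n) := (Nat.mul_le_mul_left _ h2).trans h1
  have h4 : 32 * 2 ^ p.u * (A * n) ≤ 2 ^ (p.P - 1) * A := by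
    calc 32 * 2 ^ p.u * (A * n) ≤ 32 * 2 ^ p.u * (A * 2 ^ (p.j0 + 1)) :=
          Nat.mul_le_mul_left _ (Nat.mul_le_mul_left _ hL.n_le)
      _ = 2 ^ 5 * 2 ^ p.u * 2 ^ (p.j0 + 1) * A := by ring
      _ = 2 ^ (p.P - 1) * A := by
        rw [← pow_add, ← pow_add]
        congr 2
        have := p.u_add
        unfold Par.lam at this
        omega
  have h5 : 2 ^ p.P = 2 ^ (p.P - 1) * 2 := by
    rw [← pow_succ]; congr 1; have := p.P_ge; omega
  rw [h5] at h3
  have h6 : 2 ^ (p.P - 1) * (2 * A') ≤ 2 ^ (p.P - 1) * A := by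
    calc _ = 2 ^ (p.P - 1) * 2 * A' := by ring
      _ ≤ _ := h3.trans h4
  have h7 : 2 * A' ≤ A := Nat.le_of_mul_le_mul_left h6 (by positivity)
  calc 2 ^ (t + 1) * A' = 2 ^ t * (2 * A') := by rw [pow_succ]; ring
    _ ≤ 2 ^ t * A := Nat.mul_le_mul_left _ h7
    _ ≤ n := hfew

theorem few_done {C : ℕ → ℤ} {n : ℕ} (hL : Stc p C n) {D : ℤ → ℤ}
    (hfew : 2 ^ (p.j0 + 2) * (act n D).card ≤ n) : ∀ i < n, ¬ D (i : ℕ) < 1 := by
  intro i hi hlt
  have h2 : 1 ≤ (act n D).card := by
    rw [Nat.one_le_iff_ne_zero, Finset.card_ne_zero]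
    exact ⟨i, mem_filter.2 ⟨mem_range.2 hi, hlt⟩⟩
  have h3 : 2 ^ (p.j0 + 2) * 1 ≤ 2 ^ (p.j0 + 2) * (act n D).card :=
    Nat.mul_le_mul_left _ h2
  have h4 := hL.n_le
  have h5 : 2 ^ (p.j0 + 2) = 2 ^ (p.j0 + 1) * 2 := by rw [← pow_succ]
  have h6 : 0 < 2 ^ (p.j0 + 1) := by positivity
  omega

theorem tr_markDone {n : ℕ} (h26 : s.reg 26 = n) :
    Tr E markDone s (n * 460 + 200) (fun s' => ∀ i : ℕ, s'.mem 8 i =
      if i < n ∧ 0 < s.mem 9 i then 1 else s.mem 8 i) := by
  have hX := E.hX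
  unfold markDone
  refine Tr.le ((Tr.forC n 260 (fun q s4 => ∀ i : ℕ, s4.mem 8 i =
    if i < q ∧ 0 < s.mem 9 i then 1 else s.mem 8 i) (by decide) h26 ?_ ?_).mono
      (fun _ _ h => h.1)) (by omega)
  · intro i
    rw [if_neg (fun h => by omega), setR_mem]
  · rintro q s4 hq h46 - hs4 hI
    have d9 : s4.mem 9 = s.mem 9 := hs4.2 9 (by decide)
    refine Tr.le (Tr.wp rfl ?_) (by decide)
    simp only [Cmd.wp, eval_reg, eval_lit, eval_ld, h46, d9]
    refine ⟨fun h => ⟨by rw [abs_one]; omega, ?_⟩, fun h => ?_⟩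
    · intro i
      simp only [setR_mem, setM_mem, true_and]
      by_cases hiq : i = q
      · subst hiq
        rw [if_pos rfl, if_pos ⟨by omega, h⟩]
      · have hne : ¬ ((i : ℤ) = (q : ℤ)) := by exact_mod_cast hiq
        rw [if_neg hne, hI i]
        have : (i < q ↔ i < q + 1) := by omega
        simp only [this]
    · intro i
      simp only [setR_mem]
      rw [hI i]
      by_cases hiq : i = q
      · subst hiq
        rw [if_neg (fun h' => by omega), if_neg (fun h' => by omega)]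
      · have : (i < q ↔ i < q + 1) := by omega
        simp only [this]

/-- Cost of the tests at one shift. -/
def Par.cshV (p : Par) (n : ℕ) : ℕ :=
  400 + ((p.H * 800 + 200) + ((p.mu * (p.cst + 200) + 200) + (n * (p.cchk + 400) + 200)))

/-- Outcome of the tests at the first `q` shifts. -/
def ShV (p : Par) (f : ℤ →₀ ℂ) (σ : ℤ) (a m : ℕ → ℕ) (s0 s : St) (n q : ℕ) : Prop :=
  Flg (s0.reg 85) (s.reg 85)
    (∀ t < q, ∀ i < n, 0 < s0.mem 9 (i : ℕ) → ‖dev p f σ 1 (s0.mem 5 (i : ℕ)) ((a t : ℝ) / m t)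
      (s0.mem 17 (i : ℕ)) (s0.mem 18 (i : ℕ)) (s0.mem 19 (i : ℕ))‖ ≤ 45)
    (∃ t < q, ∃ i < n, 0 < s0.mem 9 (i : ℕ) ∧ 19 < ‖dev p f σ 1 (s0.mem 5 (i : ℕ))
      ((a t : ℝ) / m t) (s0.mem 17 (i : ℕ)) (s0.mem 18 (i : ℕ)) (s0.mem 19 (i : ℕ))‖)

theorem tr_shiftsV (hE : EnvOK p E) (hg : GX p E s) {f : ℤ →₀ ℂ} (hO : OracleOK E f)
    (hM : ∑ ω ∈ f.support, ‖f ω‖ ≤ 2 ^ p.l) {Λ T : ℕ} {a m u : ℕ → ℕ}
    (hL : Lst p s (2 ^ p.P) Λ T a m u) {σ : ℤ} {n : ℕ}
    (h26 : s.reg 26 = n) (h28 : s.reg 28 = σ) (h27 : s.reg 27 = 1) (hF : FOut p s n) :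
    Tr E shiftsV s (T * (p.cshV n + 200) + 200) (fun s' => ShV p f σ a m s s' n T) := by
  unfold shiftsV
  refine (Tr.forC T (p.cshV n) (fun q s' => ShV p f σ a m s s' n q) (by decide) hL.r86
    ?_ ?_).mono (fun _ _ h => h.1)
  · exact Or.inl ⟨by simp [setR_reg], fun t ht => by omega⟩
  · rintro q s1 hq h54 - hs1 hI
    have hg1 : GX p E s1 := hg.same hs1 (by decide)
    have hL1 : SL p s1 T a m u := hL.toSL.of hs1 (by decide)
    have hF1 : FOut p s1 n := hF.of hs1 (by decide)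
    have e1 : seqs [setShift, sample2, transform, checks] =
      .seq setShift (.seq sample2 (.seq transform checks)) := rfl
    rw [e1]
    have h1P : |(1 : ℤ)| ≤ 2 ^ p.P := by rw [abs_one]; exact one_le_pow₀ (by norm_num)
    have k1 : ∀ b, b ≠ 14 → b ≠ 15 → s1.mem b = s.mem b := by
      intro b h1 h2
      apply hs1.2
      intro hmem
      have : (forc 54 86 (seqs [setShift, sample2, transform, checks])).wm.all
        (fun b => decide (b = 14 ∨ b = 15)) = true := by decide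
      rw [List.all_eq_true] at this
      have := this b hmem
      simp only [decide_eq_true_eq] at this
      omega
    unfold Par.cshV
    refine Tr.seq (T₁ := 400) (T₂ := (p.H * 800 + 200) +
      ((p.mu * (p.cst + 200) + 200) + (n * (p.cchk + 400) + 200)))
      (tr_setShift hE hL1 hq h54 (by rw [hs1.1 27 (by decide), h27]) h1P) ?_
    rintro s2 hs2 ⟨k55, k56⟩
    have hg2 : GX p E s2 := hg1.same hs2 (by decide)
    have k28 : s2.reg 28 = σ := by rw [hs2.1 28 (by decide), hs1.1 28 (by decide), h28]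
    have k27 : s2.reg 27 = 1 := by rw [hs2.1 27 (by decide), hs1.1 27 (by decide), h27]
    have k26 : s2.reg 26 = n := by rw [hs2.1 26 (by decide), hs1.1 26 (by decide), h26]
    have km : ∀ b, s2.mem b = s1.mem b := by
      intro b
      have : setShift.wm = [] := by decide
      exact hs2.2 b (by rw [this]; simp)
    refine Tr.seq (tr_sample2 hE hg2.toGlob hO hM (hL.m_pos q hq) (hL.m_le q hq) k55 k56 k28 k27) ?_
    intro s3 hs3 h3
    have hg3 : GX p E s3 := hg2.same hs3 (by decide)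
    refine Tr.seq (tr_transform hE hg3.toGlob (by rw [dat_norm]; exact hM) h3) ?_
    intro s4 hs4 h4
    have hg4 : GX p E s4 := hg3.same hs4 (by decide)
    have r4 : ∀ r, r ∉ sample2.wr → r ∉ transform.wr → s4.reg r = s2.reg r := by
      intro r h1 h2; rw [hs4.1 r h2, hs3.1 r h1]
    have em : ∀ b, b ≠ 14 → b ≠ 15 → s4.mem b = s.mem b := by
      intro b h1 h2
      rw [hs4.2 b ?_, hs3.2 b ?_, km, k1 b h1 h2]
      · intro h
        have : sample2.wm = [14, 15] := by decide
        rw [this] at h; simp at h; omega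
      · intro h
        have : transform.wm.all (fun b => decide (b = 14 ∨ b = 15)) = true := by decide
        rw [List.all_eq_true] at this
        have := this b h
        simp only [decide_eq_true_eq] at this
        omega
    have hy : ((nsh a u 1 q : ℤ) : ℝ) / ((m q : ℝ) * 2 ^ p.P) = (a q : ℝ) / m q := by
      unfold nsh
      rw [hL.u_eq q hq, if_pos (by positivity)]
      have h1 : (m q : ℝ) ≠ 0 := by
        have := hL.m_pos q hq
        positivity
      push_cast
      field_simp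
    rw [hy] at h4
    refine (tr_checks (t := q) (a := a q) (m := m q) hE hg4 hM h4 (by
      rw [r4 26 (by decide) (by decide), k26]) (by rw [r4 28 (by decide) (by decide), k28]) (by
      rw [r4 54 (by decide) (by decide), hs2.1 54 (by decide), h54]) (by
      rw [em 21 (by norm_num) (by norm_num)]; exact hL.m21 q hq) (by
      rw [r4 55 (by decide) (by decide), k55]) (hL.m_pos q hq) (hF1.same (by
        rw [r4 39 (by decide) (by decide), hs2.1 39 (by decide)]) (by
        rw [em 17 (by norm_num) (by norm_num), k1 17 (by norm_num) (by norm_num)]) (by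
        rw [em 18 (by norm_num) (by norm_num), k1 18 (by norm_num) (by norm_num)]) (by
        rw [em 19 (by norm_num) (by norm_num), k1 19 (by norm_num) (by norm_num)]))).mono ?_
    intro s5 hs5 h5
    unfold ChkF at h5
    rw [em 9 (by norm_num) (by norm_num), em 5 (by norm_num) (by norm_num),
      em 17 (by norm_num) (by norm_num), em 18 (by norm_num) (by norm_num),
      em 19 (by norm_num) (by norm_num), r4 85 (by decide) (by decide), hs2.1 85 (by decide)] at h5
    unfold ShV at hI ⊢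
    rw [setR_reg, if_neg (by norm_num)]
    refine (hI.and h5).imp ?_ ?_
    · rintro ⟨h6, h7⟩ t ht
      by_cases htq : t = q
      · subst htq; exact h7
      · exact h6 t (by omega)
    · rintro (⟨t, ht, h6⟩ | h6)
      · exact ⟨t, by omega, h6⟩
      · exact ⟨q, by omega, h6⟩

end Pool.Agent.H940_dft
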