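import Pool.Agent.H940_ver.Glx

/-!
# Sampling with a general shift
-/

namespace Pool.Agent.H940_dft

open Complex

variable {E : Env} {s s' : St} {p : Par}

theorem tr_sample2 (hE : EnvOK p E) (hg : Glob p E s) {f : ℤ →₀ ℂ} (hO : OracleOK E f)
    (hM : ∑ ω ∈ f.support, ‖f ω‖ ≤ 2 ^ p.l) {m : ℕ} {a σ g : ℤ} (hm1 : 1 ≤ m)
    (hmL : m ≤ 2 ^ (5 * p.l))
    (h55 : s.reg 55 = m) (h56 : s.reg 56 = a) (h28 : s.reg 28 = σ) (h27 : s.reg 27 = g) :
    Tr E sample2 s (p.H * 800 + 200) (fun s' => ∀ b < p.H, Ap p.W (s'.mem 14 b) (s'.mem 15 b)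
      (∑ ω ∈ (dat f p.P (a / (m * 2 ^ p.P)) σ g).S, (dat f p.P (a / (m * 2 ^ p.P)) σ g).a ω *
        ee (b * (dat f p.P (a / (m * 2 ^ p.P)) σ g).θ ω)) 4) := by
  have hW1 : 1 ≤ p.W := by have := p.l_ge; unfold Par.W; omega
  have hw := hE.hW
  unfold sample2
  refine Tr.le ((Tr.forC p.H 600 (fun q s' => ∀ b < q, Ap p.W (s'.mem 14 b) (s'.mem 15 b)
      (∑ ω ∈ (dat f p.P (a / (m * 2 ^ p.P)) σ g).S, (dat f p.P (a / (m * 2 ^ p.P)) σ g).a ω *
        ee (b * (dat f p.P (a / (m * 2 ^ p.P)) σ g).θ ω)) 4) (by decide) hg.r19 ?_ ?_).mono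
      (fun _ _ h => h.1)) (by omega)
  · intro b hb; omega
  · rintro q s1 hq h60 - hs1 hI
    have hg1 : Glob p E s1 := hg.same (m := 5) hs1 (by decide) (by norm_num)
    have e55 : s1.reg 55 = m := by rw [hs1.1 55 (by decide), h55]
    have e56 : s1.reg 56 = a := by rw [hs1.1 56 (by decide), h56]
    have e28 : s1.reg 28 = σ := by rw [hs1.1 28 (by decide), h28]
    have e27 : s1.reg 27 = g := by rw [hs1.1 27 (by decide), h27]
    have hm0 : (0 : ℤ) < m := by exact_mod_cast hm1
    set n : ℤ := a + m * (σ * (q * g)) with hn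
    set D : ℤ := m * 2 ^ p.P with hD
    have hD0 : 0 < D := mul_pos hm0 (pow_pos (by norm_num) _)
    have hDw : D < 2 ^ E.w := by
      have h1 : (m : ℤ) ≤ 2 ^ (5 * p.l) := by exact_mod_cast hmL
      have h2 : D ≤ 2 ^ (5 * p.l) * 2 ^ p.P := mul_le_mul_of_nonneg_right h1 (by positivity)
      have h3 : (2 : ℤ) ^ (5 * p.l) * 2 ^ p.P ≤ E.X := by
        rw [← pow_add, hE.hX]
        apply pow_le_pow_right₀ (by norm_num)
        have h6 : p.x = 100 * p.l + 2 * (p.c * p.l) := by unfold Par.x; ring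
        have := p.P_le_l
        omega
      have h4 := (word_of_le (E := E) (x := E.X) (by rw [abs_of_nonneg (by have := E.hX; omega)])).2
      have h5 : (2 : ℤ) ^ (E.w - 1) ≤ 2 ^ E.w := pow_le_pow_right₀ (by norm_num) (by omega)
      linarith
    have hf1 : fv f (((n % D : ℤ) : ℝ) / D) = fv f (a / (m * 2 ^ p.P) + σ * (q * g) / 2 ^ p.P) := by
      rw [fv_emod f n D hD0.ne']
      congr 1
      rw [hn, hD]
      push_cast
      have h1 : (m : ℝ) ≠ 0 := by exact_mod_cast hm0.ne'
      field_simp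
    unfold seqs seqs seqs seqs seqs
    refine Tr.le (Tr.seq (T₁ := 130) (T₂ := 65 + (65 + 260)) (R := fun s2 => s2 =
      s1.answer E.w (E.O s1.calls (n % D) D)) (Tr.call rfl rfl ?_ ?_ ?_) ?_) (by norm_num)
    · simp only [eval_mod, eval_add, eval_mul, eval_reg, hg1.r5, e55, e56, e28, e27, h60]
      exact Int.emod_nonneg _ hD0.ne'
    · simp only [eval_mod, eval_add, eval_mul, eval_reg, hg1.r5, e55, e56, e28, e27, h60]
      exact Int.emod_lt_of_pos _ hD0
    · simp only [eval_mod, eval_add, eval_mul, eval_reg, hg1.r5, e55, e56, e28, e27, h60]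
      rfl
    · rintro s2 - rfl
      set z := E.O s1.calls (n % D) D with hz
      have hcl := hO s1.calls (n % D) D (Int.emod_nonneg _ hD0.ne') (Int.emod_lt_of_pos _ hD0) hDw
      rw [← hz] at hcl
      have hap := floor_close hw z.1 z.2 _ hcl
      have hnorm : ‖fv f (((n % D : ℤ) : ℝ) / D)‖ ≤ 2 ^ p.l := (fv_norm _ _).trans hM
      have h4 : (4 : ℝ) ≤ 2 ^ p.W := by
        calc (4 : ℝ) = 2 ^ 2 := by norm_num
          _ ≤ _ := two_pow_real_le (by have := p.l_ge; unfold Par.W; omega)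
      obtain ⟨b1, b2⟩ := val_bd hE hap hnorm h4
      -- bounds of the parts
      have parts : ∀ x : ℤ, |x / 2 ^ (E.w - p.W)| ≤ E.X →
          (|x / 2 ^ (E.w - 1) * 2 ^ (p.W - 1)| ≤ 2 * E.X ∧
            |x % 2 ^ (E.w - 1) / 2 ^ (E.w - p.W)| ≤ E.X) := by
        intro x hx
        have h1 := split_div hW1 hw x
        have h2 : |x % 2 ^ (E.w - 1) / 2 ^ (E.w - p.W)| ≤ E.X := by
          have h3 : 0 ≤ x % 2 ^ (E.w - 1) := Int.emod_nonneg _ (by positivity)
          have h4 : x % 2 ^ (E.w - 1) < 2 ^ (E.w - 1) := Int.emod_lt_of_pos _ (by positivity)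
          rw [abs_of_nonneg (Int.ediv_nonneg h3 (by positivity))]
          have h5 : x % 2 ^ (E.w - 1) / 2 ^ (E.w - p.W) < 2 ^ (p.W - 1) := by
            apply Int.ediv_lt_of_lt_mul (by positivity)
            rw [← pow_add]
            have : p.W - 1 + (E.w - p.W) = E.w - 1 := by omega
            rw [this]; exact h4
          have h6 : |(2 : ℤ) ^ (p.W - 1)| ≤ E.X := hE.pow (by
            have := p.le_x (a := 40) (b := 0) (by norm_num) (by norm_num)
            unfold Par.W; omega)
          rw [abs_of_pos (by positivity)] at h6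
          omega
        refine ⟨?_, h2⟩
        have h3 : x / 2 ^ (E.w - 1) * 2 ^ (p.W - 1) =
          x / 2 ^ (E.w - p.W) - x % 2 ^ (E.w - 1) / 2 ^ (E.w - p.W) := by linarith
        rw [h3]
        refine (abs_sub _ _).trans ?_
        linarith
      have hword2 : ∀ x : ℤ, |x| ≤ 2 * E.X → Word E.w x := fun x hx =>
        E.word (n := 1) (by norm_num) (by rw [pow_one]; exact hx)
      have hv1 : (Expr.reg 90 * Expr.reg 16 + Expr.reg 91 / Expr.reg 94).eval
          (s1.answer E.w z) = z.1 / 2 ^ (E.w - p.W) := by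
        simp only [eval_add, eval_mul, eval_div, eval_reg, St.answer, Nat.reduceEqDiff, reduceIte,
          hg1.r16, hg1.r94]
        exact split_div hW1 hw z.1
      refine Tr.seq (T₂ := 65 + 260) (R := fun s3 => s3 = (s1.answer E.w z).setR 31
        (z.1 / 2 ^ (E.w - p.W))) (Tr.asgOk (by decide) ?_ ?_ ?_) ?_
      · intro _
        refine ⟨⟨trivial, trivial, ?_⟩, ⟨trivial, trivial, ?_⟩, ?_⟩
        · show Word E.w ((s1.answer E.w z).reg 90 * (s1.answer E.w z).reg 16)
          simp only [St.answer, Nat.reduceEqDiff, reduceIte, hg1.r16]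
          exact hword2 _ (parts z.1 b1).1
        · show Word E.w ((s1.answer E.w z).reg 91 / (s1.answer E.w z).reg 94)
          simp only [St.answer, Nat.reduceEqDiff, reduceIte, hg1.r94]
          exact word_of_le (parts z.1 b1).2
        · show Word E.w ((Expr.reg 90 * Expr.reg 16 + Expr.reg 91 / Expr.reg 94).eval
            (s1.answer E.w z))
          rw [hv1]; exact word_of_le b1
      · intro _; rw [hv1]; exact b1
      · rw [hv1]
      rintro s3 - rfl
      have hv2 : (Expr.reg 92 * Expr.reg 16 + Expr.reg 93 / Expr.reg 94).eval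
          ((s1.answer E.w z).setR 31 (z.1 / 2 ^ (E.w - p.W))) = z.2 / 2 ^ (E.w - p.W) := by
        simp only [eval_add, eval_mul, eval_div, eval_reg, setR_reg, St.answer, Nat.reduceEqDiff,
          reduceIte, hg1.r16, hg1.r94]
        exact split_div hW1 hw z.2
      refine Tr.seq (T₂ := 260) (R := fun s3 => s3 = ((s1.answer E.w z).setR 31
        (z.1 / 2 ^ (E.w - p.W))).setR 32 (z.2 / 2 ^ (E.w - p.W))) (Tr.asgOk (by decide) ?_ ?_ ?_) ?_
      · intro _
        refine ⟨⟨trivial, trivial, ?_⟩, ⟨trivial, trivial, ?_⟩, ?_⟩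
        · show Word E.w (((s1.answer E.w z).setR 31 _).reg 92 * ((s1.answer E.w z).setR 31 _).reg 16)
          simp only [setR_reg, St.answer, Nat.reduceEqDiff, reduceIte, hg1.r16]
          exact hword2 _ (parts z.2 b2).1
        · show Word E.w (((s1.answer E.w z).setR 31 _).reg 93 / ((s1.answer E.w z).setR 31 _).reg 94)
          simp only [setR_reg, St.answer, Nat.reduceEqDiff, reduceIte, hg1.r94]
          exact word_of_le (parts z.2 b2).2
        · show Word E.w ((Expr.reg 92 * Expr.reg 16 + Expr.reg 93 / Expr.reg 94).eval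
            ((s1.answer E.w z).setR 31 (z.1 / 2 ^ (E.w - p.W))))
          rw [hv2]; exact word_of_le b2
      · intro _; rw [hv2]; exact b2
      · rw [hv2]
      rintro s3 - rfl
      refine Tr.le (Tr.wp rfl ?_) (by decide)
      simp only [Cmd.wp, eval_reg, setM_reg, setR_reg, St.answer, Nat.reduceEqDiff, reduceIte, h60]
      refine ⟨b1, b2, ?_⟩
      intro b hb
      simp only [setR_mem, setM_mem]
      by_cases hbq : b = q
      · subst hbq
        rw [dat_sum]
        rw [hf1] at hap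
        simpa using hap
      · have h4 : ¬ ((b : ℤ) = (q : ℤ)) := by exact_mod_cast hbq
        rw [if_neg (by simp), if_neg (fun h => h4 h.2), if_neg (fun h => h4 h.2),
          if_neg (by simp)]
        exact hI b (by omega)


end Pool.Agent.H940_dft
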