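import Pool.Agent.H940_ver.Wsum

/-!
# All shifts of a list
-/

namespace Pool.Agent.H940_dft

open Complex

variable {E : Env} {s s' : St} {p : Par}

/-- A list of shifts: numerators, denominators, multipliers. -/
structure SL (p : Par) (s : St) (T : ℕ) (a m u : ℕ → ℕ) : Prop where
  r86 : s.reg 86 = T
  m21 : ∀ t < T, s.mem 21 (t : ℕ) = a t
  m22 : ∀ t < T, s.mem 22 (t : ℕ) = m t
  m23 : ∀ t < T, s.mem 23 (t : ℕ) = u t
  a_le : ∀ t < T, a t ≤ 2 ^ (5 * p.l)
  m_pos : ∀ t < T, 1 ≤ m t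
  m_le : ∀ t < T, m t ≤ 2 ^ (5 * p.l)
  u_le : ∀ t < T, u t ≤ 2 ^ p.P

/-- Numerator of the shift with number `t`. -/
def nsh (a u : ℕ → ℕ) (g : ℤ) (t : ℕ) : ℤ := if 0 < u t then a t * u t else a t * g

/-- The shift with number `t` in a level with step `g`. -/
noncomputable def ysh (p : Par) (a m u : ℕ → ℕ) (g : ℤ) (t : ℕ) : ℝ :=
  (nsh a u g t : ℝ) / (m t * 2 ^ p.P)

theorem SL.same {T : ℕ} {a m u : ℕ → ℕ} (h : SL p s T a m u) (h86 : s'.reg 86 = s.reg 86)
    (h21 : s'.mem 21 = s.mem 21) (h22 : s'.mem 22 = s.mem 22) (h23 : s'.mem 23 = s.mem 23) :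
    SL p s' T a m u := by
  refine ⟨by rw [h86, h.r86], ?_, ?_, ?_, h.a_le, h.m_pos, h.m_le, h.u_le⟩
  · rw [h21]; exact h.m21
  · rw [h22]; exact h.m22
  · rw [h23]; exact h.m23

theorem SL.of {T : ℕ} {a m u : ℕ → ℕ} (h : SL p s T a m u) {c : Cmd} (hs : Same c s s')
    (hc : (decide (86 ∉ c.wr) && decide (21 ∉ c.wm) && decide (22 ∉ c.wm) &&
      decide (23 ∉ c.wm)) = true) : SL p s' T a m u := by
  simp only [Bool.and_eq_true, decide_eq_true_eq] at hc
  exact h.same (hs.1 86 hc.1.1.1) (hs.2 21 hc.1.1.2) (hs.2 22 hc.1.2) (hs.2 23 hc.2)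

theorem tr_setShift (hE : EnvOK p E) {T : ℕ} {a m u : ℕ → ℕ} (hL : SL p s T a m u) {g : ℤ}
    {t : ℕ} (ht : t < T) (h54 : s.reg 54 = t) (h27 : s.reg 27 = g) (hg : |g| ≤ 2 ^ p.P) :
    Tr E setShift s 400 (fun s' => s'.reg 55 = m t ∧ s'.reg 56 = nsh a u g t) := by
  have e21 := hL.m21 t ht
  have e22 := hL.m22 t ht
  have e23 := hL.m23 t ht
  have hm : |((m t : ℕ) : ℤ)| ≤ E.X := hE.lin (a := 5) (b := 0) (by norm_num) (by norm_num) (by
    rw [abs_of_nonneg (Int.natCast_nonneg _)]; exact_mod_cast hL.m_le t ht)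
  have ha : |((a t : ℕ) : ℤ)| ≤ 2 ^ (5 * p.l) := by
    rw [abs_of_nonneg (Int.natCast_nonneg _)]; exact_mod_cast hL.a_le t ht
  have hu : |((u t : ℕ) : ℤ)| ≤ 2 ^ p.P := by
    rw [abs_of_nonneg (Int.natCast_nonneg _)]; exact_mod_cast hL.u_le t ht
  have hPl := p.P_le_l
  have key : ∀ z : ℤ, |z| ≤ 2 ^ p.P → |((a t : ℕ) : ℤ) * z| ≤ E.X := by
    intro z hz
    apply hE.lin (a := 6) (b := 0) (by norm_num) (by norm_num)
    rw [abs_mul]
    calc |((a t : ℕ) : ℤ)| * |z| ≤ 2 ^ (5 * p.l) * 2 ^ p.P :=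
          mul_le_mul ha hz (abs_nonneg _) (by positivity)
      _ ≤ 2 ^ (6 * p.l + 0) := by
        rw [← pow_add]; exact pow_le_pow_right₀ (by norm_num) (by omega)
  refine Tr.le (Tr.wp rfl ?_) (by decide)
  simp only [setShift, seqs, Cmd.wp, eval_reg, eval_ld, eval_lit, eval_mul, setR_reg, setR_mem,
    h54, h27, e21, e22, e23, reduceIte, Nat.reduceEqDiff]
  refine ⟨hm, fun h => ⟨key _ hu, trivial, ?_⟩, fun h => ⟨key _ hg, trivial, ?_⟩⟩
  · unfold nsh; rw [if_pos (by exact_mod_cast h)]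
  · unfold nsh; rw [if_neg (by omega)]

/-- Effect of `values` on candidate `i`. -/
def RelG (p : Par) (f : ℤ →₀ ℂ) (σ g : ℤ) (y : ℝ) (s s' : St) (i : ℕ) : Prop :=
  (0 < s.mem 9 i → ValG p f σ g (s.mem 5 i) y (s'.mem 10 i) (s'.mem 11 i) ∧
    s'.mem 7 i = if 128 * 128 < s'.mem 10 i * s'.mem 10 i + s'.mem 11 i * s'.mem 11 i then 1
      else s.mem 7 i) ∧
  (¬ 0 < s.mem 9 i → s'.mem 7 i = s.mem 7 i ∧ s'.mem 10 i = s.mem 10 i ∧
    s'.mem 11 i = s.mem 11 i)

theorem tr_values2 (hE : EnvOK p E) (hg : Glob p E s) {f : ℤ →₀ ℂ}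
    (hM : ∑ ω ∈ f.support, ‖f ω‖ ≤ 2 ^ p.l) {σ g : ℤ} {y : ℝ} {n : ℕ}
    (h26 : s.reg 26 = n) (h28 : s.reg 28 = σ) (hT : TrOK p f y σ g s) :
    Tr E values s (n * (p.cgain + 1400) + 200) (fun s' => ∀ i < n, RelG p f σ g y s s' i) := by
  have hX := E.hX
  unfold values
  refine Tr.le ((Tr.forC n ((p.cgain + 1000) + 10 + 130) (fun q s' =>
    (∀ i < q, RelG p f σ g y s s' i) ∧
    ∀ i : ℕ, q ≤ i → s'.mem 7 i = s.mem 7 i ∧ s'.mem 10 i = s.mem 10 i ∧
      s'.mem 11 i = s.mem 11 i) (by decide) h26 ?_ ?_).mono (fun _ _ h => h.1.1))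
      (Nat.add_le_add_right (Nat.mul_le_mul_left _ (by omega)) _)
  · refine ⟨fun i hi => by omega, fun i _ => ⟨rfl, rfl, rfl⟩⟩
  · rintro q s1 hq h46 - hs1 ⟨hA, hB⟩
    have hg1 : Glob p E s1 := hg.same (m := 5) hs1 (by decide) (by norm_num)
    have e28 : s1.reg 28 = σ := by rw [hs1.1 28 (by decide), h28]
    have m5 : s1.mem 5 = s.mem 5 := hs1.2 5 (by decide)
    have m9 : s1.mem 9 = s.mem 9 := hs1.2 9 (by decide)
    have m14 : s1.mem 14 = s.mem 14 := hs1.2 14 (by decide)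
    have m15 : s1.mem 15 = s.mem 15 := hs1.2 15 (by decide)
    refine Tr.le (Tr.ite (T₁ := p.cgain + 1000) (T₂ := 0) rfl rfl ?_ ?_) (by omega)
    · intro hact
      simp only [eval_lit, eval_ld, eval_reg, h46, m9] at hact
      have hmm : s1.mem 5 (q : ℤ) = s.mem 5 (q : ℤ) := by rw [m5]
      have hgain := tr_gain (σ := σ) (C := s.mem 5 (q : ℤ)) (i := q) hE hg1 e28 h46 hmm
      unfold seqs seqs
      refine Tr.seq (T₁ := p.cgain) (T₂ := 1000) hgain ?_
      rintro s2 hs2 ⟨f70, fG⟩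
      have hg2 : Glob p E s2 := hg1.same (m := 5) hs2 (by decide) (by norm_num)
      have k46 : s2.reg 46 = q := by rw [hs2.1 46 (by decide), h46]
      have k : ∀ b, s2.mem b = s1.mem b := by
        intro b
        have : gain.wm = [] := by decide
        exact hs2.2 b (by rw [this]; simp)
      refine (tr_valG (f := f) (σ := σ) (g := g) (C := s.mem 5 q) (y := y) hE hg2 hM
        ?_ k46 f70 fG).mono ?_
      · intro u hu
        rw [k 14, k 15, m14, m15]
        exact hT u hu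
      · rintro s3 - ⟨v1, v2, hv, u10, u11, u7⟩
        rw [k] at u10 u11 u7
        refine ⟨?_, ?_⟩
        · intro i hi
          by_cases hiq : i = q
          · subst hiq
            refine ⟨fun _ => ?_, fun h => absurd hact h⟩
            have a1 : s3.mem 10 i = v1 := by rw [u10]; simp
            have a2 : s3.mem 11 i = v2 := by rw [u11]; simp
            simp only [setR_mem, a1, a2]
            refine ⟨hv, ?_⟩
            rw [u7, (hB i le_rfl).1]
            simp
          · have hne : ¬ ((i : ℤ) = (q : ℤ)) := by exact_mod_cast hiq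
            have := hA i (by omega)
            unfold RelG at this ⊢
            simp only [setR_mem, u10, u11, u7, hne, if_false, false_and]
            exact this
        · intro i hi
          have hne : ¬ ((i : ℤ) = (q : ℤ)) := by
            have : i ≠ q := by omega
            exact_mod_cast this
          simp only [setR_mem, u10, u11, u7, hne, if_false, false_and]
          exact hB i (by omega)
    · intro hact
      simp only [eval_lit, eval_ld, eval_reg, h46, m9] at hact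
      refine Tr.skip ?_
      refine ⟨?_, ?_⟩
      · intro i hi
        by_cases hiq : i = q
        · subst hiq
          exact ⟨fun h => absurd hact (by omega), fun _ => by simpa [setR_mem] using hB i le_rfl⟩
        · exact hA i (by omega)
      · intro i hi
        simpa [setR_mem] using hB i (by omega)

/-- The value is large. -/
def Big (v : ℤ × ℤ) : Prop := 128 * 128 < v.1 * v.1 + v.2 * v.2

/-- State of candidate `i` after `q` shifts. -/
structure ShG (p : Par) (f : ℤ →₀ ℂ) (σ g : ℤ) (y : ℕ → ℝ) (s0 s : St) (q i : ℕ) : Prop where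
  inact : ¬ 0 < s0.mem 9 i → s.mem 7 i = s0.mem 7 i ∧ s.mem 10 i = s0.mem 10 i ∧
    s.mem 11 i = s0.mem 11 i
  mark : 0 < s0.mem 9 i → ∃ v : ℕ → ℤ × ℤ,
    (∀ t < q, ValG p f σ g (s0.mem 5 i) (y t) (v t).1 (v t).2) ∧
    ((∃ t < q, Big (v t)) → s.mem 7 i = 1) ∧ ((∀ t < q, ¬ Big (v t)) → s.mem 7 i = s0.mem 7 i)
  val : 0 < q → 0 < s0.mem 9 i →
    ValG p f σ g (s0.mem 5 i) (y (q - 1)) (s.mem 10 i) (s.mem 11 i)

theorem ShG.step {f : ℤ →₀ ℂ} {σ g : ℤ} {s0 s1 s2 : St} {y : ℕ → ℝ} {q i : ℕ}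
    (h : ShG p f σ g y s0 s1 q i) (hr : RelG p f σ g (y q) s1 s2 i)
    (h9 : s1.mem 9 i = s0.mem 9 i) (h5 : s1.mem 5 i = s0.mem 5 i) :
    ShG p f σ g y s0 s2 (q + 1) i := by
  classical
  unfold RelG at hr
  rw [h9, h5] at hr
  obtain ⟨ha, hn⟩ := hr
  refine ⟨?_, ?_, ?_⟩
  · intro hi
    have h1 := hn hi
    have h2 := h.inact hi
    exact ⟨h1.1.trans h2.1, h1.2.1.trans h2.2.1, h1.2.2.trans h2.2.2⟩
  · intro hi
    obtain ⟨v, hv1, hv2, hv3⟩ := h.mark hi
    obtain ⟨a1, a2⟩ := ha hi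
    refine ⟨fun t => if t = q then (s2.mem 10 i, s2.mem 11 i) else v t, ?_, ?_, ?_⟩
    · intro t ht
      by_cases htq : t = q
      · subst htq; simp only [if_true]; exact a1
      · simp only [if_neg htq]; exact hv1 t (by omega)
    · rintro ⟨t, ht, hb⟩
      rw [a2]
      by_cases htq : t = q
      · subst htq
        simp only [if_true] at hb
        unfold Big at hb
        rw [if_pos hb]
      · simp only [if_neg htq] at hb
        split_ifs
        · rfl
        · exact hv2 ⟨t, by omega, hb⟩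
    · intro hall
      have h1 := hall q (by omega)
      simp only [if_true] at h1
      unfold Big at h1
      rw [a2, if_neg h1]
      apply hv3
      intro t ht
      have := hall t (by omega)
      simp only [if_neg (show ¬ t = q by omega)] at this
      exact this
  · intro _ hi
    rw [Nat.add_sub_cancel]
    exact (ha hi).1

theorem ShG.keep {f : ℤ →₀ ℂ} {σ g : ℤ} {s0 s1 s2 : St} {y : ℕ → ℝ} {q i : ℕ}
    (h : ShG p f σ g y s0 s1 q i) (h7 : s2.mem 7 i = s1.mem 7 i)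
    (h10 : s2.mem 10 i = s1.mem 10 i) (h11 : s2.mem 11 i = s1.mem 11 i) :
    ShG p f σ g y s0 s2 q i := by
  refine ⟨?_, ?_, ?_⟩
  · rw [h7, h10, h11]; exact h.inact
  · rw [h7]; exact h.mark
  · rw [h10, h11]; exact h.val

theorem tr_shiftG (hE : EnvOK p E) (hg : Glob p E s) {f : ℤ →₀ ℂ} (hO : OracleOK E f)
    (hM : ∑ ω ∈ f.support, ‖f ω‖ ≤ 2 ^ p.l) {T : ℕ} {a m u : ℕ → ℕ} (hL : SL p s T a m u)
    {σ g : ℤ} {n t : ℕ} (ht : t < T) (hgP : |g| ≤ 2 ^ p.P)
    (h26 : s.reg 26 = n) (h28 : s.reg 28 = σ) (h27 : s.reg 27 = g) (h54 : s.reg 54 = t) :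
    Tr E (seqs [setShift, sample2, transform, values]) s (400 + p.cshift n)
      (fun s' => ∀ i < n, RelG p f σ g (ysh p a m u g t) s s' i) := by
  unfold seqs seqs seqs seqs
  refine Tr.le (Tr.seq (T₁ := 400) (T₂ := (p.H * 800 + 200) +
    ((p.mu * (p.cst + 200) + 200) + (n * (p.cgain + 1400) + 200)))
    (tr_setShift hE hL ht h54 h27 hgP) ?_) (by unfold Par.cshift; omega)
  rintro s0 hs0 ⟨k55, k56⟩
  have hg0 : Glob p E s0 := hg.same (m := 5) hs0 (by decide) (by norm_num)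
  have k28 : s0.reg 28 = σ := by rw [hs0.1 28 (by decide), h28]
  have k27 : s0.reg 27 = g := by rw [hs0.1 27 (by decide), h27]
  have k26 : s0.reg 26 = n := by rw [hs0.1 26 (by decide), h26]
  have km : ∀ b, s0.mem b = s.mem b := by
    intro b
    have : setShift.wm = [] := by decide
    exact hs0.2 b (by rw [this]; simp)
  refine Tr.seq (tr_sample2 hE hg0 hO hM (hL.m_pos t ht) (hL.m_le t ht) k55 k56 k28 k27) ?_
  intro s1 hs1 h1
  have hg1 : Glob p E s1 := hg0.same (m := 5) hs1 (by decide) (by norm_num)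
  refine Tr.seq (tr_transform hE hg1 (by rw [dat_norm]; exact hM) h1) ?_
  intro s2 hs2 h2
  have hg2 : Glob p E s2 := hg1.same (m := 5) hs2 (by decide) (by norm_num)
  have e26 : s2.reg 26 = n := by rw [hs2.1 26 (by decide), hs1.1 26 (by decide), k26]
  have e28 : s2.reg 28 = σ := by rw [hs2.1 28 (by decide), hs1.1 28 (by decide), k28]
  have em : ∀ b, b < 14 → s2.mem b = s.mem b := by
    intro b hb
    rw [hs2.2 b ?_, hs1.2 b ?_, km]
    · intro h
      have : sample2.wm = [14, 15] := by decide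
      rw [this] at h; simp at h; omega
    · intro h
      have : transform.wm.all (fun b => decide (14 ≤ b)) = true := by decide
      rw [List.all_eq_true] at this
      have := this b h
      simp at this; omega
  refine (tr_values2 (g := g) (y := ysh p a m u g t) hE hg2 hM e26 e28 h2).mono ?_
  intro s3 _ h3 i hi
  have := h3 i hi
  unfold RelG at this ⊢
  rwa [em 9 (by norm_num), em 5 (by norm_num), em 7 (by norm_num), em 10 (by norm_num),
    em 11 (by norm_num)] at this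

theorem tr_shifts2 (hE : EnvOK p E) (hg : Glob p E s) {f : ℤ →₀ ℂ} (hO : OracleOK E f)
    (hM : ∑ ω ∈ f.support, ‖f ω‖ ≤ 2 ^ p.l) {T : ℕ} {a m u : ℕ → ℕ} (hL : SL p s T a m u)
    {σ g : ℤ} {n : ℕ} (hgP : |g| ≤ 2 ^ p.P)
    (h26 : s.reg 26 = n) (h28 : s.reg 28 = σ) (h27 : s.reg 27 = g) :
    Tr E shifts2 s (T * (p.cshift n + 600) + 200) (fun s' => ∀ i < n,
      ShG p f σ g (ysh p a m u g) s s' T i) := by
  unfold shifts2
  refine Tr.le ((Tr.forC T (400 + p.cshift n) (fun q s' => ∀ i < n,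
    ShG p f σ g (ysh p a m u g) s s' q i) (by decide) hL.r86 ?_ ?_).mono (fun _ _ h => h.1))
    (le_of_eq (by ring))
  · intro i _
    refine ⟨fun _ => ⟨rfl, rfl, rfl⟩, fun _ => ⟨fun _ => 0, fun t ht => by omega,
      fun ⟨t, ht, _⟩ => by omega, fun _ => rfl⟩, fun h => by omega⟩
  · rintro q s1 hq h54 - hs1 hA
    have hg1 : Glob p E s1 := hg.same (m := 5) hs1 (by decide) (by norm_num)
    have e26 : s1.reg 26 = n := by rw [hs1.1 26 (by decide), h26]
    have e28 : s1.reg 28 = σ := by rw [hs1.1 28 (by decide), h28]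
    have e27 : s1.reg 27 = g := by rw [hs1.1 27 (by decide), h27]
    have m5 : s1.mem 5 = s.mem 5 := hs1.2 5 (by decide)
    have m9 : s1.mem 9 = s.mem 9 := hs1.2 9 (by decide)
    refine (tr_shiftG hE hg1 hO hM (hL.of hs1 (by decide)) hq hgP e26 e28 e27 h54).mono ?_
    rintro s2 - h2 i hi
    exact ((hA i hi).step (h2 i hi) (by rw [m9]) (by rw [m5])).keep rfl rfl rfl

end Pool.Agent.H940_dft
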