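import Pool.Agent.H940_ver.Samp2

/-!
# Values of arbitrary candidates
-/

namespace Pool.Agent.H940_dft

open Complex Finset

variable {E : Env} {s s' : St} {p : Par}

/-- Relative weight of the position `z` in the value of the candidate `C`. -/
noncomputable def RR (p : Par) (σ C : ℤ) (z : ℝ) : ℂ :=
  Ker p.mu (z - upos p σ C / 2 ^ p.mu) ^ p.h / Ker p.mu (xi p σ C) ^ p.h

/-- The weighted sum which is read off as the value of the candidate `C` at the shift `y`. -/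
noncomputable def gsum (p : Par) (f : ℤ →₀ ℂ) (σ g C : ℤ) (y : ℝ) : ℂ :=
  ∑ ω ∈ f.support, f ω * ee (ω * y) * RR p σ C (σ * ω * g / 2 ^ p.P)

theorem kerxi_ge (p : Par) (σ C : ℤ) : (1 / 2 : ℝ) ^ p.h ≤ ‖Ker p.mu (xi p σ C) ^ p.h‖ := by
  rw [norm_pow]
  exact pow_le_pow_left₀ (by norm_num) (ker_close (xi_small (p := p) σ C)) _

theorem kerxi_ne (p : Par) (σ C : ℤ) : Ker p.mu (xi p σ C) ^ p.h ≠ 0 := by
  intro h
  have := kerxi_ge p σ C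
  rw [h, norm_zero] at this
  have h2 : (0 : ℝ) < (1 / 2) ^ p.h := by positivity
  linarith

/-- The position of `C` relative to the grid point. -/
theorem xi_spec (p : Par) (σ C : ℤ) :
    ((σ * C : ℤ) : ℝ) / 2 ^ p.P - upos p σ C / 2 ^ p.mu = xi p σ C + ((σ * C / 2 ^ p.P : ℤ) : ℝ) := by
  have hmu := p.mu_lt
  have a1 := Int.mul_ediv_add_emod (σ * C) (2 ^ p.P)
  have b1 : ((σ * C : ℤ) : ℝ) = 2 ^ p.P * ((σ * C / 2 ^ p.P : ℤ) : ℝ) + xpos p σ C := by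
    exact_mod_cast a1.symm
  have hPm : (2 : ℝ) ^ p.P = 2 ^ p.mu * 2 ^ (p.P - p.mu) := by
    rw [← pow_add]; congr 1; omega
  unfold xi
  rw [b1, hPm]
  have c2 : (2 : ℝ) ^ p.mu ≠ 0 := by positivity
  have c3 : (2 : ℝ) ^ (p.P - p.mu) ≠ 0 := by positivity
  push_cast
  field_simp
  ring

theorem RR_self {σ g C ω : ℤ} (h : (ω * g) % 2 ^ p.P = C) :
    RR p σ C (σ * ω * g / 2 ^ p.P) = 1 := by
  have h1 := Int.mul_ediv_add_emod (ω * g) (2 ^ p.P)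
  rw [h] at h1
  have h2 : ((ω * g : ℤ) : ℝ) = 2 ^ p.P * ((ω * g / 2 ^ p.P : ℤ) : ℝ) + C := by
    exact_mod_cast h1.symm
  have h3 : (σ : ℝ) * ω * g / 2 ^ p.P - upos p σ C / 2 ^ p.mu =
      xi p σ C + ((σ * C / 2 ^ p.P + σ * (ω * g / 2 ^ p.P) : ℤ) : ℝ) := by
    have h4 := xi_spec p σ C
    have h5 : (σ : ℝ) * ω * g / 2 ^ p.P = ((σ * C : ℤ) : ℝ) / 2 ^ p.P +
        ((σ * (ω * g / 2 ^ p.P) : ℤ) : ℝ) := by
      have h6 : (σ : ℝ) * ω * g = σ * ((ω * g : ℤ) : ℝ) := by push_cast; ring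
      rw [h6, h2]
      have h7 : (2 : ℝ) ^ p.P ≠ 0 := by positivity
      push_cast
      field_simp
      ring
    rw [h5, Int.cast_add]
    linarith
  unfold RR
  rw [h3, ker_add_int, div_self (kerxi_ne p σ C)]

theorem RR_far {σ g C ω : ℤ}
    (h : Far (((σ * (ω * g) - σ * C : ℤ) : ℝ) / 2 ^ p.P) (1 / 2 ^ p.lam)) :
    ‖RR p σ C (σ * ω * g / 2 ^ p.P)‖ ≤ (1 / 8) ^ p.h := by
  have hξs := xi_small (p := p) σ C
  have h16 : (2 : ℝ) ^ p.mu = 2 ^ p.lam * 16 := by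
    unfold Par.mu Par.lam
    rw [show p.j0 + 11 = (p.j0 + 7) + 4 by ring, pow_add _ (p.j0 + 7) 4]; norm_num
  have hξ2 : |xi p σ C| ≤ 1 / (2 * 2 ^ p.lam) := by
    rw [h16] at hξs
    rw [le_div_iff₀ (by positivity)]
    nlinarith [abs_nonneg (xi p σ C)]
  have hF : Far ((σ : ℝ) * ω * g / 2 ^ p.P - upos p σ C / 2 ^ p.mu) (1 / (2 * 2 ^ p.lam)) := by
    intro n
    have h1 := h (n - σ * C / 2 ^ p.P)
    have e2 : (σ : ℝ) * ω * g / 2 ^ p.P - upos p σ C / 2 ^ p.mu - n =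
        (((σ * (ω * g) - σ * C : ℤ) : ℝ) / 2 ^ p.P - ((n - σ * C / 2 ^ p.P : ℤ) : ℝ)) +
          xi p σ C := by
      have h4 : xi p σ C = ((σ * C : ℤ) : ℝ) / 2 ^ p.P - upos p σ C / 2 ^ p.mu -
        ((σ * C / 2 ^ p.P : ℤ) : ℝ) := by rw [xi_spec]; ring
      rw [h4]
      push_cast
      ring
    rw [e2]
    have h2 := abs_sub_abs_le_abs_sub (((σ * (ω * g) - σ * C : ℤ) : ℝ) / 2 ^ p.P -
      ((n - σ * C / 2 ^ p.P : ℤ) : ℝ)) (-xi p σ C)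
    rw [abs_neg, sub_neg_eq_add] at h2
    have h3 : (1 : ℝ) / 2 ^ p.lam = 1 / (2 * 2 ^ p.lam) + 1 / (2 * 2 ^ p.lam) := by
      field_simp; norm_num
    linarith
  have h1 := ker_far hF (by positivity) (μ := p.mu)
  have h2 : ‖Ker p.mu ((σ : ℝ) * ω * g / 2 ^ p.P - upos p σ C / 2 ^ p.mu)‖ ≤ 1 / 16 := by
    refine h1.trans (le_of_eq ?_)
    rw [h16]; field_simp
  unfold RR
  rw [norm_div, norm_pow, norm_pow, ← div_pow]
  apply pow_le_pow_left₀ (by positivity)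
  have h3 := ker_close (xi_small (p := p) σ C)
  rw [div_le_iff₀ (by linarith)]
  linarith

theorem RR_norm (p : Par) (σ C : ℤ) (z : ℝ) : ‖RR p σ C z‖ ≤ 2 ^ p.h := by
  unfold RR
  rw [norm_div]
  have h1 := kerxi_ge p σ C
  have h2 : ‖Ker p.mu (z - upos p σ C / 2 ^ p.mu) ^ p.h‖ ≤ 1 := by
    rw [norm_pow]; exact pow_le_one₀ (norm_nonneg _) (ker_norm_le _ _)
  have h3 : (0 : ℝ) < (1 / 2) ^ p.h := by positivity
  rw [div_le_iff₀ (by linarith)]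
  have h4 : (2 : ℝ) ^ p.h * (1 / 2) ^ p.h = 1 := by rw [← mul_pow]; norm_num
  have h5 : (2 : ℝ) ^ p.h * (1 / 2) ^ p.h ≤ 2 ^ p.h * ‖Ker p.mu (xi p σ C) ^ p.h‖ :=
    mul_le_mul_of_nonneg_left h1 (by positivity)
  linarith

theorem gsum_norm {f : ℤ →₀ ℂ} (hM : ∑ ω ∈ f.support, ‖f ω‖ ≤ 2 ^ p.l) (σ g C : ℤ) (y : ℝ) :
    ‖gsum p f σ g C y‖ ≤ 2 ^ (2 * p.l + 2) := by
  unfold gsum
  refine (norm_sum_le _ _).trans ?_
  calc ∑ ω ∈ f.support, ‖f ω * ee (ω * y) * RR p σ C (σ * ω * g / 2 ^ p.P)‖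
      ≤ ∑ ω ∈ f.support, ‖f ω‖ * 2 ^ p.h := by
        apply Finset.sum_le_sum
        intro ω _
        rw [norm_mul, norm_mul, norm_ee, mul_one]
        exact mul_le_mul_of_nonneg_left (RR_norm _ _ _ _) (norm_nonneg _)
    _ = (∑ ω ∈ f.support, ‖f ω‖) * 2 ^ p.h := by rw [Finset.sum_mul]
    _ ≤ 2 ^ p.l * 2 ^ p.h := mul_le_mul_of_nonneg_right hM (by positivity)
    _ = 2 ^ (2 * p.l + 2) := by rw [← pow_add]; congr 1; unfold Par.h; ring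

theorem eighth_h (p : Par) : (2 : ℝ) ^ p.l * (1 / 8) ^ p.h = 1 / 2 ^ (2 * p.l + 6) := by
  have h1 : ((1 : ℝ) / 8) ^ p.h = 1 / 2 ^ (3 * p.h) := by
    rw [div_pow, one_pow, pow_mul]; norm_num
  rw [h1, mul_one_div, div_eq_div_iff (by positivity) (by positivity), one_mul, ← pow_add]
  congr 1; unfold Par.h; ring

/-- For an isolated class the weighted sum is close to the class sum. -/
theorem gsum_iso {f : ℤ →₀ ℂ} (hM : ∑ ω ∈ f.support, ‖f ω‖ ≤ 2 ^ p.l) {σ g C : ℤ}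
    (hI : Iso f p.P p.lam σ g C) (y : ℝ) :
    ‖gsum p f σ g C y - csum f p.P g C y‖ ≤ 1 / 2 ^ (2 * p.l + 6) := by
  have e1 : csum f p.P g C y = ∑ ω ∈ f.support,
      (if (ω * g) % 2 ^ p.P = C then f ω * ee (ω * y) else 0) := by
    unfold csum
    rw [Finset.sum_filter]
  unfold gsum
  rw [e1, ← Finset.sum_sub_distrib]
  refine (norm_sum_le _ _).trans ?_
  calc _ ≤ ∑ ω ∈ f.support, ‖f ω‖ * (1 / 8) ^ p.h := by
        apply Finset.sum_le_sum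
        intro ω hω
        split_ifs with hc
        · rw [RR_self hc, mul_one, sub_self, norm_zero]; positivity
        · rw [sub_zero, norm_mul, norm_mul, norm_ee, mul_one]
          exact mul_le_mul_of_nonneg_left (RR_far ((hI ω hω).resolve_left hc)) (norm_nonneg _)
    _ = (∑ ω ∈ f.support, ‖f ω‖) * (1 / 8) ^ p.h := by rw [Finset.sum_mul]
    _ ≤ 2 ^ p.l * (1 / 8) ^ p.h := mul_le_mul_of_nonneg_right hM (by positivity)
    _ = _ := eighth_h p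

/-- `v1 + i v2` is close to `2 ^ (B + 8)` times the weighted sum. -/
def ValG (p : Par) (f : ℤ →₀ ℂ) (σ g C : ℤ) (y : ℝ) (v1 v2 : ℤ) : Prop :=
  ‖(v1 : ℂ) + (v2 : ℂ) * I - 2 ^ (p.B + 8) * gsum p f σ g C y‖ ≤ 10

theorem ValG.bd {f : ℤ →₀ ℂ} {σ g C : ℤ} {y : ℝ} {v1 v2 : ℤ}
    (hM : ∑ ω ∈ f.support, ‖f ω‖ ≤ 2 ^ p.l) (h : ValG p f σ g C y v1 v2) :
    |v1| ≤ 2 ^ (3 * p.l) ∧ |v2| ≤ 2 ^ (3 * p.l) := by
  have hl := p.l_ge
  have hP := p.P_ge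
  have hlPB : p.l = p.P + p.B := rfl
  have h1 := gsum_norm hM σ g C y
  have h2 : Ap (p.B + 8) v1 v2 (gsum p f σ g C y) 10 := h
  have h3 : (2 : ℝ) ^ (p.B + 8) * 2 ^ (2 * p.l + 2) + 10 ≤ 2 ^ (3 * p.l) := by
    have a1 : (2 : ℝ) ^ (p.B + 8) * 2 ^ (2 * p.l + 2) ≤ 2 ^ (3 * p.l - 1) := by
      rw [← pow_add]; exact two_pow_real_le (by omega)
    have a2 : (10 : ℝ) ≤ 2 ^ (3 * p.l - 1) := by
      calc (10 : ℝ) ≤ 2 ^ 4 := by norm_num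
        _ ≤ _ := two_pow_real_le (by omega)
    have a3 : (2 : ℝ) ^ (3 * p.l) = 2 ^ (3 * p.l - 1) * 2 := by
      rw [← pow_succ]; congr 1; omega
    rw [a3]; linarith
  exact ⟨h2.bd_re h1 h3, h2.bd_im h1 h3⟩

theorem ValG.bdX {f : ℤ →₀ ℂ} {σ g C : ℤ} {y : ℝ} {v1 v2 : ℤ} (hE : EnvOK p E)
    (hM : ∑ ω ∈ f.support, ‖f ω‖ ≤ 2 ^ p.l) (h : ValG p f σ g C y v1 v2) :
    |v1| ≤ E.X ∧ |v2| ≤ E.X := by
  obtain ⟨h1, h2⟩ := h.bd hM
  exact ⟨hE.lin (a := 3) (b := 0) (by norm_num) (by norm_num) h1,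
    hE.lin (a := 3) (b := 0) (by norm_num) (by norm_num) h2⟩

theorem final_err2 (p : Par) :
    2 + 2 ^ (p.B + 8) * (p.err (p.mu * p.h) + 2 ^ p.W * 0 + 2 ^ (2 * p.l + 2) * p.eG) /
      2 ^ (p.W - p.h - 1) ≤ 10 := by
  have hP := p.P_ge
  have hl := p.l_ge
  have hlPB : p.l = p.P + p.B := rfl
  have hh : p.h = p.l + 2 := rfl
  have hW : p.W = 40 * p.l := rfl
  have e1 : p.W - p.h - 1 = 39 * p.l - 3 := by omega
  have hS : (2 : ℝ) ^ (p.B + 8) ≤ 2 ^ (p.l - 6) := two_pow_real_le (by omega)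
  have h1 := p.err_le (le_refl (p.mu * p.h))
  have h2 : (2 : ℝ) ^ (2 * p.l + 2) * p.eG = 2 ^ (26 * p.l + 8) := by
    unfold Par.eG; rw [← pow_add]; congr 1; ring
  have h8 : p.err (p.mu * p.h) + 2 ^ p.W * 0 + 2 ^ (2 * p.l + 2) * p.eG ≤ 2 ^ (37 * p.l) := by
    have a1 : (2 : ℝ) ^ (24 * p.l + 6) ≤ 2 ^ (37 * p.l - 1) := two_pow_real_le (by omega)
    have a2 : (2 : ℝ) ^ (26 * p.l + 8) ≤ 2 ^ (37 * p.l - 1) := two_pow_real_le (by omega)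
    have a3 : (2 : ℝ) ^ (37 * p.l) = 2 ^ (37 * p.l - 1) * 2 := by
      rw [← pow_succ]; congr 1; omega
    rw [h2, a3]
    linarith
  have h9 : 2 ^ (p.B + 8) * (p.err (p.mu * p.h) + 2 ^ p.W * 0 +
      2 ^ (2 * p.l + 2) * p.eG) / 2 ^ (p.W - p.h - 1) ≤ 8 := by
    rw [div_le_iff₀ (by positivity), e1]
    calc _ ≤ (2 : ℝ) ^ (p.B + 8) * 2 ^ (37 * p.l) := mul_le_mul_of_nonneg_left h8 (by positivity)
      _ ≤ 2 ^ (p.l - 6) * 2 ^ (37 * p.l) := mul_le_mul_of_nonneg_right hS (by positivity)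
      _ = 2 ^ (38 * p.l - 6) := by rw [← pow_add]; congr 1; omega
      _ ≤ 2 ^ (39 * p.l - 3) := two_pow_real_le (by omega)
      _ ≤ 8 * 2 ^ (39 * p.l - 3) := by
        have : (0 : ℝ) < 2 ^ (39 * p.l - 3) := by positivity
        linarith
  linarith

/-- The grid index modulo `2 ^ mu`. -/
theorem upos_mod (p : Par) (σ C : ℤ) : ∃ u : ℕ, (u : ℤ) = upos p σ C % ((2 ^ p.mu : ℕ) : ℤ) ∧
    u < 2 ^ p.mu ∧ ∀ z : ℝ, Ker p.mu (z - u / 2 ^ p.mu) = Ker p.mu (z - upos p σ C / 2 ^ p.mu) := by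
  obtain ⟨u, hu⟩ : ∃ u : ℕ, (u : ℤ) = upos p σ C % ((2 ^ p.mu : ℕ) : ℤ) :=
    ⟨(upos p σ C % ((2 ^ p.mu : ℕ) : ℤ)).toNat,
      Int.toNat_of_nonneg (Int.emod_nonneg _ (by positivity))⟩
  refine ⟨u, hu, ?_, ?_⟩
  · have : upos p σ C % ((2 ^ p.mu : ℕ) : ℤ) < ((2 ^ p.mu : ℕ) : ℤ) :=
      Int.emod_lt_of_pos _ (by positivity)
    rw [← hu] at this
    exact_mod_cast this
  · intro z
    have a2 := Int.mul_ediv_add_emod (upos p σ C) ((2 ^ p.mu : ℕ) : ℤ)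
    rw [← hu] at a2
    have b2 : ((upos p σ C : ℤ) : ℝ) =
        2 ^ p.mu * ((upos p σ C / ((2 ^ p.mu : ℕ) : ℤ) : ℤ) : ℝ) + u := by
      exact_mod_cast a2.symm
    have h1 : z - u / 2 ^ p.mu = (z - upos p σ C / 2 ^ p.mu) +
        ((upos p σ C / ((2 ^ p.mu : ℕ) : ℤ) : ℤ) : ℝ) := by
      rw [b2]
      have : (2 : ℝ) ^ p.mu ≠ 0 := by positivity
      field_simp
      ring
    rw [h1, ker_add_int]

/-- The quotient computed by the program. -/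
theorem valG_of {f : ℤ →₀ ℂ} (hM : ∑ ω ∈ f.support, ‖f ω‖ ≤ 2 ^ p.l) {σ g C : ℤ} {y : ℝ}
    (hT : TrOK p f y σ g s) {u : ℕ} (hu : u < 2 ^ p.mu)
    (hk : ∀ z : ℝ, Ker p.mu (z - u / 2 ^ p.mu) = Ker p.mu (z - upos p σ C / 2 ^ p.mu)) {G1 G2 : ℤ}
    (hG : Ap p.W G1 G2 (Ker p.mu (xi p σ C) ^ p.h) p.eG) :
    ValG p f σ g C y
      ((s.mem 14 (u * p.H) * G1 + s.mem 15 (u * p.H) * G2) * 2 ^ (p.B + 8) / (G1 * G1 + G2 * G2))
      ((s.mem 15 (u * p.H) * G1 - s.mem 14 (u * p.H) * G2) * 2 ^ (p.B + 8) /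
        (G1 * G1 + G2 * G2)) := by
  have hl := p.l_ge
  have hW : p.W = 40 * p.l := rfl
  have hh : p.h = p.l + 2 := rfl
  have hV := hT u hu
  have e : ∑ ω ∈ (dat f p.P y σ g).S, (dat f p.P y σ g).a ω *
      Ker p.mu ((dat f p.P y σ g).θ ω - u / 2 ^ p.mu) ^ p.h =
      gsum p f σ g C y * Ker p.mu (xi p σ C) ^ p.h := by
    unfold gsum
    rw [Finset.sum_mul]
    unfold dat
    simp only
    refine Finset.sum_congr rfl (fun ω _ => ?_)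
    rw [hk]
    unfold RR
    have := kerxi_ne p σ C
    field_simp
  rw [e] at hV
  have hq := quot_err (S := p.B + 8) (h := p.h) (R := 0) (A := gsum p f σ g C y) hV hG
    (by rw [sub_self, norm_zero]) (gsum_norm hM σ g C y) (kerxi_ge p σ C) (by omega)
    (by unfold Par.eG; exact two_pow_real_le (by omega))
  exact hq.trans (final_err2 p)

/-- Effect of reading the value of candidate `i`. -/
def ValUpdG (p : Par) (f : ℤ →₀ ℂ) (σ g C : ℤ) (y : ℝ) (i : ℕ) (s s' : St) : Prop :=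
  ∃ v1 v2 : ℤ, ValG p f σ g C y v1 v2 ∧
    (∀ t, s'.mem 10 t = if t = i then v1 else s.mem 10 t) ∧
    (∀ t, s'.mem 11 t = if t = i then v2 else s.mem 11 t) ∧
    (∀ t, s'.mem 7 t = if t = i ∧ 128 * 128 < v1 * v1 + v2 * v2 then 1 else s.mem 7 t)

theorem gain_sq (hE : EnvOK p E) {G1 G2 : ℤ} {σ C : ℤ}
    (hG : Ap p.W G1 G2 (Ker p.mu (xi p σ C) ^ p.h) p.eG) : |G1 * G1 + G2 * G2| ≤ E.X := by
  have hKn : ‖Ker p.mu (xi p σ C) ^ p.h‖ ≤ 1 := by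
    rw [norm_pow]; exact pow_le_one₀ (norm_nonneg _) (ker_norm_le _ _)
  have hW : p.W = 40 * p.l := rfl
  have g1 := hG.unit_re hKn p.eG_le
  have g2 := hG.unit_im hKn p.eG_le
  apply hE.lin (a := 80) (b := 3) (by norm_num) (by norm_num)
  refine (abs_add_le _ _).trans ?_
  rw [abs_mul, abs_mul]
  have h1 : |G1| * |G1| ≤ 2 ^ (p.W + 1) * 2 ^ (p.W + 1) :=
    mul_le_mul g1 g1 (abs_nonneg _) (by positivity)
  have h2 : |G2| * |G2| ≤ 2 ^ (p.W + 1) * 2 ^ (p.W + 1) :=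
    mul_le_mul g2 g2 (abs_nonneg _) (by positivity)
  have h3 : (2 : ℤ) ^ (80 * p.l + 3) = 2 * (2 ^ (p.W + 1) * 2 ^ (p.W + 1)) := by
    rw [← pow_add, ← pow_succ']; congr 1; omega
  rw [h3]; linarith

theorem tr_valG (hE : EnvOK p E) (hg : Glob p E s) {f : ℤ →₀ ℂ}
    (hM : ∑ ω ∈ f.support, ‖f ω‖ ≤ 2 ^ p.l) {σ g C : ℤ} {y : ℝ} {i : ℕ}
    (hT : TrOK p f y σ g s) (h46 : s.reg 46 = i)
    (h70 : s.reg 70 = upos p σ C)
    (hG : Ap p.W (s.reg 73) (s.reg 74) (Ker p.mu (xi p σ C) ^ p.h) p.eG) :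
    Tr E valC s 1000 (ValUpdG p f σ g C y i s) := by
  have hX := E.hX
  obtain ⟨u, hu, hult, hk⟩ := upos_mod p σ C
  have hval := valG_of hM hT hult hk hG
  set V1 := s.mem 14 (u * p.H) with hV1
  set V2 := s.mem 15 (u * p.H) with hV2
  obtain ⟨b1, b2⟩ := hval.bdX hE hM
  have b3 := gain_sq hE hG
  apply Tr.bd
  intro hbd
  refine Tr.le (Tr.wp rfl ?_) (by decide)
  simp only [valC, seqs, Cmd.wp, eval_add, eval_sub, eval_reg, eval_mul, eval_lit,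
    eval_ld, eval_div, eval_mod, setR_reg, setM_reg, setR_mem, hg.r19, hg.r17, hg.r11,
    h46, h70, reduceIte, Nat.reduceEqDiff, ← hu, ← hV1, ← hV2]
  refine ⟨hbd.2 _ _, hbd.2 _ _, b3, b1, b2, b1, b2, ?_, ?_⟩
  · intro hlt
    refine ⟨by rw [abs_one]; omega, _, _, hval, ?_, ?_, ?_⟩
    · intro t; simp [setM_mem, setR_mem]
    · intro t; simp [setM_mem, setR_mem]
    · intro t
      simp only [hlt, and_true]
      simp [setM_mem, setR_mem]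
  · intro hle
    refine ⟨_, _, hval, ?_, ?_, ?_⟩
    · intro t; simp [setM_mem, setR_mem]
    · intro t; simp [setM_mem, setR_mem]
    · intro t
      simp only [not_lt.2 hle, and_false, reduceIte]
      simp [setM_mem, setR_mem]

end Pool.Agent.H940_dft
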